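import Pool.Agent.ObsNum.Targets

set_option autoImplicit false

/-!
# OBS-ALL: the forbidden configuration does not occur when there are three large Q-cliques
-/

namespace Pool.Agent.ObsNum

theorem tALL (h1 : T_W) (h2 : T_OUT) (h3 : T_SEG) (h4 : T_CL) : T_ALL := by
  obtain ⟨M, _, hM⟩ := h1
  refine ⟨M, ?_⟩
  rintro α β C ⟨s, c, hQ, hv⟩ i
  have hout : ∀ v : α ⊕ β, C.p v ∉ convexHull ℝ (C.O i) := by
    intro v
    obtain ⟨q, hs, hc⟩ := hv v
    obtain ⟨j, k, hjk, hS⟩ := hM α β C (s q) (c q) (hQ q) i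
    exact h2 α β C i _ _ hS v (C.miss i _ _ (hs j)) (C.miss i _ _ (hc j k hjk))
  have hhit : ∀ a b, C.T i a b →
      ¬ Disjoint (segment ℝ (C.p (.inl a)) (C.p (.inr b))) (convexHull ℝ (C.O i)) :=
    fun a b h hd => h (hd.mono_right (subset_convexHull ℝ _))
  have hmiss : ∀ a b, ¬ C.T i a b →
      Disjoint (segment ℝ (C.p (.inl a)) (C.p (.inr b))) (convexHull ℝ (C.O i)) :=
    fun a b h => h3 _ _ _ (C.conn i) (not_not.1 h) (hout _) (hout _)
  intro z u b g hzb hub hug hzg hkl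
  exact h4 (convexHull ℝ (C.O i)) (convex_convexHull ℝ _) (C.p (.inl z)) (fun k => C.p (.inl (u k)))
    (fun k => C.p (.inr (b k))) (fun k => C.p (.inr (g k)))
    (fun k => hhit _ _ (hzb k)) (fun k => hhit _ _ (hub k)) (fun k => hhit _ _ (hug k))
    (fun k => hmiss _ _ (hzg k)) (fun k l h => hmiss _ _ (hkl k l h))

end Pool.Agent.ObsNum
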