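import Pool.Agent.ObsNum.Targets

set_option autoImplicit false

/-!
# CL: the forbidden configuration for one convex obstacle
-/

namespace Pool.Agent.ObsNum

open Pool.Agent.PAH (Plane det3)

namespace CLAux

/-- convex cones without the point zero -/
structure IsCone (S : Set ℂ) : Prop where
  conv : Convex ℝ S
  smul : ∀ w ∈ S, ∀ t : ℝ, 0 < t → (t : ℂ) * w ∈ S
  zero : (0 : ℂ) ∉ S

/-- the angle of `v`, cut at `z` -/
noncomputable def phi (z v : ℂ) : ℝ := Complex.arg (-v / z)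

lemma phi_eq {z u v : ℂ} (hz : z ≠ 0) (hu : u ≠ 0) (hv : v ≠ 0) (h : phi z u = phi z v) :
    ∃ t : ℝ, 0 < t ∧ (t : ℂ) * u = v := by
  unfold phi at h
  have h1 : -u / z ≠ 0 := div_ne_zero (neg_ne_zero.mpr hu) hz
  have h2 : -v / z ≠ 0 := div_ne_zero (neg_ne_zero.mpr hv) hz
  rw [Complex.arg_eq_arg_iff h1 h2] at h
  refine ⟨‖-v / z‖ / ‖-u / z‖, div_pos (norm_pos_iff.mpr h2) (norm_pos_iff.mpr h1), ?_⟩
  have h3 : -((‖-v / z‖ / ‖-u / z‖ : ℂ) * (-u / z)) * z = -(-v / z) * z := by rw [h]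
  have e2 : -(-v / z) * z = v := by field_simp
  rw [e2] at h3
  refine Eq.trans ?_ h3
  push_cast
  generalize (‖-v / z‖ : ℂ) / (‖-u / z‖ : ℂ) = x
  field_simp

lemma slit {z v : ℂ} (hz : z ≠ 0) (hv : v ≠ 0) (h : ∀ t : ℝ, 0 < t → v ≠ (t : ℂ) * z) :
    -v / z ∈ Complex.slitPlane := by
  rw [Complex.mem_slitPlane_iff]
  by_contra hc
  push Not at hc
  obtain ⟨h1, h2⟩ := hc
  have h3 : -v / z = ((-v / z).re : ℂ) := by
    apply Complex.ext
    · simp
    · simp [h2]
  have h4 : v = ((-(-v / z).re : ℝ) : ℂ) * z := by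
    push_cast
    rw [← h3]
    field_simp
  have h5 : 0 < -(-v / z).re := by
    rcases lt_or_eq_of_le h1 with h6 | h6
    · linarith
    · exfalso
      rw [h6] at h4
      simp at h4
      exact hv h4
  exact h _ h5 h4

lemma cont_v {z v : ℂ} (hz : z ≠ 0) (hv : v ≠ 0) (h : ∀ t : ℝ, 0 < t → v ≠ (t : ℂ) * z) :
    ContinuousAt (fun x => phi z x) v := by
  unfold phi
  have h1 : ContinuousAt (fun x : ℂ => -x / z) v := by fun_prop (disch := assumption)
  exact ContinuousAt.comp (f := fun x : ℂ => -x / z) (g := Complex.arg)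
    (Complex.continuousAt_arg (slit hz hv h)) h1

lemma cont_z {z v : ℂ} (hz : z ≠ 0) (hv : v ≠ 0) (h : ∀ t : ℝ, 0 < t → v ≠ (t : ℂ) * z) :
    ContinuousAt (fun x => phi x v) z := by
  unfold phi
  have h1 : ContinuousAt (fun x : ℂ => -v / x) z := by fun_prop (disch := assumption)
  exact ContinuousAt.comp (f := fun x : ℂ => -v / x) (g := Complex.arg)
    (Complex.continuousAt_arg (slit hz hv h)) h1

lemma constSign {X : Type*} [TopologicalSpace X] {S : Set X} (hS : IsPreconnected S) {F : X → ℝ}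
    (hF : ContinuousOn F S) (h0 : ∀ x ∈ S, F x ≠ 0) :
    (∀ x ∈ S, F x < 0) ∨ (∀ x ∈ S, 0 < F x) := by
  by_contra hc
  push Not at hc
  obtain ⟨⟨x, hx, hx0⟩, ⟨y, hy, hy0⟩⟩ := hc
  obtain ⟨w, hw, hw0⟩ := hS.intermediate_value hy hx hF ⟨hy0, hx0⟩
  exact h0 w hw hw0

lemma no_mul {S T : Set ℂ} (hS : IsCone S) (hd : Disjoint S T) {u v : ℂ} (hu : u ∈ S)
    (hv : v ∈ T) {t : ℝ} (ht : 0 < t) : v ≠ (t : ℂ) * u := by
  intro h
  exact Set.disjoint_left.mp hd (hS.smul u hu t ht) (h ▸ hv)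

lemma sign_k {z : ℂ} {U B : Set ℂ} (hz : z ≠ 0) (hU : IsCone U) (hB : IsCone B)
    (hd : Disjoint U B) (hzU : ∀ u ∈ U, ∀ t : ℝ, 0 < t → u ≠ (t : ℂ) * z)
    (hzB : ∀ b ∈ B, ∀ t : ℝ, 0 < t → b ≠ (t : ℂ) * z) :
    (∀ u ∈ U, ∀ b ∈ B, phi z u < phi z b) ∨ (∀ u ∈ U, ∀ b ∈ B, phi z b < phi z u) := by
  have hpre : IsPreconnected (U ×ˢ B) := (hU.conv.prod hB.conv).isPreconnected
  have hc : ContinuousOn (fun x : ℂ × ℂ => phi z x.1 - phi z x.2) (U ×ˢ B) := by
    intro x hx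
    have hu0 : x.1 ≠ 0 := fun h => hU.zero (h ▸ hx.1)
    have hb0 : x.2 ≠ 0 := fun h => hB.zero (h ▸ hx.2)
    apply ContinuousAt.continuousWithinAt
    have c1 : ContinuousAt (fun x : ℂ × ℂ => phi z x.1) x :=
      ContinuousAt.comp (f := Prod.fst) (g := fun y => phi z y)
        (cont_v hz hu0 (hzU x.1 hx.1)) continuous_fst.continuousAt
    have c2 : ContinuousAt (fun x : ℂ × ℂ => phi z x.2) x :=
      ContinuousAt.comp (f := Prod.snd) (g := fun y => phi z y)
        (cont_v hz hb0 (hzB x.2 hx.2)) continuous_snd.continuousAt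
    exact c1.sub c2
  have h0 : ∀ x ∈ U ×ˢ B, phi z x.1 - phi z x.2 ≠ 0 := by
    intro x hx h
    have hu0 : x.1 ≠ 0 := fun h => hU.zero (h ▸ hx.1)
    have hb0 : x.2 ≠ 0 := fun h => hB.zero (h ▸ hx.2)
    obtain ⟨t, ht, h1⟩ := phi_eq hz hu0 hb0 (sub_eq_zero.mp h)
    exact no_mul hU hd hx.1 hx.2 ht h1.symm
  rcases constSign hpre hc h0 with h | h
  · left
    intro u hu b hb
    have := h (u, b) ⟨hu, hb⟩
    simp only at this
    linarith
  · right
    intro u hu b hb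
    have := h (u, b) ⟨hu, hb⟩
    simp only at this
    linarith

lemma same_order {Z U B B' : Set ℂ} (hZ : IsCone Z) (hU : IsCone U) (hB : IsCone B)
    (hZB : Disjoint Z B) (hZB' : Disjoint Z B') (hUB : Disjoint U B)
    {p q z z' : ℂ} (hz : z ∈ Z) (hz' : z' ∈ Z) (hp : p ∈ U) (hp' : p ∈ B') (hq : q ∈ B)
    (h1 : phi z p < phi z q) (h2 : phi z' q < phi z' p) : False := by
  have hc : ContinuousOn (fun x : ℂ => phi x p - phi x q) Z := by
    intro x hx
    have hx0 : x ≠ 0 := fun h => hZ.zero (h ▸ hx)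
    have hp0 : p ≠ 0 := fun h => hU.zero (h ▸ hp)
    have hq0 : q ≠ 0 := fun h => hB.zero (h ▸ hq)
    apply ContinuousAt.continuousWithinAt
    exact (cont_z hx0 hp0 (fun t ht => no_mul hZ hZB' hx hp' ht)).sub
      (cont_z hx0 hq0 (fun t ht => no_mul hZ hZB hx hq ht))
  have h0 : ∀ x ∈ Z, phi x p - phi x q ≠ 0 := by
    intro x hx h
    have hx0 : x ≠ 0 := fun h => hZ.zero (h ▸ hx)
    have hp0 : p ≠ 0 := fun h => hU.zero (h ▸ hp)
    have hq0 : q ≠ 0 := fun h => hB.zero (h ▸ hq)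
    obtain ⟨t, ht, h3⟩ := phi_eq hx0 hp0 hq0 (sub_eq_zero.mp h)
    exact no_mul hU hUB hp hq ht h3.symm
  rcases constSign hZ.conv.isPreconnected hc h0 with h | h
  · have := h z' hz'
    linarith
  · have := h z hz
    linarith

lemma core {Z : Set ℂ} {U B G : Fin 3 → Set ℂ} (hZ : IsCone Z) (hU : ∀ k, IsCone (U k))
    (hB : ∀ k, IsCone (B k)) (hZG : ∀ k, (Z ∩ G k).Nonempty)
    (hUB : ∀ k l, k ≠ l → (U k ∩ B l).Nonempty) (dZB : ∀ k, Disjoint Z (B k))
    (dUB : ∀ k, Disjoint (U k) (B k)) (dUG : ∀ k, Disjoint (U k) (G k)) 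
    (hG : ∀ k, IsCone (G k)) : False := by
  choose z hz using hZG
  have hz0 : ∀ k, z k ≠ 0 := fun k h => hZ.zero (h ▸ (hz k).1)
  have hs : ∀ k, (∀ u ∈ U k, ∀ b ∈ B k, phi (z k) u < phi (z k) b) ∨
      (∀ u ∈ U k, ∀ b ∈ B k, phi (z k) b < phi (z k) u) := by
    intro k
    apply sign_k (hz0 k) (hU k) (hB k) (dUB k)
    · intro u hu t ht
      exact no_mul (hG k) (dUG k).symm (hz k).2 hu ht
    · intro b hb t ht
      exact no_mul hZ (dZB k) (hz k).1 hb ht
  have key1 : ∀ k l, k ≠ l → (∀ u ∈ U k, ∀ b ∈ B k, phi (z k) u < phi (z k) b) →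
      (∀ u ∈ U l, ∀ b ∈ B l, phi (z l) u < phi (z l) b) → False := by
    intro k l hkl hk hl
    obtain ⟨p, hpU, hpB⟩ := hUB k l hkl
    obtain ⟨q, hqU, hqB⟩ := hUB l k hkl.symm
    exact same_order hZ (hU k) (hB k) (dZB k) (dZB l) (dUB k) (hz k).1 (hz l).1 hpU hpB hqB
      (hk p hpU q hqB) (hl q hqU p hpB)
  have key2 : ∀ k l, k ≠ l → (∀ u ∈ U k, ∀ b ∈ B k, phi (z k) b < phi (z k) u) →
      (∀ u ∈ U l, ∀ b ∈ B l, phi (z l) b < phi (z l) u) → False := by
    intro k l hkl hk hl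
    obtain ⟨p, hpU, hpB⟩ := hUB k l hkl
    obtain ⟨q, hqU, hqB⟩ := hUB l k hkl.symm
    exact same_order hZ (hU k) (hB k) (dZB k) (dZB l) (dUB k) (hz l).1 (hz k).1 hpU hpB hqB
      (hl q hqU p hpB) (hk p hpU q hqB)
  rcases hs 0 with h0 | h0 <;> rcases hs 1 with h1 | h1 <;> rcases hs 2 with h2 | h2
  · exact key1 0 1 (by decide) h0 h1
  · exact key1 0 1 (by decide) h0 h1
  · exact key1 0 2 (by decide) h0 h2
  · exact key2 1 2 (by decide) h1 h2
  · exact key1 1 2 (by decide) h1 h2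
  · exact key2 0 2 (by decide) h0 h2
  · exact key2 0 1 (by decide) h0 h1
  · exact key2 0 1 (by decide) h0 h1

/-- directions in which `v` is beyond `C` -/
def K (C : Set Plane) (v : Plane) : Set ℂ :=
  {w | ∀ q ∈ C, 0 < w.re * (v.1 - q.1) + w.im * (v.2 - q.2)}

lemma K_cone {C : Set Plane} (hC : C.Nonempty) (v : Plane) : IsCone (K C v) where
  conv := by
    intro w hw w' hw' a b ha hb hab q hq
    have h1 := hw q hq
    have h2 := hw' q hq
    simp only [Complex.add_re, Complex.add_im, Complex.real_smul, Complex.mul_re, Complex.mul_im,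
      Complex.ofReal_re, Complex.ofReal_im, zero_mul, sub_zero, add_zero]
    have e : (a * w.re + b * w'.re) * (v.1 - q.1) + (a * w.im + b * w'.im) * (v.2 - q.2) =
      a * (w.re * (v.1 - q.1) + w.im * (v.2 - q.2)) +
      b * (w'.re * (v.1 - q.1) + w'.im * (v.2 - q.2)) := by ring
    rw [e]
    rcases lt_or_eq_of_le ha with h | h
    · have := mul_pos h h1
      have := mul_nonneg hb h2.le
      linarith
    · have hb1 : b = 1 := by linarith
      rw [← h, hb1]
      linarith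
  smul := by
    intro w hw t ht q hq
    have h1 := hw q hq
    simp only [Complex.mul_re, Complex.mul_im, Complex.ofReal_re, Complex.ofReal_im, zero_mul,
      sub_zero, add_zero]
    have := mul_pos ht h1
    have e : t * w.re * (v.1 - q.1) + t * w.im * (v.2 - q.2) =
      t * (w.re * (v.1 - q.1) + w.im * (v.2 - q.2)) := by ring
    rw [e]
    exact this
  zero := by
    intro h
    obtain ⟨q, hq⟩ := hC
    have := h q hq
    simp at this

lemma K_inter {C : Set Plane} (hC : IsCompact C) (hC' : Convex ℝ C) {v v' : Plane}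
    (hd : Disjoint (segment ℝ v v') C) : (K C v ∩ K C v').Nonempty := by
  have hseg : IsClosed (segment ℝ v v') := by
    rw [← convexHull_pair]
    exact (Set.toFinite {v, v'}).isClosed_convexHull ℝ
  obtain ⟨f, a, b, h1, h2, h3⟩ := geometric_hahn_banach_compact_closed hC' hC
    (convex_segment v v') hseg hd.symm
  have hf : ∀ x : Plane, f x = f (1, 0) * x.1 + f (0, 1) * x.2 := by
    intro x
    have e : x = x.1 • ((1, 0) : Plane) + x.2 • ((0, 1) : Plane) := by
      ext <;> simp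
    conv_lhs => rw [e]
    rw [map_add, map_smul, map_smul]
    simp only [smul_eq_mul]
    ring
  refine ⟨⟨f (1, 0), f (0, 1)⟩, ?_, ?_⟩
  · intro q hq
    have e1 := h1 q hq
    have e2 := h3 v (left_mem_segment ℝ v v')
    rw [hf q] at e1
    rw [hf v] at e2
    simp only
    linarith
  · intro q hq
    have e1 := h1 q hq
    have e2 := h3 v' (right_mem_segment ℝ v v')
    rw [hf q] at e1
    rw [hf v'] at e2
    simp only
    linarith

lemma K_disj {C : Set Plane} {v v' m : Plane} (hm : m ∈ segment ℝ v v') (hmC : m ∈ C) :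
    Disjoint (K C v) (K C v') := by
  rw [Set.disjoint_left]
  intro w hw hw'
  have h1 := hw m hmC
  have h2 := hw' m hmC
  obtain ⟨a, b, ha, hb, hab, rfl⟩ := hm
  simp only [Prod.fst_add, Prod.snd_add, Prod.smul_fst, Prod.smul_snd, smul_eq_mul] at h1 h2
  have e : a * (w.re * (v.1 - (a * v.1 + b * v'.1)) + w.im * (v.2 - (a * v.2 + b * v'.2))) +
    b * (w.re * (v'.1 - (a * v.1 + b * v'.1)) + w.im * (v'.2 - (a * v.2 + b * v'.2))) = 0 := by
    have : b = 1 - a := by linarith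
    subst this
    ring
  rcases lt_or_eq_of_le ha with h | h
  · have := mul_pos h h1
    have := mul_nonneg hb h2.le
    linarith
  · have hb1 : b = 1 := by linarith
    rw [← h, hb1] at e
    rw [← h, hb1] at h2
    linarith

end CLAux

open CLAux in
theorem tCL : T_CL := by
  intro O hO z u b g h1 h2 h3 h4 h5
  have e1 : ∀ k, ∃ m, m ∈ segment ℝ z (b k) ∧ m ∈ O := fun k =>
    Set.not_disjoint_iff.mp (h1 k)
  have e2 : ∀ k, ∃ m, m ∈ segment ℝ (u k) (b k) ∧ m ∈ O := fun k =>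
    Set.not_disjoint_iff.mp (h2 k)
  have e3 : ∀ k, ∃ m, m ∈ segment ℝ (u k) (g k) ∧ m ∈ O := fun k =>
    Set.not_disjoint_iff.mp (h3 k)
  choose m1 m1s m1O using e1
  choose m2 m2s m2O using e2
  choose m3 m3s m3O using e3
  set T : Set Plane := (Set.range m1 ∪ Set.range m2) ∪ Set.range m3 with hT
  have hTfin : T.Finite :=
    ((Set.finite_range m1).union (Set.finite_range m2)).union (Set.finite_range m3)
  set C := convexHull ℝ T with hCdef
  have hCcomp : IsCompact C := hTfin.isCompact_convexHull ℝ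
  have hCconv : Convex ℝ C := convex_convexHull ℝ T
  have hTO : T ⊆ O := by
    rintro x ((⟨k, rfl⟩ | ⟨k, rfl⟩) | ⟨k, rfl⟩)
    · exact m1O k
    · exact m2O k
    · exact m3O k
  have hCO : C ⊆ O := convexHull_min hTO hO
  have hTC : T ⊆ C := subset_convexHull ℝ T
  have c1 : ∀ k, m1 k ∈ C := fun k => hTC (Or.inl (Or.inl ⟨k, rfl⟩))
  have c2 : ∀ k, m2 k ∈ C := fun k => hTC (Or.inl (Or.inr ⟨k, rfl⟩))
  have c3 : ∀ k, m3 k ∈ C := fun k => hTC (Or.inr ⟨k, rfl⟩)
  have hne : C.Nonempty := ⟨_, c1 0⟩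
  refine core (Z := K C z) (U := fun k => K C (u k)) (B := fun k => K C (b k))
    (G := fun k => K C (g k)) (K_cone hne z) (fun k => K_cone hne _) (fun k => K_cone hne _)
    ?_ ?_ ?_ ?_ ?_ (fun k => K_cone hne _)
  · intro k
    exact K_inter hCcomp hCconv ((h4 k).mono_right hCO)
  · intro k l hkl
    exact K_inter hCcomp hCconv ((h5 k l hkl).mono_right hCO)
  · intro k
    exact K_disj (m1s k) (c1 k)
  · intro k
    exact K_disj (m2s k) (c2 k)
  · intro k
    exact K_disj (m3s k) (c3 k)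

end Pool.Agent.ObsNum
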