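import Pool.Agent.ObsNum.Targets

set_option autoImplicit false

/-!
# OBS-COMB: soundness, combinatorial part
-/

namespace Pool.Agent.ObsNum

namespace COMB

variable {Φ : CSat} {N : ℕ} {T : Fin 2 → El → List El → Prop} {c : ℕ}

/-- `u` is touched by both obstacles in blocks which do not contain `z` -/
def Full (T : Fin 2 → El → List El → Prop) (z u : El) : Prop :=
  ∀ i, ∃ g, T i u g ∧ z ∉ g

theorem Full.of_good (hg : Good Φ N T c) {q : ℕ} (hq : q < 3) {u z : El} (hu : InCls Φ N q u)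
    (huc : u.copy = c) (hz : ¬ InCls Φ N q z) : Full T z u := by
  intro i
  obtain ⟨b, hb, hb'⟩ := hg q hq u hu huc i
  exact ⟨b, hb, fun h => hz (hb' z h)⟩

theorem not_cls_x {q c o : ℕ} : ¬ InCls Φ N q (El.x c o) := by
  intro h
  cases h

theorem not_cls_e3 {q c o : ℕ} : ¬ InCls Φ N q (El.e3 c o) := by
  intro h
  cases h

theorem not_cls_e2 {q c o : ℕ} : ¬ InCls Φ N q (El.e2 c o) := by
  intro h
  cases h

theorem five (h1 : T_FIVE) (hT : Touch Φ N T) (z : El) (u : Fin 5 → El) (b : Fin 5 → List El)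
    (hl : ∀ k, Link T z (u k) (b k)) (hn : ∀ k l, k ≠ l → u k ∉ b l)
    (hf : ∀ k, Full T z (u k)) : False :=
  h1 El (List El) (fun a b => a ∈ b) T hT.inc hT.cl z u b hl hn (fun k i => hf k i)

theorem other (i i' : Fin 2) (h : i ≠ i') (j : Fin 2) : j = i ∨ j = i' := by
  revert i i' j
  decide

theorem exists_other (i : Fin 2) : ∃ i' : Fin 2, i ≠ i' := by
  revert i
  decide

/-- in a block of three elements two of them are linked -/
theorem three (hT : Touch Φ N T) {a a' e : El} {b : List El} (hb : b ∈ blocks Φ N)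
    (ha : a ∈ els Φ N) (ha' : a' ∈ els Φ N) (he : e ∈ els Φ N) (hab : a ∈ b) (hab' : a' ∈ b)
    (heb : e ∈ b) (h : ¬ Link T a a' b) : ∃ w, (w = a ∨ w = a') ∧ Link T e w b := by
  obtain ⟨i, hi⟩ := hT.cover a b ha hb hab
  obtain ⟨i', hi'⟩ := hT.cover a' b ha' hb hab'
  obtain ⟨j, hj⟩ := hT.cover e b he hb heb
  have hne : i ≠ i' := by
    rintro rfl
    exact h ⟨i, hi, hi'⟩
  rcases other i i' hne j with rfl | rfl
  · exact ⟨a, .inl rfl, _, hj, hi⟩
  · exact ⟨a', .inr rfl, _, hj, hi'⟩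

/-- the guard links of a copy -/
def GX (T : Fin 2 → El → List El → Prop) (c o : ℕ) : Prop :=
  ∀ i, i < 3 → ∃ f, f < 9 ∧
    Link T (El.x c o) (El.gx c o i) [El.x c o, El.gx c o i, El.rx c o i f]

/-- the third elements of clause blocks -/
def IsE (c : ℕ) (e : El) : Prop := (∃ j, e = El.e3 c j) ∨ ∃ q, e = El.e2 c q

theorem both (h1 : T_FIVE) (hT : Touch Φ N T) (hc : c < N) (hg : Good Φ N T c) {o : ℕ}
    (ho : o < 3 * Φ.K) (hx : GX T c o) {e e' : El} (he : IsE c e) (he' : IsE c e')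
    (hl : Link T (El.x c o) (El.lit c o true) [El.x c o, El.lit c o true, e])
    (hl' : Link T (El.x c o) (El.lit c o false) [El.x c o, El.lit c o false, e']) : False := by
  obtain ⟨f0, -, hf0⟩ := hx 0 (by norm_num)
  obtain ⟨f1, -, hf1⟩ := hx 1 (by norm_num)
  obtain ⟨f2, -, hf2⟩ := hx 2 (by norm_num)
  refine five h1 hT (El.x c o)
    ![El.gx c o 0, El.gx c o 1, El.gx c o 2, El.lit c o true, El.lit c o false]
    ![[El.x c o, El.gx c o 0, El.rx c o 0 f0], [El.x c o, El.gx c o 1, El.rx c o 1 f1],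
      [El.x c o, El.gx c o 2, El.rx c o 2 f2], [El.x c o, El.lit c o true, e],
      [El.x c o, El.lit c o false, e']] ?_ ?_ ?_
  · intro k
    fin_cases k
    · exact hf0
    · exact hf1
    · exact hf2
    · exact hl
    · exact hl'
  · intro k l hkl
    rcases he with ⟨j, rfl⟩ | ⟨j, rfl⟩ <;> rcases he' with ⟨j', rfl⟩ | ⟨j', rfl⟩ <;>
    fin_cases k <;> fin_cases l <;> simp at hkl ⊢
  · intro k
    fin_cases k
    · exact Full.of_good hg (q := 1) (by norm_num) (.gx hc ho (by norm_num)) rfl not_cls_x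
    · exact Full.of_good hg (q := 1) (by norm_num) (.gx hc ho (by norm_num)) rfl not_cls_x
    · exact Full.of_good hg (q := 1) (by norm_num) (.gx hc ho (by norm_num)) rfl not_cls_x
    · exact Full.of_good hg (q := 0) (by norm_num) (.lit hc ho) rfl not_cls_x
    · exact Full.of_good hg (q := 0) (by norm_num) (.lit hc ho) rfl not_cls_x

/-- the variables are full -/
theorem full_x (hT : Touch Φ N T) (hc : c < N) (hg : Good Φ N T c) {o : ℕ}
    (ho : o < 3 * Φ.K) (hx : GX T c o) {e : El} (he : IsE c e) : Full T e (El.x c o) := by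
  intro i
  by_contra hcon
  push Not at hcon
  have hno : ∀ k f, ¬ T i (El.x c o) [El.x c o, El.gx c o k, El.rx c o k f] := by
    intro k f h
    have := hcon _ h
    rcases he with ⟨j, rfl⟩ | ⟨j, rfl⟩ <;> simp at this
  obtain ⟨i', hi'⟩ := exists_other i
  have hlink : ∀ k : Fin 3, ∃ f : ℕ,
      T i' (El.x c o) [El.x c o, El.gx c o k, El.rx c o k f] ∧
      T i' (El.gx c o k) [El.x c o, El.gx c o k, El.rx c o k f] := by
    intro k
    obtain ⟨f, -, j, hj, hj'⟩ := hx k k.2
    rcases other i i' hi' j with rfl | rfl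
    · exact absurd hj (hno _ _)
    · exact ⟨f, hj, hj'⟩
  choose f hf hf' using hlink
  have hfull : ∀ k : Fin 3, ∃ g, T i' (El.gx c o k) g ∧ El.x c o ∉ g := fun k =>
    Full.of_good hg (q := 1) (by norm_num) (.gx hc ho k.2) rfl not_cls_x i'
  choose g hgt hgx using hfull
  refine hT.cl i' (El.x c o) (fun k => El.gx c o k)
    (fun k => [El.x c o, El.gx c o k, El.rx c o k (f k)]) g hf hf' hgt
    (fun k h => hgx k (hT.inc _ _ _ h)) ?_
  intro k l hkl h
  have := hT.inc _ _ _ h
  have hkl' : (k : ℕ) ≠ l := fun h => hkl (Fin.ext h)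
  simp [hkl'] at this

/-- the truth values -/
def Tr (T : Fin 2 → El → List El → Prop) (c o : ℕ) : Prop :=
  ∃ e, IsE c e ∧ Link T (El.x c o) (El.lit c o true) [El.x c o, El.lit c o true, e]

/-- the third element of a clause block is linked with one of the other two, if the literal is
false -/
theorem linked (h1 : T_FIVE) (hT : Touch Φ N T) (hc : c < N) (hg : Good Φ N T c) {o : ℕ}
    (ho : o < 3 * Φ.K) (hx : GX T c o) {e : El} (he : IsE c e) (he' : e ∈ els Φ N) {s : Bool}
    (hs : s = true ↔ ¬ Tr T c o) (hb : [El.x c o, El.lit c o s, e] ∈ blocks Φ N) :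
    ∃ w, (w = El.x c o ∨ w = El.lit c o s) ∧ Link T e w [El.x c o, El.lit c o s, e] := by
  refine three hT hb ((mem_els _).2 (.x hc ho))
    ((mem_els _).2 (.cls (q := 0) (by norm_num) (.lit hc ho))) he' (by simp) (by simp) (by simp) ?_
  intro hl
  cases s with
  | true => exact (hs.1 rfl) ⟨e, he, hl⟩
  | false =>
    have h : Tr T c o := by
      by_contra hcon
      exact absurd (hs.2 hcon) (by simp)
    obtain ⟨e', he', hl'⟩ := h
    exact both h1 hT hc hg ho hx he' he hl' hl

theorem full_w (hT : Touch Φ N T) (hc : c < N) (hg : Good Φ N T c) {o : ℕ}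
    (ho : o < 3 * Φ.K) (hx : GX T c o) {e : El} (he : IsE c e) {s : Bool} {w : El}
    (hw : w = El.x c o ∨ w = El.lit c o s) : Full T e w := by
  rcases hw with rfl | rfl
  · exact full_x hT hc hg ho hx he
  · refine Full.of_good hg (q := 0) (by norm_num) (.lit hc ho) rfl ?_
    rcases he with ⟨j, rfl⟩ | ⟨j, rfl⟩
    · exact not_cls_e3
    · exact not_cls_e2

end COMB

open COMB

theorem tCOMB (h1 : T_FIVE) (h2 : T_FULL) (h3 : T_GUARD) : T_COMB := by
  classical
  intro Φ N T hOk hN hT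
  obtain ⟨c, hc, hg⟩ := h2 Φ N T hN hT
  obtain ⟨hx, he2, he3⟩ := h3 Φ N T c hc hT hg
  have hx' : ∀ o, o < 3 * Φ.K → GX T c o := fun o ho i hi => hx o i ho hi
  refine ⟨fun o => decide (Tr T c o), ?_, ?_⟩
  · intro j hj
    by_contra hcon
    push Not at hcon
    have ho : ∀ t, t < 3 → 3 * j + t < 3 * Φ.K := fun t ht => by omega
    have hE : IsE c (El.e3 c j) := .inl ⟨j, rfl⟩
    have hl : ∀ t : Fin 3, ∃ w, (w = El.x c (3 * j + t) ∨
        w = El.lit c (3 * j + t) (Φ.sg (3 * j + t))) ∧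
        Link T (El.e3 c j) w
          [El.x c (3 * j + t), El.lit c (3 * j + t) (Φ.sg (3 * j + t)), El.e3 c j] := by
      intro t
      refine linked h1 hT hc hg (ho t t.2) (hx' _ (ho t t.2)) hE ((mem_els _).2 (.e3 hc hj)) ?_
        ((mem_blocks _).2 (.c3 hc hj t.2))
      have := hcon t t.2
      cases hs : Φ.sg (3 * j + t) <;> simp [hs] at this ⊢ <;> exact this
    choose w hw hwl using hl
    obtain ⟨f0, -, hf0⟩ := he3 j 0 hj (by norm_num)
    obtain ⟨f1, -, hf1⟩ := he3 j 1 hj (by norm_num)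
    have hwf : ∀ t, Full T (El.e3 c j) (w t) := fun t =>
      full_w hT hc hg (ho t t.2) (hx' _ (ho t t.2)) hE (hw t)
    refine five h1 hT (El.e3 c j) ![w 0, w 1, w 2, El.g3 c j 0, El.g3 c j 1]
      ![[El.x c (3 * j + (0 : Fin 3)), El.lit c (3 * j + (0 : Fin 3))
          (Φ.sg (3 * j + (0 : Fin 3))), El.e3 c j],
        [El.x c (3 * j + (1 : Fin 3)), El.lit c (3 * j + (1 : Fin 3))
          (Φ.sg (3 * j + (1 : Fin 3))), El.e3 c j],
        [El.x c (3 * j + (2 : Fin 3)), El.lit c (3 * j + (2 : Fin 3))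
          (Φ.sg (3 * j + (2 : Fin 3))), El.e3 c j],
        [El.e3 c j, El.g3 c j 0, El.r3 c j 0 f0],
        [El.e3 c j, El.g3 c j 1, El.r3 c j 1 f1]] ?_ ?_ ?_
    · intro k
      fin_cases k
      · exact hwl 0
      · exact hwl 1
      · exact hwl 2
      · exact hf0
      · exact hf1
    · intro k l hkl
      have hw0 := hw 0
      have hw1 := hw 1
      have hw2 := hw 2
      fin_cases k <;> fin_cases l <;> simp at hkl ⊢ <;>
      first
      | (rcases hw0 with h | h <;> rw [h] <;> simp)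
      | (rcases hw1 with h | h <;> rw [h] <;> simp)
      | (rcases hw2 with h | h <;> rw [h] <;> simp)
    · intro k
      fin_cases k
      · exact hwf 0
      · exact hwf 1
      · exact hwf 2
      · exact Full.of_good hg (q := 1) (by norm_num) (.g3 hc hj (by norm_num)) rfl not_cls_e3
      · exact Full.of_good hg (q := 1) (by norm_num) (.g3 hc hj (by norm_num)) rfl not_cls_e3
  · intro o ho htr
    have htr' : Tr T c o := by simpa using htr
    rw [decide_eq_true_eq]
    by_contra hcon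
    have hE : IsE c (El.e2 c o) := .inr ⟨o, rfl⟩
    have hn := hOk.lt o ho
    have hne := hOk.ne o ho
    obtain ⟨w, hw, hwl⟩ := linked h1 hT hc hg ho (hx' o ho) hE ((mem_els _).2 (.e2 hc ho))
      (s := false) (by simp [htr']) ((mem_blocks _).2 (.cn hc ho))
    obtain ⟨w', hw', hwl'⟩ := linked h1 hT hc hg hn (hx' _ hn) hE ((mem_els _).2 (.e2 hc ho))
      (s := true) (by simp [hcon]) ((mem_blocks _).2 (.cp hc ho))
    obtain ⟨f0, -, hf0⟩ := he2 o 0 ho (by norm_num)
    obtain ⟨f1, -, hf1⟩ := he2 o 1 ho (by norm_num)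
    obtain ⟨f2, -, hf2⟩ := he2 o 2 ho (by norm_num)
    refine five h1 hT (El.e2 c o) ![w, w', El.g2 c o 0, El.g2 c o 1, El.g2 c o 2]
      ![[El.x c o, El.lit c o false, El.e2 c o],
        [El.x c (Φ.nx o), El.lit c (Φ.nx o) true, El.e2 c o],
        [El.e2 c o, El.g2 c o 0, El.r2 c o 0 f0],
        [El.e2 c o, El.g2 c o 1, El.r2 c o 1 f1],
        [El.e2 c o, El.g2 c o 2, El.r2 c o 2 f2]] ?_ ?_ ?_
    · intro k
      fin_cases k
      · exact hwl
      · exact hwl'
      · exact hf0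
      · exact hf1
      · exact hf2
    · intro k l hkl
      fin_cases k <;> fin_cases l <;> simp at hkl ⊢ <;>
      first
      | (rcases hw with h | h <;> rw [h] <;> simp [hne, hne.symm])
      | (rcases hw' with h | h <;> rw [h] <;> simp [hne, hne.symm])
    · intro k
      fin_cases k
      · exact full_w hT hc hg ho (hx' o ho) hE hw
      · exact full_w hT hc hg hn (hx' _ hn) hE hw'
      · exact Full.of_good hg (q := 1) (by norm_num) (.g2 hc ho (by norm_num)) rfl not_cls_e2
      · exact Full.of_good hg (q := 1) (by norm_num) (.g2 hc ho (by norm_num)) rfl not_cls_e2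
      · exact Full.of_good hg (q := 1) (by norm_num) (.g2 hc ho (by norm_num)) rfl not_cls_e2

end Pool.Agent.ObsNum
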