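import Pool.Agent.SLN.Defs

set_option autoImplicit false

/-!
# The obstacle number problem: all definitions used in the main statement

Used from `PAH/Defs.lean`: `Plane = ℝ × ℝ`, `det3` (twice the signed area of a triangle),
`DecisionProblem`, `PolyReduces` (polynomial time many-one reducibility with Mathlib's Turing
machines).  Used from `SLN/Defs.lean`: the alphabet `Sym`, `encBits`, `Lit`, `Satisfiable`, `encLit`,
`encCNF` (formulas in conjunctive normal form).
-/

namespace Pool.Agent.ObsNum

open Pool.Agent.PAH (Plane det3 DecisionProblem PolyReduces)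
open Pool.Agent.SLN (Sym encBits Lit Satisfiable encLit encCNF)

/-! ## Obstacle representations -/

/-- closed polygonal regions: connected sets which are finite unions of non-degenerate closed
triangles -/
def IsPolygonalRegion (P : Set Plane) : Prop :=
  IsConnected P ∧ ∃ T : Set (Plane × Plane × Plane), T.Finite ∧
    (∀ t ∈ T, det3 t.1 t.2.1 t.2.2 ≠ 0) ∧ P = ⋃ t ∈ T, convexHull ℝ {t.1, t.2.1, t.2.2}

/-- The graph `G` has an obstacle representation with at most `k` obstacles from the class `𝒪`:
the vertices are placed at different points, no three of them collinear, there are at most `k`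
obstacles, no obstacle contains a vertex, and two different vertices are adjacent if and only if
the segment between them meets no obstacle. -/
def HasObstacleRep (𝒪 : Set (Set Plane)) {V : Type} (G : SimpleGraph V) (k : ℕ) : Prop :=
  ∃ (p : V → Plane) (m : ℕ) (O : Fin m → Set Plane), m ≤ k ∧
    Function.Injective p ∧
    (∀ u v w : V, u ≠ v → u ≠ w → v ≠ w → det3 (p u) (p v) (p w) ≠ 0) ∧
    (∀ i, O i ∈ 𝒪) ∧
    (∀ i v, p v ∉ O i) ∧
    ∀ u v : V, u ≠ v → (G.Adj u v ↔ ∀ i, Disjoint (segment ℝ (p u) (p v)) (O i))

/-! ## Instances of OBSTACLE NUMBER -/

/-- an instance: a graph on the vertices `0, ..., n-1` and a number `k` -/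
abbrev GraphInst : Type := Σ n : ℕ, SimpleGraph (Fin n) × ℕ

open scoped Classical in
/-- the adjacency list of a vertex: its neighbours in binary, each followed by a comma, and a
semicolon at the end -/
noncomputable def encRow {n : ℕ} (G : SimpleGraph (Fin n)) (i : Fin n) : List Sym :=
  ((List.finRange n).filter (fun j => G.Adj i j)).flatMap
    (fun j => encBits j.1.bits ++ [Sym.comma]) ++ [Sym.semi]

/-- an instance: the adjacency lists of all vertices, and the number in binary -/
noncomputable def encInst (q : GraphInst) : List Sym :=
  (List.finRange q.1).flatMap (encRow q.2.1) ++ encBits q.2.2.bits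

end Pool.Agent.ObsNum
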