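import Pool.Agent.ObsNum.Red

set_option autoImplicit false

/-!
# OBS-ENC: the encoding of the instances is injective
-/

namespace Pool.Agent.ObsNum

open Pool.Agent.SLN (Sym encBits Lit Satisfiable encLit encCNF)

namespace EncProof

/-- the bit symbols -/
def IsBit (c : Sym) : Prop := c = Sym.zero ∨ c = Sym.one

lemma isBit_of_mem {l : List Bool} {c : Sym} (h : c ∈ encBits l) : IsBit c := by
  unfold encBits at h
  rw [List.mem_map] at h
  obtain ⟨b, _, rfl⟩ := h
  cases b
  · exact Or.inl rfl
  · exact Or.inr rfl

lemma not_isBit_comma : ¬ IsBit Sym.comma := by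
  rintro (h | h) <;> cases h

lemma not_isBit_semi : ¬ IsBit Sym.semi := by
  rintro (h | h) <;> cases h

lemma encBits_cons (b : Bool) (l : List Bool) :
    encBits (b :: l) = (if b then Sym.one else Sym.zero) :: encBits l := rfl

lemma encBits_nil : encBits [] = [] := rfl

lemma isBit_sym (b : Bool) : IsBit (if b then Sym.one else Sym.zero) := by
  cases b
  · exact Or.inl rfl
  · exact Or.inr rfl

lemma sym_inj {b b' : Bool} (h : (if b then Sym.one else Sym.zero) =
    (if b' then Sym.one else Sym.zero)) : b = b' := by
  cases b <;> cases b' <;> simp_all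

lemma encBits_inj : ∀ (v v' : List Bool), encBits v = encBits v' → v = v'
  | [], [], _ => rfl
  | [], b :: l, h => by rw [encBits_cons, encBits_nil] at h; exact absurd h (by simp)
  | b :: l, [], h => by rw [encBits_cons, encBits_nil] at h; exact absurd h (by simp)
  | b :: l, b' :: l', h => by
    rw [encBits_cons, encBits_cons, List.cons.injEq] at h
    rw [sym_inj h.1, encBits_inj l l' h.2]

lemma bits_split : ∀ (v v' : List Bool) (c c' : Sym) (r r' : List Sym), ¬ IsBit c → ¬ IsBit c' →
    encBits v ++ c :: r = encBits v' ++ c' :: r' → v = v' ∧ c = c' ∧ r = r'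
  | [], [], c, c', r, r', _, _, h => by
    rw [encBits_nil, List.nil_append, List.nil_append, List.cons.injEq] at h
    exact ⟨rfl, h.1, h.2⟩
  | [], b :: l, c, c', r, r', hc, _, h => by
    rw [encBits_nil, encBits_cons, List.nil_append, List.cons_append, List.cons.injEq] at h
    exact absurd (h.1 ▸ isBit_sym b) hc
  | b :: l, [], c, c', r, r', _, hc', h => by
    rw [encBits_nil, encBits_cons, List.nil_append, List.cons_append, List.cons.injEq] at h
    exact absurd (h.1 ▸ isBit_sym b) hc'
  | b :: l, b' :: l', c, c', r, r', hc, hc', h => by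
    rw [encBits_cons, encBits_cons, List.cons_append, List.cons_append, List.cons.injEq] at h
    obtain ⟨h1, h2, h3⟩ := bits_split l l' c c' r r' hc hc' h.2
    exact ⟨by rw [sym_inj h.1, h1], h2, h3⟩

lemma natBits_inj {a b : ℕ} (h : a.bits = b.bits) : a = b := by
  have h2 : Nat.digits 2 a = Nat.digits 2 b := by
    rw [Nat.digits_two_eq_bits, Nat.digits_two_eq_bits, h]
  exact Nat.digits_inj_iff.mp h2

/-- a row given by a list of numbers -/
def rowN (l : List ℕ) : List Sym :=
  l.flatMap (fun j => encBits j.bits ++ [Sym.comma]) ++ [Sym.semi]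

lemma rowN_nil : rowN [] = [Sym.semi] := rfl

lemma rowN_cons (a : ℕ) (l : List ℕ) (r : List Sym) :
    rowN (a :: l) ++ r = encBits a.bits ++ Sym.comma :: (rowN l ++ r) := by
  unfold rowN
  simp [List.flatMap_cons, List.append_assoc]

lemma rowN_split : ∀ (l l' : List ℕ) (r r' : List Sym), rowN l ++ r = rowN l' ++ r' →
    l = l' ∧ r = r'
  | [], [], r, r', h => by
    rw [rowN_nil, List.singleton_append, List.singleton_append, List.cons.injEq] at h
    exact ⟨rfl, h.2⟩
  | [], a :: l, r, r', h => by
    rw [rowN_cons, rowN_nil, List.singleton_append] at h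
    have h2 := bits_split [] a.bits Sym.semi Sym.comma r _ not_isBit_semi not_isBit_comma h
    exact absurd h2.2.1 (by simp)
  | a :: l, [], r, r', h => by
    rw [rowN_cons, rowN_nil, List.singleton_append] at h
    have h2 := bits_split a.bits [] Sym.comma Sym.semi _ r' not_isBit_comma not_isBit_semi h
    exact absurd h2.2.1 (by simp)
  | a :: l, a' :: l', r, r', h => by
    rw [rowN_cons, rowN_cons] at h
    obtain ⟨h1, _, h3⟩ := bits_split _ _ _ _ _ _ not_isBit_comma not_isBit_comma h
    obtain ⟨h4, h5⟩ := rowN_split l l' r r' h3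
    exact ⟨by rw [natBits_inj h1, h4], h5⟩

lemma semi_mem_rowN (l : List ℕ) : Sym.semi ∈ rowN l := by
  unfold rowN
  simp

lemma rows_split : ∀ (L L' : List (List ℕ)) (b b' : List Bool),
    L.flatMap rowN ++ encBits b = L'.flatMap rowN ++ encBits b' → L = L' ∧ b = b'
  | [], [], b, b', h => by
    rw [List.flatMap_nil, List.nil_append, List.nil_append] at h
    exact ⟨rfl, encBits_inj _ _ h⟩
  | [], l :: L, b, b', h => by
    rw [List.flatMap_nil, List.nil_append] at h
    have hm : Sym.semi ∈ encBits b := by
      rw [h, List.flatMap_cons]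
      exact List.mem_append_left _ (List.mem_append_left _ (semi_mem_rowN l))
    exact absurd (isBit_of_mem hm) not_isBit_semi
  | l :: L, [], b, b', h => by
    rw [List.flatMap_nil, List.nil_append] at h
    have hm : Sym.semi ∈ encBits b' := by
      rw [← h, List.flatMap_cons]
      exact List.mem_append_left _ (List.mem_append_left _ (semi_mem_rowN l))
    exact absurd (isBit_of_mem hm) not_isBit_semi
  | l :: L, l' :: L', b, b', h => by
    rw [List.flatMap_cons, List.flatMap_cons, List.append_assoc, List.append_assoc] at h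
    obtain ⟨h1, h2⟩ := rowN_split _ _ _ _ h
    obtain ⟨h3, h4⟩ := rows_split L L' b b' h2
    exact ⟨by rw [h1, h3], h4⟩

open scoped Classical in
/-- the numbers of the neighbours -/
noncomputable def nb {n : ℕ} (G : SimpleGraph (Fin n)) (i : Fin n) : List ℕ :=
  ((List.finRange n).filter (fun j => G.Adj i j)).map (fun j => j.1)

lemma encRow_eq {n : ℕ} (G : SimpleGraph (Fin n)) (i : Fin n) : encRow G i = rowN (nb G i) := by
  unfold encRow rowN nb
  rw [List.flatMap_map]

lemma encInst_eq (n : ℕ) (G : SimpleGraph (Fin n)) (k : ℕ) :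
    encInst ⟨n, G, k⟩ = ((List.finRange n).map (nb G)).flatMap rowN ++ encBits k.bits := by
  unfold encInst
  rw [List.flatMap_map]
  congr 1
  exact List.flatMap_congr fun i _ => encRow_eq G i

lemma mem_nb {n : ℕ} (G : SimpleGraph (Fin n)) (i j : Fin n) : j.1 ∈ nb G i ↔ G.Adj i j := by
  unfold nb
  rw [List.mem_map]
  constructor
  · rintro ⟨j', hj', h⟩
    rw [List.mem_filter] at hj'
    have : j' = j := Fin.ext h
    rw [← this]
    simpa using hj'.2
  · intro h
    exact ⟨j, List.mem_filter.2 ⟨List.mem_finRange j, by simpa using h⟩, rfl⟩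

end EncProof

open EncProof in
theorem tENC : T_ENC := by
  rintro ⟨n, G, k⟩ ⟨n', G', k'⟩ h
  rw [encInst_eq, encInst_eq] at h
  obtain ⟨h1, h2⟩ := rows_split _ _ _ _ h
  have hn : n = n' := by
    have := congrArg List.length h1
    rwa [List.length_map, List.length_map, List.length_finRange, List.length_finRange] at this
  subst hn
  have hk : k = k' := natBits_inj h2
  subst hk
  have hG : G = G' := by
    ext i j
    have h3 : nb G i = nb G' i := by
      rw [List.map_inj_left] at h1
      exact h1 i (List.mem_finRange i)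
    rw [← mem_nb, ← mem_nb, h3]
  rw [hG]

end Pool.Agent.ObsNum
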