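import Pool.Agent.ObsNum.Targets

set_option autoImplicit false

/-!
# From integer layouts to positions
-/

namespace Pool.Agent.ObsNum

open Pool.Agent.PAH (Plane det3)
open Filter Topology

namespace EPS

variable {V : Type}

/-- perturbed coordinates -/
noncomputable def A (X Y : Fin 2 → V → ℤ) (δ : ℝ) (i : Fin 2) (v : V) : ℝ :=
  (X i v : ℝ) + δ * (Y i v : ℝ) / 100

/-- half of the length, signed -/
noncomputable def ell (X Y : Fin 2 → V → ℤ) (δ : ℝ) (v : V) : ℝ :=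
  (A X Y δ 1 v - A X Y δ 0 v) / 2

open scoped Classical in
/-- the position -/
noncomputable def pos (X Y : Fin 2 → V → ℤ) (L : V → Prop) (δ : ℝ) (v : V) : Plane :=
  if L v then (-1 / ell X Y δ v, (-(A X Y δ 0 v + A X Y δ 1 v) / 2) / ell X Y δ v)
  else (1 / (-ell X Y δ v), ((A X Y δ 0 v + A X Y δ 1 v) / 2) / (-ell X Y δ v))

lemma ev_pos {f : ℝ → ℝ} (hf : Continuous f) (h : 0 < f 0) : ∀ᶠ δ in 𝓝[>] (0 : ℝ), 0 < f δ := by
  have : ∀ᶠ δ in 𝓝 (0 : ℝ), 0 < f δ := hf.continuousAt.eventually (lt_mem_nhds h)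
  exact this.filter_mono nhdsWithin_le_nhds

lemma ev_Ioi : ∀ᶠ δ in 𝓝[>] (0 : ℝ), 0 < δ := self_mem_nhdsWithin

lemma ev_len (X0 X1 Y0 Y1 : ℤ) (h : X0 < X1 ∨ (X0 = X1 ∧ Y0 < Y1)) :
    ∀ᶠ δ in 𝓝[>] (0 : ℝ), 0 < (((X1 : ℝ) + δ * (Y1 : ℝ) / 100) - ((X0 : ℝ) + δ * (Y0 : ℝ) / 100)) / 2 := by
  rcases h with h | ⟨h1, h2⟩
  · apply ev_pos (f := fun δ => (((X1 : ℝ) + δ * (Y1 : ℝ) / 100) - ((X0 : ℝ) + δ * (Y0 : ℝ) / 100)) / 2)
    · fun_prop
    · have : (X0 : ℝ) < X1 := by exact_mod_cast h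
      simp; linarith
  · filter_upwards [ev_Ioi] with δ hδ
    subst h1
    have : (Y0 : ℝ) < Y1 := by exact_mod_cast h2
    have := mul_lt_mul_of_pos_left this hδ
    linarith

/-- the height for two positions -/
lemma height_eq (p0 p1 q0 q1 : ℝ) (hu : 0 < (p1 - p0) / 2) (hv : 0 < (q0 - q1) / 2) :
    height (-1 / ((p1 - p0) / 2), (-(p0 + p1) / 2) / ((p1 - p0) / 2))
      (1 / ((q0 - q1) / 2), ((q0 + q1) / 2) / ((q0 - q1) / 2)) - 1 =
      (q1 - p1) / ((p1 - p0) / 2 + (q0 - q1) / 2) ∧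
    height (-1 / ((p1 - p0) / 2), (-(p0 + p1) / 2) / ((p1 - p0) / 2))
      (1 / ((q0 - q1) / 2), ((q0 + q1) / 2) / ((q0 - q1) / 2)) + 1 =
      (q0 - p0) / ((p1 - p0) / 2 + (q0 - q1) / 2) := by
  have h1 : p1 - p0 ≠ 0 := by intro h; rw [h] at hu; simp at hu
  have h2 : q0 - q1 ≠ 0 := by intro h; rw [h] at hv; simp at hv
  have h3 : (p1 - p0) + (q0 - q1) ≠ 0 := by
    have : 0 < (p1 - p0) + (q0 - q1) := by linarith
    exact this.ne'
  have key : height (-1 / ((p1 - p0) / 2), (-(p0 + p1) / 2) / ((p1 - p0) / 2))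
      (1 / ((q0 - q1) / 2), ((q0 + q1) / 2) / ((q0 - q1) / 2)) =
      (-(p0 + p1) + (q0 + q1)) / ((p1 - p0) + (q0 - q1)) := by
    unfold height
    have e1 : (-(p0 + p1) / 2) / ((p1 - p0) / 2) * (1 / ((q0 - q1) / 2)) -
        ((q0 + q1) / 2) / ((q0 - q1) / 2) * (-1 / ((p1 - p0) / 2)) =
        2 * (-(p0 + p1) + (q0 + q1)) / ((p1 - p0) * (q0 - q1)) := by
      field_simp
      ring
    have e2 : 1 / ((q0 - q1) / 2) - -1 / ((p1 - p0) / 2) =
        2 * ((p1 - p0) + (q0 - q1)) / ((p1 - p0) * (q0 - q1)) := by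
      field_simp
      ring
    simp only [e1, e2]
    have h4 : (p1 - p0) * (q0 - q1) ≠ 0 := mul_ne_zero h1 h2
    field_simp
  rw [key]
  have h5 : (p1 - p0) / 2 + (q0 - q1) / 2 = ((p1 - p0) + (q0 - q1)) / 2 := by ring
  rw [h5]
  constructor
  · field_simp
    ring
  · field_simp
    ring

lemma far_ev (X Y : Fin 2 → V → ℤ) (u v : V)
    (hu : X 0 u < X 1 u ∨ (X 0 u = X 1 u ∧ Y 0 u < Y 1 u))
    (hv : X 1 v < X 0 v ∨ (X 1 v = X 0 v ∧ Y 1 v < Y 0 v)) (i : Fin 2)
    (far : X i u = X i v → 50 * (|X 0 u - X 1 u| + |X 0 v - X 1 v|) < |Y i u - Y i v|) :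
    ∀ᶠ δ in 𝓝[>] (0 : ℝ), δ * (ell X Y δ u + -ell X Y δ v) < |A X Y δ i v - A X Y δ i u| := by
  by_cases h : X i u = X i v
  · have h1 := far h
    have hu' : X 0 u ≤ X 1 u := by rcases hu with h | h <;> omega
    have hv' : X 1 v ≤ X 0 v := by rcases hv with h | h <;> omega
    rw [abs_of_nonpos (by omega : X 0 u - X 1 u ≤ 0), abs_of_nonneg (by omega : 0 ≤ X 0 v - X 1 v)]
      at h1
    have h2 : 50 * ((-((X 0 u : ℝ) - X 1 u)) + ((X 0 v : ℝ) - X 1 v)) < |(Y i u : ℝ) - Y i v| := by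
      exact_mod_cast h1
    have h3 : ∀ᶠ δ in 𝓝[>] (0 : ℝ), 0 < |(Y i u : ℝ) - Y i v| / 100 -
        (ell X Y δ u + -ell X Y δ v) := by
      apply ev_pos (f := fun δ => |(Y i u : ℝ) - Y i v| / 100 - (ell X Y δ u + -ell X Y δ v))
      · unfold ell A
        fun_prop
      · simp only [ell, A]
        linarith
    filter_upwards [h3, ev_Ioi] with δ h4 hδ
    have h5 : A X Y δ i v - A X Y δ i u = -(δ * ((Y i u : ℝ) - Y i v) / 100) := by
      simp only [A, h]; ring
    rw [h5, abs_neg, abs_div, abs_mul, abs_of_pos hδ, abs_of_pos (by norm_num : (0 : ℝ) < 100),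
      mul_div_assoc]
    exact mul_lt_mul_of_pos_left (by linarith) hδ
  · have h3 : ∀ᶠ δ in 𝓝[>] (0 : ℝ), 0 < |A X Y δ i v - A X Y δ i u| -
        δ * (ell X Y δ u + -ell X Y δ v) := by
      apply ev_pos (f := fun δ => |A X Y δ i v - A X Y δ i u| - δ * (ell X Y δ u + -ell X Y δ v))
      · unfold ell A
        fun_prop
      · have h4 : (X i v : ℝ) - X i u ≠ 0 := by
          intro h5
          apply h
          have : (X i u : ℝ) = X i v := by linarith
          exact_mod_cast this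
        simp only [A, zero_mul, zero_div, add_zero, sub_zero]
        exact abs_pos.mpr h4
    filter_upwards [h3] with δ h4
    linarith

lemma near_ev (X Y : Fin 2 → V → ℤ) (u v : V)
    (hu : X 0 u < X 1 u ∨ (X 0 u = X 1 u ∧ Y 0 u < Y 1 u))
    (hv : X 1 v < X 0 v ∨ (X 1 v = X 0 v ∧ Y 1 v < Y 0 v)) (i : Fin 2) (h : X i u = X i v)
    (near : Y i u = Y i v ∨ |Y i u - Y i v| < 50 * (|X 0 u - X 1 u| + |X 0 v - X 1 v|)) :
    ∀ᶠ δ in 𝓝[>] (0 : ℝ), |A X Y δ i v - A X Y δ i u| < δ * (ell X Y δ u + -ell X Y δ v) := by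
  rcases near with h1 | h1
  · have h3 := ev_len (X 0 u) (X 1 u) (Y 0 u) (Y 1 u) hu
    have h4 := ev_len (X 1 v) (X 0 v) (Y 1 v) (Y 0 v) hv
    filter_upwards [h3, h4, ev_Ioi] with δ h5 h6 hδ
    have h7 : A X Y δ i v - A X Y δ i u = 0 := by simp only [A, h, h1]; ring
    rw [h7, abs_zero]
    apply mul_pos hδ
    simp only [ell, A]
    linarith
  · have hu' : X 0 u ≤ X 1 u := by rcases hu with h | h <;> omega
    have hv' : X 1 v ≤ X 0 v := by rcases hv with h | h <;> omega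
    rw [abs_of_nonpos (by omega : X 0 u - X 1 u ≤ 0), abs_of_nonneg (by omega : 0 ≤ X 0 v - X 1 v)]
      at h1
    have h2 : |(Y i u : ℝ) - Y i v| < 50 * ((-((X 0 u : ℝ) - X 1 u)) + ((X 0 v : ℝ) - X 1 v)) := by
      exact_mod_cast h1
    have h3 : ∀ᶠ δ in 𝓝[>] (0 : ℝ), 0 < (ell X Y δ u + -ell X Y δ v) -
        |(Y i u : ℝ) - Y i v| / 100 := by
      apply ev_pos (f := fun δ => (ell X Y δ u + -ell X Y δ v) - |(Y i u : ℝ) - Y i v| / 100)
      · unfold ell A
        fun_prop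
      · simp only [ell, A]
        linarith
    filter_upwards [h3, ev_Ioi] with δ h4 hδ
    have h5 : A X Y δ i v - A X Y δ i u = -(δ * ((Y i u : ℝ) - Y i v) / 100) := by
      simp only [A, h]; ring
    rw [h5, abs_neg, abs_div, abs_mul, abs_of_pos hδ, abs_of_pos (by norm_num : (0 : ℝ) < 100),
      mul_div_assoc]
    exact mul_lt_mul_of_pos_left (by linarith) hδ

/-- the heights of the positions -/
lemma height_pos (X Y : Fin 2 → V → ℤ) (L : V → Prop) (δ : ℝ) (u v : V) (hu : L u) (hv : ¬ L v)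
    (h1 : 0 < ell X Y δ u) (h2 : 0 < -ell X Y δ v) :
    |height (pos X Y L δ u) (pos X Y L δ v) - 1| =
      |A X Y δ 1 v - A X Y δ 1 u| / (ell X Y δ u + -ell X Y δ v) ∧
    |height (pos X Y L δ u) (pos X Y L δ v) + 1| =
      |A X Y δ 0 v - A X Y δ 0 u| / (ell X Y δ u + -ell X Y δ v) := by
  have e : -ell X Y δ v = (A X Y δ 0 v - A X Y δ 1 v) / 2 := by unfold ell; ring
  have h3 := height_eq (A X Y δ 0 u) (A X Y δ 1 u) (A X Y δ 0 v) (A X Y δ 1 v)
    (by unfold ell at h1; exact h1) (by rw [← e]; exact h2)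
  unfold pos
  rw [if_pos hu, if_neg hv, e]
  have e2 : ell X Y δ u = (A X Y δ 1 u - A X Y δ 0 u) / 2 := rfl
  rw [e2] at h1 ⊢
  rw [e] at h2
  rw [h3.1, h3.2, abs_div, abs_div, abs_of_pos (add_pos h1 h2)]
  exact ⟨rfl, rfl⟩

theorem main [Finite V] (G : SimpleGraph V) (L : V → Prop) (X Y : Fin 2 → V → ℤ)
    (hl : ∀ v, L v → X 0 v < X 1 v ∨ (X 0 v = X 1 v ∧ Y 0 v < Y 1 v))
    (hr : ∀ v, ¬ L v → X 1 v < X 0 v ∨ (X 1 v = X 0 v ∧ Y 1 v < Y 0 v))
    (far : ∀ u v, L u → ¬ L v → G.Adj u v → ∀ i, X i u = X i v →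
      50 * (|X 0 u - X 1 u| + |X 0 v - X 1 v|) < |Y i u - Y i v|)
    (near : ∀ u v, L u → ¬ L v → ¬ G.Adj u v → ∃ i, X i u = X i v ∧
      (Y i u = Y i v ∨ |Y i u - Y i v| < 50 * (|X 0 u - X 1 u| + |X 0 v - X 1 v|))) :
    ∃ (ε : ℝ) (p : V → Plane), 0 < ε ∧ ε < 1 ∧ Past G L ε p := by
  have H1 : ∀ᶠ δ in 𝓝[>] (0 : ℝ), ∀ v, L v → 0 < ell X Y δ v := by
    rw [eventually_all]
    intro v
    by_cases h : L v
    · have := ev_len (X 0 v) (X 1 v) (Y 0 v) (Y 1 v) (hl v h)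
      filter_upwards [this] with δ h2 _
      simp only [ell, A]; exact h2
    · exact Eventually.of_forall fun δ h' => absurd h' h
  have H2 : ∀ᶠ δ in 𝓝[>] (0 : ℝ), ∀ v, ¬ L v → 0 < -ell X Y δ v := by
    rw [eventually_all]
    intro v
    by_cases h : L v
    · exact Eventually.of_forall fun δ h' => absurd h h'
    · have := ev_len (X 1 v) (X 0 v) (Y 1 v) (Y 0 v) (hr v h)
      filter_upwards [this] with δ h2 _
      simp only [ell, A]; linarith
  have H3 : ∀ᶠ δ in 𝓝[>] (0 : ℝ), ∀ u v, ∀ i, L u → ¬ L v → G.Adj u v →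
      δ * (ell X Y δ u + -ell X Y δ v) < |A X Y δ i v - A X Y δ i u| := by
    rw [eventually_all]; intro u
    rw [eventually_all]; intro v
    rw [eventually_all]; intro i
    by_cases h : L u ∧ ¬ L v ∧ G.Adj u v
    · have := far_ev X Y u v (hl u h.1) (hr v h.2.1) i (far u v h.1 h.2.1 h.2.2 i)
      filter_upwards [this] with δ h2 _ _ _
      exact h2
    · exact Eventually.of_forall fun δ h1 h2 h3 => absurd ⟨h1, h2, h3⟩ h
  have H4 : ∀ᶠ δ in 𝓝[>] (0 : ℝ), ∀ u v, L u → ¬ L v → ¬ G.Adj u v →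
      ∃ i, |A X Y δ i v - A X Y δ i u| < δ * (ell X Y δ u + -ell X Y δ v) := by
    rw [eventually_all]; intro u
    rw [eventually_all]; intro v
    by_cases h : L u ∧ ¬ L v ∧ ¬ G.Adj u v
    · obtain ⟨i, h1, h2⟩ := near u v h.1 h.2.1 h.2.2
      have := near_ev X Y u v (hl u h.1) (hr v h.2.1) i h1 h2
      filter_upwards [this] with δ h2 _ _ _
      exact ⟨i, h2⟩
    · exact Eventually.of_forall fun δ h1 h2 h3 => absurd ⟨h1, h2, h3⟩ h
  have H5 : ∀ᶠ δ in 𝓝[>] (0 : ℝ), δ < 1 := by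
    have : ∀ᶠ δ in 𝓝 (0 : ℝ), δ < 1 := gt_mem_nhds (by norm_num)
    exact this.filter_mono nhdsWithin_le_nhds
  obtain ⟨δ, h1, h2, h3, h4, h5, h6⟩ :=
    (H1.and (H2.and (H3.and (H4.and (H5.and ev_Ioi))))).exists
  refine ⟨δ, pos X Y L δ, h6, h5, ?_, ?_, ?_, ?_⟩
  · intro v hv
    have := h1 v hv
    unfold pos
    rw [if_pos hv]
    exact div_neg_of_neg_of_pos (by norm_num) this
  · intro v hv
    have := h2 v hv
    unfold pos
    rw [if_neg hv]
    exact div_pos one_pos this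
  · intro u v hu hv huv
    have hp := add_pos (h1 u hu) (h2 v hv)
    obtain ⟨e1, e2⟩ := height_pos X Y L δ u v hu hv (h1 u hu) (h2 v hv)
    rw [e1, e2, lt_div_iff₀ hp, lt_div_iff₀ hp]
    exact ⟨h3 u v 1 hu hv huv, h3 u v 0 hu hv huv⟩
  · intro u v hu hv huv
    have hp := add_pos (h1 u hu) (h2 v hv)
    obtain ⟨e1, e2⟩ := height_pos X Y L δ u v hu hv (h1 u hu) (h2 v hv)
    rw [e1, e2, div_lt_iff₀ hp, div_lt_iff₀ hp]
    obtain ⟨i, hi⟩ := h4 u v hu hv huv
    fin_cases i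
    · right; exact hi
    · left; exact hi

/-- first element of the list, with a function on it -/
def hd {α : Type} (f : α → ℤ) : List α → ℤ
  | [] => 0
  | a :: _ => f a

end EPS

open EPS in
theorem tEPS : T_EPS := by
  intro α els blocks P s Q t hL
  classical
  let X : Fin 2 → Fin (verts els blocks).length → ℤ := fun i v =>
    if ((verts els blocks).get v).1 = false then hd (P i) ((verts els blocks).get v).2
    else Q i ((verts els blocks).get v).2
  let Y : Fin 2 → Fin (verts els blocks).length → ℤ := fun i v =>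
    if ((verts els blocks).get v).1 = false then hd (s i) ((verts els blocks).get v).2
    else t i ((verts els blocks).get v).2
  have key1 : ∀ v : Fin (verts els blocks).length, ((verts els blocks).get v).1 = false →
      ∃ a ∈ els, (verts els blocks).get v = (false, [a]) := by
    intro v hv
    have h1 : (verts els blocks).get v ∈ verts els blocks := List.get_mem _ _
    unfold verts at h1
    rw [List.mem_append, List.mem_map, List.mem_map] at h1
    rcases h1 with ⟨a, ha, h2⟩ | ⟨b, hb, h2⟩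
    · exact ⟨a, ha, h2.symm⟩
    · exfalso
      have h3 : ((verts els blocks).get v).1 = true := by
        have := congrArg Prod.fst h2
        exact this.symm
      rw [hv] at h3
      exact Bool.false_ne_true h3
  have key2 : ∀ v : Fin (verts els blocks).length, ¬ ((verts els blocks).get v).1 = false →
      ∃ b ∈ blocks, (verts els blocks).get v = (true, b) := by
    intro v hv
    have h1 : (verts els blocks).get v ∈ verts els blocks := List.get_mem _ _
    unfold verts at h1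
    rw [List.mem_append, List.mem_map, List.mem_map] at h1
    rcases h1 with ⟨a, ha, h2⟩ | ⟨b, hb, h2⟩
    · exfalso
      apply hv
      have := congrArg Prod.fst h2
      exact this.symm
    · exact ⟨b, hb, h2.symm⟩
  have hX1 : ∀ v a, (verts els blocks).get v = (false, [a]) → ∀ i, X i v = P i a ∧ Y i v = s i a := by
    intro v a h i
    simp only [X, Y, h, hd, if_true, and_self]
  have hX2 : ∀ v b, (verts els blocks).get v = (true, b) → ∀ i, X i v = Q i b ∧ Y i v = t i b := by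
    intro v b h i
    have e : ¬ ((true, b) : Bool × List α).1 = false := fun h => Bool.false_ne_true h.symm
    simp only [X, Y]
    rw [h, if_neg e, if_neg e]
    exact ⟨rfl, rfl⟩
  have hadj : ∀ u v a b, (verts els blocks).get u = (false, [a]) →
      (verts els blocks).get v = (true, b) → ((coGraph els blocks).Adj u v ↔ a ∉ b) := by
    intro u v a b hu hv
    change (u ≠ v ∧ Apart ((verts els blocks).get u) ((verts els blocks).get v)) ↔ a ∉ b
    constructor
    · rintro ⟨_, h⟩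
      rw [hu, hv] at h
      exact h Bool.false_ne_true a (List.mem_singleton.mpr rfl)
    · intro h
      refine ⟨?_, ?_⟩
      · intro e
        rw [e, hv] at hu
        have := congrArg Prod.fst hu
        exact Bool.false_ne_true this.symm
      · rw [hu, hv]
        intro _ a' ha'
        rw [List.mem_singleton.mp ha']
        exact h
  apply EPS.main (coGraph els blocks) (fun i => ((verts els blocks).get i).1 = false) X Y
  · intro v hv
    obtain ⟨a, ha, h⟩ := key1 v hv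
    rw [(hX1 v a h 0).1, (hX1 v a h 1).1, (hX1 v a h 0).2, (hX1 v a h 1).2]
    exact hL.el a ha
  · intro v hv
    obtain ⟨b, hb, h⟩ := key2 v hv
    rw [(hX2 v b h 0).1, (hX2 v b h 1).1, (hX2 v b h 0).2, (hX2 v b h 1).2]
    exact hL.bl b hb
  · intro u v hu hv huv i hi
    obtain ⟨a, ha, h⟩ := key1 u hu
    obtain ⟨b, hb, h'⟩ := key2 v hv
    rw [hadj u v a b h h'] at huv
    rw [(hX1 u a h i).1, (hX2 v b h' i).1] at hi
    rw [(hX1 u a h 0).1, (hX1 u a h 1).1, (hX2 v b h' 0).1, (hX2 v b h' 1).1, (hX1 u a h i).2,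
      (hX2 v b h' i).2]
    exact hL.far a ha b hb huv i hi
  · intro u v hu hv huv
    obtain ⟨a, ha, h⟩ := key1 u hu
    obtain ⟨b, hb, h'⟩ := key2 v hv
    rw [hadj u v a b h h', not_not] at huv
    obtain ⟨i, hi1, hi2⟩ := hL.near a ha b hb huv
    refine ⟨i, ?_, ?_⟩
    · rw [(hX1 u a h i).1, (hX2 v b h' i).1]; exact hi1
    · rw [(hX1 u a h 0).1, (hX1 u a h 1).1, (hX2 v b h' 0).1, (hX2 v b h' 1).1, (hX1 u a h i).2,
        (hX2 v b h' i).2]
      exact hi2

end Pool.Agent.ObsNum
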