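import Pool.Agent.ObsNum.Targets

set_option autoImplicit false

namespace Pool.Agent.ObsNum

theorem tFIVE : T_FIVE := by
  intro α β inc T hinc hcl z u b hl hni hg
  choose f hf1 hf2 using hl
  obtain ⟨c, -, hc⟩ := Finset.exists_lt_card_fiber_of_mul_lt_card_of_maps_to
    (s := (Finset.univ : Finset (Fin 5))) (t := (Finset.univ : Finset (Fin 2))) (f := f) (n := 2)
    (fun _ _ => Finset.mem_univ _) (by simp)
  obtain ⟨S, hS, hS3⟩ := Finset.exists_subset_card_eq (n := 3) (Nat.succ_le_of_lt hc)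
  let e : Fin 3 → Fin 5 := fun j => S.orderEmbOfFin hS3 j
  have he : ∀ j, f (e j) = c := by
    intro j
    have h1 := hS (S.orderEmbOfFin_mem hS3 j)
    exact (Finset.mem_filter.1 h1).2
  have hinj : ∀ j l, j ≠ l → e j ≠ e l := fun j l h h' =>
    h ((S.orderEmbOfFin hS3).injective h')
  choose g hg1 hg2 using hg
  refine hcl c z (fun j => u (e j)) (fun j => b (e j)) (fun j => g (e j) c) ?_ ?_ ?_ ?_ ?_
  · intro j
    rw [← he j]
    exact hf1 (e j)
  · intro j
    have h := hf2 (e j)
    rw [he j] at h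
    exact h
  · intro j
    exact hg1 (e j) c
  · intro j h
    exact hg2 (e j) c (hinc _ _ _ h)
  · intro j l hjl h
    exact hni (e j) (e l) (hinj j l hjl) (hinc _ _ _ h)

end Pool.Agent.ObsNum
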