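import Pool.Agent.ObsNum.Targets

set_option autoImplicit false

/-!
# OBS-FULL (helper17)
-/

namespace Pool.Agent.ObsNum

theorem tFULL : T_FULL := by
  intro Φ N T hN hT
  by_contra hcon
  have hbad : ∀ c : Fin N, ∃ (p : Fin 3 × Fin 2) (s : El), InCls Φ N p.1 s ∧ s.copy = c ∧
      ∀ b, T p.2 s b → ¬ ∀ a ∈ b, InCls Φ N p.1 a := by
    intro c
    by_contra h
    refine hcon ⟨c, c.2, ?_⟩
    intro q hq s hs hc i
    by_contra h'
    refine h ⟨(⟨q, hq⟩, i), s, hs, hc, fun b hb hb' => h' ⟨b, hb, hb'⟩⟩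
  choose p s hs hc hb using hbad
  obtain ⟨y, hy⟩ := Fintype.exists_lt_card_fiber_of_mul_lt_card (f := p) (n := 4)
    (by simp only [Fintype.card_prod, Fintype.card_fin]; omega)
  let e := Finset.orderEmbOfCardLe _ (show 5 ≤ _ from hy)
  have he : ∀ j, p (e j) = y := fun j =>
    (Finset.mem_filter.mp (Finset.orderEmbOfCardLe_mem _ (show 5 ≤ _ from hy) j)).2
  let t : Fin 5 → El := fun j => s (e j)
  have htne : ∀ j k, j ≠ k → t j ≠ t k := by
    intro j k hjk h
    apply hjk
    apply e.injective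
    apply Fin.ext
    rw [← hc (e j), ← hc (e k)]
    exact congrArg El.copy h
  have htc : ∀ j, InCls Φ N y.1 (t j) := fun j => by
    have := hs (e j)
    rw [he j] at this
    exact this
  have htb : ∀ j b, T y.2 (t j) b → ¬ ∀ a ∈ b, InCls Φ N y.1 a := fun j => by
    have := hb (e j)
    rw [he j] at this
    exact this
  obtain ⟨i', hi'⟩ : ∃ i' : Fin 2, ∀ i : Fin 2, i ≠ y.2 → i = i' := by
    rcases y with ⟨y1, y2⟩
    fin_cases y2
    · refine ⟨1, fun i hi => ?_⟩
      fin_cases i
      · exact absurd rfl hi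
      · rfl
    · refine ⟨0, fun i hi => ?_⟩
      fin_cases i
      · rfl
      · exact absurd rfl hi
  have hcl : ∀ j k, ∀ a ∈ [t j, t k], InCls Φ N y.1 a := by
    intro j k a ha
    simp only [List.mem_cons, List.not_mem_nil, or_false] at ha
    rcases ha with rfl | rfl
    · exact htc j
    · exact htc k
  have hcov : ∀ j k, j ≠ k → ∀ l, t l ∈ [t j, t k] → T i' (t l) [t j, t k] := by
    intro j k hjk l hl
    obtain ⟨i, hi⟩ := hT.cover (t l) [t j, t k] ((mem_els _).2 (.cls y.1.2 (htc l)))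
      ((mem_blocks _).2 (.q y.1.2 (htc j) (htc k) (htne k j hjk.symm))) hl
    have : i ≠ y.2 := fun h => htb l _ (h ▸ hi) (hcl j k)
    rw [← hi' i this]
    exact hi
  have hnot : ∀ j k l, l ≠ j → l ≠ k → ¬ T i' (t l) [t j, t k] := by
    intro j k l hlj hlk h
    have := hT.inc _ _ _ h
    simp only [List.mem_cons, List.not_mem_nil, or_false] at this
    rcases this with h1 | h1
    · exact htne l j hlj h1
    · exact htne l k hlk h1
  let v : Fin 3 → Fin 5 := fun k => ⟨k.1 + 1, by omega⟩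
  have v0 : ∀ k, (0 : Fin 5) ≠ v k := fun k h => by
    have := congrArg Fin.val h
    simp [v] at this
  have v4 : ∀ k, v k ≠ (4 : Fin 5) := fun k h => by
    have := congrArg Fin.val h
    simp only [v] at this
    have h4 : ((4 : Fin 5) : ℕ) = 4 := rfl
    omega
  have vne : ∀ k l, k ≠ l → v k ≠ v l := fun k l hkl h => by
    apply hkl
    have := congrArg Fin.val h
    simp only [v] at this
    exact Fin.ext (by omega)
  refine hT.cl i' (t 0) (fun k => t (v k)) (fun k => [t 0, t (v k)]) (fun k => [t (v k), t 4])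
    ?_ ?_ ?_ ?_ ?_
  · exact fun k => hcov 0 (v k) (v0 k) 0 (by simp)
  · exact fun k => hcov 0 (v k) (v0 k) (v k) (by simp)
  · exact fun k => hcov (v k) 4 (v4 k) (v k) (by simp)
  · exact fun k => hnot (v k) 4 0 (v0 k) (by decide)
  · exact fun k l hkl => hnot 0 (v l) (v k) (v0 k).symm (vne k l hkl)

end Pool.Agent.ObsNum
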