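import Pool.Agent.ObsNum.Targets

set_option autoImplicit false

/-!
# OBS-GEO: the three Q-cliques of the graph of the reduction
-/

namespace Pool.Agent.ObsNum

namespace GEO_

/-- the elements of the three Q-cliques -/
def sel (q : Fin 3) (j : ℕ) : El :=
  match q with
  | 0 => .lit j 0 true
  | 1 => .gx j 0 0
  | 2 => .rx j 0 0 0

theorem sel_copy (q : Fin 3) (j : ℕ) : (sel q j).copy = j := by
  fin_cases q <;> rfl

theorem sel_cls {Φ : CSat} {N : ℕ} (hK : 0 < Φ.K) (q : Fin 3) (j : ℕ) (hj : j < N) :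
    InCls Φ N q.1 (sel q j) := by
  have h3 : 0 < 3 * Φ.K := by omega
  fin_cases q
  · exact .lit hj h3
  · exact .gx hj h3 (by norm_num)
  · exact .rx hj h3 (by norm_num) (by norm_num)

theorem sel_els {Φ : CSat} {N : ℕ} (hK : 0 < Φ.K) (q : Fin 3) (j : ℕ) (hj : j < N) :
    sel q j ∈ els Φ N := (mem_els _).2 (.cls q.2 (sel_cls hK q j hj))

/-- the blocks of the three Q-cliques -/
def blk (q : Fin 3) (j k : ℕ) : List El :=
  if j < k then [sel q j, sel q k] else if k < j then [sel q k, sel q j] else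
    [El.x j 0, El.lit j 0 false, El.e2 j 0]

theorem blk_symm (q : Fin 3) (j k : ℕ) : blk q j k = blk q k j := by
  unfold blk
  by_cases h1 : j < k
  · rw [if_pos h1, if_neg (by omega), if_pos h1]
  · by_cases h2 : k < j
    · rw [if_neg h1, if_pos h2, if_pos h2]
    · have : j = k := by omega
      subst this
      rfl

theorem mem_blk (q : Fin 3) (j k : ℕ) (h : j ≠ k) (a : El) :
    a ∈ blk q j k ↔ a = sel q j ∨ a = sel q k := by
  unfold blk
  by_cases h1 : j < k
  · rw [if_pos h1]; simp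
  · rw [if_neg h1, if_pos (by omega)]; simp [or_comm]

theorem sel_ne (q : Fin 3) {j k : ℕ} (h : j ≠ k) : sel q j ≠ sel q k := by
  intro he
  apply h
  rw [← sel_copy q j, ← sel_copy q k, he]

theorem blk_blocks {Φ : CSat} {N : ℕ} (hK : 0 < Φ.K) (q : Fin 3) (j k : ℕ) (hj : j < N)
    (hk : k < N) : blk q j k ∈ blocks Φ N := by
  rw [mem_blocks]
  unfold blk
  have h3 : 0 < 3 * Φ.K := by omega
  by_cases h1 : j < k
  · rw [if_pos h1]
    exact .q q.2 (sel_cls hK q j hj) (sel_cls hK q k hk) (sel_ne q (by omega))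
  · by_cases h2 : k < j
    · rw [if_neg h1, if_pos h2]
      exact .q q.2 (sel_cls hK q k hk) (sel_cls hK q j hj) (sel_ne q (by omega))
    · rw [if_neg h1, if_neg h2]
      exact .cn hj h3

theorem elt (a : El) :
    (∀ j, a ≠ sel 0 j) ∨ (∀ j, a ≠ sel 1 j) := by
  cases a <;> simp [sel]

theorem bl {Φ : CSat} {N : ℕ} (b : List El) (hb : InBlocks Φ N b) :
    (∀ j, sel 0 j ∉ b) ∨ (∀ j, sel 1 j ∉ b) := by
  cases hb with
  | @q q s s' hq h h' hne =>
    interval_cases q
    · right
      cases h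
      cases h'
      simp [sel]
    · left
      cases h <;> cases h' <;> simp [sel]
    · left
      cases h <;> cases h' <;> simp [sel]
  | gx => left; simp [sel]
  | g2 => left; simp [sel]
  | g3 => left; simp [sel]
  | c3 => right; simp [sel]
  | cn => right; simp [sel]
  | cp => right; simp [sel]

end GEO_

open GEO_ in
theorem tGEO : T_GEO := by
  intro Φ N M hK hM C hC
  refine ⟨fun q j => ⟨sel q j, sel_els hK q j (lt_of_lt_of_le j.2 hM)⟩,
    fun q j k => ⟨blk q j k, blk_blocks hK q j k (lt_of_lt_of_le j.2 hM)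
      (lt_of_lt_of_le k.2 hM)⟩, ?_, ?_⟩
  · intro q
    refine ⟨?_, ?_, ?_⟩
    · intro j k h
      have h1 : sel q j = sel q k := congrArg Subtype.val h
      by_contra hne
      exact sel_ne q (fun h => hne (Fin.ext h)) h1
    · intro j k
      exact Subtype.ext (blk_symm q j k)
    · intro a j k hjk
      rw [hC]
      have h1 := mem_blk q j k (fun h => hjk (Fin.ext h)) a.1
      refine h1.trans ?_
      rw [Subtype.ext_iff, Subtype.ext_iff]
  · intro v
    rcases v with a | b
    · have key : ∀ q : Fin 3, (∀ j, a.1 ≠ sel q j) → (∀ j : Fin M, CAdj C.inc (.inl a)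
          (.inl (⟨sel q j, sel_els hK q j (lt_of_lt_of_le j.2 hM)⟩ : {a // a ∈ els Φ N}))) ∧
          ∀ j k : Fin M, j ≠ k → CAdj C.inc (.inl a) (.inr (⟨blk q j k, blk_blocks hK q j k
            (lt_of_lt_of_le j.2 hM) (lt_of_lt_of_le k.2 hM)⟩ : {b // b ∈ blocks Φ N})) := by
        intro q hq
        refine ⟨fun j => trivial, fun j k hjk => ?_⟩
        change ¬ C.inc a _
        rw [hC]
        change ¬ a.1 ∈ blk q j k
        rw [mem_blk q j k (fun h => hjk (Fin.ext h))]
        rintro (h | h)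
        · exact hq _ h
        · exact hq _ h
      rcases elt a.1 with h | h
      · exact ⟨0, key 0 h⟩
      · exact ⟨1, key 1 h⟩
    · have key : ∀ q : Fin 3, (∀ j, sel q j ∉ b.1) → (∀ j : Fin M, CAdj C.inc (.inr b)
          (.inl (⟨sel q j, sel_els hK q j (lt_of_lt_of_le j.2 hM)⟩ : {a // a ∈ els Φ N}))) ∧
          ∀ j k : Fin M, j ≠ k → CAdj C.inc (.inr b) (.inr (⟨blk q j k, blk_blocks hK q j k
            (lt_of_lt_of_le j.2 hM) (lt_of_lt_of_le k.2 hM)⟩ : {b // b ∈ blocks Φ N})) := by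
        intro q hq
        refine ⟨fun j => ?_, fun j k _ => trivial⟩
        change ¬ C.inc _ b
        rw [hC]
        exact hq j
      rcases bl b.1 ((mem_blocks _).1 b.2) with h | h
      · exact ⟨0, key 0 h⟩
      · exact ⟨1, key 1 h⟩

end Pool.Agent.ObsNum
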