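import Pool.Agent.ObsNum.Targets

set_option autoImplicit false

/-! Job OBS-GUARD: each guard is linked to its element by one of its blocks. -/

namespace Pool.Agent.ObsNum

namespace GUARD

/-- five references of the same kind are impossible -/
lemma five (h1 : T_FIVE) {Φ : CSat} {N : ℕ} {T : Fin 2 → El → List El → Prop}
    (hT : Touch Φ N T) (z : El) (r : ℕ → El) (B : ℕ → List El) (F : Finset (Fin 9))
    (hF : 5 ≤ F.card)
    (hfull : ∀ f, f < 9 → ∀ i, ∃ b, T i (r f) b ∧ z ∉ b)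
    (hB : ∀ f f', f < 9 → f' < 9 → f ≠ f' → r f ∉ B f')
    (hlink : ∀ f ∈ F, ∃ i, T i z (B f) ∧ T i (r f) (B f)) : False := by
  obtain ⟨F', hF', hcard⟩ := Finset.exists_subset_card_eq hF
  set φ := F'.orderEmbOfFin hcard with hφ
  have hmem : ∀ k, φ k ∈ F := fun k => hF' (Finset.orderEmbOfFin_mem F' hcard k)
  refine h1 El (List El) (fun a b => a ∈ b) T hT.inc hT.cl z (fun k => r (φ k))
    (fun k => B (φ k)) (fun k => hlink _ (hmem k)) ?_ ?_
  · intro k l hkl
    refine hB _ _ (φ k).2 (φ l).2 ?_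
    intro h
    exact hkl (φ.injective (Fin.ext h))
  · intro k i
    exact hfull _ (φ k).2 i

/-- the general lemma -/
lemma main (h1 : T_FIVE) {Φ : CSat} {N : ℕ} {T : Fin 2 → El → List El → Prop}
    (hT : Touch Φ N T) (z g : El) (r : ℕ → El)
    (hz : InEls Φ N z) (hg : InEls Φ N g) (hz2 : ¬ InCls Φ N 2 z) (hg2 : ¬ InCls Φ N 2 g)
    (hr : ∀ f, f < 9 → InCls Φ N 2 (r f)) (hrinj : ∀ f f', r f = r f' → f = f')
    (hb : ∀ f, f < 9 → InBlocks Φ N [z, g, r f])
    (hfull : ∀ f, f < 9 → ∀ i, ∃ b, T i (r f) b ∧ ∀ a ∈ b, InCls Φ N 2 a) :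
    ∃ f, f < 9 ∧ Link T z g [z, g, r f] := by
  classical
  by_contra hcon
  push Not at hcon
  -- in each block one of the two is linked to the reference
  have hor : ∀ f : Fin 9, (∃ i, T i z [z, g, r f] ∧ T i (r f) [z, g, r f]) ∨
      (∃ i, T i g [z, g, r f] ∧ T i (r f) [z, g, r f]) := by
    intro f
    have hbf := (mem_blocks _).2 (hb f f.2)
    obtain ⟨iz, hiz⟩ := hT.cover z _ ((mem_els z).2 hz) hbf (by simp)
    obtain ⟨ig, hig⟩ := hT.cover g _ ((mem_els g).2 hg) hbf (by simp)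
    obtain ⟨ir, hir⟩ := hT.cover (r f) _
      ((mem_els (r f)).2 (.cls (q := 2) (by norm_num) (hr f f.2))) hbf (by simp)
    have hne : iz ≠ ig := by
      intro h
      exact hcon f f.2 ⟨iz, hiz, h ▸ hig⟩
    have h2 : ir = iz ∨ ir = ig := by omega
    rcases h2 with rfl | rfl
    · exact .inl ⟨ir, hiz, hir⟩
    · exact .inr ⟨ir, hig, hir⟩
  have hB : ∀ f f', f < 9 → f' < 9 → f ≠ f' → r f ∉ [z, g, r f'] := by
    intro f f' hf _ hne hmem
    simp only [List.mem_cons, List.not_mem_nil, or_false] at hmem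
    rcases hmem with h | h | h
    · exact hz2 (h ▸ hr f hf)
    · exact hg2 (h ▸ hr f hf)
    · exact hne (hrinj _ _ h)
  have hfz : ∀ w, ¬ InCls Φ N 2 w → ∀ f, f < 9 → ∀ i, ∃ b, T i (r f) b ∧ w ∉ b := by
    intro w hw f hf i
    obtain ⟨b, hb1, hb2⟩ := hfull f hf i
    exact ⟨b, hb1, fun h => hw (hb2 _ h)⟩
  set F1 : Finset (Fin 9) := Finset.univ.filter
    (fun f => ∃ i, T i z [z, g, r f] ∧ T i (r f) [z, g, r f]) with hF1
  set F2 : Finset (Fin 9) := Finset.univ.filter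
    (fun f => ∃ i, T i g [z, g, r f] ∧ T i (r f) [z, g, r f]) with hF2
  have hU : F1 ∪ F2 = Finset.univ := by
    ext f
    simp only [hF1, hF2, Finset.mem_union, Finset.mem_filter, Finset.mem_univ, true_and, iff_true]
    exact hor f
  have hc : 9 ≤ F1.card + F2.card := by
    have h3 := Finset.card_union_le F1 F2
    rw [hU, Finset.card_univ, Fintype.card_fin] at h3
    exact h3
  rcases Nat.lt_or_ge F1.card 5 with h | h
  · refine five h1 hT g r (fun f => [z, g, r f]) F2 (by omega) (hfz g hg2) hB ?_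
    intro f hf
    rw [hF2, Finset.mem_filter] at hf
    exact hf.2
  · refine five h1 hT z r (fun f => [z, g, r f]) F1 h (hfz z hz2) hB ?_
    intro f hf
    rw [hF1, Finset.mem_filter] at hf
    exact hf.2

end GUARD

theorem tGUARD (h1 : T_FIVE) : T_GUARD := by
  intro Φ N T c hc hT hG
  refine ⟨?_, ?_, ?_⟩
  · intro o i ho hi
    refine GUARD.main h1 hT _ _ (fun f => El.rx c o i f) (.x hc ho)
      (.cls (q := 1) (by norm_num) (.gx hc ho hi)) (by rintro ⟨⟩) (by rintro ⟨⟩)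
      (fun f hf => .rx hc ho hi hf) (fun f f' h => by injection h)
      (fun f hf => .gx hc ho hi hf) (fun f hf => hG 2 (by norm_num) _ (.rx hc ho hi hf) rfl)
  · intro o i ho hi
    refine GUARD.main h1 hT _ _ (fun f => El.r2 c o i f) (.e2 hc ho)
      (.cls (q := 1) (by norm_num) (.g2 hc ho hi)) (by rintro ⟨⟩) (by rintro ⟨⟩)
      (fun f hf => .r2 hc ho hi hf) (fun f f' h => by injection h)
      (fun f hf => .g2 hc ho hi hf) (fun f hf => hG 2 (by norm_num) _ (.r2 hc ho hi hf) rfl)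
  · intro j i hj hi
    refine GUARD.main h1 hT _ _ (fun f => El.r3 c j i f) (.e3 hc hj)
      (.cls (q := 1) (by norm_num) (.g3 hc hj hi)) (by rintro ⟨⟩) (by rintro ⟨⟩)
      (fun f hf => .r3 hc hj hi hf) (fun f f' h => by injection h)
      (fun f hf => .g3 hc hj hi hf) (fun f hf => hG 2 (by norm_num) _ (.r3 hc hj hi hf) rfl)

end Pool.Agent.ObsNum
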