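import Pool.Agent.ObsNum.Targets

set_option autoImplicit false

/-!
# OBS-IA
-/

namespace Pool.Agent.ObsNum

open Pool.Agent.PAH (Plane det3)

/-- five indices different from two given ones -/
theorem ia_five (j k : Fin 7) (hjk : j ≠ k) :
    ∃ e : Fin 5 → Fin 7, Function.Injective e ∧ (∀ x, e x ≠ j) ∧ ∀ x, e x ≠ k := by
  have hc : ((Finset.univ.erase j).erase k : Finset (Fin 7)).card = 5 := by
    rw [Finset.card_erase_of_mem, Finset.card_erase_of_mem (Finset.mem_univ _)]
    · simp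
    · simp [hjk.symm]
  refine ⟨fun x => Finset.orderEmbOfFin _ hc x, (Finset.orderEmbOfFin _ hc).injective, ?_, ?_⟩
  · intro x hx
    have h := Finset.orderEmbOfFin_mem _ hc x
    simp only [Finset.mem_erase, Finset.mem_univ, and_true] at h
    exact h.2 hx
  · intro x hx
    have h := Finset.orderEmbOfFin_mem _ hc x
    simp only [Finset.mem_erase, Finset.mem_univ, and_true] at h
    exact h.1 hx

theorem tIA (h1 : T_OUT) (h2 : T_SEG) (h3 : T_CL) : T_IA := by
  intro α β C s c hq i hT j k hjk hstr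
  obtain ⟨e, he, hej, hek⟩ := ia_five j k hjk
  -- elements and blocks of the five other indices are outside
  have outE : ∀ x, C.p (.inl (s (e x))) ∉ convexHull ℝ (C.O i) := by
    intro x
    refine h1 α β C i (s j) (c j k) hstr _ (C.miss i _ _ trivial) (C.miss i _ _ ?_)
    show ¬ C.inc (s (e x)) (c j k)
    rw [hq.inc _ _ _ hjk]
    rintro (h | h)
    · exact hej x (hq.inj h)
    · exact hek x (hq.inj h)
  have outB : ∀ x y, x ≠ y → C.p (.inr (c (e x) (e y))) ∉ convexHull ℝ (C.O i) := by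
    intro x y hxy
    refine h1 α β C i (s j) (c j k) hstr _ (C.miss i _ _ ?_) (C.miss i _ _ trivial)
    show ¬ C.inc (s j) (c (e x) (e y))
    rw [hq.inc _ _ _ (fun h => hxy (he h))]
    rintro (h | h)
    · exact hej x (hq.inj h).symm
    · exact hej y (hq.inj h).symm
  have hit : ∀ x y, x ≠ y → ¬ Disjoint (segment ℝ (C.p (.inl (s (e x))))
      (C.p (.inr (c (e x) (e y))))) (convexHull ℝ (C.O i)) := by
    intro x y hxy hd
    exact hT (e x) (e y) (fun h => hxy (he h)) (hd.mono_right (subset_convexHull ℝ _))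
  have mis : ∀ x y z, y ≠ z → x ≠ y → x ≠ z → Disjoint (segment ℝ (C.p (.inl (s (e x))))
      (C.p (.inr (c (e y) (e z))))) (convexHull ℝ (C.O i)) := by
    intro x y z hyz hxy hxz
    refine h2 _ _ _ (C.conn i) (C.miss i _ _ ?_) (outE x) (outB y z hyz)
    show ¬ C.inc (s (e x)) (c (e y) (e z))
    rw [hq.inc _ _ _ (fun h => hyz (he h))]
    rintro (h | h)
    · exact hxy (he (hq.inj h))
    · exact hxz (he (hq.inj h))
  -- indices: `z = 0`, `w = 1`, `u l = l + 2`
  let u : Fin 3 → Fin 5 := ![2, 3, 4]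
  have hu0 : ∀ l, (0 : Fin 5) ≠ u l := by decide
  have hu1 : ∀ l, u l ≠ (1 : Fin 5) := by decide
  have huu : ∀ l m, l ≠ m → u l ≠ u m := by decide
  refine h3 (convexHull ℝ (C.O i)) (convex_convexHull ℝ _) (C.p (.inl (s (e 0))))
    (fun l => C.p (.inl (s (e (u l))))) (fun l => C.p (.inr (c (e 0) (e (u l)))))
    (fun l => C.p (.inr (c (e (u l)) (e 1)))) ?_ ?_ ?_ ?_ ?_
  · intro l
    exact hit 0 (u l) (hu0 l)
  · intro l
    have := hit (u l) 0 (hu0 l).symm
    rwa [hq.symm (e (u l)) (e 0)] at this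
  · intro l
    exact hit (u l) 1 (hu1 l)
  · intro l
    exact mis 0 (u l) 1 (hu1 l) (hu0 l) (by decide)
  · intro l m hlm
    exact mis (u l) 0 (u m) (hu0 m) (hu0 l).symm (huu l m hlm)

end Pool.Agent.ObsNum
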