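import Pool.Agent.ObsNum.Targets

set_option autoImplicit false

namespace Pool.Agent.ObsNum

open Pool.Agent.PAH (Plane det3)

theorem tIB (h1 : T_NS) : T_IB := by
  intro α β C s c hQ hT
  let e : Fin 5 → Fin 7 := Fin.castLE (by norm_num)
  have he : Function.Injective e := Fin.castLE_injective _
  have hs : ∀ i j, i ≠ j → s (e i) ≠ s (e j) := fun i j hij h => hij (he (hQ.inj h))
  refine h1 (fun i => C.p (.inl (s (e i)))) (fun i j => C.p (.inr (c (e i) (e j)))) ?_ ?_ ?_ ?_
  · intro i j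
    show C.p (.inr (c (e i) (e j))) = C.p (.inr (c (e j) (e i)))
    rw [hQ.symm]
  · intro i j k hij hik hjk
    refine C.gp _ _ _ ?_ ?_ ?_
    · intro h; exact hs i j hij (Sum.inl_injective h)
    · intro h; exact hs i k hik (Sum.inl_injective h)
    · intro h; exact hs j k hjk (Sum.inl_injective h)
  · intro i j hij
    refine C.gp _ _ _ ?_ Sum.inl_ne_inr Sum.inl_ne_inr
    intro h; exact hs i j hij (Sum.inl_injective h)
  · intro i j hij
    have heij : e i ≠ e j := fun h => hij (he h)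
    obtain ⟨o, hTo, hStr⟩ := hT (e i) (e j) heij
    -- good vertices
    have key : ∀ v w : α ⊕ β, CAdj C.inc v (.inl (s (e i))) →
        CAdj C.inc v (.inr (c (e i) (e j))) → CAdj C.inc w (.inl (s (e i))) →
        CAdj C.inc w (.inr (c (e i) (e j))) →
        0 < det3 (C.p (.inl (s (e i)))) (C.p (.inr (c (e i) (e j)))) (C.p v) →
        ¬ det3 (C.p (.inl (s (e i)))) (C.p (.inr (c (e i) (e j)))) (C.p w) < 0 := by
      intro v w hv1 hv2 hw1 hw2 hv hw
      exact hStr ⟨hTo, v, w, C.miss o _ _ hv1, C.miss o _ _ hv2, C.miss o _ _ hw1,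
        C.miss o _ _ hw2, hv, hw⟩
    have hne : ∀ v : α ⊕ β, v ≠ .inl (s (e i)) → v ≠ .inr (c (e i) (e j)) →
        det3 (C.p (.inl (s (e i)))) (C.p (.inr (c (e i) (e j)))) (C.p v) ≠ 0 := by
      intro v hv1 hv2
      exact C.gp _ _ _ Sum.inl_ne_inr hv1.symm hv2.symm
    have hsig : ∃ σ : ℝ, ∀ v : α ⊕ β, CAdj C.inc v (.inl (s (e i))) →
        CAdj C.inc v (.inr (c (e i) (e j))) → v ≠ .inl (s (e i)) → v ≠ .inr (c (e i) (e j)) →
        0 < σ * det3 (C.p (.inl (s (e i)))) (C.p (.inr (c (e i) (e j)))) (C.p v) := by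
      by_cases hex : ∃ v : α ⊕ β, CAdj C.inc v (.inl (s (e i))) ∧
          CAdj C.inc v (.inr (c (e i) (e j))) ∧
          0 < det3 (C.p (.inl (s (e i)))) (C.p (.inr (c (e i) (e j)))) (C.p v)
      · obtain ⟨v, hv1, hv2, hv⟩ := hex
        refine ⟨1, fun w hw1 hw2 hw3 hw4 => ?_⟩
        rw [one_mul]
        exact lt_of_le_of_ne (not_lt.1 (key v w hv1 hv2 hw1 hw2 hv)) (hne w hw3 hw4).symm
      · push Not at hex
        refine ⟨-1, fun w hw1 hw2 hw3 hw4 => ?_⟩
        have h2 := lt_of_le_of_ne (hex w hw1 hw2) (hne w hw3 hw4)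
        linarith
    obtain ⟨σ, hσ⟩ := hsig
    have hinc : ∀ k, k ≠ i → k ≠ j → ¬ C.inc (s (e k)) (c (e i) (e j)) := by
      intro k hki hkj h
      rcases (hQ.inc _ _ _ heij).1 h with h | h
      · exact hs k i hki h
      · exact hs k j hkj h
    refine ⟨σ, ?_, ?_⟩
    · intro k hki hkj
      refine hσ (.inl (s (e k))) trivial (hinc k hki hkj) ?_ Sum.inl_ne_inr
      intro h; exact hs k i hki (Sum.inl_injective h)
    · intro k l hkl hki hkj hli hlj
      have hekl : e k ≠ e l := fun h => hkl (he h)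
      refine hσ (.inr (c (e k) (e l))) ?_ trivial Sum.inr_ne_inl ?_
      · show ¬ C.inc (s (e i)) (c (e k) (e l))
        intro h
        rcases (hQ.inc _ _ _ hekl).1 h with h | h
        · exact hs k i hki h.symm
        · exact hs l i hli h.symm
      · intro h
        have h2 : c (e k) (e l) = c (e i) (e j) := Sum.inr_injective h
        have h3 : C.inc (s (e k)) (c (e k) (e l)) := (hQ.inc _ _ _ hekl).2 (Or.inl rfl)
        rw [h2] at h3
        exact hinc k hki hkj h3

end Pool.Agent.ObsNum
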