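import Pool.Agent.ObsNum.Targets

set_option autoImplicit false

/-!
# OBS-II: one obstacle meets the segments to the larger elements, the other one those to the
smaller elements
-/

namespace Pool.Agent.ObsNum

open Pool.Agent.PAH (Plane det3)

theorem det3_swap12 (a b c : Plane) : det3 b a c = -det3 a b c := by
  unfold det3; ring

/-- blocks of a clique with different second index are different -/
theorem Cfg.QC.c_ne {α β : Type} {C : Cfg α β} {M : ℕ} {s : Fin M → α} {c : Fin M → Fin M → β}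
    (hQ : C.QC s c) {I J K : Fin M} (hIJ : I ≠ J) (hIK : I ≠ K) (hJK : J ≠ K) :
    c I J ≠ c I K := by
  intro h
  have h1 : C.inc (s J) (c I J) := (hQ.inc _ _ _ hIJ).2 (.inr rfl)
  rw [h] at h1
  rcases (hQ.inc _ _ _ hIK).1 h1 with h2 | h2
  · exact hIJ (hQ.inj h2).symm
  · exact hJK (hQ.inj h2)

/-- an element different from `a`, `b` is not incident with the block `c a b` -/
theorem Cfg.QC.not_inc {α β : Type} {C : Cfg α β} {M : ℕ} {s : Fin M → α} {c : Fin M → Fin M → β}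
    (hQ : C.QC s c) {I J K : Fin M} (hJK : J ≠ K) (hIJ : I ≠ J) (hIK : I ≠ K) :
    ¬ C.inc (s I) (c J K) := by
  intro h
  rcases (hQ.inc _ _ _ hJK).1 h with h2 | h2
  · exact hIJ (hQ.inj h2)
  · exact hIK (hQ.inj h2)

/-- `¬ Str`: all points which see both ends are on one side -/
theorem Cfg.not_str_side {α β : Type} (C : Cfg α β) (i : Fin 2) (a : α) (b : β)
    (hT : C.T i a b) (hS : ¬ C.Str i a b) :
    ∃ σ : ℝ, ∀ v : α ⊕ β, v ≠ .inl a → v ≠ .inr b → C.See i v (.inl a) → C.See i v (.inr b) →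
      0 < σ * det3 (C.p (.inl a)) (C.p (.inr b)) (C.p v) := by
  classical
  have hgp : ∀ v : α ⊕ β, v ≠ .inl a → v ≠ .inr b →
      det3 (C.p (.inl a)) (C.p (.inr b)) (C.p v) ≠ 0 := by
    intro v h1 h2
    exact C.gp _ _ _ (by simp) h1.symm h2.symm
  by_cases h : ∃ v : α ⊕ β, C.See i v (.inl a) ∧ C.See i v (.inr b) ∧
      0 < det3 (C.p (.inl a)) (C.p (.inr b)) (C.p v)
  · obtain ⟨v, h1, h2, h3⟩ := h
    refine ⟨1, fun w hw1 hw2 hw3 hw4 => ?_⟩
    rw [one_mul]
    rcases lt_or_gt_of_ne (hgp w hw1 hw2) with h4 | h4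
    · exact absurd ⟨hT, v, w, h1, h2, hw3, hw4, h3, h4⟩ hS
    · exact h4
  · refine ⟨-1, fun w hw1 hw2 hw3 hw4 => ?_⟩
    rcases lt_or_gt_of_ne (hgp w hw1 hw2) with h4 | h4
    · linarith
    · exact absurd ⟨w, hw3, hw4, h4⟩ h

theorem tII (h1 : T_OUT) (h2 : T_SEG) (h3 : T_IIB) : T_II := by
  classical
  rintro α β C s c hQ i i' r hr hT hS ⟨j0, k0, hjk, hStr⟩
  -- everything of the other five indices is outside the hull of the obstacle `i'`
  have outs : ∀ a, a ≠ j0 → a ≠ k0 → C.p (.inl (s a)) ∉ convexHull ℝ (C.O i') := by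
    intro a ha hb
    refine h1 α β C i' _ _ hStr (.inl (s a)) ?_ ?_
    · exact C.miss i' (.inl (s a)) (.inl (s j0)) trivial
    · exact C.miss i' (.inl (s a)) (.inr (c j0 k0)) (hQ.not_inc hjk ha hb)
  have outc : ∀ a b, a ≠ b → a ≠ j0 → b ≠ j0 →
      C.p (.inr (c a b)) ∉ convexHull ℝ (C.O i') := by
    intro a b hab ha hb
    refine h1 α β C i' _ _ hStr (.inr (c a b)) ?_ ?_
    · exact C.miss i' (.inr (c a b)) (.inl (s j0)) (hQ.not_inc hab ha.symm hb.symm)
    · exact C.miss i' (.inr (c a b)) (.inr (c j0 k0)) trivial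
  -- the choice of the four indices
  set F : Finset (Fin 7) := (Finset.univ.erase j0).erase k0 with hF
  have hFc : F.card = 5 := by
    rw [hF, Finset.card_erase_of_mem (by simp [hjk.symm]), Finset.card_erase_of_mem (by simp)]
    simp
  have hFne : F.Nonempty := Finset.card_pos.1 (by omega)
  obtain ⟨I, hI, hmin⟩ := Finset.exists_min_image F r hFne
  have hF2 : 2 < (F.erase I).card := by
    rw [Finset.card_erase_of_mem hI]; omega
  obtain ⟨J, K, L, hJ, hK, hL, hJK, hJL, hKL⟩ := Finset.two_lt_card_iff.1 hF2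
  have hmemF : ∀ a, a ∈ F → a ≠ j0 ∧ a ≠ k0 := by
    intro a ha
    simp only [hF, Finset.mem_erase, Finset.mem_univ, and_true] at ha
    exact ⟨ha.2, ha.1⟩
  have hprop : ∀ a, a ∈ F.erase I → a ≠ I ∧ a ≠ j0 ∧ a ≠ k0 ∧ r I < r a := by
    intro a ha
    obtain ⟨ha1, ha2⟩ := Finset.mem_erase.1 ha
    refine ⟨ha1, (hmemF a ha2).1, (hmemF a ha2).2, lt_of_le_of_ne (hmin a ha2) ?_⟩
    intro h
    exact ha1 (hr h).symm
  obtain ⟨hI1, hI2⟩ := hmemF I hI
  -- the sign condition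
  have sgn : ∀ J K, J ∈ F.erase I → K ∈ F.erase I → J ≠ K → ∃ σ : ℝ,
      0 < σ * det3 (C.p (.inr (c I J))) (C.p (.inl (s J))) (C.p (.inl (s I))) ∧
      0 < σ * det3 (C.p (.inr (c I J))) (C.p (.inl (s J))) (C.p (.inl (s K))) ∧
      0 < σ * det3 (C.p (.inr (c I J))) (C.p (.inl (s J))) (C.p (.inr (c I K))) := by
    intro J K hJ hK hJK
    obtain ⟨hJI, hJ1, hJ2, hJr⟩ := hprop J hJ
    obtain ⟨hKI, hK1, hK2, hKr⟩ := hprop K hK
    obtain ⟨hT1, hT2, -, -⟩ := hT I J hJr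
    have hS1 : ¬ C.Str i (s J) (c I J) := by
      rw [hQ.symm I J]
      exact hS J I hJI
    obtain ⟨σ, hσ⟩ := C.not_str_side i (s J) (c I J) hT2 hS1
    refine ⟨-σ, ?_, ?_, ?_⟩
    · rw [det3_swap12, neg_mul_neg]
      refine hσ _ ?_ (by simp) ?_ ?_
      · intro h
        exact hJI (hQ.inj (Sum.inl.inj h)).symm
      · exact C.miss i (.inl (s I)) (.inl (s J)) trivial
      · exact not_not.1 hT1
    · rw [det3_swap12, neg_mul_neg]
      refine hσ _ ?_ (by simp) ?_ ?_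
      · intro h
        exact hJK (hQ.inj (Sum.inl.inj h)).symm
      · exact C.miss i (.inl (s K)) (.inl (s J)) trivial
      · exact C.miss i (.inl (s K)) (.inr (c I J)) (hQ.not_inc hJI.symm hKI hJK.symm)
    · rw [det3_swap12, neg_mul_neg]
      refine hσ _ (by simp) ?_ ?_ ?_
      · intro h
        exact hQ.c_ne hJI.symm hKI.symm hJK (Sum.inr.inj h).symm
      · exact C.miss i (.inr (c I K)) (.inl (s J)) (hQ.not_inc hKI.symm hJI hJK)
      · exact C.miss i (.inr (c I K)) (.inr (c I J)) trivial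
  have key : ∀ J K, J ∈ F.erase I → K ∈ F.erase I → J ≠ K →
      det3 (C.p (.inl (s I))) (C.p (.inr (c I J))) (C.p (.inl (s J))) *
      det3 (C.p (.inl (s I))) (C.p (.inr (c I K))) (C.p (.inl (s K))) ≤ 0 := by
    intro J K hJ hK hJK
    by_contra hcon
    push Not at hcon
    obtain ⟨hJI, hJ1, hJ2, hJr⟩ := hprop J hJ
    obtain ⟨hKI, hK1, hK2, hKr⟩ := hprop K hK
    have hit : ∀ J, J ∈ F.erase I → ¬ Disjoint (segment ℝ (C.p (.inl (s I)))
        (C.p (.inr (c I J)))) (convexHull ℝ (C.O i')) := by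
      intro J hJ hd
      exact (hT I J (hprop J hJ).2.2.2).2.2.1 (hd.mono_right (subset_convexHull ℝ _))
    have hmiss : ∀ J, J ∈ F.erase I → Disjoint (segment ℝ (C.p (.inl (s I)))
        (C.p (.inl (s J)))) (convexHull ℝ (C.O i')) := by
      intro J hJ
      obtain ⟨hJI, hJ1, hJ2, hJr⟩ := hprop J hJ
      exact h2 _ _ _ (C.conn i') (C.miss i' (.inl (s I)) (.inl (s J)) trivial) (outs I hI1 hI2)
        (outs J hJ1 hJ2)
    refine h3 (convexHull ℝ (C.O i')) (convex_convexHull ℝ _) (C.p (.inl (s I)))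
      (C.p (.inl (s J))) (C.p (.inl (s K))) (C.p (.inr (c I J))) (C.p (.inr (c I K)))
      (outs I hI1 hI2) (outc I J hJI.symm hI1 hJ1) (outc I K hKI.symm hI1 hK1)
      (hit J hJ) (hit K hK) (hmiss J hJ) (hmiss K hK) (sgn J K hJ hK hJK)
      (sgn K J hK hJ hJK.symm) ?_ ?_ ?_ hcon
    · refine C.gp _ _ _ (by simp) (by simp) ?_
      intro h
      exact hQ.c_ne hJI.symm hKI.symm hJK (Sum.inr.inj h)
    · refine C.gp _ _ _ ?_ (by simp) (by simp)
      intro h
      exact hJI (hQ.inj (Sum.inl.inj h)).symm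
    · refine C.gp _ _ _ ?_ (by simp) (by simp)
      intro h
      exact hKI (hQ.inj (Sum.inl.inj h)).symm
  have hne : ∀ J, J ∈ F.erase I →
      det3 (C.p (.inl (s I))) (C.p (.inr (c I J))) (C.p (.inl (s J))) ≠ 0 := by
    intro J hJ
    refine C.gp _ _ _ (by simp) ?_ (by simp)
    intro h
    exact (hprop J hJ).1 (hQ.inj (Sum.inl.inj h)).symm
  have k1 := key J K hJ hK hJK
  have k2 := key J L hJ hL hJL
  have k3 := key K L hK hL hKL
  have n1 := hne J hJ
  have n2 := hne K hK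
  have n3 := hne L hL
  generalize det3 (C.p (.inl (s I))) (C.p (.inr (c I J))) (C.p (.inl (s J))) = x at *
  generalize det3 (C.p (.inl (s I))) (C.p (.inr (c I K))) (C.p (.inl (s K))) = y at *
  generalize det3 (C.p (.inl (s I))) (C.p (.inr (c I L))) (C.p (.inl (s L))) = z at *
  have e1 : x * y < 0 := lt_of_le_of_ne k1 (mul_ne_zero n1 n2)
  have e2 : x * z < 0 := lt_of_le_of_ne k2 (mul_ne_zero n1 n3)
  have e3 : y * z < 0 := lt_of_le_of_ne k3 (mul_ne_zero n2 n3)
  have e4 : 0 < (x * y) * (x * z) := mul_pos_of_neg_of_neg e1 e2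
  have e5 : 0 < x ^ 2 := by positivity
  nlinarith [mul_pos_of_neg_of_neg e1 e2]

end Pool.Agent.ObsNum
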