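import Pool.Agent.ObsNum.Targets

set_option autoImplicit false

/-!
# OBS-IIB (helper17)
-/

namespace Pool.Agent.ObsNum

open Pool.Agent.PAH (Plane det3)

namespace IIB_

/-- the main case, after the symmetry `(j, cj) ↔ (k, ck)` is used -/
lemma aux (C : Set Plane) (hC : Convex ℝ C) (i j k cj ck : Plane) (hi : i ∉ C)
    (h1 : ¬ Disjoint (segment ℝ i cj) C) (h2 : ¬ Disjoint (segment ℝ i ck) C)
    (h3 : Disjoint (segment ℝ i j) C)
    (σ : ℝ) (s1 : 0 < σ * det3 cj j i) (s3 : 0 < σ * det3 cj j ck)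
    (σ' : ℝ) (t1 : 0 < σ' * det3 ck k i) (t2 : 0 < σ' * det3 ck k j) (t3 : 0 < σ' * det3 ck k cj)
    (hA : det3 i j ck ≠ 0) (hD : 0 < det3 i cj ck * det3 i cj j) : False := by
  obtain ⟨D, hDdef⟩ : ∃ D, D = det3 i cj ck := ⟨_, rfl⟩
  obtain ⟨D1, hD1def⟩ : ∃ D, D = det3 i cj j := ⟨_, rfl⟩
  obtain ⟨A, hAdef⟩ : ∃ D, D = det3 i j ck := ⟨_, rfl⟩
  have e1 : det3 cj j i = D1 := by rw [hD1def]; unfold det3; ring
  have e3 : det3 cj j ck = A + D1 - D := by rw [hD1def, hAdef, hDdef]; unfold det3; ring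
  rw [e1] at s1
  rw [e3] at s3
  rw [← hDdef, ← hD1def] at hD
  rw [← hAdef] at hA
  have sD : 0 < σ * D := by
    have h : 0 < (σ * D1) * (D * D1) := mul_pos s1 hD
    have h' : (σ * D1) * (D * D1) = (σ * D) * D1 ^ 2 := by ring
    rw [h'] at h
    rcases le_or_gt (σ * D) 0 with h'' | h''
    · exact absurd h (not_lt.mpr (mul_nonpos_of_nonpos_of_nonneg h'' (sq_nonneg _)))
    · exact h''
  have hD0 : D ≠ 0 := fun h => by rw [h, mul_zero] at sD; exact lt_irrefl _ sD
  have hσ : σ ≠ 0 := fun h => by rw [h, zero_mul] at sD; exact lt_irrefl _ sD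
  rcases lt_or_gt_of_ne (mul_ne_zero (mul_ne_zero hσ hA)
    (show (1 : ℝ) ≠ 0 from one_ne_zero)) with hneg | hpos
  · -- `ck` is a positive combination of `i`, `cj`, `j`
    have hA' : 0 < σ * (-A) := by linarith
    have id1 : D1 * det3 ck k ck = (A + D1 - D) * det3 ck k i + (-A) * det3 ck k cj +
        D * det3 ck k j := by
      rw [hD1def, hAdef, hDdef]; unfold det3; ring
    have id2 : det3 ck k ck = 0 := by unfold det3; ring
    rw [id2, mul_zero] at id1
    have p1 := mul_pos s3 t1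
    have p2 := mul_pos hA' t3
    have p3 := mul_pos sD t2
    have : (σ * σ') * 0 = (σ * (A + D1 - D)) * (σ' * det3 ck k i) +
        (σ * (-A)) * (σ' * det3 ck k cj) + (σ * D) * (σ' * det3 ck k j) := by
      rw [id1]; ring
    rw [mul_zero] at this
    linarith
  · -- the segment `i j` meets `C`
    have hA' : 0 < σ * A := by linarith
    rw [Set.not_disjoint_iff] at h1 h2
    obtain ⟨x, hx1, hxC⟩ := h1
    obtain ⟨y, hy1, hyC⟩ := h2
    rw [segment_eq_image] at hx1 hy1
    obtain ⟨s, ⟨hs0, hs1⟩, rfl⟩ := hx1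
    obtain ⟨t, ⟨ht0, ht1⟩, rfl⟩ := hy1
    have hs0' : 0 < s := lt_of_le_of_ne hs0 fun h => hi (by
      rw [← h] at hxC; simpa using hxC)
    have ht0' : 0 < t := lt_of_le_of_ne ht0 fun h => hi (by
      rw [← h] at hyC; simpa using hyC)
    obtain ⟨a, ha⟩ : ∃ a, a = A / D := ⟨_, rfl⟩
    obtain ⟨b, hb⟩ : ∃ b, b = D1 / D := ⟨_, rfl⟩
    have ha0 : 0 < a := by
      have : a = (σ * A) / (σ * D) := by rw [ha]; field_simp
      rw [this]; exact div_pos hA' sD
    have hb0 : 0 < b := by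
      have : b = (σ * D1) / (σ * D) := by rw [hb]; field_simp
      rw [this]; exact div_pos s1 sD
    have hab : 1 < a + b := by
      have : a + b - 1 = (σ * (A + D1 - D)) / (σ * D) := by rw [ha, hb]; field_simp
      have h' := div_pos s3 sD
      linarith
    have hj1 : j.1 - i.1 = a * (cj.1 - i.1) + b * (ck.1 - i.1) := by
      rw [ha, hb]
      field_simp
      rw [hD1def, hAdef, hDdef]; unfold det3; ring
    have hj2 : j.2 - i.2 = a * (cj.2 - i.2) + b * (ck.2 - i.2) := by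
      rw [ha, hb]
      field_simp
      rw [hD1def, hAdef, hDdef]; unfold det3; ring
    have hα : 0 < a / s := div_pos ha0 hs0'
    have hβ : 0 < b / t := div_pos hb0 ht0'
    have hαa : a ≤ a / s := by rw [le_div_iff₀ hs0']; nlinarith
    have hβb : b ≤ b / t := by rw [le_div_iff₀ ht0']; nlinarith
    obtain ⟨m, hm⟩ : ∃ m, m = a / s + b / t := ⟨_, rfl⟩
    have hm1 : 1 < m := by linarith
    have hm0 : 0 < m := by linarith
    have hz := hC hxC hyC (div_nonneg hα.le hm0.le) (div_nonneg hβ.le hm0.le)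
      (by rw [← add_div, ← hm, div_self hm0.ne'])
    refine Set.disjoint_left.mp h3 ?_ hz
    rw [segment_eq_image]
    refine ⟨1 / m, ⟨by positivity, by rw [div_le_one hm0]; exact hm1.le⟩, ?_⟩
    have hs := hs0'.ne'
    have ht := ht0'.ne'
    have hm' := hm0.ne'
    ext
    · simp only [Prod.fst_add, Prod.smul_fst, smul_eq_mul]
      have : j.1 = i.1 + (a * (cj.1 - i.1) + b * (ck.1 - i.1)) := by linarith
      rw [this]
      field_simp
      rw [hm]
      field_simp
      ring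
    · simp only [Prod.snd_add, Prod.smul_snd, smul_eq_mul]
      have : j.2 = i.2 + (a * (cj.2 - i.2) + b * (ck.2 - i.2)) := by linarith
      rw [this]
      field_simp
      rw [hm]
      field_simp
      ring

end IIB_

theorem tIIB : T_IIB := by
  intro C hC i j k cj ck hi _ _ h1 h2 h3 h4 ⟨σ, s1, s2, s3⟩ ⟨σ', t1, t2, t3⟩ hD hA hB hpos
  have hsw : det3 i ck cj = - det3 i cj ck := by unfold det3; ring
  have hne : det3 i cj ck * det3 i cj j ≠ 0 :=
    mul_ne_zero hD fun h => by rw [h, zero_mul] at hpos; exact lt_irrefl _ hpos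
  rcases lt_or_gt_of_ne hne with hlt | hgt
  · refine IIB_.aux C hC i k j ck cj hi h2 h1 h4 σ' t1 t3 σ s1 s2 s3 hB ?_
    rw [hsw]
    have h5 : 0 < (-(det3 i cj ck * det3 i cj j)) * (det3 i cj j * det3 i ck k) :=
      mul_pos (by linarith) hpos
    have h6 : (-(det3 i cj ck * det3 i cj j)) * (det3 i cj j * det3 i ck k) =
      (-det3 i cj ck * det3 i ck k) * (det3 i cj j) ^ 2 := by ring
    rw [h6] at h5
    rcases le_or_gt (-det3 i cj ck * det3 i ck k) 0 with h'' | h''
    · exact absurd h5 (not_lt.mpr (mul_nonpos_of_nonpos_of_nonneg h'' (sq_nonneg _)))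
    · exact h''
  · exact IIB_.aux C hC i j k cj ck hi h1 h2 h3 σ s1 s3 σ' t1 t2 t3 hA hgt

end Pool.Agent.ObsNum
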