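import Pool.Agent.ObsNum.Layout

set_option autoImplicit false

/-!
# OBS-LAY: the layout of the graph, from the lemmas on the blocks
-/

namespace Pool.Agent.ObsNum

/-- a code of the elements -/
def El.code : El → ℕ × ℕ × ℕ × ℕ × ℕ
  | .x c o => (0, c, o, 0, 0)
  | .e3 c j => (1, c, j, 0, 0)
  | .e2 c o => (2, c, o, 0, 0)
  | .lit c o s => (3, c, o, s.toNat, 0)
  | .gx c o i => (4, c, o, i, 0)
  | .g3 c j i => (5, c, j, i, 0)
  | .g2 c o i => (6, c, o, i, 0)
  | .rx c o i f => (7, c, o, i, f)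
  | .r3 c j i f => (8, c, j, i, f)
  | .r2 c o i f => (9, c, o, i, f)

theorem El.code_inj : Function.Injective El.code := by
  intro a b h
  cases a <;> cases b <;> simp only [El.code, Prod.mk.injEq] at h <;> simp_all
  rename_i s s'
  revert h
  cases s <;> cases s' <;> simp

theorem El.exists_inj : ∃ ι : El → ℤ, Function.Injective ι := by
  refine ⟨fun a => (Encodable.encode a.code : ℤ), fun a b h => ?_⟩
  exact El.code_inj (Encodable.encode_injective (Int.ofNat_injective h))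

theorem LD.el_ord (D : LD) (N : ℕ) (a : El) (h : InEls D.Φ N a) :
    D.P 0 a < D.P 1 a ∨ (D.P 0 a = D.P 1 a ∧ D.s 0 a < D.s 1 a) := by
  cases a <;> simp [LD.P, LD.s]

theorem tLAY (h1 : T_LAYQ) (h2 : T_LAYGX) (h3 : T_LAYG3) (h4 : T_LAYG2) (h5 : T_LAYC3)
    (h6 : T_LAYC2) : T_LAY := by
  classical
  intro Φ N τ hΦ hCl hnx
  obtain ⟨ι, hι⟩ := El.exists_inj
  have hdes : ∀ j, ∃ t, j < Φ.K → t < 3 ∧ τ (3 * j + t) = Φ.sg (3 * j + t) := by
    intro j
    by_cases hj : j < Φ.K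
    · obtain ⟨t, ht⟩ := hCl j hj
      exact ⟨t, fun _ => ht⟩
    · exact ⟨0, fun h => absurd h hj⟩
  choose des hdes using hdes
  set D : LD := ⟨Φ, τ, des, ι⟩ with hD
  have hOk : D.Ok := ⟨hΦ, hdes, hnx, hι⟩
  have all : ∀ b, InBlocks Φ N b → D.Far N b ∧ D.Near N b ∧ D.Ord b := by
    intro b hb
    cases hb with
    | @q q a a' hq h h' hne => exact h1 D N q a a' hOk hq h h' hne
    | gx hc ho hi hf => exact h2 D N _ _ _ _ hOk hc ho hi hf
    | g2 hc ho hi hf => exact h4 D N _ _ _ _ hOk hc ho hi hf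
    | g3 hc hj hi hf => exact h3 D N _ _ _ _ hOk hc hj hi hf
    | c3 hc hj ht => exact h5 D N _ _ _ hOk hc hj ht
    | cn hc ho => exact (h6 D N _ _ hOk hc ho).1
    | cp hc ho => exact (h6 D N _ _ hOk hc ho).2
  refine ⟨D.P, D.s, D.Q, D.t, ?_, ?_, ?_, ?_⟩
  · intro a ha
    exact D.el_ord N a ((mem_els a).1 ha)
  · intro b hb
    exact (all b ((mem_blocks b).1 hb)).2.2
  · intro a ha b hb hab i hi
    exact (all b ((mem_blocks b).1 hb)).1 a ((mem_els a).1 ha) hab i hi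
  · intro a ha b hb hab
    exact (all b ((mem_blocks b).1 hb)).2.1 a ((mem_els a).1 ha) hab

end Pool.Agent.ObsNum
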