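import Pool.Agent.ObsNum.LayBase

set_option autoImplicit false

/-!
# The guard blocks in the integer layout
-/

namespace Pool.Agent.ObsNum

theorem tLAYGX : T_LAYGX := by
  intro D N c o k f hD hc ho hk hf
  have hinj := hD.inj
  by_cases hk2 : k < 2
  · -- guards 0 and 1
    have hQ0 : D.Q 0 [El.x c o, El.gx c o k, El.rx c o k f] = 0 := by simp [LD.Q, hk2]
    have hQ1 : D.Q 1 [El.x c o, El.gx c o k, El.rx c o k f] = -2 := by simp [LD.Q, hk2]
    have hm : mlen D.Q [El.x c o, El.gx c o k, El.rx c o k f] = 2 := by simp [mlen, hQ0, hQ1]
    have ht0 : D.t 0 [El.x c o, El.gx c o k, El.rx c o k f] =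
        10000 * D.ι (.x c o) + (if k = 1 then 130 else -130) := by
      simp [LD.t, hk2, LD.B]
    have ht1 : D.t 1 [El.x c o, El.gx c o k, El.rx c o k f] =
        10000 * D.ι (.rx c o k f) + 1 := by
      simp [LD.t, hk2, LD.B, LD.s]
    refine ⟨?_, ?_, ?_⟩
    · intro a ha hab i hP
      rw [hm]
      fin_cases i
      · simp only [Fin.zero_eta] at hP ⊢
        rw [hQ0] at hP
        refine D.far_of hinj 0 a 2 _ _ _ ht0 ?_ (by norm_num) ?_
        · rw [abs_le]; split_ifs <;> norm_num
        · intro hl
          cases a with
          | x c' o' => simp_all [LD.lab]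
          | e3 c' j' => simp_all [LD.lab]
          | e2 c' q' => simp_all [LD.P]
          | lit c' o' b => simp only [LD.P] at hP; split_ifs at hP <;> omega
          | gx c' o' k' =>
            simp only [LD.lab, El.x.injEq] at hl
            obtain ⟨rfl, rfl⟩ := hl
            rw [D.mlen_el]
            simp only [LD.P] at hP
            simp only [LD.off]
            have h1 : k' < 2 := by
              by_contra h
              rw [if_neg h] at hP
              exact absurd hP (by norm_num)
            have h2 : k' ≠ k := by
              rintro rfl
              exact hab (by simp)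
            rw [lt_abs]
            have h3 : k' = 0 ∨ k' = 1 := by omega
            have h4 : k = 0 ∨ k = 1 := by omega
            rcases h3 with rfl | rfl <;> rcases h4 with rfl | rfl <;> simp_all
          | g3 c' j' k' => simp_all [LD.P]
          | g2 c' q' k' => simp only [LD.P] at hP; split_ifs at hP <;> omega
          | rx c' o' k' f' => simp_all [LD.lab]
          | r3 c' j' k' f' => simp_all [LD.lab]
          | r2 c' q' k' f' => simp_all [LD.lab]
      · simp only [Fin.mk_one] at hP ⊢
        refine D.far_of hinj 1 a 2 _ _ _ ht1 (by norm_num) (by norm_num) ?_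
        intro hl
        exfalso
        have key : a = .rx c o k f := by
          cases a with
          | e2 c' q' => simp [LD.lab] at hl
          | lit c' o' b => simp only [LD.lab, LD.ancl] at hl; split_ifs at hl
          | g2 c' q' k' => simp only [LD.lab, LD.ancl] at hl; split_ifs at hl
          | rx c' o' k' f' => exact hl
          | _ => simp [LD.lab] at hl
        exact hab (by simp [key])
    · intro a ha hab
      rw [hm]
      simp only [List.mem_cons, List.not_mem_nil, or_false] at hab
      rcases hab with rfl | rfl | rfl
      · refine ⟨0, by rw [hQ0]; simp [LD.P], .inr ?_⟩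
        rw [ht0, D.s_eq, D.mlen_el, abs_lt]
        simp only [LD.lab, LD.off]
        split_ifs <;> constructor <;> linarith
      · refine ⟨0, by rw [hQ0]; simp [LD.P, hk2], .inr ?_⟩
        rw [ht0, D.s_eq, D.mlen_el, abs_lt]
        simp only [LD.lab, LD.off]
        split_ifs <;> constructor <;> simp <;> linarith
      · refine ⟨1, by rw [hQ1]; simp [LD.P, hk2], .inl ?_⟩
        rw [ht1, D.s_eq]
        simp [LD.lab, LD.off]
    · left
      rw [hQ0, hQ1]
      norm_num
  · -- guard 2
    obtain rfl : k = 2 := by omega
    have hQ0 : D.Q 0 [El.x c o, El.gx c o 2, El.rx c o 2 f] = 3 := by simp [LD.Q]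
    have hQ1 : D.Q 1 [El.x c o, El.gx c o 2, El.rx c o 2 f] = 1 := by simp [LD.Q]
    have hm : mlen D.Q [El.x c o, El.gx c o 2, El.rx c o 2 f] = 2 := by simp [mlen, hQ0, hQ1]
    have ht0 : D.t 0 [El.x c o, El.gx c o 2, El.rx c o 2 f] =
        10000 * D.ι (.rx c o 2 f) + 0 := by
      simp [LD.t, LD.B, LD.s]
    have ht1 : D.t 1 [El.x c o, El.gx c o 2, El.rx c o 2 f] =
        10000 * D.ι (.x c o) + (-130) := by
      simp [LD.t, LD.B]
      ring
    refine ⟨?_, ?_, ?_⟩
    · intro a ha hab i hP
      rw [hm]
      fin_cases i
      · simp only [Fin.zero_eta] at hP ⊢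
        refine D.far_of hinj 0 a 2 _ _ _ ht0 (by norm_num) (by norm_num) ?_
        intro hl
        exfalso
        have key : a = .rx c o 2 f := by
          cases a with
          | e2 c' q' => simp only [LD.lab, LD.ancl] at hl; split_ifs at hl <;> simp_all
          | lit c' o' b => simp only [LD.lab, LD.ancl] at hl; split_ifs at hl
          | g2 c' q' k' => simp only [LD.lab, LD.ancl] at hl; split_ifs at hl
          | rx c' o' k' f' => exact hl
          | _ => simp [LD.lab] at hl
        exact hab (by simp [key])
      · simp only [Fin.mk_one] at hP ⊢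
        rw [hQ1] at hP
        refine D.far_of hinj 1 a 2 _ _ _ ht1 (by norm_num) (by norm_num) ?_
        intro hl
        cases a with
        | x c' o' => simp_all [LD.lab]
        | e3 c' j' => simp_all [LD.lab]
        | e2 c' q' => simp_all [LD.P]
        | lit c' o' b =>
          have hb : b = D.τ o' := by
            by_contra h
            simp [LD.P, h] at hP
          rw [D.mlen_el, lt_abs]
          simp [LD.off, hb]
        | gx c' o' k' =>
          simp only [LD.lab, El.x.injEq] at hl
          obtain ⟨rfl, rfl⟩ := hl
          exfalso
          simp only [LD.P] at hP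
          have h1 : ¬ k' < 2 := by
            intro h
            rw [if_pos h] at hP
            exact absurd hP (by norm_num)
          have h2 : k' ≠ 2 := by
            rintro rfl
            exact hab (by simp)
          cases ha with
          | @cls q _ hq h => cases h; omega
        | g3 c' j' k' => simp_all [LD.P]
        | g2 c' q' k' => simp only [LD.P] at hP; split_ifs at hP <;> omega
        | rx c' o' k' f' => simp_all [LD.lab]
        | r3 c' j' k' f' => simp_all [LD.lab]
        | r2 c' q' k' f' => simp_all [LD.lab]
    · intro a ha hab
      rw [hm]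
      simp only [List.mem_cons, List.not_mem_nil, or_false] at hab
      rcases hab with rfl | rfl | rfl
      · refine ⟨1, by rw [hQ1]; simp [LD.P], .inr ?_⟩
        rw [ht1, D.s_eq, D.mlen_el, abs_lt]
        simp only [LD.lab, LD.off]
        constructor <;> linarith
      · refine ⟨1, by rw [hQ1]; simp [LD.P], .inr ?_⟩
        rw [ht1, D.s_eq, D.mlen_el, abs_lt]
        simp only [LD.lab, LD.off]
        constructor <;> simp <;> linarith
      · refine ⟨0, by rw [hQ0]; simp [LD.P], .inl ?_⟩
        rw [ht0, D.s_eq]
        simp [LD.lab, LD.off]
    · left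
      rw [hQ0, hQ1]
      norm_num


theorem tLAYG3 : T_LAYG3 := by
  intro D N c j k f hD hc hj hk hf
  have hinj := hD.inj
  have hQ0 : D.Q 0 [El.e3 c j, El.g3 c j k, El.r3 c j k f] = 6 := by simp [LD.Q]
  have hQ1 : D.Q 1 [El.e3 c j, El.g3 c j k, El.r3 c j k f] = 4 := by simp [LD.Q]
  have hm : mlen D.Q [El.e3 c j, El.g3 c j k, El.r3 c j k f] = 2 := by simp [mlen, hQ0, hQ1]
  have ht0 : D.t 0 [El.e3 c j, El.g3 c j k, El.r3 c j k f] =
      10000 * D.ι (.r3 c j k f) + 0 := by
    simp [LD.t, LD.B, LD.s]
  have ht1 : D.t 1 [El.e3 c j, El.g3 c j k, El.r3 c j k f] =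
      10000 * D.ι (.e3 c j) + (if k = 0 then -130 else 130) := by
    simp [LD.t, LD.B]
  refine ⟨?_, ?_, ?_⟩
  · intro a ha hab i hP
    rw [hm]
    fin_cases i
    · simp only [Fin.zero_eta] at hP ⊢
      refine D.far_of hinj 0 a 2 _ _ _ ht0 (by norm_num) (by norm_num) ?_
      intro hl
      exfalso
      have key : a = .r3 c j k f := by
        cases a with
        | e2 c' q' => simp only [LD.lab, LD.ancl] at hl; split_ifs at hl <;> simp_all
        | lit c' o' b => simp only [LD.lab, LD.ancl] at hl; split_ifs at hl
        | g2 c' q' k' => simp only [LD.lab, LD.ancl] at hl; split_ifs at hl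
        | r3 c' o' k' f' => exact hl
        | _ => simp [LD.lab] at hl
      exact hab (by simp [key])
    · simp only [Fin.mk_one] at hP ⊢
      rw [hQ1] at hP
      refine D.far_of hinj 1 a 2 _ _ _ ht1 ?_ (by norm_num) ?_
      · rw [abs_le]; split_ifs <;> norm_num
      · intro hl
        cases a with
        | x c' o' => simp_all [LD.P]
        | e3 c' j' =>
          exfalso
          simp only [LD.lab] at hl
          exact hab (by simp [hl])
        | e2 c' q' => simp_all [LD.lab]
        | lit c' o' b => simp only [LD.P] at hP; split_ifs at hP <;> omega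
        | gx c' o' k' => simp only [LD.P] at hP; split_ifs at hP <;> omega
        | g3 c' j' k' =>
          simp only [LD.lab, El.e3.injEq] at hl
          obtain ⟨rfl, rfl⟩ := hl
          rw [D.mlen_el]
          simp only [LD.off]
          have h1 : k' < 2 := by
            cases ha with
            | @cls q _ hq h => cases h; assumption
          have h2 : k' ≠ k := by
            rintro rfl
            exact hab (by simp)
          rw [lt_abs]
          have h3 : k' = 0 ∨ k' = 1 := by omega
          have h4 : k = 0 ∨ k = 1 := by omega
          rcases h3 with rfl | rfl <;> rcases h4 with rfl | rfl <;> simp_all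
        | g2 c' q' k' =>
          simp only [LD.P] at hP
          have h1 : k' < 2 := by
            by_contra h
            rw [if_neg h] at hP
            exact absurd hP (by norm_num)
          simp [LD.lab, h1] at hl
        | rx c' o' k' f' => simp_all [LD.lab]
        | r3 c' j' k' f' => simp_all [LD.lab]
        | r2 c' q' k' f' => simp_all [LD.lab]
  · intro a ha hab
    rw [hm]
    simp only [List.mem_cons, List.not_mem_nil, or_false] at hab
    rcases hab with rfl | rfl | rfl
    · refine ⟨1, by rw [hQ1]; simp [LD.P], .inr ?_⟩
      rw [ht1, D.s_eq, D.mlen_el, abs_lt]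
      simp only [LD.lab, LD.off]
      split_ifs <;> constructor <;> linarith
    · refine ⟨1, by rw [hQ1]; simp [LD.P], .inr ?_⟩
      rw [ht1, D.s_eq, D.mlen_el, abs_lt]
      simp only [LD.lab, LD.off]
      split_ifs <;> constructor <;> simp <;> linarith
    · refine ⟨0, by rw [hQ0]; simp [LD.P], .inl ?_⟩
      rw [ht0, D.s_eq]
      simp [LD.lab, LD.off]
  · left
    rw [hQ0, hQ1]
    norm_num

theorem tLAYG2 : T_LAYG2 := by
  intro D N c o k f hD hc ho hk hf
  have hinj := hD.inj
  by_cases hk2 : k < 2
  · -- guards 0 and 1
    have hQ0 : D.Q 0 [El.e2 c o, El.g2 c o k, El.r2 c o k f] = 6 := by simp [LD.Q, hk2]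
    have hQ1 : D.Q 1 [El.e2 c o, El.g2 c o k, El.r2 c o k f] = 4 := by simp [LD.Q, hk2]
    have hm : mlen D.Q [El.e2 c o, El.g2 c o k, El.r2 c o k f] = 2 := by simp [mlen, hQ0, hQ1]
    have ht0 : D.t 0 [El.e2 c o, El.g2 c o k, El.r2 c o k f] =
        10000 * D.ι (.r2 c o k f) + 0 := by
      simp [LD.t, hk2, LD.B, LD.s]
    have ht1 : D.t 1 [El.e2 c o, El.g2 c o k, El.r2 c o k f] =
        10000 * D.ι (.e2 c o) + (if k = 0 then -130 else 130) := by
      simp [LD.t, hk2, LD.B]
    refine ⟨?_, ?_, ?_⟩
    · intro a ha hab i hP
      rw [hm]
      fin_cases i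
      · simp only [Fin.zero_eta] at hP ⊢
        refine D.far_of hinj 0 a 2 _ _ _ ht0 (by norm_num) (by norm_num) ?_
        intro hl
        exfalso
        have key : a = .r2 c o k f := by
          cases a with
          | e2 c' q' => simp only [LD.lab, LD.ancl] at hl; split_ifs at hl <;> simp_all
          | lit c' o' b => simp only [LD.lab, LD.ancl] at hl; split_ifs at hl
          | g2 c' q' k' => simp only [LD.lab, LD.ancl] at hl; split_ifs at hl
          | r2 c' o' k' f' => exact hl
          | _ => simp [LD.lab] at hl
        exact hab (by simp [key])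
      · simp only [Fin.mk_one] at hP ⊢
        rw [hQ1] at hP
        refine D.far_of hinj 1 a 2 _ _ _ ht1 ?_ (by norm_num) ?_
        · rw [abs_le]; split_ifs <;> norm_num
        · intro hl
          cases a with
          | x c' o' => simp_all [LD.P]
          | e3 c' j' => simp_all [LD.lab]
          | e2 c' q' =>
            exfalso
            have : El.e2 c' q' = El.e2 c o := by simpa [LD.lab] using hl
            exact hab (by simp [this])
          | lit c' o' b => simp only [LD.P] at hP; split_ifs at hP <;> omega
          | gx c' o' k' => simp only [LD.P] at hP; split_ifs at hP <;> omega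
          | g3 c' j' k' => simp_all [LD.lab]
          | g2 c' q' k' =>
            simp only [LD.P] at hP
            have h1 : k' < 2 := by
              by_contra h
              rw [if_neg h] at hP
              exact absurd hP (by norm_num)
            simp only [LD.lab, h1, if_true, El.e2.injEq] at hl
            obtain ⟨rfl, rfl⟩ := hl
            rw [D.mlen_el]
            simp only [LD.off]
            have h2 : k' ≠ k := by
              rintro rfl
              exact hab (by simp)
            rw [lt_abs]
            have h3 : k' = 0 ∨ k' = 1 := by omega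
            have h4 : k = 0 ∨ k = 1 := by omega
            rcases h3 with rfl | rfl <;> rcases h4 with rfl | rfl <;> simp_all
          | rx c' o' k' f' => simp_all [LD.lab]
          | r3 c' j' k' f' => simp_all [LD.lab]
          | r2 c' q' k' f' => simp_all [LD.lab]
    · intro a ha hab
      rw [hm]
      simp only [List.mem_cons, List.not_mem_nil, or_false] at hab
      rcases hab with rfl | rfl | rfl
      · refine ⟨1, by rw [hQ1]; simp [LD.P], .inr ?_⟩
        rw [ht1, D.s_eq, D.mlen_el, abs_lt]
        simp only [LD.lab, LD.off, one_ne_zero, if_false]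
        split_ifs <;> constructor <;> linarith
      · refine ⟨1, by rw [hQ1]; simp [LD.P, hk2], .inr ?_⟩
        rw [ht1, D.s_eq, D.mlen_el, abs_lt]
        simp only [LD.lab, LD.off, hk2, if_true]
        have h4 : k = 0 ∨ k = 1 := by omega
        rcases h4 with rfl | rfl <;> simp <;> constructor <;> linarith
      · refine ⟨0, by rw [hQ0]; simp [LD.P, hk2], .inl ?_⟩
        rw [ht0, D.s_eq]
        simp [LD.lab, LD.off]
    · left
      rw [hQ0, hQ1]
      norm_num
  · -- guard 2
    obtain rfl : k = 2 := by omega
    set w := D.own o with hw
    have hwlt : w < 3 * D.Φ.K := D.own_lt hD ho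
    have hQ0 : D.Q 0 [El.e2 c o, El.g2 c o 2, El.r2 c o 2 f] = 3 := by simp [LD.Q]
    have hQ1 : D.Q 1 [El.e2 c o, El.g2 c o 2, El.r2 c o 2 f] = 1 := by simp [LD.Q]
    have hm : mlen D.Q [El.e2 c o, El.g2 c o 2, El.r2 c o 2 f] = 2 := by simp [mlen, hQ0, hQ1]
    have ht0 : D.t 0 [El.e2 c o, El.g2 c o 2, El.r2 c o 2 f] =
        10000 * D.ι (D.ancl c w) + 570 * D.sgn w := by
      simp [LD.t, D.anc_eq, hw]
    have ht1 : D.t 1 [El.e2 c o, El.g2 c o 2, El.r2 c o 2 f] =
        10000 * D.ι (.r2 c o 2 f) + 1 := by
      simp [LD.t, LD.s, LD.B]
    have hsg := D.sgn_cases w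
    refine ⟨?_, ?_, ?_⟩
    · intro a ha hab i hP
      rw [hm]
      fin_cases i
      · simp only [Fin.zero_eta] at hP ⊢
        rw [hQ0] at hP
        refine D.far_of hinj 0 a 2 _ _ _ ht0 ?_ (by norm_num) ?_
        · rw [abs_le]; omega
        · intro hl
          -- the same occurrence or the same clause
          have same : ∀ c' o', o' < 3 * D.Φ.K → D.ancl c' o' = D.ancl c w →
              c' = c ∧ (o' = w ∨ D.sgn o' = - D.sgn w) := by
            intro c' o' ho' h
            by_cases h1 : D.τ o' = D.Φ.sg o'
            · by_cases h2 : D.τ w = D.Φ.sg w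
              · rw [D.ancl_true _ _ h1, D.ancl_true _ _ h2] at h
                simp only [El.x.injEq] at h
                exact ⟨h.1, .inl h.2⟩
              · rw [D.ancl_true _ _ h1, D.ancl_false _ _ h2] at h
                exact absurd h (by simp)
            · by_cases h2 : D.τ w = D.Φ.sg w
              · rw [D.ancl_false _ _ h1, D.ancl_true _ _ h2] at h
                exact absurd h (by simp)
              · rw [D.ancl_false _ _ h1, D.ancl_false _ _ h2] at h
                simp only [El.e3.injEq] at h
                refine ⟨h.1, ?_⟩
                by_cases h3 : o' = w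
                · exact .inl h3
                · exact .inr (D.sgn_ne hD ho' h3 h.2 h1 h2)
          cases ha with
          | @x c' o' hc' ho' => simp_all [LD.P]
          | @e2 c' q' hc' hq' =>
            simp only [LD.lab, if_true] at hl
            obtain ⟨rfl, h⟩ := same _ _ (D.own_lt hD hq') hl
            rw [D.mlen_el, lt_abs]
            simp only [LD.off, if_true]
            rcases h with h | h
            · exfalso
              have := D.own_inj hD hq' ho h
              exact hab (by simp [this])
            · rw [h]
              omega
          | @e3 c' j' hc' hj' =>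
            rw [D.mlen_el, lt_abs]
            simp only [LD.off]
            omega
          | @cls q _ hq h =>
            cases h with
            | @lit c' o' b hc' ho' =>
              simp only [LD.P] at hP
              have hb : ¬ b = D.τ o' := by
                intro h
                rw [if_pos h] at hP
                exact absurd hP (by norm_num)
              simp only [LD.lab, hb, if_false] at hl
              obtain ⟨rfl, h⟩ := same _ _ ho' hl
              rw [D.mlen_el, lt_abs]
              simp only [LD.off, hb, if_false, Fin.val_zero, Nat.cast_zero]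
              rcases h with h | h
              · rw [h]
                omega
              · rw [h]
                omega
            | @gx c' o' k' hc' ho' hk' => simp only [LD.P] at hP; split_ifs at hP <;> omega
            | @g2 c' q' k' hc' hq' hk' =>
              simp only [LD.P] at hP
              have h1 : ¬ k' < 2 := by
                intro h
                rw [if_pos h] at hP
                exact absurd hP (by norm_num)
              obtain rfl : k' = 2 := by omega
              simp only [LD.lab, h1, if_false] at hl
              obtain ⟨rfl, h⟩ := same _ _ (D.own_lt hD hq') hl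
              rw [D.mlen_el, lt_abs]
              simp only [LD.off, Fin.val_zero, Nat.cast_zero]
              rcases h with h | h
              · exfalso
                have := D.own_inj hD hq' ho h
                exact hab (by simp [this])
              · rw [h]
                simp
                omega
            | g3 _ _ _ => simp_all [LD.P]
            | rx _ _ _ _ =>
              simp only [LD.lab, LD.ancl] at hl
              split_ifs at hl
            | r2 _ _ _ _ =>
              simp only [LD.lab, LD.ancl] at hl
              split_ifs at hl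
            | r3 _ _ _ _ =>
              simp only [LD.lab, LD.ancl] at hl
              split_ifs at hl
      · simp only [Fin.mk_one] at hP ⊢
        refine D.far_of hinj 1 a 2 _ _ _ ht1 (by norm_num) (by norm_num) ?_
        intro hl
        exfalso
        have key : a = .r2 c o 2 f := by
          cases a with
          | e2 c' q' => simp only [LD.lab, LD.ancl] at hl; split_ifs at hl <;> simp_all
          | lit c' o' b => simp only [LD.lab, LD.ancl] at hl; split_ifs at hl
          | g2 c' q' k' => simp only [LD.lab, LD.ancl] at hl; split_ifs at hl
          | r2 c' o' k' f' => exact hl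
          | _ => simp [LD.lab] at hl
        exact hab (by simp [key])
    · intro a ha hab
      rw [hm]
      simp only [List.mem_cons, List.not_mem_nil, or_false] at hab
      rcases hab with rfl | rfl | rfl
      · refine ⟨0, by rw [hQ0]; simp [LD.P], .inr ?_⟩
        rw [ht0, D.s_eq, D.mlen_el, abs_lt]
        simp only [LD.lab, LD.off, if_true, ← hw]
        constructor <;> omega
      · refine ⟨0, by rw [hQ0]; simp [LD.P], .inr ?_⟩
        rw [ht0, D.s_eq, D.mlen_el, abs_lt]
        have h22 : ¬ (2 < 2) := by omega
        simp only [LD.lab, LD.off, ← hw, h22, if_false, Fin.val_zero, Nat.cast_zero]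
        simp
        constructor <;> omega
      · refine ⟨1, by rw [hQ1]; simp [LD.P], .inl ?_⟩
        rw [ht1, D.s_eq]
        simp [LD.lab, LD.off]
    · left
      rw [hQ0, hQ1]
      norm_num

end Pool.Agent.ObsNum
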