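import Pool.Agent.ObsNum.Layout

set_option autoImplicit false

/-!
# LAY-Q: the blocks `[a, a']` of the layout
-/

namespace Pool.Agent.ObsNum

namespace LAYQ

/-- the label of an anchor -/
def ancL (D : LD) (c o : ℕ) : El := if D.τ o = D.Φ.sg o then .x c o else .e3 c (o / 3)

theorem anc_eq (D : LD) (c o : ℕ) : D.anc c o = D.B (ancL D c o) := by
  unfold LD.anc ancL; split_ifs <;> rfl

/-- the label of an element at the coordinate `i` -/
def lb (D : LD) (i : Fin 2) : El → El
  | .x c o => .x c o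
  | .e3 c j => .e3 c j
  | .e2 c q => if i = 0 then ancL D c (D.own q) else .e2 c q
  | .lit c o b => if b = D.τ o then .x c o else ancL D c o
  | .gx c o _ => .x c o
  | .g3 c j _ => .e3 c j
  | .g2 c q k => if k < 2 then .e2 c q else ancL D c (D.own q)
  | .rx c o k f => .rx c o k f
  | .r3 c j k f => .r3 c j k f
  | .r2 c q k f => .r2 c q k f

/-- the offset of an element at the coordinate `i` -/
def of (D : LD) (i : Fin 2) : El → ℤ
  | .x _ _ => 0
  | .e3 _ _ => 0
  | .e2 _ q => if i = 0 then 440 * D.sgn (D.own q) else 0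
  | .lit _ o b => (if b = D.τ o then 220 else 220 * D.sgn o) + i.1
  | .gx _ _ k => (if k = 1 then 220 else -220) + i.1
  | .g3 _ _ k => (if k = 0 then -220 else 220) + i.1
  | .g2 _ q k => (if k < 2 then (if k = 0 then -220 else 220) else 660 * D.sgn (D.own q)) + i.1
  | .rx _ _ _ _ => i.1
  | .r3 _ _ _ _ => i.1
  | .r2 _ _ _ _ => i.1

theorem s_eq (D : LD) (i : Fin 2) (a : El) : D.s i a = D.B (lb D i a) + of D i a := by
  cases a with
  | x c o => simp [LD.s, lb, of]
  | e3 c j => simp [LD.s, lb, of]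
  | e2 c q => simp only [LD.s, lb, of]; split_ifs <;> simp [anc_eq]
  | lit c o b => simp only [LD.s, lb, of]; split_ifs <;> (try rw [anc_eq]) <;> ring
  | gx c o k => simp only [LD.s, lb, of]; ring
  | g3 c j k => simp only [LD.s, lb, of]; ring
  | g2 c q k =>
    simp only [LD.s, lb, of]
    by_cases h0 : k = 0
    · subst h0; simp; ring
    · by_cases h1 : k = 1
      · subst h1; simp; ring
      · have h2 : ¬ k < 2 := by omega
        simp [h0, h1, h2, anc_eq]; ring
  | rx c o k f => simp [LD.s, lb, of]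
  | r3 c j k f => simp [LD.s, lb, of]
  | r2 c q k f => simp [LD.s, lb, of]

theorem sgn_cases (D : LD) (o : ℕ) : D.sgn o = 1 ∨ D.sgn o = -1 := by
  unfold LD.sgn; split_ifs <;> simp

theorem of_bd (D : LD) (i : Fin 2) (a : El) : -661 ≤ of D i a ∧ of D i a ≤ 661 := by
  have hi := i.2
  cases a with
  | x c o => simp [of]
  | e3 c j => simp [of]
  | e2 c q =>
    simp only [of]
    rcases sgn_cases D (D.own q) with h | h <;> rw [h] <;> split_ifs <;> omega
  | lit c o b =>
    simp only [of]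
    rcases sgn_cases D o with h | h <;> rw [h] <;> split_ifs <;> omega
  | gx c o k => simp only [of]; split_ifs <;> omega
  | g3 c j k => simp only [of]; split_ifs <;> omega
  | g2 c q k =>
    simp only [of]
    rcases sgn_cases D (D.own q) with h | h <;> rw [h] <;> split_ifs <;> omega
  | rx c o k f => simp only [of]; omega
  | r3 c j k f => simp only [of]; omega
  | r2 c q k f => simp only [of]; omega

theorem B_far (D : LD) (hD : D.Ok) {a b : El} (h : a ≠ b) :
    10000 ≤ D.B a - D.B b ∨ 10000 ≤ D.B b - D.B a := by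
  have h1 : D.ι a ≠ D.ι b := fun h' => h (hD.inj h')
  unfold LD.B
  omega

theorem far_lb (D : LD) (hD : D.Ok) (i : Fin 2) {a b : El} (h : lb D i a ≠ lb D i b) :
    8000 < |D.s i a - D.s i b| := by
  have h1 := of_bd D i a
  have h2 := of_bd D i b
  rw [s_eq, s_eq, lt_abs]
  rcases B_far D hD h with h3 | h3 <;> omega

theorem own_inj (D : LD) (hD : D.Ok) {q q' : ℕ} (h : q < 3 * D.Φ.K) (h' : q' < 3 * D.Φ.K)
    (he : D.own q = D.own q') : q = q' := by
  have h1 := hD.nx q h
  have h2 := hD.nx q' h'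
  unfold LD.own at he
  cases hq : D.τ q <;> cases hq' : D.τ q' <;> simp only [hq, hq'] at he h1 h2
  · simp at he
    exact hD.ok.inj _ _ h h' he
  · simp at he
    rw [he] at h1
    rw [h1] at hq'
    cases hq'
  · simp at he
    rw [← he] at h2
    rw [h2] at hq
    cases hq
  · simpa using he

theorem own_lt (D : LD) (hD : D.Ok) {q : ℕ} (h : q < 3 * D.Φ.K) : D.own q < 3 * D.Φ.K := by
  unfold LD.own
  split_ifs
  · exact h
  · exact hD.ok.lt _ h

/-- two different occurrences with the same anchor are on different sides -/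
theorem sgn_ne (D : LD) (hD : D.Ok) {c c' o o' : ℕ} (h : o < 3 * D.Φ.K)
    (hne : ¬ (c = c' ∧ o = o')) (he : ancL D c o = ancL D c' o') :
    (D.sgn o = 1 ∧ D.sgn o' = -1) ∨ (D.sgn o = -1 ∧ D.sgn o' = 1) := by
  unfold ancL at he
  split_ifs at he with h1 h2 h2
  · exact absurd (by simpa using he) hne
  · have he' : c = c' ∧ o / 3 = o' / 3 := by simpa using he
    obtain ⟨rfl, hj⟩ := he'
    have hoo : o ≠ o' := fun h => hne ⟨rfl, h⟩
    obtain ⟨hd, hd'⟩ := hD.des (o / 3) (by omega)
    have e1 : o % 3 ≠ D.des (o / 3) := by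
      intro h3
      apply h1
      have : 3 * (o / 3) + D.des (o / 3) = o := by omega
      rwa [this] at hd'
    have e2 : o' % 3 ≠ D.des (o / 3) := by
      intro h3
      apply h2
      have : 3 * (o / 3) + D.des (o / 3) = o' := by omega
      rwa [this] at hd'
    have hm : o % 3 ≠ o' % 3 := by omega
    unfold LD.sgn
    simp only [h1, h2, if_false, ← hj]
    split_ifs with h5 h6 h6 <;> simp <;> omega

theorem sub_of (D : LD) {i : Fin 2} {e r : El} (hl : lb D i e = lb D i r) :
    D.s i e - D.s i r = of D i e - of D i r := by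
  rw [s_eq, s_eq, hl]; ring

theorem P_x (D : LD) (i : Fin 2) (c o : ℕ) : D.P i (.x c o) = (i.1 : ℤ) := by
  revert i; rw [Fin.forall_fin_two]; simp [LD.P]

theorem P_e3 (D : LD) (i : Fin 2) (c o : ℕ) : D.P i (.e3 c o) = 3 + (i.1 : ℤ) := by
  revert i; rw [Fin.forall_fin_two]; simp [LD.P]

theorem P_e2 (D : LD) (i : Fin 2) (c o : ℕ) : D.P i (.e2 c o) = 3 + (i.1 : ℤ) := by
  revert i; rw [Fin.forall_fin_two]; simp [LD.P]

theorem m_x (D : LD) (c o : ℕ) : mlen D.P (.x c o) = 1 := by simp [mlen, P_x]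

theorem m_e3 (D : LD) (c o : ℕ) : mlen D.P (.e3 c o) = 1 := by simp [mlen, P_e3]

theorem m_e2 (D : LD) (c o : ℕ) : mlen D.P (.e2 c o) = 1 := by simp [mlen, P_e2]

theorem P_lt (D : LD) (i : Fin 2) (c o : ℕ) (b : Bool) (h : b = D.τ o) :
    D.P i (.lit c o b) = 1 := by simp [LD.P, h]

theorem P_lf (D : LD) (i : Fin 2) (c o : ℕ) (b : Bool) (h : b ≠ D.τ o) :
    D.P i (.lit c o b) = 3 := by simp [LD.P, h]

theorem m_lit (D : LD) (c o : ℕ) (b : Bool) : mlen D.P (.lit c o b) = 0 := by
  by_cases h : b = D.τ o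
  · simp [mlen, P_lt _ _ _ _ _ h]
  · simp [mlen, P_lf _ _ _ _ _ h]

theorem m_gx (D : LD) (c o k : ℕ) : mlen D.P (.gx c o k) = 0 := by simp [mlen, LD.P]

theorem m_g3 (D : LD) (c o k : ℕ) : mlen D.P (.g3 c o k) = 0 := by simp [mlen, LD.P]

theorem m_g2 (D : LD) (c o k : ℕ) : mlen D.P (.g2 c o k) = 0 := by simp [mlen, LD.P]

theorem of_e2 (D : LD) (i : Fin 2) (c q : ℕ) :
    (i.1 = 0 ∧ (of D i (.e2 c q) = 440 ∨ of D i (.e2 c q) = -440)) ∨
      (i.1 = 1 ∧ of D i (.e2 c q) = 0) := by
  revert i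
  rw [Fin.forall_fin_two]
  have := sgn_cases D (D.own q)
  simp only [of]
  norm_num
  omega

/-- true literals -/
theorem litT (D : LD) {c o : ℕ} {b : Bool} (hb : b = D.τ o)
    (i : Fin 2) (e : El) (hne : e ≠ .lit c o b)
    (hP : D.P i e = D.P i (.lit c o b)) (hl : lb D i e = lb D i (.lit c o b)) :
    50 * (mlen D.P e + 2) < |D.s i e - D.s i (.lit c o b)| := by
  rw [sub_of D hl, lt_abs]
  have hP2 : D.P i (.lit c o b) = 1 := by simp [LD.P, hb]
  have hl2 : lb D i (.lit c o b) = .x c o := by simp [lb, hb]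
  have ho2 : of D i (.lit c o b) = 220 + i.1 := by simp [of, hb]
  rw [hP2] at hP
  rw [hl2] at hl
  rw [ho2]
  cases e with
  | x c' o' =>
    rw [P_x] at hP
    rw [m_x]
    simp only [of]
    omega
  | e3 c' j' => simp [lb] at hl
  | e2 c' q' =>
    rw [P_e2] at hP
    omega
  | lit c' o' b' =>
    simp only [LD.P, lb, of, mlen] at *
    split_ifs at * <;> simp_all
  | gx c' o' k' =>
    simp only [LD.P, lb, of, mlen] at *
    split_ifs at * <;> simp_all
  | g3 c' j' k' => simp [lb] at hl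
  | g2 c' q' k' =>
    simp only [LD.P, lb, of, mlen] at *
    split_ifs at * <;> simp_all
  | rx c' o' k' f' => simp [lb] at hl
  | r3 c' o' k' f' => simp [lb] at hl
  | r2 c' o' k' f' => simp [lb] at hl

/-- false literals -/
theorem litF (D : LD) (hD : D.Ok) {c o : ℕ} {b : Bool} (ho : o < 3 * D.Φ.K) (hb : b ≠ D.τ o)
    (i : Fin 2) (e : El) (hne : e ≠ .lit c o b)
    (hP : D.P i e = D.P i (.lit c o b)) (hl : lb D i e = lb D i (.lit c o b)) :
    50 * (mlen D.P e + 2) < |D.s i e - D.s i (.lit c o b)| := by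
  rw [sub_of D hl, lt_abs]
  have hi := i.2
  have hP2 : D.P i (.lit c o b) = 3 := by simp [LD.P, hb]
  have hl2 : lb D i (.lit c o b) = ancL D c o := by simp [lb, hb]
  have ho2 : of D i (.lit c o b) = 220 * D.sgn o + i.1 := by simp [of, hb]
  rw [hP2] at hP
  rw [hl2] at hl
  rw [ho2]
  have hs := sgn_cases D o
  cases e with
  | x c' o' =>
    rw [P_x] at hP
    omega
  | e3 c' j' =>
    rw [P_e3] at hP
    rw [m_e3]
    simp only [of]
    omega
  | e2 c' q' =>
    rw [P_e2] at hP
    rw [m_e2]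
    have := of_e2 D i c' q'
    omega
  | lit c' o' b' =>
    have hb' : b' ≠ D.τ o' := by
      intro h
      simp [LD.P, h] at hP
    simp only [lb, of, hb', if_false] at *
    rw [m_lit]
    have h := sgn_ne D hD (c := c) (c' := c') ho (o' := o') (by
      rintro ⟨rfl, rfl⟩
      apply hne
      congr 1
      revert hb hb'
      cases b <;> cases b' <;> cases D.τ o <;> simp) hl.symm
    omega
  | gx c' o' k' =>
    simp only [LD.P] at hP
    split_ifs at hP <;> omega
  | g3 c' j' k' => simp [LD.P] at hP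
  | g2 c' q' k' =>
    have hk : ¬ k' < 2 := by
      intro h
      simp [LD.P, h] at hP
    simp only [of, hk, if_false]
    rw [m_g2]
    have := sgn_cases D (D.own q')
    omega
  | rx c' o' k' f' =>
    simp only [lb, ancL] at hl
    split_ifs at hl
  | r3 c' o' k' f' =>
    simp only [lb, ancL] at hl
    split_ifs at hl
  | r2 c' o' k' f' =>
    simp only [lb, ancL] at hl
    split_ifs at hl

/-- guards of `x` -/
theorem gX (D : LD) {c o k : ℕ} (hk : k < 3) (i : Fin 2) (e : El) (hne : e ≠ .gx c o k) {N : ℕ}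
    (he : InEls D.Φ N e)
    (hP : D.P i e = D.P i (.gx c o k)) (hl : lb D i e = lb D i (.gx c o k)) {m : ℤ}
    (hm : (i.1 = 0 → m ≤ D.P i (.gx c o k)) ∧ (i.1 = 1 → m ≤ 4 - D.P i (.gx c o k))) :
    50 * (mlen D.P e + m) < |D.s i e - D.s i (.gx c o k)| := by
  rw [sub_of D hl, lt_abs]
  have hi := i.2
  simp only [lb] at hl
  cases e with
  | x c' o' =>
    rw [P_x] at hP
    rw [m_x]
    simp only [of]
    simp only [LD.P] at *
    split_ifs at * <;> omega
  | e3 c' j' => simp at hl
  | e2 c' q' =>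
    rw [P_e2] at hP
    simp only [LD.P] at hP
    split_ifs at hP <;> omega
  | lit c' o' b' =>
    rw [m_lit]
    simp only [LD.P, of] at *
    have := sgn_cases D o'
    split_ifs at * <;> omega
  | gx c' o' k' =>
    have hk' : k' < 3 := by
      cases he with
      | cls hq h => cases h with
        | gx _ _ h => exact h
    have hcc : c' = c ∧ o' = o := by simpa using hl
    obtain ⟨rfl, rfl⟩ := hcc
    have hkk : k' ≠ k := fun h => hne (by rw [h])
    rw [m_gx]
    simp only [LD.P, of] at *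
    split_ifs at * <;> omega
  | g3 c' j' k' => simp at hl
  | g2 c' q' k' =>
    by_cases hk' : k' < 2
    · simp [hk'] at hl
    · simp only [LD.P, hk', if_false] at hP
      split_ifs at hP <;> omega
  | rx c' o' k' f' => simp at hl
  | r3 c' o' k' f' => simp at hl
  | r2 c' o' k' f' => simp at hl

/-- guards of `e3` -/
theorem gE3 (D : LD) {c o k : ℕ} (hk : k < 2) (i : Fin 2) (e : El) (hne : e ≠ .g3 c o k) {N : ℕ}
    (he : InEls D.Φ N e)
    (hP : D.P i e = D.P i (.g3 c o k)) (hl : lb D i e = lb D i (.g3 c o k)) {m : ℤ}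
    (hm : (i.1 = 0 → m ≤ D.P i (.g3 c o k)) ∧ (i.1 = 1 → m ≤ 4 - D.P i (.g3 c o k))) :
    50 * (mlen D.P e + m) < |D.s i e - D.s i (.g3 c o k)| := by
  rw [sub_of D hl, lt_abs]
  have hi := i.2
  have hP2 : D.P i (.g3 c o k) = 4 := rfl
  rw [hP2] at hP hm
  simp only [lb] at hl
  cases e with
  | x c' o' => simp at hl
  | e3 c' j' =>
    rw [P_e3] at hP
    rw [m_e3]
    simp only [of]
    split_ifs at * <;> omega
  | e2 c' q' =>
    have h0 : i ≠ 0 := by
      rintro rfl
      rw [P_e2] at hP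
      simp at hP
    simp [h0] at hl
  | lit c' o' b' =>
    simp only [LD.P] at hP
    split_ifs at hP <;> omega
  | gx c' o' k' => simp at hl
  | g3 c' j' k' =>
    have hk' : k' < 2 := by
      cases he with
      | cls hq h => cases h with
        | g3 _ _ h => exact h
    have hcc : c' = c ∧ j' = o := by simpa using hl
    obtain ⟨rfl, rfl⟩ := hcc
    have hkk : k' ≠ k := fun h => hne (by rw [h])
    rw [m_g3]
    simp only [of] at *
    split_ifs at * <;> omega
  | g2 c' q' k' =>
    by_cases hk' : k' < 2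
    · simp [hk'] at hl
    · simp only [LD.P, hk', if_false] at hP
      omega
  | rx c' o' k' f' => simp at hl
  | r3 c' o' k' f' => simp at hl
  | r2 c' o' k' f' => simp at hl

/-- the first two guards of `e2` -/
theorem gE2 (D : LD) {c o k : ℕ} (hk : k < 2) (i : Fin 2) (e : El) (hne : e ≠ .g2 c o k)
    (hP : D.P i e = D.P i (.g2 c o k)) (hl : lb D i e = lb D i (.g2 c o k)) {m : ℤ}
    (hm : (i.1 = 0 → m ≤ D.P i (.g2 c o k)) ∧ (i.1 = 1 → m ≤ 4 - D.P i (.g2 c o k))) :
    50 * (mlen D.P e + m) < |D.s i e - D.s i (.g2 c o k)| := by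
  rw [sub_of D hl, lt_abs]
  have hi := i.2
  have hP2 : D.P i (.g2 c o k) = 4 := by simp [LD.P, hk]
  rw [hP2] at hP hm
  simp only [lb, hk, if_true] at hl
  cases e with
  | x c' o' => simp at hl
  | e3 c' j' => simp at hl
  | e2 c' q' =>
    rw [P_e2] at hP
    have h1 := of_e2 D i c' q'
    rw [m_e2]
    have h2 : of D i (.g2 c o k) = (if k = 0 then -220 else 220) + i.1 := by simp [of, hk]
    rw [h2]
    split_ifs at * <;> omega
  | lit c' o' b' =>
    simp only [LD.P] at hP
    split_ifs at hP <;> omega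
  | gx c' o' k' => simp at hl
  | g3 c' j' k' => simp at hl
  | g2 c' q' k' =>
    have hk'' : k' < 2 := by
      by_contra h
      simp [LD.P, h] at hP
    simp only [hk'', if_true] at hl
    have hcc : c' = c ∧ q' = o := by simpa using hl
    obtain ⟨rfl, rfl⟩ := hcc
    have hkk : k' ≠ k := fun h => hne (by rw [h])
    rw [m_g2]
    simp only [of, hk, hk'', if_true]
    split_ifs <;> omega
  | rx c' o' k' f' => simp at hl
  | r3 c' o' k' f' => simp at hl
  | r2 c' o' k' f' => simp at hl

/-- the third guard of `e2` -/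
theorem gE2' (D : LD) (hD : D.Ok) {c o k : ℕ} (ho : o < 3 * D.Φ.K) (hk : k < 3) (hk2 : ¬ k < 2)
    (i : Fin 2) (e : El) (hne : e ≠ .g2 c o k) {N : ℕ}
    (he : InEls D.Φ N e)
    (hP : D.P i e = D.P i (.g2 c o k)) (hl : lb D i e = lb D i (.g2 c o k)) {m : ℤ}
    (hm : (i.1 = 0 → m ≤ D.P i (.g2 c o k)) ∧ (i.1 = 1 → m ≤ 4 - D.P i (.g2 c o k))) :
    50 * (mlen D.P e + m) < |D.s i e - D.s i (.g2 c o k)| := by
  rw [sub_of D hl, lt_abs]
  have hi := i.2
  have hP2 : D.P i (.g2 c o k) = 3 := by simp [LD.P, hk2]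
  have hl2 : lb D i (.g2 c o k) = ancL D c (D.own o) := by simp [lb, hk2]
  have ho2 : of D i (.g2 c o k) = 660 * D.sgn (D.own o) + i.1 := by simp [of, hk2]
  rw [hP2] at hP hm
  rw [hl2] at hl
  rw [ho2]
  have hm : m ≤ 3 := by omega
  have hs := sgn_cases D (D.own o)
  cases e with
  | x c' o' =>
    rw [P_x] at hP
    omega
  | e3 c' j' =>
    rw [P_e3] at hP
    rw [m_e3]
    simp only [of]
    omega
  | e2 c' q' =>
    rw [P_e2] at hP
    rw [m_e2]
    have := of_e2 D i c' q'
    omega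
  | lit c' o' b' =>
    have hb' : b' ≠ D.τ o' := by
      intro h
      simp [LD.P, h] at hP
    have h := sgn_cases D o'
    rw [m_lit]
    simp only [of, hb', if_false]
    omega
  | gx c' o' k' =>
    simp only [LD.P] at hP
    split_ifs at hP <;> omega
  | g3 c' j' k' => simp [LD.P] at hP
  | g2 c' q' k' =>
    have hk' : k' < 3 ∧ q' < 3 * D.Φ.K := by
      cases he with
      | cls hq h => cases h with
        | g2 _ h' h => exact ⟨h, h'⟩
    have hk'' : ¬ k' < 2 := by
      intro h
      simp [LD.P, h] at hP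
    have hkk : k = k' := by omega
    simp only [lb, of, hk'', if_false] at *
    have h := sgn_ne D hD (c := c) (c' := c') (own_lt D hD ho) (o' := D.own q') (by
      rintro ⟨rfl, h⟩
      apply hne
      rw [own_inj D hD ho hk'.2 h, hkk]) hl.symm
    rw [m_g2]
    omega
  | rx c' o' k' f' =>
    simp only [lb, ancL] at hl
    split_ifs at hl
  | r3 c' o' k' f' =>
    simp only [lb, ancL] at hl
    split_ifs at hl
  | r2 c' o' k' f' =>
    simp only [lb, ancL] at hl
    split_ifs at hl

/-- the bound for the macro length of a block -/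
def MB (D : LD) (q : ℕ) (i : Fin 2) (r : El) (m : ℤ) : Prop :=
  (q = 0 → m ≤ 2) ∧ (q = 1 → (i.1 = 0 → m ≤ D.P i r) ∧ (i.1 = 1 → m ≤ 4 - D.P i r)) ∧
    (q = 2 → m ≤ 8)

theorem m_le (D : LD) {N : ℕ} {e : El} (he : InEls D.Φ N e) : mlen D.P e ≤ 1 := by
  cases he with
  | x => rw [m_x]
  | e3 => rw [m_e3]
  | e2 => rw [m_e2]
  | cls hq h =>
    cases h with
    | lit => rw [m_lit]; norm_num
    | gx => rw [m_gx]; norm_num
    | g2 => rw [m_g2]; norm_num
    | g3 => rw [m_g3]; norm_num
    | rx => simp [mlen, LD.P]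
    | r2 => simp [mlen, LD.P]
    | r3 => simp [mlen, LD.P]

theorem key (D : LD) (hD : D.Ok) {N q : ℕ} {r : El} (hr : InCls D.Φ N q r) {e : El}
    (he : InEls D.Φ N e) (hne : e ≠ r) (i : Fin 2) (hP : D.P i e = D.P i r) {m : ℤ}
    (hm : MB D q i r m) : 50 * (mlen D.P e + m) < |D.s i e - D.s i r| := by
  have hme := m_le D he
  by_cases hl : lb D i e = lb D i r
  · obtain ⟨hm0, hm1, hm2⟩ := hm
    cases hr with
    | @lit c o b hc ho =>
      refine lt_of_le_of_lt ?_ (?_ : 50 * (mlen D.P e + 2) < _)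
      · have := hm0 rfl
        omega
      · by_cases hb : b = D.τ o
        · exact litT D hb i e hne hP hl
        · exact litF D hD ho hb i e hne hP hl
    | gx hc ho hk => exact gX D hk i e hne he hP hl (hm1 rfl)
    | @g2 c o k hc ho hk =>
      by_cases hk2 : k < 2
      · exact gE2 D hk2 i e hne hP hl (hm1 rfl)
      · exact gE2' D hD ho hk hk2 i e hne he hP hl (hm1 rfl)
    | g3 hc ho hk => exact gE3 D hk i e hne he hP hl (hm1 rfl)
    | @rx c o k f hc ho hk hf =>
      exfalso
      simp only [lb] at hl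
      cases e with
      | e2 c' q' => simp only [ancL] at hl; split_ifs at hl
      | lit c' q' b' => simp only [ancL] at hl; split_ifs at hl
      | g2 c' q' k' => simp only [ancL] at hl; split_ifs at hl
      | rx c' q' k' f' => exact hne hl
      | _ => simp at hl
    | @r2 c o k f hc ho hk hf =>
      exfalso
      simp only [lb] at hl
      cases e with
      | e2 c' q' => simp only [ancL] at hl; split_ifs at hl
      | lit c' q' b' => simp only [ancL] at hl; split_ifs at hl
      | g2 c' q' k' => simp only [ancL] at hl; split_ifs at hl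
      | r2 c' q' k' f' => exact hne hl
      | _ => simp at hl
    | @r3 c o k f hc ho hk hf =>
      exfalso
      simp only [lb] at hl
      cases e with
      | e2 c' q' => simp only [ancL] at hl; split_ifs at hl
      | lit c' q' b' => simp only [ancL] at hl; split_ifs at hl
      | g2 c' q' k' => simp only [ancL] at hl; split_ifs at hl
      | r3 c' q' k' f' => exact hne hl
      | _ => simp at hl
  · have h1 := far_lb D hD i hl
    refine lt_of_le_of_lt ?_ h1
    have hm8 : m ≤ 8 := by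
      obtain ⟨hm0, hm1, hm2⟩ := hm
      have hi := i.2
      cases hr with
      | lit => have := hm0 rfl; omega
      | gx =>
        have := hm1 rfl
        simp only [LD.P] at this
        split_ifs at this <;> omega
      | g2 =>
        have := hm1 rfl
        simp only [LD.P] at this
        split_ifs at this <;> omega
      | g3 =>
        have := hm1 rfl
        simp only [LD.P] at this
        omega
      | rx => exact hm2 rfl
      | r2 => exact hm2 rfl
      | r3 => exact hm2 rfl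
    omega

/-- all elements of the classes are tiny -/
theorem tiny (D : LD) {N q : ℕ} {r : El} (hr : InCls D.Φ N q r) :
    D.P 1 r = D.P 0 r ∧ D.s 1 r = D.s 0 r + 1 := by
  cases hr with
  | lit => simp [LD.P, LD.s]
  | gx => simp [LD.P, LD.s]
  | g2 => simp [LD.P, LD.s]
  | g3 => simp [LD.P, LD.s]
  | rx => simp [LD.P, LD.s]
  | r2 => simp [LD.P, LD.s]
  | r3 => simp [LD.P, LD.s]

theorem rangeP (D : LD) {N q : ℕ} {r : El} (hr : InCls D.Φ N q r) :
    (q = 0 → 1 ≤ D.P 0 r ∧ D.P 0 r ≤ 3) ∧ (q = 1 → 0 ≤ D.P 0 r ∧ D.P 0 r ≤ 4) ∧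
      (q = 2 → -2 ≤ D.P 0 r ∧ D.P 0 r ≤ 6) := by
  cases hr with
  | lit => simp only [LD.P]; split_ifs <;> simp
  | gx => simp only [LD.P]; split_ifs <;> simp
  | g2 => simp only [LD.P]; split_ifs <;> simp
  | g3 => simp [LD.P]
  | rx => simp only [LD.P]; split_ifs <;> simp
  | r2 => simp only [LD.P]; split_ifs <;> simp
  | r3 => simp [LD.P]

theorem incls_q (D : LD) {N q : ℕ} {r : El} (hr : InCls D.Φ N q r) : q < 3 := by
  cases hr <;> omega

/-- two elements of one class -/
theorem Rt_total (D : LD) (hD : D.Ok) {N q : ℕ} {a a' : El} (h : InCls D.Φ N q a)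
    (h' : InCls D.Φ N q a') (hne : a' ≠ a) (hR : ¬ D.Rt a a') : D.Rt a' a := by
  unfold LD.Rt at *
  push Not at hR
  rcases lt_or_eq_of_le hR.1 with h1 | h1
  · exact Or.inl h1
  · right
    have h2 := hR.2 h1.symm
    refine ⟨h1, lt_of_le_of_ne h2 ?_⟩
    intro h3
    have h4 := key D hD h (InEls.cls (incls_q D h') h') hne 0 h1.symm (m := 0) (by
      have := rangeP D h
      unfold MB
      refine ⟨by omega, ?_, by omega⟩
      intro hq
      have := this.2.1 hq
      refine ⟨fun _ => this.1, fun h => by simp at h⟩)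
    rw [h3] at h4
    have h5 : 0 ≤ mlen D.P a' := abs_nonneg _
    simp at h4
    omega

theorem main (D : LD) (hD : D.Ok) {N q : ℕ} {r l : El} (h : InCls D.Φ N q r)
    (h' : InCls D.Φ N q l) (hne : l ≠ r) (hR : D.Rt r l) (b : List El)
    (hb : ∀ e, e ∈ b ↔ e = r ∨ e = l) (hQ0 : D.Q 0 b = D.P 0 r) (hQ1 : D.Q 1 b = D.P 1 l)
    (ht0 : D.t 0 b = D.s 0 r) (ht1 : D.t 1 b = D.s 1 l) :
    D.Far N b ∧ D.Near N b ∧ D.Ord b := by
  have hPr := tiny D h
  have hPl := tiny D h'
  have hr1 := rangeP D h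
  have hl1 := rangeP D h'
  have hle : D.P 0 l ≤ D.P 0 r := by
    rcases hR with h | h
    · exact h.le
    · exact h.1.le
  have hml : mlen D.Q b = D.P 0 r - D.P 0 l := by
    unfold mlen
    rw [hQ0, hQ1, hPl.1, abs_of_nonneg (by omega)]
  have h0 : MB D q 0 r (mlen D.Q b) := by
    rw [hml]
    refine ⟨by omega, fun hq => ⟨fun _ => ?_, fun h => by simp at h⟩, by omega⟩
    have := hl1.2.1 hq
    omega
  have h1 : MB D q 1 l (mlen D.Q b) := by
    rw [hml]
    refine ⟨by omega, fun hq => ⟨fun h => by simp at h, fun _ => ?_⟩, by omega⟩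
    have := hr1.2.1 hq
    omega
  refine ⟨?_, ?_, ?_⟩
  · intro e he hn
    rw [Fin.forall_fin_two]
    rw [hb] at hn
    push Not at hn
    refine ⟨fun hP => ?_, fun hP => ?_⟩
    · rw [hQ0] at hP
      rw [ht0]
      exact key D hD h he hn.1 0 hP h0
    · rw [hQ1] at hP
      rw [ht1]
      exact key D hD h' he hn.2 1 hP h1
  · intro e he hn
    rw [hb] at hn
    rcases hn with rfl | rfl
    · exact ⟨0, hQ0.symm, Or.inl ht0.symm⟩
    · exact ⟨1, hQ1.symm, Or.inl ht1.symm⟩
  · unfold LD.Ord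
    rw [hQ0, hQ1, ht0, ht1, hPl.1, hPl.2]
    rcases hR with h2 | h2
    · exact Or.inl h2
    · right
      refine ⟨h2.1, ?_⟩
      have h3 : 1 < |D.s 0 l - D.s 0 r| := by
        have h5 : 0 ≤ mlen D.P l := abs_nonneg _
        have h6 := hr1
        by_cases hL : 1 ≤ D.P 0 r
        · have h4 := key D hD h (InEls.cls (incls_q D h') h') hne 0 h2.1 (m := 1)
            ⟨by omega, fun _ => ⟨fun _ => hL, fun h => by simp at h⟩, by omega⟩
          omega
        · have h4 := key D hD h (InEls.cls (incls_q D h') h') hne 1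
            (by rw [hPr.1, hPl.1, h2.1]) (m := 1)
            ⟨by omega, fun _ => ⟨fun h => by simp at h, fun _ => by omega⟩, by omega⟩
          rw [hPr.2, hPl.2] at h4
          have h7 : D.s 0 l + 1 - (D.s 0 r + 1) = D.s 0 l - D.s 0 r := by ring
          rw [h7] at h4
          omega
      have h8 := h2.2
      rw [abs_of_neg (by omega)] at h3
      omega

end LAYQ

/-- LAY-Q -/
theorem tLAYQ : T_LAYQ := by
  intro D N q a a' hD hq h h' hne
  by_cases hR : D.Rt a a'
  · refine LAYQ.main D hD h h' hne hR [a, a'] (fun e => by simp) ?_ ?_ ?_ ?_ <;>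
      simp [LD.Q, LD.t, hR]
  · have hR' := LAYQ.Rt_total D hD h h' hne hR
    refine LAYQ.main D hD h' h (Ne.symm hne) hR' [a, a'] (fun e => by simp [or_comm]) ?_ ?_ ?_ ?_ <;>
      simp [LD.Q, LD.t, hR]

end Pool.Agent.ObsNum
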