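import Pool.Agent.ObsNum.Targets

set_option autoImplicit false

/-!
# NS: five points
-/

namespace Pool.Agent.ObsNum

open Pool.Agent.PAH (Plane det3)

namespace NS

lemma sq_aux (s P : ℝ) (h : 0 < s ^ 2 * P) : 0 < P := by
  by_contra hc
  push Not at hc
  nlinarith [mul_nonneg (sq_nonneg s) (neg_nonneg.2 hc)]

/-- a point in the convex hull of three others -/
lemma hull (a m : Plane) (x y z : Plane) (σ w0 w1 w2 w3 : ℝ) (h1 : 0 < w1) (h2 : 0 < w2)
    (h3 : 0 < w3) (hs : w0 + w1 + w2 + w3 = 0)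
    (hx : w0 * a.1 + w1 * x.1 + w2 * y.1 + w3 * z.1 = 0)
    (hy : w0 * a.2 + w1 * x.2 + w2 * y.2 + w3 * z.2 = 0)
    (p1 : 0 < σ * det3 a m x) (p2 : 0 < σ * det3 a m y) (p3 : 0 < σ * det3 a m z) : False := by
  have key : w1 * (σ * det3 a m x) + w2 * (σ * det3 a m y) + w3 * (σ * det3 a m z) = 0 := by
    unfold det3
    linear_combination σ * (m.1 - a.1) * hy - σ * (m.2 - a.2) * hx
      - (σ * (m.1 - a.1) * a.2 - σ * (m.2 - a.2) * a.1) * hs
  have := mul_pos h1 p1
  have := mul_pos h2 p2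
  have := mul_pos h3 p3
  linarith

/-- the last step: a point is not a positive combination of three points on one side of a line
through it -/
lemma last (k d i j c : Plane) (σ : ℝ) (D α β γ : ℝ) (hα : 0 < α * D) (hβ : 0 < β * D)
    (hγ : 0 < γ * D) (hs : α + β + γ = D) (hx : α * i.1 + β * j.1 + γ * c.1 = D * k.1)
    (hy : α * i.2 + β * j.2 + γ * c.2 = D * k.2)
    (p1 : 0 < σ * det3 k d i) (p2 : 0 < σ * det3 k d j) (p3 : 0 < σ * det3 k d c) : False := by
  have key : α * (σ * det3 k d i) + β * (σ * det3 k d j) + γ * (σ * det3 k d c) = 0 := by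
    unfold det3
    linear_combination σ * (d.1 - k.1) * hy - σ * (d.2 - k.2) * hx
      - (σ * (d.1 - k.1) * k.2 - σ * (d.2 - k.2) * k.1) * hs
  have h1 := mul_pos hα p1
  have h2 := mul_pos hβ p2
  have h3 := mul_pos hγ p3
  have : D * (α * (σ * det3 k d i) + β * (σ * det3 k d j) + γ * (σ * det3 k d c)) = 0 := by
    rw [key, mul_zero]
  nlinarith

/-- crossing segments, `c` on the side of `k` -/
lemma cross1 (i j k l c d : Plane) (σ1 σ2 σ3 w0 w1 w2 w3 : ℝ) (h0 : 0 < w0) (h1 : 0 < w1)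
    (h2 : w2 < 0) (h3 : w3 < 0) (hs : w0 + w1 + w2 + w3 = 0)
    (hx : w0 * i.1 + w1 * j.1 + w2 * k.1 + w3 * l.1 = 0)
    (hy : w0 * i.2 + w1 * j.2 + w2 * k.2 + w3 * l.2 = 0)
    (p1 : 0 < σ1 * det3 i c k) (p2 : 0 < σ1 * det3 i c l)
    (q1 : 0 < σ2 * det3 j c k) (q2 : 0 < σ2 * det3 j c l)
    (r1 : 0 < σ3 * det3 k d i) (r2 : 0 < σ3 * det3 k d j) (r3 : 0 < σ3 * det3 k d c)
    (hc : 0 < det3 i j c * det3 i j k) : False := by
  -- `j` is on the side of `k` of the line `i c`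
  have e1 : w1 * (σ1 * det3 i c j) + w2 * (σ1 * det3 i c k) + w3 * (σ1 * det3 i c l) = 0 := by
    unfold det3
    linear_combination σ1 * (c.1 - i.1) * hy - σ1 * (c.2 - i.2) * hx
      - (σ1 * (c.1 - i.1) * i.2 - σ1 * (c.2 - i.2) * i.1) * hs
  have e2 : w0 * (σ2 * det3 j c i) + w2 * (σ2 * det3 j c k) + w3 * (σ2 * det3 j c l) = 0 := by
    unfold det3
    linear_combination σ2 * (c.1 - j.1) * hy - σ2 * (c.2 - j.2) * hx
      - (σ2 * (c.1 - j.1) * j.2 - σ2 * (c.2 - j.2) * j.1) * hs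
  have f1 : 0 < σ1 * det3 i c j := by
    have a1 := mul_pos_of_neg_of_neg h2 (neg_neg_of_pos p1)
    have a2 := mul_pos_of_neg_of_neg h3 (neg_neg_of_pos p2)
    have a3 : 0 < w1 * (σ1 * det3 i c j) := by nlinarith
    exact (pos_iff_pos_of_mul_pos a3).1 h1
  have f2 : 0 < σ2 * det3 j c i := by
    have a1 := mul_pos_of_neg_of_neg h2 (neg_neg_of_pos q1)
    have a2 := mul_pos_of_neg_of_neg h3 (neg_neg_of_pos q2)
    have a3 : 0 < w0 * (σ2 * det3 j c i) := by nlinarith
    exact (pos_iff_pos_of_mul_pos a3).1 h0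
  -- barycentric coordinates of `k`
  refine last k d i j c σ3 (det3 i j c) (det3 j c k) (det3 k c i * 1 + 0) (det3 i j k)
    ?_ ?_ ?_ ?_ ?_ ?_ r1 r2 r3
  · -- det3 i j c = det3 j c i
    have g1 : det3 i j c = det3 j c i := by unfold det3; ring
    rw [g1]
    have g2 : 0 < (σ2 * det3 j c k) * (σ2 * det3 j c i) := mul_pos q1 f2
    have g3 : (σ2 * det3 j c k) * (σ2 * det3 j c i) = σ2 ^ 2 * (det3 j c k * det3 j c i) := by ring
    rw [g3] at g2
    exact sq_aux _ _ g2
  · have g1 : det3 i j c = - det3 i c j := by unfold det3; ring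
    have g0 : det3 k c i * 1 + 0 = - det3 i c k := by unfold det3; ring
    rw [g1, g0, neg_mul_neg]
    have g2 : 0 < (σ1 * det3 i c k) * (σ1 * det3 i c j) := mul_pos p1 f1
    have g3 : (σ1 * det3 i c k) * (σ1 * det3 i c j) = σ1 ^ 2 * (det3 i c k * det3 i c j) := by ring
    rw [g3] at g2
    exact sq_aux _ _ g2
  · rw [mul_comm]; exact hc
  · unfold det3; ring
  · unfold det3; ring
  · unfold det3; ring

/-- the hypothesis of `T_NS` -/
def Hyp (s : Fin 5 → Plane) (c : Fin 5 → Fin 5 → Plane) : Prop :=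
  ∀ i j, i ≠ j → ∃ σ : ℝ, (∀ k, k ≠ i → k ≠ j → 0 < σ * det3 (s i) (c i j) (s k)) ∧
    ∀ k l, k ≠ l → k ≠ i → k ≠ j → l ≠ i → l ≠ j → 0 < σ * det3 (s i) (c i j) (c k l)

lemma hull' (s : Fin 5 → Plane) (c : Fin 5 → Fin 5 → Plane) (H : Hyp s c) (i j k l m : Fin 5)
    (him : i ≠ m) (hji : j ≠ i) (hjm : j ≠ m) (hki : k ≠ i) (hkm : k ≠ m) (hli : l ≠ i)
    (hlm : l ≠ m) (w0 w1 w2 w3 : ℝ) (h1 : 0 < w1) (h2 : 0 < w2)
    (h3 : 0 < w3) (hs : w0 + w1 + w2 + w3 = 0)
    (hx : w0 * (s i).1 + w1 * (s j).1 + w2 * (s k).1 + w3 * (s l).1 = 0)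
    (hy : w0 * (s i).2 + w1 * (s j).2 + w2 * (s k).2 + w3 * (s l).2 = 0) : False := by
  obtain ⟨σ, h, -⟩ := H i m him
  exact hull (s i) (c i m) (s j) (s k) (s l) σ w0 w1 w2 w3 h1 h2 h3 hs hx hy (h j hji hjm)
    (h k hki hkm) (h l hli hlm)

lemma cross' (s : Fin 5 → Plane) (c : Fin 5 → Fin 5 → Plane) (hc : ∀ i j, c i j = c j i)
    (hn : ∀ i j, i ≠ j → det3 (s i) (s j) (c i j) ≠ 0) (H : Hyp s c) (i j k l : Fin 5)
    (hij : i ≠ j) (hik : i ≠ k) (hil : i ≠ l) (hjk : j ≠ k) (hjl : j ≠ l) (hkl : k ≠ l)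
    (hg : det3 (s i) (s j) (s k) ≠ 0)
    (w0 w1 w2 w3 : ℝ) (h0 : 0 < w0) (h1 : 0 < w1)
    (h2 : w2 < 0) (h3 : w3 < 0) (hs : w0 + w1 + w2 + w3 = 0)
    (hx : w0 * (s i).1 + w1 * (s j).1 + w2 * (s k).1 + w3 * (s l).1 = 0)
    (hy : w0 * (s i).2 + w1 * (s j).2 + w2 * (s k).2 + w3 * (s l).2 = 0) : False := by
  obtain ⟨σ1, a1, -⟩ := H i j hij
  obtain ⟨σ2, a2, -⟩ := H j i hij.symm
  obtain ⟨σ3, a3, b3⟩ := H k l hkl
  obtain ⟨σ4, a4, b4⟩ := H l k hkl.symm
  have e : w2 * det3 (s i) (s j) (s k) + w3 * det3 (s i) (s j) (s l) = 0 := by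
    unfold det3
    linear_combination ((s j).1 - (s i).1) * hy - ((s j).2 - (s i).2) * hx
      - (((s j).1 - (s i).1) * (s i).2 - ((s j).2 - (s i).2) * (s i).1) * hs
  rw [hc j i] at a2
  by_cases hk : 0 < det3 (s i) (s j) (c i j) * det3 (s i) (s j) (s k)
  · exact cross1 (s i) (s j) (s k) (s l) (c i j) (c k l) σ1 σ2 σ3 w0 w1 w2 w3 h0 h1 h2 h3 hs hx hy
      (a1 k hik.symm hjk.symm) (a1 l hil.symm hjl.symm) (a2 k hjk.symm hik.symm)
      (a2 l hjl.symm hil.symm) (a3 i hik hil) (a3 j hjk hjl) (b3 i j hij hik hil hjk hjl) hk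
  · have hk' : det3 (s i) (s j) (c i j) * det3 (s i) (s j) (s k) < 0 :=
      lt_of_le_of_ne (not_lt.1 hk) (mul_ne_zero (hn i j hij) hg)
    have hl : 0 < det3 (s i) (s j) (c i j) * det3 (s i) (s j) (s l) := by
      have e2 : w2 * (det3 (s i) (s j) (c i j) * det3 (s i) (s j) (s k)) +
          w3 * (det3 (s i) (s j) (c i j) * det3 (s i) (s j) (s l)) = 0 := by
        linear_combination det3 (s i) (s j) (c i j) * e
      have e3 := mul_pos_of_neg_of_neg h2 hk'
      have e4 : w3 * (det3 (s i) (s j) (c i j) * det3 (s i) (s j) (s l)) < 0 := by linarith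
      exact (neg_iff_pos_of_mul_neg e4).1 h3
    refine cross1 (s i) (s j) (s l) (s k) (c i j) (c l k) σ1 σ2 σ4 w0 w1 w3 w2 h0 h1 h3 h2
      (by linarith) (by linarith) (by linarith)
      (a1 l hil.symm hjl.symm) (a1 k hik.symm hjk.symm) (a2 l hjl.symm hil.symm)
      (a2 k hjk.symm hik.symm) (a4 i hil hik) (a4 j hjl hjk) (b4 i j hij hil hik hjl hjk) hl

end NS

open NS in
theorem tNS : T_NS := by
  intro s c hc hg hn H
  have hg' : ∀ i j k : Fin 5, i ≠ j → i ≠ k → j ≠ k → det3 (s i) (s j) (s k) ≠ 0 :=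
    fun i j k h1 h2 h3 => hg i j k h1 h2 h3
  -- the affine dependence of four points
  obtain ⟨w0, w1, w2, w3, n0, n1, n2, n3, hs, hx, hy⟩ :
      ∃ w0 w1 w2 w3 : ℝ, w0 ≠ 0 ∧ w1 ≠ 0 ∧ w2 ≠ 0 ∧ w3 ≠ 0 ∧ w0 + w1 + w2 + w3 = 0 ∧
      w0 * (s 0).1 + w1 * (s 1).1 + w2 * (s 2).1 + w3 * (s 3).1 = 0 ∧
      w0 * (s 0).2 + w1 * (s 1).2 + w2 * (s 2).2 + w3 * (s 3).2 = 0 := by
    refine ⟨det3 (s 1) (s 2) (s 3), - det3 (s 0) (s 2) (s 3), det3 (s 0) (s 1) (s 3),
      - det3 (s 0) (s 1) (s 2), hg' 1 2 3 (by decide) (by decide) (by decide),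
      neg_ne_zero.2 (hg' 0 2 3 (by decide) (by decide) (by decide)),
      hg' 0 1 3 (by decide) (by decide) (by decide),
      neg_ne_zero.2 (hg' 0 1 2 (by decide) (by decide) (by decide)), ?_, ?_, ?_⟩
    · unfold det3; ring
    · unfold det3; ring
    · unfold det3; ring
  have H' : Hyp s c := H
  have hu := hull' s c H'
  have cr := cross' s c hc hn H'
  rcases lt_or_gt_of_ne n0 with m0 | m0 <;> rcases lt_or_gt_of_ne n1 with m1 | m1 <;>
    rcases lt_or_gt_of_ne n2 with m2 | m2 <;> rcases lt_or_gt_of_ne n3 with m3 | m3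
  · linarith
  · exact hu 3 0 1 2 4 (by decide) (by decide) (by decide) (by decide) (by decide) (by decide)
      (by decide) (-w3) (-w0) (-w1) (-w2) (by linarith) (by linarith) (by linarith)
      (by linarith) (by linarith) (by linarith)
  · exact hu 2 0 1 3 4 (by decide) (by decide) (by decide) (by decide) (by decide) (by decide)
      (by decide) (-w2) (-w0) (-w1) (-w3) (by linarith) (by linarith) (by linarith)
      (by linarith) (by linarith) (by linarith)
  · exact cr 2 3 0 1 (by decide) (by decide) (by decide) (by decide) (by decide) (by decide)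
      (hg' _ _ _ (by decide) (by decide) (by decide)) w2 w3 w0 w1 m2 m3 m0 m1 (by linarith)
      (by linarith) (by linarith)
  · exact hu 1 0 2 3 4 (by decide) (by decide) (by decide) (by decide) (by decide) (by decide)
      (by decide) (-w1) (-w0) (-w2) (-w3) (by linarith) (by linarith) (by linarith)
      (by linarith) (by linarith) (by linarith)
  · exact cr 1 3 0 2 (by decide) (by decide) (by decide) (by decide) (by decide) (by decide)
      (hg' _ _ _ (by decide) (by decide) (by decide)) w1 w3 w0 w2 m1 m3 m0 m2 (by linarith)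
      (by linarith) (by linarith)
  · exact cr 1 2 0 3 (by decide) (by decide) (by decide) (by decide) (by decide) (by decide)
      (hg' _ _ _ (by decide) (by decide) (by decide)) w1 w2 w0 w3 m1 m2 m0 m3 (by linarith)
      (by linarith) (by linarith)
  · exact hu 0 1 2 3 4 (by decide) (by decide) (by decide) (by decide) (by decide) (by decide)
      (by decide) w0 w1 w2 w3 m1 m2 m3 (by linarith) (by linarith) (by linarith)
  · exact hu 0 1 2 3 4 (by decide) (by decide) (by decide) (by decide) (by decide) (by decide)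
      (by decide) (-w0) (-w1) (-w2) (-w3) (by linarith) (by linarith) (by linarith)
      (by linarith) (by linarith) (by linarith)
  · exact cr 0 3 1 2 (by decide) (by decide) (by decide) (by decide) (by decide) (by decide)
      (hg' _ _ _ (by decide) (by decide) (by decide)) w0 w3 w1 w2 m0 m3 m1 m2 (by linarith)
      (by linarith) (by linarith)
  · exact cr 0 2 1 3 (by decide) (by decide) (by decide) (by decide) (by decide) (by decide)
      (hg' _ _ _ (by decide) (by decide) (by decide)) w0 w2 w1 w3 m0 m2 m1 m3 (by linarith)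
      (by linarith) (by linarith)
  · exact hu 1 0 2 3 4 (by decide) (by decide) (by decide) (by decide) (by decide) (by decide)
      (by decide) w1 w0 w2 w3 m0 m2 m3 (by linarith) (by linarith) (by linarith)
  · exact cr 0 1 2 3 (by decide) (by decide) (by decide) (by decide) (by decide) (by decide)
      (hg' _ _ _ (by decide) (by decide) (by decide)) w0 w1 w2 w3 m0 m1 m2 m3 (by linarith)
      (by linarith) (by linarith)
  · exact hu 2 0 1 3 4 (by decide) (by decide) (by decide) (by decide) (by decide) (by decide)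
      (by decide) w2 w0 w1 w3 m0 m1 m3 (by linarith) (by linarith) (by linarith)
  · exact hu 3 0 1 2 4 (by decide) (by decide) (by decide) (by decide) (by decide) (by decide)
      (by decide) w3 w0 w1 w2 m0 m1 m2 (by linarith) (by linarith) (by linarith)
  · linarith

end Pool.Agent.ObsNum
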