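import Pool.Agent.ObsNum.Targets

set_option autoImplicit false

/-!
# OBS-OUT: vertices which see both ends of a straddled pair are outside the convex hull
-/

namespace Pool.Agent.ObsNum

open Pool.Agent.PAH (Plane det3)

theorem convex_det3_lt (A B : Plane) (c : ℝ) : Convex ℝ {x : Plane | det3 A B x < c} := by
  intro x hx y hy s t hs ht hst
  simp only [Set.mem_ofPred_eq] at hx hy ⊢
  have h : det3 A B (s • x + t • y) = s * det3 A B x + t * det3 A B y := by
    have hs' : s = 1 - t := by linarith
    subst hs'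
    simp only [det3, Prod.fst_add, Prod.snd_add, Prod.smul_fst, Prod.smul_snd, smul_eq_mul]
    ring
  rw [h]
  rcases eq_or_lt_of_le hs with h0 | h0
  · have : t = 1 := by linarith
    rw [← h0, this]; simpa using hy
  · have h1 : s * det3 A B x < s * c := mul_lt_mul_of_pos_left hx h0
    have h2 : t * det3 A B y ≤ t * c := mul_le_mul_of_nonneg_left hy.le ht
    have h3 : s * c + t * c = c := by rw [← add_mul, hst, one_mul]
    linarith

theorem convex_lt_det3 (A B : Plane) (c : ℝ) : Convex ℝ {x : Plane | c < det3 A B x} := by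
  intro x hx y hy s t hs ht hst
  simp only [Set.mem_ofPred_eq] at hx hy ⊢
  have h : det3 A B (s • x + t • y) = s * det3 A B x + t * det3 A B y := by
    have hs' : s = 1 - t := by linarith
    subst hs'
    simp only [det3, Prod.fst_add, Prod.snd_add, Prod.smul_fst, Prod.smul_snd, smul_eq_mul]
    ring
  rw [h]
  rcases eq_or_lt_of_le hs with h0 | h0
  · have : t = 1 := by linarith
    rw [← h0, this]; simpa using hy
  · have h1 : s * c < s * det3 A B x := mul_lt_mul_of_pos_left hx h0
    have h2 : t * c ≤ t * det3 A B y := mul_le_mul_of_nonneg_left hy.le ht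
    have h3 : s * c + t * c = c := by rw [← add_mul, hst, one_mul]
    linarith

theorem tOUT (h1 : T_QL) : T_OUT := by
  rintro α β C i a b ⟨hT, v₁, w₁, hva, hvb, hwa, hwb, hv, hw⟩ v hsa hsb
  have hne1 : (Sum.inl a : α ⊕ β) ≠ v := by
    rintro rfl
    exact hT hsb
  have hne2 : (Sum.inr b : α ⊕ β) ≠ v := by
    rintro rfl
    refine hT ?_
    unfold Cfg.See at hsa
    rwa [segment_symm] at hsa
  have hdet := C.gp (Sum.inl a) (Sum.inr b) v (by simp) hne1 hne2
  unfold Cfg.See at *
  unfold Cfg.T at hT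
  rw [segment_symm] at hva hvb hwa hwb hsa hsb
  rcases lt_or_gt_of_ne hdet with hneg | hpos
  · have hq := h1 _ _ _ _ _ (C.conn i) hv hneg hT hva hvb hsa hsb
    intro hmem
    have hsub : convexHull ℝ (C.O i) ⊆
        {x : Plane | det3 (C.p (.inl a)) (C.p (.inr b)) (C.p v) < det3 (C.p (.inl a)) (C.p (.inr b)) x} :=
      convexHull_min (fun x hx => (hq x hx).1) (convex_lt_det3 _ _ _)
    exact absurd (hsub hmem) (lt_irrefl (det3 (C.p (.inl a)) (C.p (.inr b)) (C.p v)))
  · have hq := h1 _ _ _ _ _ (C.conn i) hpos hw hT hsa hsb hwa hwb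
    intro hmem
    have hsub : convexHull ℝ (C.O i) ⊆
        {x : Plane | det3 (C.p (.inl a)) (C.p (.inr b)) x < det3 (C.p (.inl a)) (C.p (.inr b)) (C.p v)} :=
      convexHull_min (fun x hx => (hq x hx).2) (convex_det3_lt _ _ _)
    exact absurd (hsub hmem) (lt_irrefl (det3 (C.p (.inl a)) (C.p (.inr b)) (C.p v)))

end Pool.Agent.ObsNum
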