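import Pool.Agent.ObsNum.Targets

set_option autoImplicit false

/-!
# PERT: general position
-/

open Filter Topology

namespace Pool.Agent.ObsNum

open Pool.Agent.PAH (Plane det3)

namespace PERT

/-- a polynomial of degree two does not vanish for small positive arguments -/
lemma quad_ne (a b c : ℝ) (h : a ≠ 0 ∨ b ≠ 0 ∨ c ≠ 0) :
    ∀ᶠ t : ℝ in 𝓝[>] 0, a + b * t + c * t ^ 2 ≠ 0 := by
  have hpos : ∀ᶠ t : ℝ in 𝓝[>] 0, 0 < t := self_mem_nhdsWithin
  by_cases ha : a = 0
  · by_cases hb : b = 0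
    · have hc : c ≠ 0 := by
        rcases h with h | h | h
        · exact absurd ha h
        · exact absurd hb h
        · exact h
      filter_upwards [hpos] with t ht
      rw [ha, hb, zero_mul, zero_add, zero_add]
      exact mul_ne_zero hc (pow_ne_zero 2 ht.ne')
    · have h1 : ∀ᶠ t : ℝ in 𝓝[>] 0, b + c * t ≠ 0 := by
        have h2 : Tendsto (fun t : ℝ => b + c * t) (𝓝[>] 0) (𝓝 (b + c * 0)) :=
          (Continuous.tendsto (by fun_prop) 0).mono_left nhdsWithin_le_nhds
        rw [mul_zero, add_zero] at h2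
        exact h2.eventually_ne hb
      filter_upwards [hpos, h1] with t ht h3
      have h4 : a + b * t + c * t ^ 2 = t * (b + c * t) := by rw [ha]; ring
      rw [h4]
      exact mul_ne_zero ht.ne' h3
  · have h2 : Tendsto (fun t : ℝ => a + b * t + c * t ^ 2) (𝓝[>] 0) (𝓝 (a + b * 0 + c * 0 ^ 2)) :=
      (Continuous.tendsto (by fun_prop) 0).mono_left nhdsWithin_le_nhds
    rw [show a + b * 0 + c * 0 ^ 2 = a by ring] at h2
    exact h2.eventually_ne ha

variable {V : Type}

/-- the perturbed point -/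
noncomputable def pt (p : V → Plane) (n : V → ℝ) (t : ℝ) (v : V) : Plane :=
  ((p v).1 + t * n v, (p v).2 + t * n v ^ 2)

lemma tendsto_fst (p : V → Plane) (n : V → ℝ) (v : V) :
    Tendsto (fun t => (pt p n t v).1) (𝓝[>] 0) (𝓝 (p v).1) := by
  have h : Tendsto (fun t => (pt p n t v).1) (𝓝[>] 0) (𝓝 ((p v).1 + 0 * n v)) :=
    (Continuous.tendsto (by unfold pt; fun_prop) 0).mono_left nhdsWithin_le_nhds
  rwa [zero_mul, add_zero] at h

lemma tendsto_snd (p : V → Plane) (n : V → ℝ) (v : V) :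
    Tendsto (fun t => (pt p n t v).2) (𝓝[>] 0) (𝓝 (p v).2) := by
  have h : Tendsto (fun t => (pt p n t v).2) (𝓝[>] 0) (𝓝 ((p v).2 + 0 * n v ^ 2)) :=
    (Continuous.tendsto (by unfold pt; fun_prop) 0).mono_left nhdsWithin_le_nhds
  rwa [zero_mul, add_zero] at h

lemma tendsto_height (p : V → Plane) (n : V → ℝ) (u v : V) (h : (p v).1 - (p u).1 ≠ 0) :
    Tendsto (fun t => height (pt p n t u) (pt p n t v)) (𝓝[>] 0) (𝓝 (height (p u) (p v))) := by
  unfold height
  exact (((tendsto_snd p n u).mul (tendsto_fst p n v)).sub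
    ((tendsto_snd p n v).mul (tendsto_fst p n u))).div
      ((tendsto_fst p n v).sub (tendsto_fst p n u)) h

end PERT

open PERT in
theorem tPERT : T_PERT := by
  intro V _ G L ε p hp
  obtain ⟨n, hn⟩ : ∃ n : V → ℝ, Function.Injective n := by
    obtain ⟨m, ⟨e⟩⟩ := Finite.exists_equiv_fin V
    exact ⟨fun v => ((e v : ℕ) : ℝ), fun u v h => e.injective (Fin.ext (Nat.cast_injective h))⟩
  have e1 : ∀ᶠ t : ℝ in 𝓝[>] 0, ∀ v, L v → (pt p n t v).1 < 0 := by
    rw [eventually_all]
    intro v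
    by_cases hv : L v
    · filter_upwards [(tendsto_fst p n v).eventually_lt_const (hp.left v hv)] with t ht _ using ht
    · exact Eventually.of_forall fun t h => absurd h hv
  have e2 : ∀ᶠ t : ℝ in 𝓝[>] 0, ∀ v, ¬ L v → 0 < (pt p n t v).1 := by
    rw [eventually_all]
    intro v
    by_cases hv : L v
    · exact Eventually.of_forall fun t h => absurd hv h
    · filter_upwards [(tendsto_fst p n v).eventually_const_lt (hp.right v hv)] with t ht _ using ht
  have hne : ∀ u v, L u → ¬ L v → (p v).1 - (p u).1 ≠ 0 := by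
    intro u v hu hv
    have h1 := hp.left u hu
    have h2 := hp.right v hv
    have : 0 < (p v).1 - (p u).1 := by linarith
    exact this.ne'
  have e3 : ∀ᶠ t : ℝ in 𝓝[>] 0, ∀ u v, L u → ¬ L v → G.Adj u v →
      ε < |height (pt p n t u) (pt p n t v) - 1| ∧ ε < |height (pt p n t u) (pt p n t v) + 1| := by
    rw [eventually_all]
    intro u
    rw [eventually_all]
    intro v
    by_cases h : L u ∧ ¬ L v ∧ G.Adj u v
    · obtain ⟨hu, hv, huv⟩ := h
      have ht := tendsto_height p n u v (hne u v hu hv)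
      have h1 := (ht.sub_const 1).abs.eventually_const_lt (hp.free u v hu hv huv).1
      have h2 := (ht.add_const 1).abs.eventually_const_lt (hp.free u v hu hv huv).2
      filter_upwards [h1, h2] with t h3 h4 _ _ _ using ⟨h3, h4⟩
    · exact Eventually.of_forall fun t h1 h2 h3 => absurd ⟨h1, h2, h3⟩ h
  have e4 : ∀ᶠ t : ℝ in 𝓝[>] 0, ∀ u v, L u → ¬ L v → ¬ G.Adj u v →
      |height (pt p n t u) (pt p n t v) - 1| < ε ∨ |height (pt p n t u) (pt p n t v) + 1| < ε := by
    rw [eventually_all]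
    intro u
    rw [eventually_all]
    intro v
    by_cases h : L u ∧ ¬ L v ∧ ¬ G.Adj u v
    · obtain ⟨hu, hv, huv⟩ := h
      have ht := tendsto_height p n u v (hne u v hu hv)
      rcases hp.blocked u v hu hv huv with h1 | h1
      · filter_upwards [(ht.sub_const 1).abs.eventually_lt_const h1] with t h3 _ _ _ using Or.inl h3
      · filter_upwards [(ht.add_const 1).abs.eventually_lt_const h1] with t h3 _ _ _ using Or.inr h3
    · exact Eventually.of_forall fun t h1 h2 h3 => absurd ⟨h1, h2, h3⟩ h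
  have e5 : ∀ᶠ t : ℝ in 𝓝[>] 0, ∀ u v, u ≠ v → pt p n t u ≠ pt p n t v := by
    rw [eventually_all]
    intro u
    rw [eventually_all]
    intro v
    by_cases h : u = v
    · exact Eventually.of_forall fun t h1 => absurd h h1
    · have h1 : n u - n v ≠ 0 := fun h2 => h (hn (sub_eq_zero.1 h2))
      filter_upwards [quad_ne ((p u).1 - (p v).1) (n u - n v) 0 (Or.inr (Or.inl h1))] with t ht _ he
      apply ht
      have h2 : (p u).1 + t * n u = (p v).1 + t * n v := congrArg Prod.fst he
      linarith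
  have e6 : ∀ᶠ t : ℝ in 𝓝[>] 0, ∀ u v w, u ≠ v → u ≠ w → v ≠ w →
      det3 (pt p n t u) (pt p n t v) (pt p n t w) ≠ 0 := by
    rw [eventually_all]
    intro u
    rw [eventually_all]
    intro v
    rw [eventually_all]
    intro w
    by_cases h : u ≠ v ∧ u ≠ w ∧ v ≠ w
    · obtain ⟨huv, huw, hvw⟩ := h
      have h1 : n v - n u ≠ 0 := fun h2 => huv (hn (sub_eq_zero.1 h2)).symm
      have h2 : n w - n u ≠ 0 := fun h2 => huw (hn (sub_eq_zero.1 h2)).symm
      have h3 : n w - n v ≠ 0 := fun h2 => hvw (hn (sub_eq_zero.1 h2)).symm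
      have h4 := quad_ne (det3 (p u) (p v) (p w))
        (((p v).1 - (p u).1) * (n w ^ 2 - n u ^ 2) + (n v - n u) * ((p w).2 - (p u).2) -
          ((p v).2 - (p u).2) * (n w - n u) - (n v ^ 2 - n u ^ 2) * ((p w).1 - (p u).1))
        ((n v - n u) * (n w - n u) * (n w - n v))
        (Or.inr (Or.inr (mul_ne_zero (mul_ne_zero h1 h2) h3)))
      filter_upwards [h4] with t ht _ _ _ he
      apply ht
      rw [← he]
      unfold det3 pt
      ring
    · exact Eventually.of_forall fun t h1 h2 h3 => absurd ⟨h1, h2, h3⟩ h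
  obtain ⟨t, h1, h2, h3, h4, h5, h6⟩ :=
    (e1.and (e2.and (e3.and (e4.and (e5.and e6))))).exists
  refine ⟨pt p n t, ⟨h1, h2, h3, h4⟩, ?_, h6⟩
  intro u v h
  by_contra hne'
  exact h5 u v hne' h

end Pool.Agent.ObsNum
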