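import Pool.Agent.ObsNum.Red
import Pool.Agent.SLN.Print

set_option autoImplicit false

/-!
# R-PRINT: the reduction is computable in polynomial time
-/

namespace Pool.Agent.ObsNum

open Pool.Agent.PT (Dat PolyF PolyB D sz Core)
open Pool.Agent.SLN (Sym encBits Lit Satisfiable encLit encCNF parse parse_pt parse_encCNF
  encBits_pt)

/-! ### Elements as tuples -/

/-- an element as a tuple of numbers -/
def El.tup : El → ℕ × ℕ × ℕ × ℕ × ℕ
  | .x c o => (0, c, o, 0, 0)
  | .e3 c j => (1, c, j, 0, 0)
  | .e2 c o => (2, c, o, 0, 0)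
  | .lit c o s => (cond s 3 4, c, o, 0, 0)
  | .gx c o i => (5, c, o, i, 0)
  | .g3 c j i => (6, c, j, i, 0)
  | .g2 c o i => (7, c, o, i, 0)
  | .rx c o i f => (8, c, o, i, f)
  | .r3 c j i f => (9, c, j, i, f)
  | .r2 c o i f => (10, c, o, i, f)

theorem El.tup_inj : Function.Injective El.tup := by
  intro a b h
  cases a with
  | lit c o s =>
    cases b with
    | lit c' o' s' => cases s <;> cases s' <;> simp [El.tup] at h ⊢ <;> exact h
    | _ => cases s <;> simp [El.tup] at h
  | _ =>
    cases b with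
    | lit c' o' s' => cases s' <;> simp [El.tup] at h
    | _ => simp [El.tup] at h ⊢ <;> tauto

instance : Dat El := ⟨fun e => Dat.enc e.tup, fun _ _ h => El.tup_inj (Dat.inj h)⟩

section

variable {γ : Type} [Dat γ] [hC : Fact Core]

omit hC in
theorem of_tup {f : γ → El} (h : PolyF (fun x => (f x).tup)) : PolyF f := h

@[fun_prop] theorem elx_pt {c o : γ → ℕ} (hc : PolyF c) (ho : PolyF o) :
    PolyF (fun a => El.x (c a) (o a)) := by
  refine of_tup ?_
  simp only [El.tup]
  fun_prop

@[fun_prop] theorem ele3_pt {c o : γ → ℕ} (hc : PolyF c) (ho : PolyF o) :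
    PolyF (fun a => El.e3 (c a) (o a)) := by
  refine of_tup ?_
  simp only [El.tup]
  fun_prop

@[fun_prop] theorem ele2_pt {c o : γ → ℕ} (hc : PolyF c) (ho : PolyF o) :
    PolyF (fun a => El.e2 (c a) (o a)) := by
  refine of_tup ?_
  simp only [El.tup]
  fun_prop

@[fun_prop] theorem ellit_pt {c o : γ → ℕ} {s : γ → Bool} (hc : PolyF c) (ho : PolyF o)
    (hs : PolyF s) : PolyF (fun a => El.lit (c a) (o a) (s a)) := by
  refine of_tup ?_
  simp only [El.tup]
  fun_prop

@[fun_prop] theorem elgx_pt {c o i : γ → ℕ} (hc : PolyF c) (ho : PolyF o) (hi : PolyF i) :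
    PolyF (fun a => El.gx (c a) (o a) (i a)) := by
  refine of_tup ?_
  simp only [El.tup]
  fun_prop

@[fun_prop] theorem elg3_pt {c o i : γ → ℕ} (hc : PolyF c) (ho : PolyF o) (hi : PolyF i) :
    PolyF (fun a => El.g3 (c a) (o a) (i a)) := by
  refine of_tup ?_
  simp only [El.tup]
  fun_prop

@[fun_prop] theorem elg2_pt {c o i : γ → ℕ} (hc : PolyF c) (ho : PolyF o) (hi : PolyF i) :
    PolyF (fun a => El.g2 (c a) (o a) (i a)) := by
  refine of_tup ?_
  simp only [El.tup]
  fun_prop

@[fun_prop] theorem elrx_pt {c o i f : γ → ℕ} (hc : PolyF c) (ho : PolyF o) (hi : PolyF i)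
    (hf : PolyF f) : PolyF (fun a => El.rx (c a) (o a) (i a) (f a)) := by
  refine of_tup ?_
  simp only [El.tup]
  fun_prop

@[fun_prop] theorem elr3_pt {c o i f : γ → ℕ} (hc : PolyF c) (ho : PolyF o) (hi : PolyF i)
    (hf : PolyF f) : PolyF (fun a => El.r3 (c a) (o a) (i a) (f a)) := by
  refine of_tup ?_
  simp only [El.tup]
  fun_prop

@[fun_prop] theorem elr2_pt {c o i f : γ → ℕ} (hc : PolyF c) (ho : PolyF o) (hi : PolyF i)
    (hf : PolyF f) : PolyF (fun a => El.r2 (c a) (o a) (i a) (f a)) := by
  refine of_tup ?_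
  simp only [El.tup]
  fun_prop

@[fun_prop] theorem eq_el_pt {f g : γ → El} (hf : PolyF f) (hg : PolyF g) :
    PolyF (fun a => decide (f a = g a)) := PolyF.eq hf hg

@[fun_prop] theorem ne_el_pt {f g : γ → El} (hf : PolyF f) (hg : PolyF g) :
    PolyF (fun a => decide (f a ≠ g a)) := by
  have h : PolyF (fun a => !decide (f a = g a)) := by fun_prop
  refine h.congr fun a => ?_
  by_cases h1 : f a = g a <;> simp [h1]

@[fun_prop] theorem eq_name_pt {f g : γ → Name} (hf : PolyF f) (hg : PolyF g) :
    PolyF (fun a => decide (f a = g a)) := PolyF.eq hf hg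

/-! ### The instance -/

@[fun_prop] theorem old_pt {n : γ → List Bool} (hn : PolyF n) : PolyF (fun a => old (n a)) := by
  unfold old; fun_prop

@[fun_prop] theorem fresh_pt {j t : γ → ℕ} (hj : PolyF j) (ht : PolyF t) :
    PolyF (fun a => fresh (j a) (t a)) := by
  unfold fresh; fun_prop

@[fun_prop] theorem trc_pt {j : γ → ℕ} {c : γ → List Lit} (hj : PolyF j) (hc : PolyF c) :
    PolyF (fun a => trc (j a) (c a)) := by
  unfold trc; fun_prop

@[fun_prop] theorem trips_pt {φ : γ → List (List Lit)} (hφ : PolyF φ) :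
    PolyF (fun a => trips (φ a)) := by
  unfold trips; fun_prop

@[fun_prop] theorem lits_pt {φ : γ → List (List Lit)} (hφ : PolyF φ) :
    PolyF (fun a => lits (φ a)) := by
  unfold lits; fun_prop

@[fun_prop] theorem nam_pt {φ : γ → List (List Lit)} {o : γ → ℕ} (hφ : PolyF φ) (ho : PolyF o) :
    PolyF (fun a => nam (φ a) (o a)) := by
  unfold nam; fun_prop

@[fun_prop] theorem same_pt {φ : γ → List (List Lit)} {o : γ → ℕ} (hφ : PolyF φ) (ho : PolyF o) :
    PolyF (fun a => same (φ a) (o a)) := by
  unfold same; fun_prop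

@[fun_prop] theorem nxt_pt {l : γ → List ℕ} {o : γ → ℕ} (hl : PolyF l) (ho : PolyF o) :
    PolyF (fun a => nxt (l a) (o a)) := by
  unfold nxt; fun_prop

@[fun_prop] theorem nx_pt {φ : γ → List (List Lit)} {o : γ → ℕ} (hφ : PolyF φ) (ho : PolyF o) :
    PolyF (fun a => (redC (φ a)).nx (o a)) := by
  unfold redC; fun_prop

@[fun_prop] theorem sg_pt {φ : γ → List (List Lit)} {o : γ → ℕ} (hφ : PolyF φ) (ho : PolyF o) :
    PolyF (fun a => (redC (φ a)).sg (o a)) := by
  unfold redC; fun_prop

@[fun_prop] theorem K_pt {φ : γ → List (List Lit)} (hφ : PolyF φ) :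
    PolyF (fun a => List.range (redC (φ a)).K) := by
  unfold redC; fun_prop

omit hC in
theorem lits_length (φ : List (List Lit)) : (lits φ).length = 3 * (redC φ).K := by
  show (lits φ).length = 3 * (trips φ ++ trips φ).length
  unfold lits
  induction (trips φ ++ trips φ) with
  | nil => rfl
  | cons t l ih =>
    rw [List.flatMap_cons, List.length_append, ih, List.length_cons]
    simp only [List.length_cons, List.length_nil]
    ring

@[fun_prop] theorem K3_pt {φ : γ → List (List Lit)} (hφ : PolyF φ) :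
    PolyF (fun a => List.range (3 * (redC (φ a)).K)) := by
  have h : PolyF (fun a => List.range (lits (φ a)).length) := by fun_prop
  exact h.congr fun a => by rw [lits_length]

@[fun_prop] theorem three_mul_pt {j : γ → ℕ} (hj : PolyF j) : PolyF (fun a => 3 * j a) := by
  have h : PolyF (fun a => j a + j a + j a) := by fun_prop
  exact h.congr fun a => by ring

/-! ### The graph -/

/-- pieces of the lists -/
def c0a (c o : ℕ) : List El := [El.lit c o true, El.lit c o false]
def c1a (c o : ℕ) : List El := (List.range 3).flatMap fun i => [El.gx c o i, El.g2 c o i]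
def c1b (c j : ℕ) : List El := (List.range 2).map fun i => El.g3 c j i
def c2a (c f o : ℕ) : List El := (List.range 3).flatMap fun i => [El.rx c o i f, El.r2 c o i f]
def c2b (c f j : ℕ) : List El := (List.range 2).map fun i => El.r3 c j i f
def gba (c f o : ℕ) : List (List El) := (List.range 3).flatMap fun i =>
  [[El.x c o, El.gx c o i, El.rx c o i f], [El.e2 c o, El.g2 c o i, El.r2 c o i f]]
def gbb (c f j : ℕ) : List (List El) := (List.range 2).map fun i =>
  [El.e3 c j, El.g3 c j i, El.r3 c j i f]
def cbt (c j t : ℕ) (s : Bool) : List El := [El.x c (3 * j + t), El.lit c (3 * j + t) s, El.e3 c j]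
def cbo (c o n : ℕ) : List (List El) :=
  [[El.x c o, El.lit c o false, El.e2 c o], [El.x c n, El.lit c n true, El.e2 c o]]

@[fun_prop] theorem c0a_pt {c o : γ → ℕ} (hc : PolyF c) (ho : PolyF o) :
    PolyF (fun a => c0a (c a) (o a)) := by
  unfold c0a; fun_prop

@[fun_prop] theorem c1a_pt {c o : γ → ℕ} (hc : PolyF c) (ho : PolyF o) :
    PolyF (fun a => c1a (c a) (o a)) := by
  unfold c1a; fun_prop

@[fun_prop] theorem c1b_pt {c o : γ → ℕ} (hc : PolyF c) (ho : PolyF o) :
    PolyF (fun a => c1b (c a) (o a)) := by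
  unfold c1b; fun_prop

@[fun_prop] theorem c2a_pt {c f o : γ → ℕ} (hc : PolyF c) (hf : PolyF f) (ho : PolyF o) :
    PolyF (fun a => c2a (c a) (f a) (o a)) := by
  unfold c2a; fun_prop

@[fun_prop] theorem c2b_pt {c f o : γ → ℕ} (hc : PolyF c) (hf : PolyF f) (ho : PolyF o) :
    PolyF (fun a => c2b (c a) (f a) (o a)) := by
  unfold c2b; fun_prop

@[fun_prop] theorem gba_pt {c f o : γ → ℕ} (hc : PolyF c) (hf : PolyF f) (ho : PolyF o) :
    PolyF (fun a => gba (c a) (f a) (o a)) := by
  unfold gba; fun_prop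

@[fun_prop] theorem gbb_pt {c f o : γ → ℕ} (hc : PolyF c) (hf : PolyF f) (ho : PolyF o) :
    PolyF (fun a => gbb (c a) (f a) (o a)) := by
  unfold gbb; fun_prop

@[fun_prop] theorem cbt_pt {c j t : γ → ℕ} {s : γ → Bool} (hc : PolyF c) (hj : PolyF j)
    (ht : PolyF t) (hs : PolyF s) : PolyF (fun a => cbt (c a) (j a) (t a) (s a)) := by
  unfold cbt; fun_prop

@[fun_prop] theorem cbo_pt {c o n : γ → ℕ} (hc : PolyF c) (ho : PolyF o) (hn : PolyF n) :
    PolyF (fun a => cbo (c a) (o a) (n a)) := by
  unfold cbo; fun_prop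

/-- the parts of one copy -/
def pe (φ : List (List Lit)) (c : ℕ) : List El :=
  ((List.range (3 * (redC φ).K)).flatMap fun o => [El.x c o, El.e2 c o]) ++
    (List.range (redC φ).K).map fun j => El.e3 c j
def p0 (φ : List (List Lit)) (c : ℕ) : List El :=
  (List.range (3 * (redC φ).K)).flatMap fun o => c0a c o
def p1 (φ : List (List Lit)) (c : ℕ) : List El :=
  ((List.range (3 * (redC φ).K)).flatMap fun o => c1a c o) ++
    (List.range (redC φ).K).flatMap fun j => c1b c j
def p2 (φ : List (List Lit)) (c f : ℕ) : List El :=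
  ((List.range (3 * (redC φ).K)).flatMap fun o => c2a c f o) ++
    (List.range (redC φ).K).flatMap fun j => c2b c f j
def pg (φ : List (List Lit)) (c f : ℕ) : List (List El) :=
  ((List.range (3 * (redC φ).K)).flatMap fun o => gba c f o) ++
    (List.range (redC φ).K).flatMap fun j => gbb c f j
def pc (φ : List (List Lit)) (c : ℕ) : List (List El) :=
  ((List.range (redC φ).K).flatMap fun j => (List.range 3).map fun t =>
      cbt c j t ((redC φ).sg (3 * j + t))) ++
    (List.range (3 * (redC φ).K)).flatMap fun o => cbo c o ((redC φ).nx o)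

@[fun_prop] theorem pe_pt {φ : γ → List (List Lit)} {c : γ → ℕ} (hφ : PolyF φ) (hc : PolyF c) :
    PolyF (fun a => pe (φ a) (c a)) := by
  unfold pe; fun_prop

@[fun_prop] theorem p0_pt {φ : γ → List (List Lit)} {c : γ → ℕ} (hφ : PolyF φ) (hc : PolyF c) :
    PolyF (fun a => p0 (φ a) (c a)) := by
  unfold p0; fun_prop

@[fun_prop] theorem p1_pt {φ : γ → List (List Lit)} {c : γ → ℕ} (hφ : PolyF φ) (hc : PolyF c) :
    PolyF (fun a => p1 (φ a) (c a)) := by
  unfold p1; fun_prop

@[fun_prop] theorem p2_pt {φ : γ → List (List Lit)} {c f : γ → ℕ} (hφ : PolyF φ)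
    (hc : PolyF c) (hf : PolyF f) : PolyF (fun a => p2 (φ a) (c a) (f a)) := by
  unfold p2; fun_prop

@[fun_prop] theorem pg_pt {φ : γ → List (List Lit)} {c f : γ → ℕ} (hφ : PolyF φ)
    (hc : PolyF c) (hf : PolyF f) : PolyF (fun a => pg (φ a) (c a) (f a)) := by
  unfold pg; fun_prop

@[fun_prop] theorem pc_pt {φ : γ → List (List Lit)} {c : γ → ℕ} (hφ : PolyF φ) (hc : PolyF c) :
    PolyF (fun a => pc (φ a) (c a)) := by
  unfold pc; fun_prop

theorem cls0_pt {φ : γ → List (List Lit)} (N : ℕ) (hφ : PolyF φ) :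
    PolyF (fun a => cls (redC (φ a)) N 0) := by
  have h : PolyF (fun a => (List.range N).flatMap fun c => p0 (φ a) c) := by fun_prop
  exact h

theorem cls1_pt {φ : γ → List (List Lit)} (N : ℕ) (hφ : PolyF φ) :
    PolyF (fun a => cls (redC (φ a)) N 1) := by
  have h : PolyF (fun a => (List.range N).flatMap fun c => p1 (φ a) c) := by fun_prop
  exact h

theorem cls2_pt {φ : γ → List (List Lit)} (N : ℕ) (hφ : PolyF φ) :
    PolyF (fun a => cls (redC (φ a)) N 2) := by
  have h : PolyF (fun a => (List.range N).flatMap fun c =>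
      (List.range 9).flatMap fun f => p2 (φ a) c f) := by fun_prop
  exact h

@[fun_prop] theorem els_pt {φ : γ → List (List Lit)} (N : ℕ) (hφ : PolyF φ) :
    PolyF (fun a => els (redC (φ a)) N) := by
  have h : PolyF (fun a => (List.range N).flatMap fun c => pe (φ a) c) := by fun_prop
  exact PolyF.append (PolyF.append (PolyF.append h (cls0_pt N hφ)) (cls1_pt N hφ)) (cls2_pt N hφ)

@[fun_prop] theorem qblocks_pt {l : γ → List El} (hl : PolyF l) :
    PolyF (fun a => qblocks (l a)) := by
  unfold qblocks; fun_prop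

@[fun_prop] theorem gblocks_pt {φ : γ → List (List Lit)} (N : ℕ) (hφ : PolyF φ) :
    PolyF (fun a => gblocks (redC (φ a)) N) := by
  have h : PolyF (fun a => (List.range N).flatMap fun c =>
      (List.range 9).flatMap fun f => pg (φ a) c f) := by fun_prop
  exact h

@[fun_prop] theorem cblocks_pt {φ : γ → List (List Lit)} (N : ℕ) (hφ : PolyF φ) :
    PolyF (fun a => cblocks (redC (φ a)) N) := by
  have h : PolyF (fun a => (List.range N).flatMap fun c => pc (φ a) c) := by fun_prop
  exact h

@[fun_prop] theorem blocks_pt {φ : γ → List (List Lit)} (N : ℕ) (hφ : PolyF φ) :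
    PolyF (fun a => blocks (redC (φ a)) N) :=
  PolyF.append (PolyF.append (PolyF.append (PolyF.append (qblocks_pt (cls0_pt N hφ))
    (qblocks_pt (cls1_pt N hφ))) (qblocks_pt (cls2_pt N hφ))) (gblocks_pt N hφ)) (cblocks_pt N hφ)

@[fun_prop] theorem verts_pt {l : γ → List El} {b : γ → List (List El)} (hl : PolyF l)
    (hb : PolyF b) : PolyF (fun a => verts (l a) (b a)) := by
  unfold verts; fun_prop

/-- being apart as a Boolean -/
def apartB (u v : Bool × List El) : Bool :=
  decide (u.1 = v.1) || u.2.all fun a => !(v.2.any fun b => decide (a = b))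

omit hC [Dat γ] in
theorem apartB_iff (u v : Bool × List El) : apartB u v = true ↔ Apart u v := by
  unfold apartB Apart
  simp only [Bool.or_eq_true, decide_eq_true_eq, List.all_eq_true, Bool.not_eq_true',
    List.any_eq_false, decide_eq_true_eq]
  constructor
  · rintro (h | h) hne a ha hb
    · exact hne h
    · exact h a ha a hb rfl
  · intro h
    by_cases h1 : u.1 = v.1
    · exact Or.inl h1
    · right
      rintro a ha b hb rfl
      exact h h1 a ha hb

@[fun_prop] theorem apartB_pt {u v : γ → Bool × List El} (hu : PolyF u) (hv : PolyF v) :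
    PolyF (fun a => apartB (u a) (v a)) := by
  unfold apartB; fun_prop

/-- the output for a list of vertices -/
def out (V : List (Bool × List El)) : List Sym :=
  ((List.range V.length).zip V).flatMap (fun p =>
    (((List.range V.length).zip V).filter
      (fun q => !decide (p.1 = q.1) && apartB p.2 q.2)).flatMap
      (fun q => encBits q.1.bits ++ [Sym.comma]) ++ [Sym.semi]) ++ encBits (Nat.bits 2)

@[fun_prop] theorem out_pt {V : γ → List (Bool × List El)} (hV : PolyF V) :
    PolyF (fun a => out (V a)) := by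
  unfold out; fun_prop

omit hC [Dat γ] in
theorem finRange_map {α : Type} (V : List α) :
    (List.finRange V.length).map (fun i => (i.1, V.get i)) = (List.range V.length).zip V := by
  apply List.ext_getElem
  · simp
  · intro n h1 h2
    simp

omit hC [Dat γ] in
theorem out_eq (els : List El) (blocks : List (List El)) :
    out (verts els blocks) = encInst (⟨_, coGraph els blocks, 2⟩ : GraphInst) := by
  unfold out encInst
  simp only
  rw [← finRange_map, List.flatMap_map]
  congr 1
  congr 1
  funext i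
  unfold encRow
  rw [List.filter_map, List.flatMap_map]
  congr 1
  have hfil : ∀ (p q : Fin (verts els blocks).length → Bool), (∀ j, p j = q j) →
      (List.finRange (verts els blocks).length).filter p =
      (List.finRange (verts els blocks).length).filter q := by
    intro p q h
    have : p = q := funext h
    rw [this]
  rw [hfil]
  intro j
  rw [Bool.eq_iff_iff]
  simp only [Function.comp, Bool.and_eq_true, Bool.not_eq_true', decide_eq_false_iff_not,
    decide_eq_true_eq, apartB_iff, Fin.val_inj]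
  exact Iff.rfl

end

/-- the reduction as a polynomial time function on formulas -/
theorem print_polyF (N : ℕ) : ∃ G : List (List Lit) → List Sym, PolyF G ∧
    ∀ φ, G φ = encInst (⟨_, theGraph (redC φ) N, 2⟩ : GraphInst) := by
  have : Fact Core := ⟨Pool.Agent.PT.core⟩
  refine ⟨fun φ => out (verts (els (redC φ) N) (blocks (redC φ) N)), by fun_prop, fun φ => ?_⟩
  exact out_eq (els (redC φ) N) (blocks (redC φ) N)

theorem tPRINT : T_PRINT := by
  intro N
  have : Fact Core := ⟨Pool.Agent.PT.core⟩
  refine Pool.Agent.PT.tm_of_polyF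
    (F := fun w => out (verts (els (redC (parse w)) N) (blocks (redC (parse w)) N))) ?_ _ _ _ ?_
  · have h := parse_pt
    fun_prop
  · intro φ
    rw [parse_encCNF, out_eq]
    rfl

end Pool.Agent.ObsNum
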