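import Pool.Agent.ObsNum.Targets

set_option autoImplicit false

/-!
# OBS-QL: a connected obstacle which meets a diagonal and misses the four sides
-/

namespace Pool.Agent.ObsNum

open Pool.Agent.PAH (Plane det3)

namespace QLaux

theorem cont (a b : Plane) : Continuous (fun x : Plane => det3 a b x) := by
  unfold det3; fun_prop

theorem sum (a b l x : Plane) : det3 a b x + det3 b l x + det3 l a x = det3 a b l := by
  unfold det3; ring

theorem bary1 (a b l x : Plane) :
    det3 b l x * a.1 + det3 l a x * b.1 + det3 a b x * l.1 = det3 a b l * x.1 := by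
  unfold det3; ring

theorem bary2 (a b l x : Plane) :
    det3 b l x * a.2 + det3 l a x * b.2 + det3 a b x * l.2 = det3 a b l * x.2 := by
  unfold det3; ring

theorem cyc (a b l : Plane) : det3 b l a = det3 a b l := by unfold det3; ring

theorem swap (a b l : Plane) : det3 b a l = - det3 a b l := by unfold det3; ring

theorem mem_seg {a b l x : Plane} (hD : 0 < det3 a b l) (h0 : det3 a b x = 0)
    (h1 : 0 ≤ det3 b l x) (h2 : 0 ≤ det3 l a x) : x ∈ segment ℝ a b := by
  have hs := sum a b l x
  have e1 := bary1 a b l x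
  have e2 := bary2 a b l x
  rw [h0] at hs e1 e2
  have hne := hD.ne'
  refine ⟨det3 b l x / det3 a b l, det3 l a x / det3 a b l, by positivity, by positivity, ?_, ?_⟩
  · rw [← add_div, div_eq_one_iff_eq hne]; linarith
  · have f : ∀ u v w : ℝ, det3 b l x * u + det3 l a x * v + 0 = det3 a b l * w →
        det3 b l x / det3 a b l * u + det3 l a x / det3 a b l * v = w := by
      intro u v w h
      field_simp
      linarith
    apply Prod.ext
    · simpa using f a.1 b.1 x.1 (by linarith)
    · simpa using f a.2 b.2 x.2 (by linarith)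

theorem ident1 (a b l r x : Plane) :
    det3 a r x * det3 a b l = det3 l a x * det3 b a r + det3 a b x * det3 a r l := by
  unfold det3; ring

theorem ident2 (a b l r x : Plane) :
    det3 r b x * det3 a b l = det3 b l x * det3 b a r + det3 a b x * det3 r b l := by
  unfold det3; ring

theorem key {a b l r x : Plane} (hD : 0 < det3 a b l) (hE : 0 < det3 b a r)
    (h1 : x ∉ segment ℝ b l) (h2 : x ∉ segment ℝ l a)
    (hα : 0 ≤ det3 a b x) (hβ : 0 ≤ det3 b l x) (hγ : 0 ≤ det3 l a x) :
    (0 < det3 a b x ∧ 0 < det3 b l x ∧ 0 < det3 l a x) ∨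
      (0 < det3 b l x ∧ 0 < det3 l a x ∧ 0 < det3 a r x ∧ 0 < det3 r b x) := by
  have hβ' : 0 < det3 b l x := by
    rcases hβ.lt_or_eq with h | h
    · exact h
    · exact absurd (mem_seg (l := a) (by rw [cyc]; exact hD) h.symm hγ hα) h1
  have hγ' : 0 < det3 l a x := by
    rcases hγ.lt_or_eq with h | h
    · exact h
    · exact absurd (mem_seg (l := b) (by rw [← cyc]; exact hD) h.symm hα hβ) h2
  rcases hα.lt_or_eq with h | h
  · exact Or.inl ⟨h, hβ', hγ'⟩
  · right
    have i1 := ident1 a b l r x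
    have i2 := ident2 a b l r x
    rw [← h] at i1 i2
    have p1 : 0 < det3 a r x * det3 a b l := by rw [i1]; have := mul_pos hγ' hE; linarith
    have p2 : 0 < det3 r b x * det3 a b l := by rw [i2]; have := mul_pos hβ' hE; linarith
    exact ⟨hβ', hγ', pos_of_mul_pos_left p1 hD.le, pos_of_mul_pos_left p2 hD.le⟩

/-- the open region -/
def U (a b l r : Plane) : Set Plane :=
  {x | 0 < det3 a b x ∧ 0 < det3 b l x ∧ 0 < det3 l a x} ∪
    ({x | 0 < det3 b a x ∧ 0 < det3 a r x ∧ 0 < det3 r b x} ∪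
      {x | 0 < det3 b l x ∧ 0 < det3 l a x ∧ 0 < det3 a r x ∧ 0 < det3 r b x})

/-- the closed region -/
def F (a b l r : Plane) : Set Plane :=
  {x | 0 ≤ det3 a b x ∧ 0 ≤ det3 b l x ∧ 0 ≤ det3 l a x} ∪
    {x | 0 ≤ det3 b a x ∧ 0 ≤ det3 a r x ∧ 0 ≤ det3 r b x}

theorem isOpen_pos (a b : Plane) : IsOpen {x : Plane | 0 < det3 a b x} :=
  isOpen_lt continuous_const (cont a b)

theorem isClosed_nonneg (a b : Plane) : IsClosed {x : Plane | 0 ≤ det3 a b x} :=
  isClosed_le continuous_const (cont a b)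

theorem isOpen_U (a b l r : Plane) : IsOpen (U a b l r) := by
  refine IsOpen.union ?_ (IsOpen.union ?_ ?_)
  · exact (isOpen_pos _ _).inter ((isOpen_pos _ _).inter (isOpen_pos _ _))
  · exact (isOpen_pos _ _).inter ((isOpen_pos _ _).inter (isOpen_pos _ _))
  · exact (isOpen_pos _ _).inter ((isOpen_pos _ _).inter ((isOpen_pos _ _).inter (isOpen_pos _ _)))

theorem isClosed_F (a b l r : Plane) : IsClosed (F a b l r) := by
  refine IsClosed.union ?_ ?_
  · exact (isClosed_nonneg _ _).inter ((isClosed_nonneg _ _).inter (isClosed_nonneg _ _))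
  · exact (isClosed_nonneg _ _).inter ((isClosed_nonneg _ _).inter (isClosed_nonneg _ _))

theorem U_sub_F (a b l r : Plane) : U a b l r ⊆ F a b l r := by
  intro x hx
  rcases hx with h | h | h
  · exact Or.inl ⟨h.1.le, h.2.1.le, h.2.2.le⟩
  · exact Or.inr ⟨h.1.le, h.2.1.le, h.2.2.le⟩
  · obtain ⟨h1, h2, h3, h4⟩ := h
    rcases le_total 0 (det3 a b x) with g | g
    · exact Or.inl ⟨g, h1.le, h2.le⟩
    · exact Or.inr ⟨by rw [swap]; linarith, h3.le, h4.le⟩

theorem F_sub_U {a b l r x : Plane} (hD : 0 < det3 a b l) (hE : 0 < det3 b a r)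
    (h1 : x ∉ segment ℝ b l) (h2 : x ∉ segment ℝ l a)
    (h3 : x ∉ segment ℝ a r) (h4 : x ∉ segment ℝ r b) (hx : x ∈ F a b l r) : x ∈ U a b l r := by
  rcases hx with ⟨g1, g2, g3⟩ | ⟨g1, g2, g3⟩
  · rcases key hD hE h1 h2 g1 g2 g3 with h | h
    · exact Or.inl h
    · exact Or.inr (Or.inr h)
  · rcases key hE hD h3 h4 g1 g2 g3 with ⟨k1, k2, k3⟩ | ⟨k1, k2, k3, k4⟩
    · exact Or.inr (Or.inl ⟨k1, k2, k3⟩)
    · exact Or.inr (Or.inr ⟨k3, k4, k1, k2⟩)

theorem bound {a b l r x : Plane} (hD : 0 < det3 a b l) (hE : 0 < det3 b a r)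
    (hx : x ∈ U a b l r) : det3 a b r < det3 a b x ∧ det3 a b x < det3 a b l := by
  have s1 := sum a b l x
  have s2 := sum b a r x
  have w1 := swap a b x
  have w2 := swap a b r
  rcases hx with ⟨h1, h2, h3⟩ | ⟨h1, h2, h3⟩ | ⟨h1, h2, h3, h4⟩ <;>
    constructor <;> linarith

end QLaux

open QLaux in
theorem tQL : T_QL := by
  intro a b l r O hO hD hE' hab hal hbl har hbr
  have hE : 0 < det3 b a r := by rw [swap]; linarith
  have dj : ∀ {v w x : Plane}, Disjoint (segment ℝ v w) O → x ∈ O → x ∉ segment ℝ v w :=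
    fun h hx hs => Set.disjoint_left.1 h hs hx
  have hsub : O ⊆ U a b l r ∪ (F a b l r)ᶜ := by
    intro x hx
    by_cases hF : x ∈ F a b l r
    · left
      refine F_sub_U hD hE (dj hbl hx) ?_ (dj har hx) ?_ hF
      · rw [segment_symm]; exact dj hal hx
      · rw [segment_symm]; exact dj hbr hx
    · exact Or.inr hF
  have hdis : Disjoint (U a b l r) (F a b l r)ᶜ :=
    Set.disjoint_left.2 fun x hx hx' => hx' (U_sub_F a b l r hx)
  have hne : (O ∩ U a b l r).Nonempty := by
    obtain ⟨m, hm, hmO⟩ := Set.not_disjoint_iff.1 hab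
    refine ⟨m, hmO, ?_⟩
    obtain ⟨s, t, hs, ht, hst, rfl⟩ := hm
    have e0 : det3 a b (s • a + t • b) = 0 := by
      have : t = 1 - s := by linarith
      subst this
      simp only [det3, Prod.fst_add, Prod.snd_add, Prod.smul_fst, Prod.smul_snd, smul_eq_mul]
      ring
    have e1 : det3 b l (s • a + t • b) = s * det3 a b l := by
      have : t = 1 - s := by linarith
      subst this
      simp only [det3, Prod.fst_add, Prod.snd_add, Prod.smul_fst, Prod.smul_snd, smul_eq_mul]
      ring
    have e2 : det3 l a (s • a + t • b) = t * det3 a b l := by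
      have : s = 1 - t := by linarith
      subst this
      simp only [det3, Prod.fst_add, Prod.snd_add, Prod.smul_fst, Prod.smul_snd, smul_eq_mul]
      ring
    refine F_sub_U hD hE (dj hbl hmO) ?_ (dj har hmO) ?_ (Or.inl ⟨e0.ge, ?_, ?_⟩)
    · rw [segment_symm]; exact dj hal hmO
    · rw [segment_symm]; exact dj hbr hmO
    · rw [e1]; positivity
    · rw [e2]; positivity
  have := IsPreconnected.subset_left_of_subset_union (isOpen_U a b l r)
    (isClosed_F a b l r).isOpen_compl hdis hsub hne hO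
  intro x hx
  exact bound hD hE (this hx)

end Pool.Agent.ObsNum
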