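import Pool.Agent.ObsNum.Targets

set_option autoImplicit false

/-!
# OBS-RAM: Ramsey's theorem for pairs
-/

namespace Pool.Agent.ObsNum

theorem ram_aux (κ : Type) [Fintype κ] [DecidableEq κ] [Nonempty κ] (m : ℕ) :
    ∃ M : ℕ, ∀ (α : Type) [LinearOrder α] (col : α → α → κ) (S : Finset α), M ≤ S.card →
      ∃ T ⊆ S, T.card = m ∧ ∃ c : α → κ, ∀ i ∈ T, ∀ j ∈ T, i < j → col i j = c i := by
  induction m with
  | zero =>
    refine ⟨0, fun α _ col S _ => ⟨∅, Finset.empty_subset _, rfl,
      fun _ => Classical.arbitrary κ, ?_⟩⟩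
    intro i hi
    exact absurd hi (Finset.notMem_empty i)
  | succ m ih =>
    obtain ⟨M, hM⟩ := ih
    refine ⟨Fintype.card κ * M + 1, fun α _ col S hS => ?_⟩
    have hne : S.Nonempty := by
      rw [← Finset.card_pos]
      omega
    set x := S.min' hne with hx
    have hxS : x ∈ S := S.min'_mem hne
    have hcard : (S.erase x).card = S.card - 1 := Finset.card_erase_of_mem hxS
    obtain ⟨k, -, hk⟩ := Finset.exists_le_card_fiber_of_mul_le_card_of_maps_to
      (s := S.erase x) (t := (Finset.univ : Finset κ)) (f := col x) (n := M)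
      (fun _ _ => Finset.mem_univ _) Finset.univ_nonempty
      (by rw [hcard, Finset.card_univ]; omega)
    obtain ⟨T, hTS, hT, c, hc⟩ := hM α col _ hk
    have hlt : ∀ y ∈ T, x < y ∧ col x y = k := by
      intro y hy
      have h1 := hTS hy
      rw [Finset.mem_filter, Finset.mem_erase] at h1
      exact ⟨lt_of_le_of_ne (S.min'_le y h1.1.2) (Ne.symm h1.1.1), h1.2⟩
    have hxT : x ∉ T := fun h => lt_irrefl _ (hlt x h).1
    refine ⟨insert x T, ?_, ?_, fun y => if y = x then k else c y, ?_⟩
    · intro y hy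
      rw [Finset.mem_insert] at hy
      rcases hy with rfl | hy
      · exact hxS
      · have h1 := hTS hy
        rw [Finset.mem_filter, Finset.mem_erase] at h1
        exact h1.1.2
    · rw [Finset.card_insert_of_notMem hxT, hT]
    · intro i hi j hj hij
      rw [Finset.mem_insert] at hi hj
      beta_reduce
      rcases hi with rfl | hi
      · rcases hj with rfl | hj
        · exact absurd hij (lt_irrefl _)
        · rw [if_pos rfl]
          exact (hlt j hj).2
      · have hne' : i ≠ x := fun h => hxT (h ▸ hi)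
        rw [if_neg hne']
        rcases hj with rfl | hj
        · exact absurd hij (not_lt.2 (hlt i hi).1.le)
        · exact hc i hi j hj hij

theorem tRAM : T_RAM := by
  intro κ _ n
  classical
  rcases isEmpty_or_nonempty κ with hκ | hκ
  · exact ⟨1, fun col => (hκ.false (col 0 0)).elim⟩
  · haveI := Fintype.ofFinite κ
    obtain ⟨M, hM⟩ := ram_aux κ (Fintype.card κ * n)
    refine ⟨M, fun col => ?_⟩
    obtain ⟨T, -, hT, c, hc⟩ := hM (Fin M) col Finset.univ (by simp)
    obtain ⟨k, -, hk⟩ := Finset.exists_le_card_fiber_of_mul_le_card_of_maps_to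
      (s := T) (t := (Finset.univ : Finset κ)) (f := c) (n := n)
      (fun _ _ => Finset.mem_univ _) Finset.univ_nonempty
      (by rw [hT, Finset.card_univ])
    obtain ⟨U, hU, hUn⟩ := Finset.exists_subset_card_eq hk
    refine ⟨U.orderEmbOfFin hUn, (U.orderEmbOfFin hUn).strictMono, k, fun i j hij => ?_⟩
    have h1 := hU (U.orderEmbOfFin_mem hUn i)
    have h2 := hU (U.orderEmbOfFin_mem hUn j)
    rw [Finset.mem_filter] at h1 h2
    rw [hc _ h1.1 _ h2.1 ((U.orderEmbOfFin hUn).strictMono hij), h1.2]

end Pool.Agent.ObsNum
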