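import Pool.Agent.ObsNum.Targets

set_option autoImplicit false

namespace Pool.Agent.ObsNum

open Pool.Agent.PAH (Plane det3)

theorem tREP : T_REP := by
  intro α els blocks 𝒪 hpre ⟨p, m, O, hm, hinj, hgp, hO, hpO, hadj⟩
  -- the vertices
  have hE : ∀ u : {a // a ∈ els} ⊕ {b // b ∈ blocks}, ∃ k : Fin (verts els blocks).length,
      (verts els blocks).get k = Sum.elim (fun a => (false, [a.1])) (fun b => (true, b.1)) u := by
    rintro (⟨a, ha⟩ | ⟨b, hb⟩)
    · apply List.mem_iff_get.1
      simp only [verts, Sum.elim_inl, List.mem_append, List.mem_map]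
      exact Or.inl ⟨a, ha, rfl⟩
    · apply List.mem_iff_get.1
      simp only [verts, Sum.elim_inr, List.mem_append, List.mem_map]
      exact Or.inr ⟨b, hb, rfl⟩
  choose f hf using hE
  have finj : Function.Injective f := by
    intro u v huv
    have h : (verts els blocks).get (f u) = (verts els blocks).get (f v) := by rw [huv]
    rw [hf, hf] at h
    rcases u with ⟨a, ha⟩ | ⟨b, hb⟩ <;> rcases v with ⟨a', ha'⟩ | ⟨b', hb'⟩ <;>
      simp only [Sum.elim_inl, Sum.elim_inr, Prod.mk.injEq, List.cons.injEq, and_true, true_and,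
        reduceCtorEq, false_and] at h
    · subst h; rfl
    · subst h; rfl
  let inc : {a // a ∈ els} → {b // b ∈ blocks} → Prop := fun a b => a.1 ∈ b.1
  let O' : Fin 2 → Set Plane := fun i => if h : i.1 < m then O ⟨i.1, h⟩ else ∅
  have hAdj : ∀ u v, u ≠ v → CAdj inc u v → (coGraph els blocks).Adj (f u) (f v) := by
    intro u v huv hc
    refine ⟨fun h => huv (finj h), ?_⟩
    rw [hf, hf]
    rcases u with ⟨a, ha⟩ | ⟨b, hb⟩ <;> rcases v with ⟨a', ha'⟩ | ⟨b', hb'⟩
    · intro h; exact absurd rfl h
    · intro _ x hx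
      simp only [Sum.elim_inl, List.mem_singleton] at hx
      subst hx
      exact hc
    · intro _ x hx hx'
      simp only [Sum.elim_inl, List.mem_singleton] at hx'
      subst hx'
      exact hc hx
    · intro h; exact absurd rfl h
  refine ⟨⟨fun u => p (f u), ?_, O', ?_, inc, ?_, ?_⟩, fun a b => Iff.rfl⟩
  · intro u v w huv huw hvw
    exact hgp _ _ _ (fun h => huv (finj h)) (fun h => huw (finj h)) (fun h => hvw (finj h))
  · intro i
    by_cases h : i.1 < m
    · simp only [O', dif_pos h]
      exact hpre _ (hO _)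
    · simp only [O', dif_neg h]
      exact isPreconnected_empty
  · intro i u v hc
    by_cases h : i.1 < m
    · simp only [O', dif_pos h]
      by_cases huv : u = v
      · subst huv
        rw [segment_same, Set.disjoint_singleton_left]
        exact hpO _ _
      · exact (hadj (f u) (f v) (fun h => huv (finj h))).1 (hAdj u v huv hc) _
    · simp only [O', dif_neg h]
      exact Set.disjoint_empty _
  · intro a b hab
    have hne : (Sum.inl a : {a // a ∈ els} ⊕ {b // b ∈ blocks}) ≠ Sum.inr b := Sum.inl_ne_inr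
    have hn : ¬ (coGraph els blocks).Adj (f (.inl a)) (f (.inr b)) := by
      rintro ⟨-, h⟩
      rw [hf, hf] at h
      refine h ?_ a.1 ?_ hab
      · simp
      · simp
    have h2 : ¬ ∀ i, Disjoint (segment ℝ (p (f (.inl a))) (p (f (.inr b)))) (O i) := fun h =>
      hn ((hadj _ _ (fun h => hne (finj h))).2 h)
    push Not at h2
    obtain ⟨i, hi⟩ := h2
    refine ⟨⟨i.1, lt_of_lt_of_le i.2 hm⟩, ?_⟩
    simp only [O', dif_pos i.2]
    exact hi

end Pool.Agent.ObsNum
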