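import Pool.Agent.ObsNum.Targets

set_option autoImplicit false

/-!
# R-NO: soundness of the reduction to cyclic 3SAT
-/

namespace Pool.Agent.ObsNum

namespace RNO

open Pool.Agent.SLN (Lit Satisfiable)

/-- three entries for each triple -/
abbrev three {α : Type} (t : α × α × α) : List α := [t.1, t.2.1, t.2.2]

lemma length_three {α : Type} (T : List (α × α × α)) :
    (T.flatMap three).length = 3 * T.length := by
  induction T with
  | nil => rfl
  | cons t T ih =>
    simp only [List.flatMap_cons, List.length_append, ih, List.length_cons, List.length_nil]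
    omega

lemma getD_three {α : Type} (d : α) : ∀ (T : List (α × α × α)) (j : ℕ) (hj : j < T.length),
    (T.flatMap three).getD (3 * j) d = (T[j]).1 ∧
    (T.flatMap three).getD (3 * j + 1) d = (T[j]).2.1 ∧
    (T.flatMap three).getD (3 * j + 2) d = (T[j]).2.2 := by
  intro T
  induction T with
  | nil => intro j hj; exact absurd hj (Nat.not_lt_zero _)
  | cons t T ih =>
    intro j hj
    cases j with
    | zero => exact ⟨rfl, rfl, rfl⟩
    | succ j =>
      have h := ih j (by simpa using hj)
      have e2 : ∀ k, ((t :: T).flatMap three).getD (k + 3) d = (T.flatMap three).getD k d := by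
        intro k
        rfl
      refine ⟨?_, ?_, ?_⟩
      · have := e2 (3 * j)
        rw [show 3 * (j + 1) = 3 * j + 3 by ring, this]
        exact h.1
      · rw [show 3 * (j + 1) + 1 = (3 * j + 1) + 3 by ring, e2]
        exact h.2.1
      · rw [show 3 * (j + 1) + 2 = (3 * j + 2) + 3 by ring, e2]
        exact h.2.2

/-! ## The cyclic successor -/

lemma head_zip (d : ℕ) : ∀ (l m : List ℕ) (i : ℕ) (hi : i < l.length) (hm : i < m.length),
    l.Nodup →
    (((l.zip m).filter fun p => decide (p.1 = l[i])).map Prod.snd).headD d = m[i] := by
  intro l
  induction l with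
  | nil => intro m i hi; exact absurd hi (Nat.not_lt_zero _)
  | cons a l ih =>
    intro m i hi hm hn
    cases m with
    | nil => exact absurd hm (Nat.not_lt_zero _)
    | cons b m =>
      cases i with
      | zero => simp
      | succ i =>
        have hi' : i < l.length := by simpa using hi
        have hm' : i < m.length := by simpa using hm
        have hne : ¬ a = l[i] := by
          intro e
          rw [List.nodup_cons] at hn
          exact hn.1 (e ▸ List.getElem_mem hi')
        have := ih m i hi' hm' (List.nodup_cons.1 hn).2
        simp only [List.zip_cons_cons, List.getElem_cons_succ]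
        rw [List.filter_cons_of_neg (by simpa using hne)]
        exact this

lemma nxt_succ (l : List ℕ) (hn : l.Nodup) (i : ℕ) (hi : i + 1 < l.length) :
    nxt l (l[i]'(by omega)) = l[i + 1] := by
  unfold nxt
  have hlen : i < (l.tail ++ l.take 1).length := by
    simp only [List.length_append, List.length_tail, List.length_take]
    omega
  rw [head_zip _ l (l.tail ++ l.take 1) i (by omega) hlen hn]
  rw [List.getElem_append_left (by simp only [List.length_tail]; omega)]
  simp

lemma nxt_last (l : List ℕ) (hn : l.Nodup) (i : ℕ) (hi : i + 1 = l.length) :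
    nxt l (l[i]'(by omega)) = l[0]'(by omega) := by
  unfold nxt
  have hlen : i < (l.tail ++ l.take 1).length := by
    simp only [List.length_append, List.length_tail, List.length_take]
    omega
  rw [head_zip _ l (l.tail ++ l.take 1) i (by omega) hlen hn]
  rw [List.getElem_append_right (by simp only [List.length_tail]; omega)]
  simp only [List.getElem_take, List.length_tail]
  congr 1
  omega

/-- a property which is preserved by the cyclic successor holds for all or for none -/
lemma reach (l : List ℕ) (hn : l.Nodup) (p : ℕ → Prop)
    (hp : ∀ o ∈ l, p o → p (nxt l o)) (x y : ℕ) (hx : x ∈ l) (hy : y ∈ l) (h : p x) : p y := by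
  obtain ⟨i, hi, rfl⟩ := List.getElem_of_mem hx
  obtain ⟨j, hj, rfl⟩ := List.getElem_of_mem hy
  have up : ∀ (k a : ℕ) (ha : a < l.length) (hk : a + k < l.length), p l[a] → p l[a + k] := by
    intro k
    induction k with
    | zero => intro a ha hk h; exact h
    | succ k ih =>
      intro a ha hk h
      have h1 := ih a ha (by omega) h
      have h2 := hp _ (List.getElem_mem (by omega)) h1
      rw [nxt_succ l hn (a + k) (by omega)] at h2
      exact h2
  have h1 : p (l[i + (l.length - 1 - i)]'(by omega)) := up _ i hi (by omega) h
  have h2 := hp _ (List.getElem_mem (by omega)) h1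
  rw [nxt_last l hn _ (by omega)] at h2
  have h3 := up j 0 (by omega) (by omega) h2
  simpa using h3

end RNO

open RNO in
theorem tRNO : T_RNO := by
  intro φ τ hcl hmono
  set T := trips φ ++ trips φ with hT
  have hlits : lits φ = T.flatMap three := rfl
  have hlen : (lits φ).length = 3 * T.length := by rw [hlits]; exact length_three T
  have hK : (redC φ).K = T.length := rfl
  -- equal values at equal names
  have hsame : ∀ o o', o < (lits φ).length → o' < (lits φ).length → nam φ o' = nam φ o →
      τ o = true → τ o' = true := by
    intro o o' ho ho' hn h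
    have hnd : (same φ o).Nodup := List.Nodup.filter _ List.nodup_range
    refine reach (same φ o) hnd (fun x => τ x = true) ?_ o o' ?_ ?_ h
    · intro x hx h2
      have hx' : x < (lits φ).length ∧ nam φ x = nam φ o := by
        simpa [same] using hx
      have e : same φ x = same φ o := by
        unfold same
        rw [hx'.2]
      have := hmono x (by rw [hK, ← hlen]; exact hx'.1) h2
      have e2 : (redC φ).nx x = nxt (same φ x) x := rfl
      rw [e2, e] at this
      exact this
    · simpa [same] using ho
    · simpa [same] using ⟨ho', hn⟩
  classical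
  -- the values of the names
  let σ : Name → Bool := fun nm => decide (∃ o, o < (lits φ).length ∧ nam φ o = nm ∧ τ o = true)
  have hσ : ∀ o, o < (lits φ).length → σ (nam φ o) = τ o := by
    intro o ho
    by_cases h : τ o = true
    · rw [h]
      exact decide_eq_true ⟨o, ho, rfl, h⟩
    · have h' : τ o = false := by simpa using h
      rw [h']
      refine decide_eq_false ?_
      rintro ⟨o', ho', e, h2⟩
      exact h (hsame o' o ho' ho e.symm h2)
  have htrip : ∀ t ∈ trips φ, σ t.1.2 = t.1.1 ∨ σ t.2.1.2 = t.2.1.1 ∨ σ t.2.2.2 = t.2.2.1 := by
    intro t ht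
    have ht' : t ∈ T := List.mem_append_left _ ht
    obtain ⟨j, hj, rfl⟩ := List.getElem_of_mem ht'
    obtain ⟨g0, g1, g2⟩ := getD_three ((true, old []) : L3) T j hj
    rw [← hlits] at g0 g1 g2
    obtain ⟨k, hk, hk2⟩ := hcl j hj
    have hsg : (redC φ).sg (3 * j + k) = ((lits φ).getD (3 * j + k) (true, old [])).1 := rfl
    have hnm := hσ (3 * j + k) (by rw [hlen]; omega)
    have hnm' : σ ((lits φ).getD (3 * j + k) (true, old [])).2 = τ (3 * j + k) := hnm
    have hk3 : k = 0 ∨ k = 1 ∨ k = 2 := by omega
    rcases hk3 with rfl | rfl | rfl
    · left
      have e : (lits φ).getD (3 * j + 0) (true, old []) = (T[j]).1 := g0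
      rw [e] at hnm'
      rw [hnm', hk2, hsg, e]
    · right; left
      rw [g1] at hnm'
      rw [hnm', hk2, hsg, g1]
    · right; right
      rw [g2] at hnm'
      rw [hnm', hk2, hsg, g2]
  refine ⟨fun n => σ (old n), ?_⟩
  intro c hc
  obtain ⟨j, hj, rfl⟩ := List.getElem_of_mem hc
  by_contra hcon
  push Not at hcon
  have hmem : ∀ t ∈ trc j φ[j], t ∈ trips φ := by
    intro t ht
    unfold trips
    rw [List.mem_flatMap]
    refine ⟨(j, φ[j]), ?_, ht⟩
    rw [List.mem_iff_getElem]
    refine ⟨j, by simpa using hj, ?_⟩
    simp
  have h0 : σ (fresh j 0) = true := by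
    have := htrip ((true, fresh j 0), (true, fresh j 0), (true, fresh j 0)) (hmem _ (by
      unfold trc; exact List.mem_cons_self))
    rcases this with h | h | h <;> exact h
  have hlast : σ (fresh j (φ[j]).length) = false := by
    have := htrip ((false, fresh j (φ[j]).length), (false, fresh j (φ[j]).length),
      (false, fresh j (φ[j]).length)) (hmem _ (by
        unfold trc
        exact List.mem_cons_of_mem _ (List.mem_append_right _ (List.mem_singleton.2 rfl))))
    rcases this with h | h | h <;> exact h
  have hstep : ∀ t, t ≤ (φ[j]).length → σ (fresh j t) = true := by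
    intro t
    induction t with
    | zero => intro _; exact h0
    | succ t ih =>
      intro ht
      have h1 := ih (by omega)
      have htl : t < (φ[j]).length := by omega
      have h2 := htrip ((false, fresh j t), (((φ[j])[t]).1, old ((φ[j])[t]).2),
        (true, fresh j (t + 1))) (hmem _ (by
          unfold trc
          refine List.mem_cons_of_mem _ (List.mem_append_left _ ?_)
          rw [List.mem_map]
          refine ⟨(t, (φ[j])[t]), ?_, rfl⟩
          rw [List.mem_iff_getElem]
          refine ⟨t, by simpa using htl, ?_⟩
          simp))
      rcases h2 with h | h | h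
      · simp only at h
        rw [h1] at h
        exact absurd h (by simp)
      · exact absurd h (hcon _ (List.getElem_mem htl))
      · exact h
  have := hstep _ le_rfl
  rw [hlast] at this
  exact absurd this (by simp)

end Pool.Agent.ObsNum
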