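import Pool.Agent.ObsNum.Red

set_option autoImplicit false

/-!
# OBS-ROK: the successor function permutes the occurrences and has no fixed point
-/

namespace Pool.Agent.ObsNum

open Pool.Agent.SLN (Sym encBits Lit Satisfiable encLit encCNF)

namespace ROK_

theorem filter_zip {α β : Type} [DecidableEq α] (l : List α) (m : List β)
    (hl : l.Nodup) (hlen : l.length = m.length) (i : ℕ) (h1 : i < l.length) (h2 : i < m.length) :
    (l.zip m).filter (fun p => decide (p.1 = l[i])) = [(l[i], m[i])] := by
  induction l generalizing m i with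
  | nil => simp at h1
  | cons a l ih =>
    cases m with
    | nil => simp at h2
    | cons b m =>
      rw [List.nodup_cons] at hl
      rw [List.zip_cons_cons]
      cases i with
      | zero =>
        rw [List.filter_cons]
        simp only [List.getElem_cons_zero, decide_true, if_true, List.cons.injEq, true_and]
        rw [List.filter_eq_nil_iff]
        rintro ⟨p, q⟩ hp
        have := (List.of_mem_zip hp).1
        simp only [decide_eq_true_eq]
        rintro rfl
        exact hl.1 this
      | succ i =>
        rw [List.filter_cons]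
        simp only [List.getElem_cons_succ]
        have h3 : i < l.length := by simpa using h1
        have h4 : i < m.length := by simpa using h2
        have hne : ¬ (a = l[i]) := by
          rintro rfl
          exact hl.1 (List.getElem_mem h3)
        rw [if_neg (by simpa using hne)]
        exact ih m hl.2 (by simpa using hlen) i h3 h4

theorem tail_take {α : Type} (l : List α) : l.tail ++ l.take 1 = l.rotate 1 := by
  cases l with
  | nil => rfl
  | cons a l => simp

theorem nxt_eq (l : List ℕ) (hl : l.Nodup) (i : ℕ) (hi : i < l.length) :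
    nxt l l[i] = l[(i + 1) % l.length]'(Nat.mod_lt _ (by omega)) := by
  unfold nxt
  rw [tail_take, filter_zip l (l.rotate 1) hl (by simp) i hi (by simpa using hi)]
  simp [List.getElem_rotate]

theorem same_nodup (φ : List (List Lit)) (o : ℕ) : (same φ o).Nodup :=
  List.Nodup.filter _ List.nodup_range

theorem mem_same (φ : List (List Lit)) (o o' : ℕ) :
    o' ∈ same φ o ↔ o' < (lits φ).length ∧ nam φ o' = nam φ o := by
  unfold same
  rw [List.mem_filter, List.mem_range]
  simp

theorem same_congr (φ : List (List Lit)) (o o' : ℕ) (h : nam φ o = nam φ o') :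
    same φ o = same φ o' := by
  unfold same
  rw [h]

theorem flat_length {α : Type} (l : List (α × α × α)) :
    (l.flatMap fun t => [t.1, t.2.1, t.2.2]).length = 3 * l.length := by
  rw [List.length_flatMap]
  simp [mul_comm]

theorem lits_length (φ : List (List Lit)) : (lits φ).length = 3 * (redC φ).K := by
  unfold lits
  rw [flat_length]
  rfl

/-- the occurrence and its successor in the list of the occurrences of the same variable -/
theorem nx_spec (φ : List (List Lit)) (o : ℕ) (ho : o < (lits φ).length) :
    ∃ (i : ℕ) (hi : i < (same φ o).length), (same φ o)[i] = o ∧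
      (redC φ).nx o = (same φ o)[(i + 1) % (same φ o).length]'(Nat.mod_lt _ (by omega)) := by
  have hmem : o ∈ same φ o := (mem_same φ o o).2 ⟨ho, rfl⟩
  obtain ⟨i, hi, hio⟩ := List.mem_iff_getElem.1 hmem
  refine ⟨i, hi, hio, ?_⟩
  have h1 := nxt_eq (same φ o) (same_nodup φ o) i hi
  rw [hio] at h1
  exact h1

theorem nx_mem (φ : List (List Lit)) (o : ℕ) (ho : o < (lits φ).length) :
    (redC φ).nx o ∈ same φ o := by
  obtain ⟨i, hi, -, h2⟩ := nx_spec φ o ho
  rw [h2]
  exact List.getElem_mem _

theorem nx_lt (φ : List (List Lit)) (o : ℕ) (ho : o < (lits φ).length) :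
    (redC φ).nx o < (lits φ).length := ((mem_same φ o _).1 (nx_mem φ o ho)).1

theorem nx_nam (φ : List (List Lit)) (o : ℕ) (ho : o < (lits φ).length) :
    nam φ ((redC φ).nx o) = nam φ o := ((mem_same φ o _).1 (nx_mem φ o ho)).2

theorem nx_spec' (φ : List (List Lit)) (o : ℕ) (ho : o < (lits φ).length) (l : List ℕ)
    (hl : same φ o = l) :
    ∃ (i : ℕ) (hi : i < l.length), l[i] = o ∧
      (redC φ).nx o = l[(i + 1) % l.length]'(Nat.mod_lt _ (by omega)) := by
  subst hl
  exact nx_spec φ o ho

theorem mod_inj (n i j : ℕ) (hi : i < n) (hj : j < n) (h : (i + 1) % n = (j + 1) % n) :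
    i = j := by
  by_cases hin : i + 1 = n
  · rw [hin, Nat.mod_self] at h
    by_cases hjn : j + 1 = n
    · omega
    · rw [Nat.mod_eq_of_lt (by omega)] at h
      omega
  · rw [Nat.mod_eq_of_lt (by omega : i + 1 < n)] at h
    by_cases hjn : j + 1 = n
    · rw [hjn, Nat.mod_self] at h
      omega
    · rw [Nat.mod_eq_of_lt (by omega)] at h
      omega

theorem mod_ne (n i : ℕ) (hi : i < n) (hn : 2 ≤ n) (h : i = (i + 1) % n) : False := by
  by_cases hin : i + 1 = n
  · rw [hin, Nat.mod_self] at h
    omega
  · rw [Nat.mod_eq_of_lt (by omega : i + 1 < n)] at h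
    omega

/-- the other copy of an occurrence -/
theorem twin (φ : List (List Lit)) (o : ℕ) (ho : o < (lits φ).length) :
    ∃ o', o' ≠ o ∧ o' ∈ same φ o := by
  have h1 : lits φ = ((trips φ).flatMap fun t => [t.1, t.2.1, t.2.2]) ++
      ((trips φ).flatMap fun t => [t.1, t.2.1, t.2.2]) := by
    unfold lits
    rw [List.flatMap_append]
  have hlen : (lits φ).length = 2 * ((trips φ).flatMap fun t => [t.1, t.2.1, t.2.2]).length := by
    rw [h1, List.length_append]
    omega
  generalize ((trips φ).flatMap fun t => [t.1, t.2.1, t.2.2]) = A at h1 hlen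
  by_cases h : o < A.length
  · refine ⟨o + A.length, by omega, (mem_same φ o _).2 ⟨by omega, ?_⟩⟩
    unfold nam
    rw [h1, List.getD_append_right _ _ _ _ (by omega), List.getD_append _ _ _ _ h]
    congr 2
    omega
  · refine ⟨o - A.length, by omega, (mem_same φ o _).2 ⟨by omega, ?_⟩⟩
    unfold nam
    rw [h1, List.getD_append _ _ _ _ (by omega), List.getD_append_right _ _ _ _ (by omega)]

end ROK_

open ROK_ in
theorem tROK : T_ROK := by
  intro φ
  have hL := lits_length φ
  refine ⟨?_, ?_, ?_⟩
  · intro o ho
    rw [← hL] at ho ⊢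
    exact nx_lt φ o ho
  · intro o o' ho ho' h
    rw [← hL] at ho ho'
    have h1 : nam φ o = nam φ o' := by
      rw [← nx_nam φ o ho, ← nx_nam φ o' ho', h]
    obtain ⟨i, hi, hi1, hi2⟩ := nx_spec' φ o ho _ (same_congr φ o o' h1)
    obtain ⟨j, hj, hj1, hj2⟩ := nx_spec φ o' ho'
    rw [hi2, hj2] at h
    have h2 := (List.Nodup.getElem_inj_iff (same_nodup φ o')).1 h
    have h3 : i = j := mod_inj _ i j hi hj h2
    subst h3
    exact hi1.symm.trans hj1
  · intro o ho h
    rw [← hL] at ho
    obtain ⟨i, hi, hi1, hi2⟩ := nx_spec φ o ho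
    obtain ⟨o', hne, hmem⟩ := twin φ o ho
    have hmemo : o ∈ same φ o := (mem_same φ o o).2 ⟨ho, rfl⟩
    have hlen : 2 ≤ (same φ o).length := by
      rcases hl : same φ o with _ | ⟨a, _ | ⟨b, t⟩⟩
      · rw [hl] at hmem; simp at hmem
      · rw [hl] at hmem hmemo
        simp only [List.mem_singleton] at hmem hmemo
        exact absurd (hmem.trans hmemo.symm) hne
      · simp
    rw [h] at hi2
    have h2 : (same φ o)[i] = (same φ o)[(i + 1) % (same φ o).length]'(Nat.mod_lt _ (by omega)) :=
      hi1.trans hi2
    have h3 := (List.Nodup.getElem_inj_iff (same_nodup φ o)).1 h2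
    exact mod_ne _ i hi hlen h3

end Pool.Agent.ObsNum
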