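import Pool.Agent.ObsNum.Targets

set_option autoImplicit false

/-!
# OBS-RYES: from an assignment to a solution of the cyclic instance
-/

namespace Pool.Agent.ObsNum

open Pool.Agent.SLN (Lit Satisfiable)

namespace RY

theorem getD_flat (T : List (L3 × L3 × L3)) (d : L3) : ∀ (j : ℕ) (h : j < T.length),
    (T.flatMap fun t => [t.1, t.2.1, t.2.2]).getD (3 * j) d = (T[j]).1 ∧
    (T.flatMap fun t => [t.1, t.2.1, t.2.2]).getD (3 * j + 1) d = (T[j]).2.1 ∧
    (T.flatMap fun t => [t.1, t.2.1, t.2.2]).getD (3 * j + 2) d = (T[j]).2.2 := by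
  induction T with
  | nil => intro j h; simp at h
  | cons x T ih =>
    intro j h
    cases j with
    | zero => simp
    | succ j =>
      have h' : j < T.length := by simpa using h
      obtain ⟨h1, h2, h3⟩ := ih j h'
      have e1 : 3 * (j + 1) = 3 * j + 1 + 1 + 1 := by ring
      have e2 : 3 * (j + 1) + 1 = 3 * j + 1 + 1 + 1 + 1 := by ring
      have e3 : 3 * (j + 1) + 2 = 3 * j + 2 + 1 + 1 + 1 := by ring
      rw [e2, e3, e1]
      simp only [List.flatMap_cons, List.cons_append, List.nil_append, List.getD_cons_succ,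
        List.getElem_cons_succ]
      exact ⟨h1, h2, h3⟩

/-- the values of the variables of the 3SAT instance -/
def val (φ : List (List Lit)) (α : List Bool → Bool) (n : Name) : Bool :=
  match n.1.1 with
  | 0 => α n.2
  | j + 1 => ((φ.getD j []).take n.1.2).all fun l => decide (α l.2 ≠ l.1)

theorem val_old (φ : List (List Lit)) (α : List Bool → Bool) (n : List Bool) :
    val φ α (old n) = α n := rfl

theorem val_fresh (φ : List (List Lit)) (α : List Bool → Bool) (j t : ℕ) :
    val φ α (fresh j t) = ((φ.getD j []).take t).all fun l => decide (α l.2 ≠ l.1) := rfl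

/-- a satisfied triple -/
def Sat (v : Name → Bool) (t : L3 × L3 × L3) : Prop :=
  v t.1.2 = t.1.1 ∨ v t.2.1.2 = t.2.1.1 ∨ v t.2.2.2 = t.2.2.1

theorem sat_trc (φ : List (List Lit)) (α : List Bool → Bool)
    (hα : ∀ c ∈ φ, ∃ l ∈ c, α l.2 = l.1) (j : ℕ) (hj : j < φ.length)
    (t : L3 × L3 × L3) (ht : t ∈ trc j (φ[j])) : Sat (val φ α) t := by
  have hget : φ.getD j [] = φ[j] := by simp [hj]
  simp only [trc, List.mem_cons, List.mem_append, List.mem_map, List.not_mem_nil, or_false] at ht
  rcases ht with rfl | ⟨p, hp, rfl⟩ | rfl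
  · left
    simp [val_fresh]
  · -- the middle triples
    obtain ⟨t, l⟩ := p
    rw [List.mem_iff_getElem] at hp
    obtain ⟨i, hi, hp⟩ := hp
    rw [List.length_zip, List.length_range, min_self] at hi
    rw [List.getElem_zip, List.getElem_range, Prod.mk.injEq] at hp
    obtain ⟨rfl, hl⟩ := hp
    simp only [Sat, val_old, val_fresh, hget]
    by_cases h1 : (((φ[j]).take i).all fun l => decide (α l.2 ≠ l.1)) = true
    · by_cases h2 : α l.2 = l.1
      · exact .inr (.inl h2)
      · right; right
        rw [List.take_add_one, List.all_append, h1, List.getElem?_eq_getElem hi, hl]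
        simp [h2]
    · left
      exact Bool.eq_false_iff.2 h1
  · left
    obtain ⟨l, hl, hl2⟩ := hα _ (List.getElem_mem hj)
    simp only [val_fresh, hget, List.take_length]
    rw [Bool.eq_false_iff]
    intro h
    rw [List.all_eq_true] at h
    exact absurd hl2 (by simpa using h l hl)

theorem sat_trips (φ : List (List Lit)) (α : List Bool → Bool)
    (hα : ∀ c ∈ φ, ∃ l ∈ c, α l.2 = l.1) (t : L3 × L3 × L3) (ht : t ∈ trips φ) :
    Sat (val φ α) t := by
  simp only [trips, List.mem_flatMap] at ht
  obtain ⟨p, hp, ht⟩ := ht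
  rw [List.mem_iff_getElem] at hp
  obtain ⟨i, hi, rfl⟩ := hp
  rw [List.length_zip, List.length_range, min_self] at hi
  rw [List.getElem_zip, List.getElem_range] at ht
  exact sat_trc φ α hα i hi t ht

theorem nxt_mem (l : List ℕ) (o : ℕ) : nxt l o = o ∨ nxt l o ∈ l := by
  unfold nxt
  set m := ((l.zip (l.tail ++ l.take 1)).filter fun p => decide (p.1 = o)).map Prod.snd with hm
  cases hm' : m with
  | nil => left; rfl
  | cons x xs =>
    right
    have hx : x ∈ m := by rw [hm']; exact List.mem_cons_self
    rw [hm, List.mem_map] at hx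
    obtain ⟨p, hp, rfl⟩ := hx
    rw [List.mem_filter] at hp
    have h2 := (List.of_mem_zip (show (p.1, p.2) ∈ _ from hp.1)).2
    simp only [List.headD_cons]
    rcases List.mem_append.1 h2 with h | h
    · exact List.mem_of_mem_tail h
    · exact List.mem_of_mem_take h

theorem nam_nx (φ : List (List Lit)) (o : ℕ) : nam φ ((redC φ).nx o) = nam φ o := by
  rcases nxt_mem (same φ o) o with h | h
  · show nam φ (nxt (same φ o) o) = _
    rw [h]
  · have h' : nxt (same φ o) o ∈ (List.range (lits φ).length).filter
        fun o' => decide (nam φ o' = nam φ o) := h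
    rw [List.mem_filter] at h'
    exact of_decide_eq_true h'.2

end RY

open RY in
theorem tRYES : T_RYES := by
  intro φ hφ
  obtain ⟨α, hα⟩ := hφ
  refine ⟨fun o => val φ α (nam φ o), ?_, fun o _ => ?_⟩
  · intro j hj
    have hj' : j < (trips φ ++ trips φ).length := hj
    obtain ⟨h1, h2, h3⟩ := getD_flat (trips φ ++ trips φ) (true, old []) j hj'
    have hmem : (trips φ ++ trips φ)[j] ∈ trips φ := by
      rcases List.mem_append.1 (List.getElem_mem hj') with h | h <;> exact h
    rcases sat_trips φ α hα _ hmem with h | h | h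
    · refine ⟨0, by norm_num, ?_⟩
      show val φ α ((lits φ).getD (3 * j) (true, old [])).2 =
        ((lits φ).getD (3 * j) (true, old [])).1
      simp only [lits]
      rw [h1]
      exact h
    · refine ⟨1, by norm_num, ?_⟩
      show val φ α ((lits φ).getD (3 * j + 1) (true, old [])).2 =
        ((lits φ).getD (3 * j + 1) (true, old [])).1
      simp only [lits]
      rw [h2]
      exact h
    · refine ⟨2, by norm_num, ?_⟩
      show val φ α ((lits φ).getD (3 * j + 2) (true, old [])).2 =
        ((lits φ).getD (3 * j + 2) (true, old [])).1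
      simp only [lits]
      rw [h3]
      exact h
  · show val φ α (nam φ _) = val φ α (nam φ o)
    rw [nam_nx]

end Pool.Agent.ObsNum
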