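import Pool.Agent.ObsNum.Targets

set_option autoImplicit false

/-!
# OBS-SEG: a segment which misses a connected set and whose end points are outside the convex hull
misses the convex hull
-/

namespace Pool.Agent.ObsNum

open Pool.Agent.PAH (Plane det3)

theorem seg_line {v w x : Plane} (hvw : v ≠ w) (h : det3 v w x = 0) :
    ∃ t : ℝ, x = v + t • (w - v) := by
  obtain ⟨v1, v2⟩ := v
  obtain ⟨w1, w2⟩ := w
  obtain ⟨x1, x2⟩ := x
  simp only [det3] at h
  by_cases h1 : w1 - v1 = 0
  · have h2 : w2 - v2 ≠ 0 := by
      intro h2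
      apply hvw
      rw [Prod.mk.injEq]
      constructor <;> linarith
    refine ⟨(x2 - v2) / (w2 - v2), ?_⟩
    have : (x1 - v1) * (w2 - v2) = 0 := by
      rw [h1] at h
      linarith
    have h3 : x1 - v1 = 0 := by
      rcases mul_eq_zero.1 this with h4 | h4
      · exact h4
      · exact absurd h4 h2
    simp only [Prod.mk_sub_mk, Prod.smul_mk, smul_eq_mul, Prod.mk_add_mk, Prod.mk.injEq]
    constructor
    · rw [h1]; linarith
    · field_simp; ring
  · refine ⟨(x1 - v1) / (w1 - v1), ?_⟩
    simp only [Prod.mk_sub_mk, Prod.smul_mk, smul_eq_mul, Prod.mk_add_mk, Prod.mk.injEq]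
    constructor
    · field_simp; ring
    · field_simp
      linarith

theorem seg_det3_combo (v w x y : Plane) (a b : ℝ) (hab : a + b = 1) :
    det3 v w (a • x + b • y) = a * det3 v w x + b * det3 v w y := by
  obtain ⟨v1, v2⟩ := v
  obtain ⟨w1, w2⟩ := w
  obtain ⟨x1, x2⟩ := x
  obtain ⟨y1, y2⟩ := y
  have hb : b = 1 - a := by linarith
  subst hb
  simp only [det3, Prod.smul_mk, smul_eq_mul, Prod.mk_add_mk]
  ring

theorem seg_det3_cont (v w : Plane) : Continuous (fun x : Plane => det3 v w x) := by
  unfold det3
  fun_prop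

theorem seg_det3_segment {v w m : Plane} (h : m ∈ segment ℝ v w) : det3 v w m = 0 := by
  obtain ⟨a, b, _, _, hab, rfl⟩ := h
  rw [seg_det3_combo v w v w a b hab]
  simp only [det3]
  ring

theorem tSEG : T_SEG := by
  intro v w O hO hdis hv hw
  rw [Set.disjoint_left]
  intro m hm hmO
  have hvm : v ≠ m := fun h => hv (h ▸ hmO)
  have hvw : v ≠ w := by
    intro h
    rw [h, segment_same] at hm
    rw [Set.mem_singleton_iff] at hm
    exact hw (hm ▸ hmO)
  have hconv : Convex ℝ (convexHull ℝ O) := convex_convexHull ℝ O
  -- the determinant does not vanish on `O`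
  have hne : ∀ x ∈ O, det3 v w x ≠ 0 := by
    intro x hx h0
    have hxc : x ∈ convexHull ℝ O := subset_convexHull ℝ O hx
    obtain ⟨t, rfl⟩ := seg_line hvw h0
    obtain ⟨a, s, ha, hs, has, rfl⟩ := hm
    have ha' : a = 1 - s := by linarith
    subst ha'
    rcases lt_or_ge t 0 with ht | ht
    · -- `v` is between `x` and `m`
      apply hv
      have hst : 0 < s - t := by linarith
      have : v = (s / (s - t)) • (v + t • (w - v)) +
          ((-t) / (s - t)) • ((1 - s) • v + s • w) := by
        obtain ⟨v1, v2⟩ := v
        obtain ⟨w1, w2⟩ := w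
        simp only [Prod.mk_sub_mk, Prod.smul_mk, smul_eq_mul, Prod.mk_add_mk, Prod.mk.injEq]
        constructor <;> field_simp <;> ring
      rw [this]
      apply hconv hxc hmO (by positivity) (div_nonneg (by linarith) hst.le)
      field_simp
      ring
    · rcases le_or_gt t 1 with ht1 | ht1
      · exact Set.disjoint_left.1 hdis ⟨1 - t, t, by linarith, ht, by ring, by
          rw [smul_sub, sub_smul, one_smul]; abel⟩ hx
      · apply hw
        have hst : 0 < t - s := by linarith
        have : w = ((1 - s) / (t - s)) • (v + t • (w - v)) +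
            ((t - 1) / (t - s)) • ((1 - s) • v + s • w) := by
          obtain ⟨v1, v2⟩ := v
          obtain ⟨w1, w2⟩ := w
          simp only [Prod.mk_sub_mk, Prod.smul_mk, smul_eq_mul, Prod.mk_add_mk, Prod.mk.injEq]
          constructor <;> field_simp <;> ring
        rw [this]
        apply hconv hxc hmO (div_nonneg ha hst.le) (div_nonneg (by linarith) hst.le)
        field_simp
        ring
  have hm0 : det3 v w m = 0 := seg_det3_segment hm
  have hcont : ContinuousOn (fun x : Plane => det3 v w x) O := (seg_det3_cont v w).continuousOn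
  -- constant sign
  have hsign : (∀ x ∈ O, 0 < det3 v w x) ∨ (∀ x ∈ O, det3 v w x < 0) := by
    by_contra hcon
    push Not at hcon
    obtain ⟨⟨x, hx, hx0⟩, ⟨y, hy, hy0⟩⟩ := hcon
    have := hO.intermediate_value hx hy hcont
    obtain ⟨z, hz, hz0⟩ := this ⟨hx0, hy0⟩
    exact hne z hz hz0
  rcases hsign with hs | hs
  · have hc : Convex ℝ {x : Plane | 0 < det3 v w x} := by
      intro x hx y hy a b ha hb hab
      simp only [Set.mem_setOf_eq] at hx hy ⊢
      rw [seg_det3_combo v w x y a b hab]
      rcases ha.eq_or_lt with ha0 | ha0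
      · have : b = 1 := by linarith
        rw [← ha0, this]; linarith
      · have h1 : 0 < a * det3 v w x := mul_pos ha0 hx
        have h2 : 0 ≤ b * det3 v w y := mul_nonneg hb hy.le
        linarith
    have : m ∈ {x : Plane | 0 < det3 v w x} := convexHull_min hs hc hmO
    simp only [Set.mem_setOf_eq] at this
    linarith
  · have hc : Convex ℝ {x : Plane | det3 v w x < 0} := by
      intro x hx y hy a b ha hb hab
      simp only [Set.mem_setOf_eq] at hx hy ⊢
      rw [seg_det3_combo v w x y a b hab]
      rcases ha.eq_or_lt with ha0 | ha0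
      · have : b = 1 := by linarith
        rw [← ha0, this]; linarith
      · have h1 : a * det3 v w x < 0 := mul_neg_of_pos_of_neg ha0 hx
        have h2 : b * det3 v w y ≤ 0 := mul_nonpos_of_nonneg_of_nonpos hb hy.le
        linarith
    have : m ∈ {x : Plane | det3 v w x < 0} := convexHull_min hs hc hmO
    simp only [Set.mem_setOf_eq] at this
    linarith

end Pool.Agent.ObsNum
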