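import Pool.Agent.ObsNum.Targets

set_option autoImplicit false

/-!
# OBS-TRI: thin triangles as obstacles
-/

namespace Pool.Agent.ObsNum

open Pool.Agent.PAH (Plane det3)

/-- the thin triangle at height `c` -/
noncomputable def thin (ε w c : ℝ) : Set Plane :=
  convexHull ℝ {((0 : ℝ), c - ε), ((0 : ℝ), c + ε), (w, c)}

theorem thin_isTriangle {ε w : ℝ} (c : ℝ) (hε : 0 < ε) (hw : 0 < w) :
    IsTriangle (thin ε w c) := by
  refine ⟨_, _, _, ?_, rfl⟩
  have h := mul_pos hε hw
  simp only [det3]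
  intro h0
  nlinarith

theorem thin_sub {ε w c : ℝ} (hε : 0 < ε) (hw : 0 < w) {z : Plane} (hz : z ∈ thin ε w c) :
    0 ≤ z.1 ∧ z.1 ≤ w ∧ |z.2 - c| ≤ ε := by
  have h : thin ε w c ⊆ Set.Icc (0:ℝ) w ×ˢ Set.Icc (c - ε) (c + ε) := by
    refine convexHull_min ?_ ((convex_Icc _ _).prod (convex_Icc _ _))
    rintro z (rfl | rfl | rfl)
    · exact ⟨⟨le_refl _, hw.le⟩, ⟨le_refl _, by simp only; linarith⟩⟩
    · exact ⟨⟨le_refl _, hw.le⟩, ⟨by simp only; linarith, le_refl _⟩⟩
    · exact ⟨⟨hw.le, le_refl _⟩, ⟨by simp only; linarith, by simp only; linarith⟩⟩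
  obtain ⟨⟨h1, h2⟩, ⟨h3, h4⟩⟩ := h hz
  refine ⟨h1, h2, abs_le.2 ⟨by linarith, by linarith⟩⟩

theorem mem_thin {ε w c h : ℝ} (hε : 0 < ε) (hh : |h - c| ≤ ε) : ((0:ℝ), h) ∈ thin ε w c := by
  obtain ⟨h1, h2⟩ := abs_le.1 hh
  refine (segment_subset_convexHull (s := {((0 : ℝ), c - ε), ((0 : ℝ), c + ε), (w, c)})
    (x := ((0 : ℝ), c - ε)) (y := ((0 : ℝ), c + ε)) (by simp) (by simp)) ?_
  have h2ε : (0 : ℝ) < 2 * ε := by linarith
  refine ⟨(c + ε - h) / (2 * ε), (h - c + ε) / (2 * ε), ?_, ?_, ?_, ?_⟩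
  · exact div_nonneg (by linarith) h2ε.le
  · exact div_nonneg (by linarith) h2ε.le
  · field_simp; ring
  · refine Prod.ext ?_ ?_
    · simp
    · simp only [Prod.snd_add, Prod.smul_snd, smul_eq_mul]
      field_simp
      ring

theorem height_mem {a b : Plane} (ha : a.1 < 0) (hb : 0 < b.1) :
    ((0 : ℝ), height a b) ∈ segment ℝ a b := by
  have hd : 0 < b.1 - a.1 := by linarith
  refine ⟨b.1 / (b.1 - a.1), (-a.1) / (b.1 - a.1), div_nonneg hb.le hd.le,
    div_nonneg (by linarith) hd.le, ?_, ?_⟩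
  · field_simp; ring
  · refine Prod.ext ?_ ?_
    · simp only [Prod.fst_add, Prod.smul_fst, smul_eq_mul]
      field_simp
      ring
    · simp only [Prod.snd_add, Prod.smul_snd, smul_eq_mul, height]
      field_simp
      ring

theorem on_line {a b z : Plane} (ha : a.1 < 0) (hb : 0 < b.1) (hz : z ∈ segment ℝ a b) :
    z.2 = height a b + (b.2 - a.2) / (b.1 - a.1) * z.1 := by
  have hd : 0 < b.1 - a.1 := by linarith
  obtain ⟨s, t, hs, ht, hst, rfl⟩ := hz
  obtain rfl : s = 1 - t := by linarith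
  simp only [Prod.snd_add, Prod.smul_snd, Prod.fst_add, Prod.smul_fst, smul_eq_mul, height]
  field_simp
  ring

/-- a segment which passes at distance more than `ε` misses the thin triangle -/
theorem miss_thin {a b : Plane} {ε w c : ℝ} (hε : 0 < ε) (hw : 0 < w) (ha : a.1 < 0)
    (hb : 0 < b.1)
    (h : w * |(b.2 - a.2) / (b.1 - a.1)| < |height a b - c| - ε) :
    Disjoint (segment ℝ a b) (thin ε w c) := by
  refine Set.disjoint_left.2 fun z hz hz' => ?_
  obtain ⟨h1, h2, h3⟩ := thin_sub hε hw hz'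
  have h4 := on_line ha hb hz
  set s := (b.2 - a.2) / (b.1 - a.1)
  have h5 : |s * z.1| ≤ w * |s| := by
    rw [abs_mul, abs_of_nonneg h1, mul_comm]
    exact mul_le_mul_of_nonneg_right h2 (abs_nonneg _)
  have h6 : |height a b - c| ≤ |z.2 - c| + |s * z.1| := by
    have : height a b - c = (z.2 - c) - s * z.1 := by rw [h4]; ring
    rw [this]
    exact abs_sub _ _
  linarith

theorem height_comm (a b : Plane) : height a b = height b a := by
  unfold height
  rw [← neg_div_neg_eq]
  congr 1 <;> ring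

theorem seg_left {a b z : Plane} (ha : a.1 < 0) (hb : b.1 < 0) (hz : z ∈ segment ℝ a b) :
    z.1 < 0 := by
  have h : Convex ℝ {z : Plane | z.1 < 0} :=
    (convex_Iio (0 : ℝ)).linear_preimage (LinearMap.fst ℝ ℝ ℝ)
  exact h.segment_subset ha hb hz

theorem seg_right {a b z : Plane} {w : ℝ} (ha : w < a.1) (hb : w < b.1)
    (hz : z ∈ segment ℝ a b) : w < z.1 := by
  have h : Convex ℝ {z : Plane | w < z.1} :=
    (convex_Ioi w).linear_preimage (LinearMap.fst ℝ ℝ ℝ)
  exact h.segment_subset ha hb hz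

theorem tTRI : T_TRI := by
  intro V _ G L ε p hε hε1 hsame hp hinj hgp
  classical
  -- the width of the triangles
  have hex : ∃ w : ℝ, 0 < w ∧ (∀ v, ¬ L v → w < (p v).1) ∧
      ∀ u v, L u → ¬ L v → G.Adj u v →
        (w * |((p v).2 - (p u).2) / ((p v).1 - (p u).1)| < |height (p u) (p v) - 1| - ε) ∧
        (w * |((p v).2 - (p u).2) / ((p v).1 - (p u).1)| < |height (p u) (p v) + 1| - ε) := by
    have h1 : ∀ᶠ w in nhdsWithin (0 : ℝ) (Set.Ioi 0), ∀ v, ¬ L v → w < (p v).1 := by
      rw [Filter.eventually_all]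
      intro v
      by_cases hv : L v
      · exact Filter.Eventually.of_forall fun w h => absurd hv h
      · have := hp.right v hv
        exact Filter.Eventually.filter_mono nhdsWithin_le_nhds
          ((eventually_lt_nhds this).mono fun w hw _ => hw)
    have key : ∀ a b : ℝ, 0 < b → ∀ᶠ w in nhdsWithin (0 : ℝ) (Set.Ioi 0), w * a < b := by
      intro a b hb
      refine Filter.Eventually.filter_mono nhdsWithin_le_nhds ?_
      have hc : Filter.Tendsto (fun w : ℝ => w * a) (nhds 0) (nhds 0) := by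
        have : Continuous fun w : ℝ => w * a := by fun_prop
        simpa using this.tendsto 0
      exact hc.eventually_lt_const hb
    have h2 : ∀ᶠ w in nhdsWithin (0 : ℝ) (Set.Ioi 0), ∀ u v, L u → ¬ L v → G.Adj u v →
        (w * |((p v).2 - (p u).2) / ((p v).1 - (p u).1)| < |height (p u) (p v) - 1| - ε) ∧
        (w * |((p v).2 - (p u).2) / ((p v).1 - (p u).1)| < |height (p u) (p v) + 1| - ε) := by
      rw [Filter.eventually_all]
      intro u
      rw [Filter.eventually_all]
      intro v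
      by_cases h : L u ∧ ¬ L v ∧ G.Adj u v
      · obtain ⟨hu, hv, huv⟩ := h
        obtain ⟨e1, e2⟩ := hp.free u v hu hv huv
        filter_upwards [key |((p v).2 - (p u).2) / ((p v).1 - (p u).1)| _ (sub_pos.2 e1),
          key |((p v).2 - (p u).2) / ((p v).1 - (p u).1)| _ (sub_pos.2 e2)] with w f1 f2
        exact fun _ _ _ => ⟨f1, f2⟩
      · exact Filter.Eventually.of_forall fun w a b c => absurd ⟨a, b, c⟩ h
    have h3 : ∀ᶠ w in nhdsWithin (0 : ℝ) (Set.Ioi 0), 0 < w := self_mem_nhdsWithin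
    obtain ⟨w, hw1, hw2, hw3⟩ := (h3.and (h1.and h2)).exists
    exact ⟨w, hw1, hw2, hw3⟩
  obtain ⟨w, hw, hw1, hw2⟩ := hex
  refine ⟨p, 2, ![thin ε w 1, thin ε w (-1)], le_refl _, hinj, hgp, ?_, ?_, ?_⟩
  · intro i
    fin_cases i
    · exact thin_isTriangle _ hε hw
    · exact thin_isTriangle _ hε hw
  · have hv : ∀ (c : ℝ) v, p v ∉ thin ε w c := by
      intro c v hv
      obtain ⟨h1, h2, -⟩ := thin_sub hε hw hv
      by_cases hL : L v
      · exact absurd (hp.left v hL) (not_lt.2 h1)
      · exact absurd (hw1 v hL) (not_lt.2 h2)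
    intro i v
    fin_cases i
    · exact hv _ _
    · exact hv _ _
  · -- adjacency
    have hcross : ∀ u v, L u → ¬ L v → (G.Adj u v ↔
        ∀ i, Disjoint (segment ℝ (p u) (p v)) ((![thin ε w 1, thin ε w (-1)] : Fin 2 → Set Plane) i)) := by
      intro u v hu hv
      have hu' := hp.left u hu
      have hv' := hp.right v hv
      constructor
      · intro h
        obtain ⟨h1, h2⟩ := hw2 u v hu hv h
        intro i
        fin_cases i
        · exact miss_thin hε hw hu' hv' h1
        · refine miss_thin hε hw hu' hv' ?_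
          rw [sub_neg_eq_add]
          exact h2
      · intro h
        by_contra hno
        have hm := height_mem hu' hv'
        rcases hp.blocked u v hu hv hno with h1 | h1
        · exact Set.disjoint_left.1 (h 0) hm (mem_thin hε h1.le)
        · refine Set.disjoint_left.1 (h 1) hm (mem_thin (c := -1) hε ?_)
          rw [sub_neg_eq_add]
          exact h1.le
    intro u v huv
    by_cases hu : L u <;> by_cases hv : L v
    · have hadj := hsame u v ⟨fun _ => hv, fun _ => hu⟩ huv
      refine ⟨fun _ => ?_, fun _ => hadj⟩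
      have hd : ∀ c, Disjoint (segment ℝ (p u) (p v)) (thin ε w c) := fun c =>
        Set.disjoint_left.2 fun z hz hz' => absurd (seg_left (hp.left u hu) (hp.left v hv) hz)
          (not_lt.2 (thin_sub hε hw hz').1)
      intro i
      fin_cases i
      · exact hd _
      · exact hd _
    · exact hcross u v hu hv
    · rw [G.adj_comm, hcross v u hv hu, segment_symm]
    · have hadj := hsame u v ⟨fun h => absurd h hu, fun h => absurd h hv⟩ huv
      refine ⟨fun _ => ?_, fun _ => hadj⟩
      have hd : ∀ c, Disjoint (segment ℝ (p u) (p v)) (thin ε w c) := fun c =>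
        Set.disjoint_left.2 fun z hz hz' => absurd (seg_right (hw1 u hu) (hw1 v hv) hz)
          (not_lt.2 (thin_sub hε hw hz').2.1)
      intro i
      fin_cases i
      · exact hd _
      · exact hd _

end Pool.Agent.ObsNum
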