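import Pool.Agent.ObsNum.Targets

set_option autoImplicit false

/-!
# OBS-W: every large Q-clique contains a straddled pair, for both obstacles
-/

namespace Pool.Agent.ObsNum

open scoped Classical in
theorem tW (h1 : T_RAM) (h2 : T_IA) (h3 : T_IB) (h4 : T_II) : T_W := by
  obtain ⟨M0, hM0⟩ := h1 (Fin 2 → Bool × Bool) 7
  refine ⟨max M0 2, le_max_right _ _, ?_⟩
  intro α β C s c hQ i
  by_contra hcon
  have hno : ∀ j k, j ≠ k → ¬ C.Str i (s j) (c j k) := by
    intro j k hjk hS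
    exact hcon ⟨j, k, hjk, hS⟩
  let e : Fin M0 → Fin (max M0 2) := Fin.castLE (le_max_left M0 2)
  have he : Function.Injective e := Fin.castLE_injective _
  obtain ⟨g, hg, κ, hκ⟩ := hM0 (fun j k i' =>
    (decide (C.T i' (s (e j)) (c (e j) (e k))), decide (C.T i' (s (e k)) (c (e j) (e k)))))
  let f : Fin 7 → Fin (max M0 2) := fun j => e (g j)
  have hf : Function.Injective f := he.comp hg.injective
  let s' : Fin 7 → α := fun j => s (f j)
  let c' : Fin 7 → Fin 7 → β := fun j k => c (f j) (f k)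
  have hQ' : C.QC s' c' := by
    refine ⟨hQ.inj.comp hf, fun j k => hQ.symm _ _, fun a j k hjk => ?_⟩
    exact hQ.inc a (f j) (f k) (fun h => hjk (hf h))
  have hno' : ∀ j k, j ≠ k → ¬ C.Str i (s' j) (c' j k) :=
    fun j k hjk => hno (f j) (f k) (fun h => hjk (hf h))
  have hA : ∀ i' j k, j < k → (C.T i' (s' j) (c' j k) ↔ (κ i').1 = true) := by
    intro i' j k hjk
    have h := congrFun (hκ j k hjk) i'
    rw [← h]
    exact decide_eq_true_iff.symm
  have hB : ∀ i' j k, j < k → (C.T i' (s' k) (c' j k) ↔ (κ i').2 = true) := by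
    intro i' j k hjk
    have h := congrFun (hκ j k hjk) i'
    rw [← h]
    exact decide_eq_true_iff.symm
  have hB' : ∀ i' j k, k < j → (C.T i' (s' j) (c' j k) ↔ (κ i').2 = true) := by
    intro i' j k hjk
    rw [hQ'.symm j k]
    exact hB i' k j hjk
  have hA' : ∀ i' j k, k < j → (C.T i' (s' k) (c' j k) ↔ (κ i').1 = true) := by
    intro i' j k hjk
    rw [hQ'.symm j k]
    exact hA i' k j hjk
  have h01 : (0 : Fin 7) < 1 := by decide
  obtain ⟨a, ha⟩ : ∃ a, (κ a).1 = true := by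
    obtain ⟨a, ha⟩ := C.hit (s' 0) (c' 0 1) ((hQ'.inc (s' 0) 0 1 (ne_of_lt h01)).2 (Or.inl rfl))
    exact ⟨a, (hA a 0 1 h01).1 ha⟩
  obtain ⟨b, hb⟩ : ∃ b, (κ b).2 = true := by
    obtain ⟨b, hb⟩ := C.hit (s' 1) (c' 0 1) ((hQ'.inc (s' 1) 0 1 (ne_of_lt h01)).2 (Or.inr rfl))
    exact ⟨b, (hB b 0 1 h01).1 hb⟩
  by_cases hboth : ∃ i'', (κ i'').1 = true ∧ (κ i'').2 = true
  · obtain ⟨i'', h1'', h2''⟩ := hboth
    have hT : ∀ j k, j ≠ k → C.T i'' (s' j) (c' j k) := by
      intro j k hjk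
      rcases lt_or_gt_of_ne hjk with h | h
      · exact (hA i'' j k h).2 h1''
      · exact (hB' i'' j k h).2 h2''
    have hS := h2 α β C s' c' hQ' i'' hT
    exact h3 α β C s' c' hQ' (fun j k hjk => ⟨i'', hT j k hjk, hS j k hjk⟩)
  · have hnot : ∀ i'', ¬ ((κ i'').1 = true ∧ (κ i'').2 = true) := fun i'' h => hboth ⟨i'', h⟩
    have hab : a ≠ b := by
      rintro rfl
      exact hnot a ⟨ha, hb⟩
    have hna : ¬ (κ b).1 = true := fun h => hnot b ⟨h, hb⟩
    have hnb : ¬ (κ a).2 = true := fun h => hnot a ⟨ha, h⟩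
    -- the two obstacles together
    have hIB : ∀ i' : Fin 2, (i' = a ∨ i' = b) → (∀ j k, j ≠ k → ¬ C.Str a (s' j) (c' j k)) →
        (∀ j k, j ≠ k → ¬ C.Str b (s' j) (c' j k)) → False := by
      intro _ _ hSa hSb
      refine h3 α β C s' c' hQ' (fun j k hjk => ?_)
      rcases lt_or_gt_of_ne hjk with h | h
      · exact ⟨a, (hA a j k h).2 ha, hSa j k hjk⟩
      · exact ⟨b, (hB' b j k h).2 hb, hSb j k hjk⟩
    have hi : i = a ∨ i = b := by omega
    rcases hi with rfl | rfl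
    · by_cases hst : ∃ j k, j ≠ k ∧ C.Str b (s' j) (c' j k)
      · refine h4 α β C s' c' hQ' i b (fun j => -((j : ℕ) : ℤ)) ?_ ?_ hno' hst
        · intro j k hjk
          have : ((j : ℕ) : ℤ) = ((k : ℕ) : ℤ) := neg_injective hjk
          exact Fin.ext (by exact_mod_cast this)
        · intro j k hjk
          have hkj : k < j := by
            have h' : ((k : ℕ) : ℤ) < ((j : ℕ) : ℤ) := neg_lt_neg_iff.1 hjk
            exact Fin.lt_def.2 (by exact_mod_cast h')
          refine ⟨fun h => hnb ((hB' i j k hkj).1 h), (hA' i j k hkj).2 ha,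
            (hB' b j k hkj).2 hb, fun h => hna ((hA' b j k hkj).1 h)⟩
      · exact hIB i (Or.inl rfl) hno' (fun j k hjk h => hst ⟨j, k, hjk, h⟩)
    · by_cases hst : ∃ j k, j ≠ k ∧ C.Str a (s' j) (c' j k)
      · refine h4 α β C s' c' hQ' i a (fun j => ((j : ℕ) : ℤ)) ?_ ?_ hno' hst
        · intro j k hjk
          have : ((j : ℕ) : ℤ) = ((k : ℕ) : ℤ) := hjk
          exact Fin.ext (by exact_mod_cast this)
        · intro j k hjk
          have hjk' : j < k := by
            have h' : ((j : ℕ) : ℤ) < ((k : ℕ) : ℤ) := hjk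
            exact Fin.lt_def.2 (by exact_mod_cast h')
          refine ⟨fun h => hna ((hA i j k hjk').1 h), (hB i j k hjk').2 hb,
            (hA a j k hjk').2 ha, fun h => hnb ((hB a j k hjk').1 h)⟩
      · exact hIB i (Or.inr rfl) (fun j k hjk h => hst ⟨j, k, hjk, h⟩) hno'

end Pool.Agent.ObsNum
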