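import Pool.Agent.ObsNum.Layout

set_option autoImplicit false

/-!
# Completeness and soundness, assembled
-/

namespace Pool.Agent.ObsNum

open Pool.Agent.PAH (Plane det3)

theorem tYES (h1 : T_LAY) (h2 : T_EPS) (h3 : T_PERT) (h4 : T_TRI) : T_YES := by
  intro Φ N τ hok hcl hnx
  obtain ⟨P, s, Q, t, hL⟩ := h1 Φ N τ hok hcl hnx
  obtain ⟨ε, p, h0, h1', hP⟩ := h2 El (els Φ N) (blocks Φ N) P s Q t hL
  obtain ⟨p', hP', hinj, hgp⟩ := h3 _ _ _ ε p hP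
  refine h4 _ _ _ ε p' h0 h1' ?_ hP' hinj hgp
  intro u v huv hne
  refine ⟨hne, fun hs => ?_⟩
  exfalso
  apply hs
  by_cases hu : ((verts (els Φ N) (blocks Φ N)).get u).1 = false
  · rw [hu, huv.1 hu]
  · have hv : ¬ ((verts (els Φ N) (blocks Φ N)).get v).1 = false := fun h => hu (huv.2 h)
    rw [Bool.not_eq_false] at hu hv
    rw [hu, hv]

/-- soundness: an obstacle representation with two obstacles gives a solution -/
theorem sound {M : ℕ} (hM : ∀ (α β : Type) (C : Cfg α β), C.Three M → ∀ i, CLfree (C.T i))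
    (hREP : T_REP) (hGEO : T_GEO) (hCOMB : T_COMB) (Φ : CSat) (N : ℕ) (hN : 25 ≤ N) (hMN : M ≤ N)
    (hK : 0 < Φ.K) (hok : Φ.Ok) (𝒪 : Set (Set Plane)) (h𝒪 : ∀ P ∈ 𝒪, IsPreconnected P)
    (h : HasObstacleRep 𝒪 (theGraph Φ N) 2) :
    ∃ τ : ℕ → Bool, Φ.Cl τ ∧ ∀ o, o < 3 * Φ.K → τ o = true → τ (Φ.nx o) = true := by
  obtain ⟨C, hC⟩ := hREP El (els Φ N) (blocks Φ N) 𝒪 h𝒪 h
  have hcl := hM _ _ C (hGEO Φ N M hK hMN C hC)
  set T : Fin 2 → El → List El → Prop := fun i a b =>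
    ∃ (ha : a ∈ els Φ N) (hb : b ∈ blocks Φ N), C.T i ⟨a, ha⟩ ⟨b, hb⟩ with hT
  refine hCOMB Φ N T hok hN ⟨?_, ?_, ?_⟩
  · rintro i a b ⟨ha, hb, h⟩
    by_contra hab
    apply h
    have := C.miss i (.inl ⟨a, ha⟩) (.inr ⟨b, hb⟩) (fun h' => hab ((hC _ _).1 h'))
    exact this
  · intro a b ha hb hab
    obtain ⟨i, hi⟩ := C.hit ⟨a, ha⟩ ⟨b, hb⟩ ((hC _ _).2 hab)
    exact ⟨i, ha, hb, hi⟩
  · intro i z u b g h1 h2 h3 h4 h5
    have hz : z ∈ els Φ N := (h1 0).1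
    have hb : ∀ k, b k ∈ blocks Φ N := fun k => (h1 k).2.1
    have hu : ∀ k, u k ∈ els Φ N := fun k => (h2 k).1
    have hg : ∀ k, g k ∈ blocks Φ N := fun k => (h3 k).2.1
    refine hcl i ⟨z, hz⟩ (fun k => ⟨u k, hu k⟩) (fun k => ⟨b k, hb k⟩) (fun k => ⟨g k, hg k⟩)
      (fun k => (h1 k).2.2) (fun k => (h2 k).2.2) (fun k => (h3 k).2.2)
      (fun k h => h4 k ⟨hz, hg k, h⟩) (fun k l hkl h => h5 k l hkl ⟨hu k, hb l, h⟩)

/-- larger classes of obstacles -/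
theorem HasObstacleRep.mono {𝒪 𝒪' : Set (Set Plane)} (h : 𝒪 ⊆ 𝒪') {V : Type}
    {G : SimpleGraph V} {k : ℕ} (hG : HasObstacleRep 𝒪 G k) : HasObstacleRep 𝒪' G k := by
  obtain ⟨p, m, O, h1, h2, h3, h4, h5⟩ := hG
  exact ⟨p, m, O, h1, h2, h3, fun i => h (h4 i), h5⟩

/-- the reduction is correct -/
theorem correct {M : ℕ} (hM : ∀ (α β : Type) (C : Cfg α β), C.Three M → ∀ i, CLfree (C.T i))
    (hREP : T_REP) (hGEO : T_GEO) (hCOMB : T_COMB) (hYES : T_YES) (hROK : T_ROK)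
    (hRYES : T_RYES) (hRNO : T_RNO) (N : ℕ) (hN : 25 ≤ N) (hMN : M ≤ N)
    (𝒪 : Set (Set Plane)) (h1 : {P | IsTriangle P} ⊆ 𝒪) (h2 : ∀ P ∈ 𝒪, IsPreconnected P)
    (φ : List (List SLN.Lit)) :
    SLN.Satisfiable φ ↔ HasObstacleRep 𝒪 (theGraph (redC φ) N) 2 := by
  constructor
  · intro h
    obtain ⟨τ, ht, hn⟩ := hRYES φ h
    exact (hYES _ N τ (hROK φ) ht hn).mono h1
  · intro h
    rcases Nat.eq_zero_or_pos (redC φ).K with h0 | hpos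
    · refine hRNO φ (fun _ => true) ?_ ?_
      · intro j hj; omega
      · intro o ho; omega
    · obtain ⟨τ, ht, hn⟩ := sound hM hREP hGEO hCOMB (redC φ) N hN hMN hpos (hROK φ) 𝒪 h2 h
      exact hRNO φ τ ht hn

end Pool.Agent.ObsNum
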