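import Pool.Agent.ObsNum.Statement
import Pool.Agent.ObsNum.YES
import Pool.Agent.ObsNum.ALL
import Pool.Agent.ObsNum.CL
import Pool.Agent.ObsNum.COMB
import Pool.Agent.ObsNum.EPS
import Pool.Agent.ObsNum.FIVE
import Pool.Agent.ObsNum.FULL
import Pool.Agent.ObsNum.GEO
import Pool.Agent.ObsNum.GUARD
import Pool.Agent.ObsNum.IA
import Pool.Agent.ObsNum.IB
import Pool.Agent.ObsNum.II
import Pool.Agent.ObsNum.IIB
import Pool.Agent.ObsNum.LAY
import Pool.Agent.ObsNum.LAYC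
import Pool.Agent.ObsNum.LAYG
import Pool.Agent.ObsNum.LAYQ
import Pool.Agent.ObsNum.NS
import Pool.Agent.ObsNum.OUT
import Pool.Agent.ObsNum.PERT
import Pool.Agent.ObsNum.PRINT
import Pool.Agent.ObsNum.QL
import Pool.Agent.ObsNum.RAM
import Pool.Agent.ObsNum.REP
import Pool.Agent.ObsNum.RNO
import Pool.Agent.ObsNum.ROK
import Pool.Agent.ObsNum.RYES
import Pool.Agent.ObsNum.SEG
import Pool.Agent.ObsNum.TRI
import Pool.Agent.ObsNum.W

set_option autoImplicit false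

/-!
# The main theorem
-/

namespace Pool.Agent.ObsNum

open Pool.Agent.PAH (Plane det3 DecisionProblem PolyReduces)

theorem aALL : T_ALL :=
  tALL (tW tRAM (tIA (tOUT tQL) tSEG tCL) (tIB tNS) (tII (tOUT tQL) tSEG tIIB)) (tOUT tQL) tSEG tCL

theorem aCOMB : T_COMB := tCOMB tFIVE tFULL (tGUARD tFIVE)

/-- all polygonal regions are connected -/
theorem poly_conn (P : Set Plane) (h : IsPolygonalRegion P) : IsPreconnected P := h.1.isPreconnected

/-- triangles are polygonal regions -/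
theorem poly_tri (P : Set Plane) (h : IsTriangle P) : IsPolygonalRegion P := by
  obtain ⟨a, b, c, h1, rfl⟩ := h
  refine ⟨⟨⟨a, subset_convexHull ℝ _ (by simp)⟩, (convex_convexHull ℝ _).isPreconnected⟩,
    {(a, b, c)}, Set.finite_singleton _, ?_, ?_⟩
  · rintro t rfl
    exact h1
  · simp

/-- the reduction, for all classes of connected obstacles which contain the triangles -/
theorem reduction :
    ∃ N : ℕ, ∀ (𝒪 : Set (Set Plane)), (∀ P, IsTriangle P → P ∈ 𝒪) →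
      (∀ P ∈ 𝒪, IsPreconnected P) → ∀ φ : List (List SLN.Lit),
        SLN.Satisfiable φ ↔ HasObstacleRep 𝒪 (theGraph (redC φ) N) 2 := by
  obtain ⟨M, hM⟩ := aALL
  have hYES : T_YES :=
    tYES (tLAY tLAYQ tLAYGX tLAYG3 tLAYG2 tLAYC3 tLAYC2) tEPS tPERT tTRI
  exact ⟨M + 25, fun 𝒪 h1 h2 φ => correct hM tREP tGEO aCOMB hYES tROK tRYES tRNO (M + 25)
    (by omega) (by omega) 𝒪 h1 h2 φ⟩

/-- the main theorem: satisfiability reduces to OBSTACLE NUMBER -/
theorem main (𝒪 : Set (Set Plane)) (h1 : ∀ P, IsTriangle P → P ∈ 𝒪)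
    (h2 : ∀ P ∈ 𝒪, IsPreconnected P) : PolyReduces SLN.cnfSat (obstacleNumber 𝒪) := by
  obtain ⟨N, hN⟩ := reduction
  exact ⟨fun φ => ⟨_, theGraph (redC φ) N, 2⟩, tPRINT N, fun φ => hN 𝒪 h1 h2 φ⟩

end Pool.Agent.ObsNum
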