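import Pool.Agent.ObsNum.Final
import Pool.Agent.CookLevin.All

set_option autoImplicit false

/-!
# OBSTACLE NUMBER is NP-hard
-/

namespace Pool.Agent.ObsNum

open Pool.Agent.PAH (Plane det3 DecisionProblem PolyReduces)
open Pool.Agent.CookLevin (NPHard)

theorem hard (𝒪 : Set (Set Plane)) (h1 : ∀ P, IsTriangle P → P ∈ 𝒪)
    (h2 : ∀ P ∈ 𝒪, IsPreconnected P) : NPHard (obstacleNumber 𝒪) := by
  obtain ⟨N, hN⟩ := reduction
  obtain ⟨G, hG, hGe⟩ := print_polyF N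
  letI : Pool.Agent.PT.Dat (obstacleNumber 𝒪).Alphabet :=
    (inferInstance : Pool.Agent.PT.Dat SLN.Sym)
  exact CookLevin.hard (obstacleNumber 𝒪) (fun φ => ⟨_, theGraph (redC φ) N, 2⟩) G hG
    (fun φ => hGe φ) (fun φ => hN 𝒪 h1 h2 φ)

end Pool.Agent.ObsNum
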