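import Pool.Agent.ObsNum.Layout

set_option autoImplicit false

/-!
# OBS-LAYC: the clause blocks of the layout
-/

namespace Pool.Agent.ObsNum

namespace LayC

variable {D : LD}

theorem sep (hD : D.Ok) {l l' : El} (h : l ≠ l') :
    D.B l + 10000 ≤ D.B l' ∨ D.B l' + 10000 ≤ D.B l := by
  have : D.ι l ≠ D.ι l' := fun h' => h (hD.inj h')
  unfold LD.B
  omega

theorem sgn_cases (D : LD) (o : ℕ) : D.sgn o = 1 ∨ D.sgn o = -1 := by
  unfold LD.sgn
  split_ifs <;> simp

/-- anchors of different literals -/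
theorem anc_anc (hD : D.Ok) (c o c' o' : ℕ) (_ho : o < 3 * D.Φ.K) (ho' : o' < 3 * D.Φ.K) :
    (c = c' ∧ o = o') ∨ (D.anc c' o' = D.anc c o ∧ D.sgn o' = -D.sgn o) ∨
    (D.anc c o + 10000 ≤ D.anc c' o' ∨ D.anc c' o' + 10000 ≤ D.anc c o) := by
  by_cases heq : c = c' ∧ o = o'
  · exact .inl heq
  right
  by_cases h : D.τ o = D.Φ.sg o
  · by_cases h' : D.τ o' = D.Φ.sg o'
    · right
      unfold LD.anc
      rw [if_pos h, if_pos h']
      apply sep hD
      intro h2
      injection h2 with h3 h4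
      exact heq ⟨h3, h4⟩
    · right
      unfold LD.anc
      rw [if_pos h, if_neg h']
      apply sep hD
      intro h2
      cases h2
  · by_cases h' : D.τ o' = D.Φ.sg o'
    · right
      unfold LD.anc
      rw [if_neg h, if_pos h']
      apply sep hD
      intro h2
      cases h2
    · by_cases hcj : c = c' ∧ o / 3 = o' / 3
      · left
        obtain ⟨rfl, hj⟩ := hcj
        have hne : o ≠ o' := fun h3 => heq ⟨rfl, h3⟩
        unfold LD.anc LD.sgn
        rw [if_neg h, if_neg h', if_neg h, if_neg h', hj]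
        refine ⟨rfl, ?_⟩
        obtain ⟨hd1, hd2⟩ := hD.des (o' / 3) (by omega)
        have e1 : o % 3 ≠ D.des (o' / 3) := by
          intro h3
          apply h
          have : 3 * (o' / 3) + D.des (o' / 3) = o := by omega
          rw [this] at hd2
          exact hd2
        have e2 : o' % 3 ≠ D.des (o' / 3) := by
          intro h3
          apply h'
          have : 3 * (o' / 3) + D.des (o' / 3) = o' := by omega
          rw [this] at hd2
          exact hd2
        generalize D.des (o' / 3) = d at *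
        have e3 : o % 3 ≠ o' % 3 := by omega
        split_ifs <;> omega
      · right
        unfold LD.anc
        rw [if_neg h, if_neg h']
        apply sep hD
        intro h2
        injection h2 with h3 h4
        exact hcj ⟨h3, h4⟩

/-- anchors and labels of clauses -/
theorem anc_e3 (hD : D.Ok) (c o c' j' : ℕ) :
    D.anc c o = D.B (.e3 c' j') ∨
    (D.anc c o + 10000 ≤ D.B (.e3 c' j') ∨ D.B (.e3 c' j') + 10000 ≤ D.anc c o) := by
  unfold LD.anc
  split_ifs with h
  · right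
    apply sep hD
    intro h2
    cases h2
  · by_cases h2 : El.e3 c (o / 3) = El.e3 c' j'
    · left
      rw [h2]
    · right
      exact sep hD h2

/-- anchors and labels of references -/
theorem anc_rx (hD : D.Ok) (c o c' o' k f : ℕ) :
    (D.anc c o + 10000 ≤ D.B (.rx c' o' k f) ∨ D.B (.rx c' o' k f) + 10000 ≤ D.anc c o) := by
  unfold LD.anc
  split_ifs with h
  · apply sep hD
    intro h2
    cases h2
  · apply sep hD
    intro h2
    cases h2

/-- the occurrence owning a clause -/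
theorem own_lt (hD : D.Ok) {q : ℕ} (hq : q < 3 * D.Φ.K) : D.own q < 3 * D.Φ.K := by
  unfold LD.own
  split_ifs
  · exact hq
  · exact hD.ok.lt q hq

theorem own_inj (hD : D.Ok) {q q' : ℕ} (hq : q < 3 * D.Φ.K) (hq' : q' < 3 * D.Φ.K)
    (h : D.own q = D.own q') : q = q' := by
  unfold LD.own at h
  split_ifs at h with h1 h2 h2
  · exact h
  · exfalso
    rw [h] at h1
    rw [hD.nx q' hq'] at h1
    exact h2 h1
  · exfalso
    rw [← h] at h2
    rw [hD.nx q hq] at h2
    exact h1 h2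
  · exact hD.ok.inj q q' hq hq' h

theorem mlen_x (c o : ℕ) : mlen D.P (.x c o) = 1 := by simp [mlen, LD.P]
theorem mlen_e3 (c o : ℕ) : mlen D.P (.e3 c o) = 1 := by simp [mlen, LD.P]
theorem mlen_e2 (c o : ℕ) : mlen D.P (.e2 c o) = 1 := by simp [mlen, LD.P]
theorem mlen_lit (c o : ℕ) (b : Bool) : mlen D.P (.lit c o b) = 0 := by simp [mlen, LD.P]
theorem mlen_gx (c o k : ℕ) : mlen D.P (.gx c o k) = 0 := by simp [mlen, LD.P]
theorem mlen_g3 (c o k : ℕ) : mlen D.P (.g3 c o k) = 0 := by simp [mlen, LD.P]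
theorem mlen_g2 (c o k : ℕ) : mlen D.P (.g2 c o k) = 0 := by simp [mlen, LD.P]
theorem mlen_rx (c o k f : ℕ) : mlen D.P (.rx c o k f) = 0 := by simp [mlen, LD.P]
theorem mlen_r3 (c o k f : ℕ) : mlen D.P (.r3 c o k f) = 0 := by simp [mlen, LD.P]
theorem mlen_r2 (c o k f : ℕ) : mlen D.P (.r2 c o k f) = 0 := by simp [mlen, LD.P]

/-- all elements with the first large coordinate `3` -/
theorem loc3 (D : LD) (N : ℕ) {a : El} (h : InEls D.Φ N a) (hP : D.P 0 a = 3) :
    (∃ c j, c < N ∧ j < D.Φ.K ∧ a = .e3 c j ∧ mlen D.P a = 1 ∧ D.s 0 a = D.B (.e3 c j)) ∨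
    (∃ c q, c < N ∧ q < 3 * D.Φ.K ∧ a = .e2 c q ∧ mlen D.P a = 1 ∧
      D.s 0 a = D.anc c (D.own q) + 440 * D.sgn (D.own q)) ∨
    (∃ c o b, c < N ∧ o < 3 * D.Φ.K ∧ a = .lit c o b ∧ b ≠ D.τ o ∧ mlen D.P a = 0 ∧
      D.s 0 a = D.anc c o + 220 * D.sgn o) ∨
    (∃ c q k, c < N ∧ q < 3 * D.Φ.K ∧ a = .g2 c q k ∧ mlen D.P a = 0 ∧
      D.s 0 a = D.anc c (D.own q) + 660 * D.sgn (D.own q)) ∨
    (∃ c o k f, a = .rx c o k f ∧ mlen D.P a = 0 ∧ D.s 0 a = D.B (.rx c o k f)) := by
  rcases h with ⟨hc, ho⟩ | ⟨hc, ho⟩ | ⟨hc, ho⟩ | ⟨hq, h⟩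
  · simp [LD.P] at hP
  · exact .inr (.inl ⟨_, _, hc, ho, rfl, mlen_e2 _ _, by simp [LD.s]⟩)
  · exact .inl ⟨_, _, hc, ho, rfl, mlen_e3 _ _, by simp [LD.s]⟩
  · rcases h with ⟨hc, ho⟩ | ⟨hc, ho, hi⟩ | ⟨hc, ho, hi⟩ | ⟨hc, ho, hi⟩ | ⟨hc, ho, hi, hf⟩ |
      ⟨hc, ho, hi, hf⟩ | ⟨hc, ho, hi, hf⟩
    · rename_i c o s
      have hs : s ≠ D.τ o := by
        rintro rfl
        simp [LD.P] at hP
      exact .inr (.inr (.inl ⟨_, _, _, hc, ho, rfl, hs, mlen_lit _ _ _, by simp [LD.s, hs]⟩))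
    · simp only [LD.P] at hP
      split_ifs at hP <;> omega
    · rename_i c o k
      have hk : ¬ k < 2 := by
        intro hk
        simp [LD.P, hk] at hP
      have hk0 : k ≠ 0 := by omega
      have hk1 : k ≠ 1 := by omega
      exact .inr (.inr (.inr (.inl ⟨_, _, _, hc, ho, rfl, mlen_g2 _ _ _, by
        simp [LD.s, hk0, hk1]⟩)))
    · simp [LD.P] at hP
    · exact .inr (.inr (.inr (.inr ⟨_, _, _, _, rfl, mlen_rx _ _ _ _, by simp [LD.s]⟩)))
    · simp only [LD.P] at hP
      split_ifs at hP <;> omega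
    · simp [LD.P] at hP

/-- all elements with the second large coordinate `1` -/
theorem loc1 (D : LD) (N : ℕ) {a : El} (h : InEls D.Φ N a) (hP : D.P 1 a = 1) :
    (∃ c o, a = .x c o ∧ mlen D.P a = 1 ∧ D.s 1 a = D.B (.x c o)) ∨
    (∃ c o, a = .lit c o (D.τ o) ∧ mlen D.P a = 0 ∧ D.s 1 a = D.B (.x c o) + 221) ∨
    (∃ c o k, a = .gx c o k ∧ mlen D.P a = 0 ∧ D.s 1 a = D.B (.x c o) - 219) ∨
    (∃ c o k f, a = .r2 c o k f ∧ mlen D.P a = 0 ∧ D.s 1 a = D.B (.r2 c o k f) + 1) := by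
  rcases h with ⟨hc, ho⟩ | ⟨hc, ho⟩ | ⟨hc, ho⟩ | ⟨hq, h⟩
  · exact .inl ⟨_, _, rfl, mlen_x _ _, by simp [LD.s]⟩
  · simp [LD.P] at hP
  · simp [LD.P] at hP
  · rcases h with ⟨hc, ho⟩ | ⟨hc, ho, hi⟩ | ⟨hc, ho, hi⟩ | ⟨hc, ho, hi⟩ | ⟨hc, ho, hi, hf⟩ |
      ⟨hc, ho, hi, hf⟩ | ⟨hc, ho, hi, hf⟩
    · rename_i c o s
      have hs : s = D.τ o := by
        by_contra hs
        simp [LD.P, hs] at hP
      subst hs
      exact .inr (.inl ⟨_, _, rfl, mlen_lit _ _ _, by simp [LD.s]; ring⟩)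
    · rename_i c o k
      have hk : ¬ k < 2 := by
        intro hk
        simp [LD.P, hk] at hP
      have hk1 : k ≠ 1 := by omega
      exact .inr (.inr (.inl ⟨_, _, _, rfl, mlen_gx _ _ _, by simp [LD.s, hk1]; ring⟩))
    · simp only [LD.P] at hP
      split_ifs at hP <;> omega
    · simp [LD.P] at hP
    · simp only [LD.P] at hP
      split_ifs at hP <;> omega
    · exact .inr (.inr (.inr ⟨_, _, _, _, rfl, mlen_r2 _ _ _ _, by simp [LD.s]⟩))
    · simp [LD.P] at hP

/-- all elements stay away from the second coordinate of a clause block -/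
theorem far1 (hD : D.Ok) (N c o : ℕ) (b : Bool) (t : ℤ) {a : El} (h : InEls D.Φ N a)
    (hP : D.P 1 a = 1) (hax : a ≠ .x c o) (hab : a ≠ .lit c o b)
    (ht : (b = D.τ o ∧ t = D.B (.x c o) + 130) ∨ (b ≠ D.τ o ∧ t = D.B (.x c o))) :
    50 * (mlen D.P a + 2) < |D.s 1 a - t| := by
  rw [lt_abs]
  rcases loc1 D N h hP with ⟨c', o', rfl, hm, hs⟩ | ⟨c', o', rfl, hm, hs⟩ |
    ⟨c', o', k, rfl, hm, hs⟩ | ⟨c', o', k, f, rfl, hm, hs⟩
  · rw [hm, hs]
    have := sep hD hax
    omega
  · rw [hm, hs]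
    by_cases hxx : El.x c' o' = El.x c o
    · injection hxx with h1 h2
      subst h1 h2
      rcases ht with ⟨hb, ht⟩ | ⟨hb, ht⟩
      · exact absurd (by rw [hb]) hab
      · omega
    · have := sep hD hxx
      omega
  · rw [hm, hs]
    by_cases hxx : El.x c' o' = El.x c o
    · injection hxx with h1 h2
      subst h1 h2
      omega
    · have := sep hD hxx
      omega
  · rw [hm, hs]
    have := sep hD (l := El.r2 c' o' k f) (l' := El.x c o) (by intro h; cases h)
    omega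

/-- first coordinate, the literal is true, two literals -/
theorem far0A (hD : D.Ok) (N c q : ℕ) (hq : q < 3 * D.Φ.K) (t : ℤ) {a : El} (h : InEls D.Φ N a)
    (hP : D.P 0 a = 3) (hae : a ≠ .e2 c q)
    (ht : t = D.anc c (D.own q) + 440 * D.sgn (D.own q)) :
    50 * (mlen D.P a + 2) < |D.s 0 a - t| := by
  rw [lt_abs]
  have hoq := own_lt hD hq
  have hs1 := sgn_cases D (D.own q)
  rcases loc3 D N h hP with ⟨c', j', hc', hj', rfl, hm, hs⟩ | ⟨c', q', hc', hq', rfl, hm, hs⟩ |
    ⟨c', o', b', hc', ho', rfl, hb', hm, hs⟩ | ⟨c', q', k, hc', hq', rfl, hm, hs⟩ |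
    ⟨c', o', k, f, rfl, hm, hs⟩
  · rw [hm, hs]
    have := anc_e3 hD c (D.own q) c' j'
    omega
  · rw [hm, hs]
    rcases anc_anc hD c (D.own q) c' (D.own q') hoq (own_lt hD hq') with ⟨h1, h2⟩ | h1 | h1
    · exact absurd (by rw [h1, own_inj hD hq hq' h2]) hae
    · omega
    · have := sgn_cases D (D.own q')
      omega
  · rw [hm, hs]
    rcases anc_anc hD c (D.own q) c' o' hoq ho' with ⟨h1, h2⟩ | h1 | h1
    · rw [h1, h2] at ht
      rw [h2] at hs1
      omega
    · omega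
    · have := sgn_cases D o'
      omega
  · rw [hm, hs]
    rcases anc_anc hD c (D.own q) c' (D.own q') hoq (own_lt hD hq') with ⟨h1, h2⟩ | h1 | h1
    · rw [h1, h2] at ht
      rw [h2] at hs1
      omega
    · omega
    · have := sgn_cases D (D.own q')
      omega
  · rw [hm, hs]
    have := anc_rx hD c (D.own q) c' o' k f
    omega

/-- first coordinate, the literal is false, two literals -/
theorem far0B (hD : D.Ok) (N c q o : ℕ) (b : Bool) (hq : q < 3 * D.Φ.K) (ho : D.own q = o)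
    (hb : b ≠ D.τ o) (t : ℤ) {a : El}
    (h : InEls D.Φ N a) (hP : D.P 0 a = 3) (hae : a ≠ .e2 c q) (hal : a ≠ .lit c o b)
    (ht : t = D.anc c o + 310 * D.sgn o) :
    50 * (mlen D.P a + 2) < |D.s 0 a - t| := by
  rw [lt_abs]
  have hoq := own_lt hD hq
  subst ho
  have hs1 := sgn_cases D (D.own q)
  rcases loc3 D N h hP with ⟨c', j', hc', hj', rfl, hm, hs⟩ | ⟨c', q', hc', hq', rfl, hm, hs⟩ |
    ⟨c', o', b', hc', ho', rfl, hb', hm, hs⟩ | ⟨c', q', k, hc', hq', rfl, hm, hs⟩ |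
    ⟨c', o', k, f, rfl, hm, hs⟩
  · rw [hm, hs]
    have := anc_e3 hD c (D.own q) c' j'
    omega
  · rw [hm, hs]
    rcases anc_anc hD c (D.own q) c' (D.own q') hoq (own_lt hD hq') with ⟨h1, h2⟩ | h1 | h1
    · exact absurd (by rw [h1, own_inj hD hq hq' h2]) hae
    · omega
    · have := sgn_cases D (D.own q')
      omega
  · rw [hm, hs]
    rcases anc_anc hD c (D.own q) c' o' hoq ho' with ⟨h1, h2⟩ | h1 | h1
    · exfalso
      apply hal
      subst h1
      rw [← h2] at hb' ⊢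
      congr 1
      cases b <;> cases b' <;> cases hτ : D.τ (D.own q) <;> simp_all
    · omega
    · have := sgn_cases D o'
      omega
  · rw [hm, hs]
    rcases anc_anc hD c (D.own q) c' (D.own q') hoq (own_lt hD hq') with ⟨h1, h2⟩ | h1 | h1
    · rw [h1, h2] at ht
      rw [h2] at hs1
      omega
    · omega
    · have := sgn_cases D (D.own q')
      omega
  · rw [hm, hs]
    have := anc_rx hD c (D.own q) c' o' k f
    omega

/-- first coordinate, the literal is true, three literals -/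
theorem far0C (hD : D.Ok) (N c j : ℕ) (t : ℤ) {a : El} (h : InEls D.Φ N a)
    (hP : D.P 0 a = 3) (hae : a ≠ .e3 c j) (ht : t = D.B (.e3 c j)) :
    50 * (mlen D.P a + 2) < |D.s 0 a - t| := by
  rw [lt_abs]
  rcases loc3 D N h hP with ⟨c', j', hc', hj', rfl, hm, hs⟩ | ⟨c', q', hc', hq', rfl, hm, hs⟩ |
    ⟨c', o', b', hc', ho', rfl, hb', hm, hs⟩ | ⟨c', q', k, hc', hq', rfl, hm, hs⟩ |
    ⟨c', o', k, f, rfl, hm, hs⟩
  · rw [hm, hs]
    have := sep hD hae
    omega
  · rw [hm, hs]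
    have := anc_e3 hD c' (D.own q') c j
    have := sgn_cases D (D.own q')
    omega
  · rw [hm, hs]
    have := anc_e3 hD c' o' c j
    have := sgn_cases D o'
    omega
  · rw [hm, hs]
    have := anc_e3 hD c' (D.own q') c j
    have := sgn_cases D (D.own q')
    omega
  · rw [hm, hs]
    have := sep hD (l := El.rx c' o' k f) (l' := El.e3 c j) (by intro h; cases h)
    omega

/-- first coordinate, the literal is false, three literals -/
theorem far0D (hD : D.Ok) (N c o : ℕ) (b : Bool) (ho : o < 3 * D.Φ.K)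
    (hb : b ≠ D.τ o) (hanc : D.anc c o = D.B (.e3 c (o / 3))) (t : ℤ) {a : El}
    (h : InEls D.Φ N a) (hP : D.P 0 a = 3) (hae : a ≠ .e3 c (o / 3)) (hal : a ≠ .lit c o b)
    (ht : t = D.anc c o + 130 * D.sgn o) :
    50 * (mlen D.P a + 2) < |D.s 0 a - t| := by
  rw [lt_abs]
  have hs1 := sgn_cases D o
  rcases loc3 D N h hP with ⟨c', j', hc', hj', rfl, hm, hs⟩ | ⟨c', q', hc', hq', rfl, hm, hs⟩ |
    ⟨c', o', b', hc', ho', rfl, hb', hm, hs⟩ | ⟨c', q', k, hc', hq', rfl, hm, hs⟩ |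
    ⟨c', o', k, f, rfl, hm, hs⟩
  · rw [hm, hs]
    have := sep hD hae
    omega
  · rw [hm, hs]
    rcases anc_anc hD c o c' (D.own q') ho (own_lt hD hq') with ⟨h1, h2⟩ | h1 | h1
    · rw [h1, h2] at ht
      rw [h2] at hs1
      omega
    · omega
    · have := sgn_cases D (D.own q')
      omega
  · rw [hm, hs]
    rcases anc_anc hD c o c' o' ho ho' with ⟨h1, h2⟩ | h1 | h1
    · exfalso
      apply hal
      subst h1 h2
      congr 1
      cases b <;> cases b' <;> cases hτ : D.τ o <;> simp_all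
    · omega
    · have := sgn_cases D o'
      omega
  · rw [hm, hs]
    rcases anc_anc hD c o c' (D.own q') ho (own_lt hD hq') with ⟨h1, h2⟩ | h1 | h1
    · rw [h1, h2] at ht
      rw [h2] at hs1
      omega
    · omega
    · have := sgn_cases D (D.own q')
      omega
  · rw [hm, hs]
    have := anc_rx hD c o c' o' k f
    omega

/-- a clause block with two literals -/
theorem block2 (hD : D.Ok) (N c o q : ℕ) (b : Bool) (hq : q < 3 * D.Φ.K)
    (hb : b ≠ D.τ o → D.own q = o) :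
    D.Far N [El.x c o, El.lit c o b, El.e2 c q] ∧
    D.Near N [El.x c o, El.lit c o b, El.e2 c q] ∧
    D.Ord [El.x c o, El.lit c o b, El.e2 c q] := by
  have hQ : ∀ i, D.Q i [El.x c o, El.lit c o b, El.e2 c q] = if i = 0 then 3 else 1 := by
    intro i; simp [LD.Q]
  have hlen : mlen D.Q [El.x c o, El.lit c o b, El.e2 c q] = 2 := by
    simp [mlen, hQ]
  have ht0 : D.t 0 [El.x c o, El.lit c o b, El.e2 c q] =
      if b = D.τ o then D.anc c (D.own q) + 440 * D.sgn (D.own q) else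
      D.anc c o + 310 * D.sgn o := by
    simp [LD.t, LD.s]
  have ht1 : D.t 1 [El.x c o, El.lit c o b, El.e2 c q] =
      if b = D.τ o then D.B (.x c o) + 130 else D.B (.x c o) := by
    simp [LD.t]
  refine ⟨?_, ?_, ?_⟩
  · intro a ha hab i hi
    simp only [List.mem_cons, List.not_mem_nil, or_false, not_or] at hab
    rw [hlen]
    rw [hQ] at hi
    have h2 : i = 0 ∨ i = 1 := by fin_cases i <;> simp
    rcases h2 with rfl | rfl
    · simp only [if_true] at hi
      rw [ht0]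
      split_ifs with h3
      · exact far0A hD N c q hq _ ha hi hab.2.2 rfl
      · exact far0B hD N c q o b hq (hb h3) h3 _ ha hi hab.2.2 hab.2.1 rfl
    · simp only [one_ne_zero, if_false] at hi
      rw [ht1]
      refine far1 hD N c o b _ ha hi hab.1 hab.2.1 ?_
      split_ifs with h3
      · exact .inl ⟨h3, rfl⟩
      · exact .inr ⟨h3, rfl⟩
  · intro a ha hab
    simp only [List.mem_cons, List.not_mem_nil, or_false] at hab
    rw [hlen]
    rcases hab with rfl | rfl | rfl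
    · refine ⟨1, by simp [hQ, LD.P], ?_⟩
      rw [ht1, mlen_x, abs_lt]
      have : D.s 1 (.x c o) = D.B (.x c o) := by simp [LD.s]
      rw [this]
      split_ifs <;> omega
    · by_cases h3 : b = D.τ o
      · refine ⟨1, by rw [hQ]; simp [LD.P, h3], ?_⟩
        rw [ht1, mlen_lit, abs_lt]
        have : D.s 1 (.lit c o b) = D.B (.x c o) + 221 := by simp [LD.s, h3]; ring
        rw [this, if_pos h3]
        omega
      · refine ⟨0, by simp [hQ, LD.P, h3], ?_⟩
        rw [ht0, mlen_lit, abs_lt]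
        have : D.s 0 (.lit c o b) = D.anc c o + 220 * D.sgn o := by simp [LD.s, h3]
        rw [this, if_neg h3]
        have := sgn_cases D o
        omega
    · refine ⟨0, by simp [hQ, LD.P], ?_⟩
      rw [ht0, mlen_e2, abs_lt]
      have : D.s 0 (.e2 c q) = D.anc c (D.own q) + 440 * D.sgn (D.own q) := by simp [LD.s]
      rw [this]
      split_ifs with h3
      · omega
      · rw [hb h3]
        have := sgn_cases D o
        omega
  · left
    rw [hQ, hQ]
    simp

/-- a clause block with three literals -/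
theorem block3 (hD : D.Ok) (N c j t : ℕ) (hj : j < D.Φ.K) (ht : t < 3) :
    D.Far N [El.x c (3 * j + t), El.lit c (3 * j + t) (D.Φ.sg (3 * j + t)), El.e3 c j] ∧
    D.Near N [El.x c (3 * j + t), El.lit c (3 * j + t) (D.Φ.sg (3 * j + t)), El.e3 c j] ∧
    D.Ord [El.x c (3 * j + t), El.lit c (3 * j + t) (D.Φ.sg (3 * j + t)), El.e3 c j] := by
  have hoj : (3 * j + t) / 3 = j := by omega
  have ho : 3 * j + t < 3 * D.Φ.K := by omega
  generalize 3 * j + t = o at *
  have hQ : ∀ i, D.Q i [El.x c o, El.lit c o (D.Φ.sg o), El.e3 c j] = if i = 0 then 3 else 1 := by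
    intro i; simp [LD.Q]
  have hlen : mlen D.Q [El.x c o, El.lit c o (D.Φ.sg o), El.e3 c j] = 2 := by
    simp [mlen, hQ]
  have ht0 : D.t 0 [El.x c o, El.lit c o (D.Φ.sg o), El.e3 c j] =
      if D.Φ.sg o = D.τ o then D.B (.e3 c j) else
      D.anc c o + 130 * D.sgn o := by
    simp [LD.t, LD.s]
  have ht1 : D.t 1 [El.x c o, El.lit c o (D.Φ.sg o), El.e3 c j] =
      if D.Φ.sg o = D.τ o then D.B (.x c o) + 130 else D.B (.x c o) := by
    simp [LD.t]
  have hanc : D.Φ.sg o ≠ D.τ o → D.anc c o = D.B (.e3 c (o / 3)) := by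
    intro h
    unfold LD.anc
    rw [if_neg (Ne.symm h)]
  refine ⟨?_, ?_, ?_⟩
  · intro a ha hab i hi
    simp only [List.mem_cons, List.not_mem_nil, or_false, not_or] at hab
    rw [hlen]
    rw [hQ] at hi
    have h2 : i = 0 ∨ i = 1 := by fin_cases i <;> simp
    rcases h2 with rfl | rfl
    · simp only [if_true] at hi
      rw [ht0]
      split_ifs with h3
      · exact far0C hD N c j _ ha hi hab.2.2 rfl
      · exact far0D hD N c o (D.Φ.sg o) ho h3 (hanc h3) _ ha hi (by rw [hoj]; exact hab.2.2)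
          hab.2.1 rfl
    · simp only [one_ne_zero, if_false] at hi
      rw [ht1]
      refine far1 hD N c o (D.Φ.sg o) _ ha hi hab.1 hab.2.1 ?_
      split_ifs with h3
      · exact .inl ⟨h3, rfl⟩
      · exact .inr ⟨h3, rfl⟩
  · intro a ha hab
    simp only [List.mem_cons, List.not_mem_nil, or_false] at hab
    rw [hlen]
    rcases hab with rfl | rfl | rfl
    · refine ⟨1, by simp [hQ, LD.P], ?_⟩
      rw [ht1, mlen_x, abs_lt]
      have : D.s 1 (.x c o) = D.B (.x c o) := by simp [LD.s]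
      rw [this]
      split_ifs <;> omega
    · by_cases h3 : D.Φ.sg o = D.τ o
      · refine ⟨1, by rw [hQ]; simp [LD.P, h3], ?_⟩
        rw [ht1, mlen_lit, abs_lt]
        have : D.s 1 (.lit c o (D.Φ.sg o)) = D.B (.x c o) + 221 := by simp [LD.s, h3]; ring
        rw [this, if_pos h3]
        omega
      · refine ⟨0, by simp [hQ, LD.P, h3], ?_⟩
        rw [ht0, mlen_lit, abs_lt]
        have : D.s 0 (.lit c o (D.Φ.sg o)) = D.anc c o + 220 * D.sgn o := by simp [LD.s, h3]
        rw [this, if_neg h3]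
        have := sgn_cases D o
        omega
    · refine ⟨0, by simp [hQ, LD.P], ?_⟩
      rw [ht0, mlen_e3, abs_lt]
      have : D.s 0 (.e3 c j) = D.B (.e3 c j) := by simp [LD.s]
      rw [this]
      split_ifs with h3
      · omega
      · rw [hanc h3, hoj]
        have := sgn_cases D o
        omega
  · left
    rw [hQ, hQ]
    simp

end LayC

theorem tLAYC3 : T_LAYC3 := fun D N c j t hD _ hj ht => LayC.block3 hD N c j t hj ht

theorem tLAYC2 : T_LAYC2 := by
  intro D N c o hD hc ho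
  refine ⟨LayC.block2 hD N c o o false ho ?_, LayC.block2 hD N c (D.Φ.nx o) o true ho ?_⟩
  · intro h
    unfold LD.own
    rw [if_pos]
    cases hτ : D.τ o
    · exact absurd hτ.symm h
    · rfl
  · intro h
    rw [hD.nx o ho] at h
    unfold LD.own
    rw [if_neg]
    intro hτ
    exact h hτ.symm

/-- both targets -/
theorem tLAYC : T_LAYC3 ∧ T_LAYC2 := ⟨tLAYC3, tLAYC2⟩

end Pool.Agent.ObsNum
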