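import Pool.Agent.ObsNum.Layout

set_option autoImplicit false

/-!
# Helper lemmas for the integer layout: labels and offsets
-/

namespace Pool.Agent.ObsNum

/-- the label of the anchor -/
def LD.ancl (D : LD) (c o : ℕ) : El := if D.τ o = D.Φ.sg o then .x c o else .e3 c (o / 3)

theorem LD.anc_eq (D : LD) (c o : ℕ) : D.anc c o = 10000 * D.ι (D.ancl c o) := by
  unfold LD.anc LD.ancl LD.B
  split_ifs <;> rfl

/-- the label of an element -/
def LD.lab (D : LD) (i : Fin 2) : El → El
  | .x c o => .x c o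
  | .e3 c j => .e3 c j
  | .e2 c q => if i = 0 then D.ancl c (D.own q) else .e2 c q
  | .lit c o b => if b = D.τ o then .x c o else D.ancl c o
  | .gx c o _ => .x c o
  | .g3 c j _ => .e3 c j
  | .g2 c q k => if k < 2 then .e2 c q else D.ancl c (D.own q)
  | .rx c o k f => .rx c o k f
  | .r3 c j k f => .r3 c j k f
  | .r2 c q k f => .r2 c q k f

/-- the offset of an element -/
def LD.off (D : LD) (i : Fin 2) : El → ℤ
  | .x _ _ => 0
  | .e3 _ _ => 0
  | .e2 _ q => if i = 0 then 440 * D.sgn (D.own q) else 0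
  | .lit _ o b => (if b = D.τ o then 220 else 220 * D.sgn o) + i.1
  | .gx _ _ k => (if k = 1 then 220 else -220) + i.1
  | .g3 _ _ k => (if k = 0 then -220 else 220) + i.1
  | .g2 _ q k => (if k = 0 then -220 else if k = 1 then 220 else 660 * D.sgn (D.own q)) + i.1
  | .rx _ _ _ _ => i.1
  | .r3 _ _ _ _ => i.1
  | .r2 _ _ _ _ => i.1

theorem LD.s_eq (D : LD) (i : Fin 2) (a : El) :
    D.s i a = 10000 * D.ι (D.lab i a) + D.off i a := by
  cases a with
  | x c o => simp [LD.s, LD.lab, LD.off, LD.B]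
  | e3 c j => simp [LD.s, LD.lab, LD.off, LD.B]
  | e2 c q =>
    simp only [LD.s, LD.lab, LD.off, LD.B, LD.anc_eq]
    split_ifs <;> ring
  | lit c o b =>
    simp only [LD.s, LD.lab, LD.off, LD.B, LD.anc_eq]
    split_ifs <;> ring
  | gx c o k =>
    simp only [LD.s, LD.lab, LD.off, LD.B]
    ring
  | g3 c j k =>
    simp only [LD.s, LD.lab, LD.off, LD.B]
    ring
  | g2 c q k =>
    simp only [LD.s, LD.lab, LD.off, LD.B, LD.anc_eq]
    by_cases h0 : k = 0
    · subst h0; simp only [if_true, Nat.zero_lt_two]; ring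
    · by_cases h1 : k = 1
      · subst h1; simp only [if_true, Nat.one_lt_two, one_ne_zero, if_false]; ring
      · have h2 : ¬ k < 2 := by omega
        simp only [h0, h1, h2, if_false]; ring
  | rx c o k f => simp only [LD.s, LD.lab, LD.off, LD.B]
  | r3 c j k f => simp only [LD.s, LD.lab, LD.off, LD.B]
  | r2 c q k f => simp only [LD.s, LD.lab, LD.off, LD.B]

theorem LD.sgn_cases (D : LD) (o : ℕ) : D.sgn o = 1 ∨ D.sgn o = -1 := by
  unfold LD.sgn
  split_ifs <;> simp

theorem LD.sgn_true (D : LD) (o : ℕ) (h : D.τ o = D.Φ.sg o) : D.sgn o = 1 := by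
  unfold LD.sgn
  rw [if_pos h]

theorem LD.ancl_true (D : LD) (c o : ℕ) (h : D.τ o = D.Φ.sg o) : D.ancl c o = .x c o := by
  unfold LD.ancl
  rw [if_pos h]

theorem LD.ancl_false (D : LD) (c o : ℕ) (h : D.τ o ≠ D.Φ.sg o) :
    D.ancl c o = .e3 c (o / 3) := by
  unfold LD.ancl
  rw [if_neg h]

theorem LD.off_le (D : LD) (i : Fin 2) (a : El) : |D.off i a| ≤ 661 := by
  have hi : ((i.1 : ℕ) : ℤ) = 0 ∨ ((i.1 : ℕ) : ℤ) = 1 := by
    have := i.2
    omega
  rw [abs_le]
  cases a with
  | x c o => simp [LD.off]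
  | e3 c j => simp [LD.off]
  | e2 c q =>
    simp only [LD.off]
    have := D.sgn_cases (D.own q)
    split_ifs <;> omega
  | lit c o b =>
    simp only [LD.off]
    have := D.sgn_cases o
    split_ifs <;> omega
  | gx c o k => simp only [LD.off]; split_ifs <;> omega
  | g3 c j k => simp only [LD.off]; split_ifs <;> omega
  | g2 c q k =>
    simp only [LD.off]
    have := D.sgn_cases (D.own q)
    split_ifs <;> omega
  | rx c o k f => simp only [LD.off]; omega
  | r3 c j k f => simp only [LD.off]; omega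
  | r2 c q k f => simp only [LD.off]; omega

/-- macro lengths of the elements: 1 for the elements `x`, `e2`, `e3`, 0 for the others -/
theorem LD.mlen_el (D : LD) (a : El) :
    mlen D.P a = match a with | .x _ _ => 1 | .e2 _ _ => 1 | .e3 _ _ => 1 | _ => 0 := by
  cases a with
  | x c o => simp [mlen, LD.P]
  | e3 c j => simp [mlen, LD.P]
  | e2 c q => simp [mlen, LD.P]
  | lit c o b => simp [mlen, LD.P]
  | gx c o k => simp [mlen, LD.P]
  | g3 c j k => simp [mlen, LD.P]
  | g2 c q k => simp [mlen, LD.P]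
  | rx c o k f => simp [mlen, LD.P]
  | r3 c j k f => simp [mlen, LD.P]
  | r2 c q k f => simp [mlen, LD.P]

theorem LD.mlen_el_le (D : LD) (a : El) : 0 ≤ mlen D.P a ∧ mlen D.P a ≤ 1 := by
  rw [D.mlen_el a]
  cases a <;> simp

/-- Elements and blocks with different labels are far from each other; for the same label the
offsets have to be compared. -/
theorem LD.far_of (D : LD) (hinj : Function.Injective D.ι) (i : Fin 2) (a : El) (m T : ℤ)
    (l : El) (f : ℤ) (ht : T = 10000 * D.ι l + f) (hf : |f| ≤ 700) (hm : m ≤ 10)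
    (h : D.lab i a = l → 50 * (mlen D.P a + m) < |D.off i a - f|) :
    50 * (mlen D.P a + m) < |D.s i a - T| := by
  rw [ht, D.s_eq]
  by_cases hl : D.lab i a = l
  · have := h hl
    rw [hl]
    rwa [show 10000 * D.ι l + D.off i a - (10000 * D.ι l + f) = D.off i a - f by ring]
  · have hne : D.ι (D.lab i a) ≠ D.ι l := fun e => hl (hinj e)
    have h1 := (D.mlen_el_le a).2
    have h2 := D.off_le i a
    rw [abs_le] at h2 hf
    rw [lt_abs]
    rcases lt_or_gt_of_ne hne with h3 | h3 <;> omega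

theorem LD.own_inj (D : LD) (hD : D.Ok) {q q' : ℕ} (hq : q < 3 * D.Φ.K) (hq' : q' < 3 * D.Φ.K)
    (h : D.own q = D.own q') : q = q' := by
  unfold LD.own at h
  have h1 := hD.nx q hq
  have h2 := hD.nx q' hq'
  by_cases hq1 : D.τ q = true
  · by_cases hq2 : D.τ q' = true
    · rwa [if_pos hq1, if_pos hq2] at h
    · rw [if_pos hq1, if_neg hq2] at h
      rw [← h, hq1] at h2
      exact absurd h2.symm hq2
  · by_cases hq2 : D.τ q' = true
    · rw [if_neg hq1, if_pos hq2] at h
      rw [h, hq2] at h1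
      exact absurd h1.symm hq1
    · rw [if_neg hq1, if_neg hq2] at h
      exact hD.ok.inj q q' hq hq' h

theorem LD.own_lt (D : LD) (hD : D.Ok) {q : ℕ} (hq : q < 3 * D.Φ.K) : D.own q < 3 * D.Φ.K := by
  unfold LD.own
  split_ifs
  · exact hq
  · exact hD.ok.lt q hq

theorem LD.τ_own (D : LD) (hD : D.Ok) {q : ℕ} (hq : q < 3 * D.Φ.K) : D.τ (D.own q) = D.τ q := by
  unfold LD.own
  split_ifs
  · rfl
  · exact hD.nx q hq

/-- two different false occurrences of the same clause have different signs -/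
theorem LD.sgn_ne (D : LD) (hD : D.Ok) {o o' : ℕ} (ho : o < 3 * D.Φ.K) (hne : o ≠ o')
    (hj : o / 3 = o' / 3) (hf : D.τ o ≠ D.Φ.sg o) (hf' : D.τ o' ≠ D.Φ.sg o') :
    D.sgn o = - D.sgn o' := by
  have hK : o / 3 < D.Φ.K := by omega
  obtain ⟨h1, h2⟩ := hD.des (o / 3) hK
  have h3 : o % 3 ≠ D.des (o / 3) := by
    intro h
    apply hf
    rw [← h] at h2
    rwa [show 3 * (o / 3) + o % 3 = o by omega] at h2
  have h4 : o' % 3 ≠ D.des (o / 3) := by
    intro h
    apply hf'
    rw [← h] at h2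
    rwa [show 3 * (o / 3) + o' % 3 = o' by omega] at h2
  unfold LD.sgn
  rw [if_neg hf, if_neg hf', ← hj]
  split_ifs <;> omega

/-- signs are equal only for the same occurrence -/
theorem LD.eq_of_sgn (D : LD) (hD : D.Ok) {o o' : ℕ} (ho : o < 3 * D.Φ.K)
    (hj : o / 3 = o' / 3) (hf : D.τ o ≠ D.Φ.sg o) (hf' : D.τ o' ≠ D.Φ.sg o')
    (hs : D.sgn o = D.sgn o') : o = o' := by
  by_contra hne
  have h1 := D.sgn_ne hD ho hne hj hf hf'
  have h2 := D.sgn_cases o'
  omega

end Pool.Agent.ObsNum
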