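import Pool.Agent.ObsNum.Targets

set_option autoImplicit false

/-!
# The integer layout of the graph (completeness)

`ι` is an arbitrary injective function, `des j` the designated true literal of clause `j`.  Checked by
computer for random instances.
-/

namespace Pool.Agent.ObsNum

/-- the data of the layout -/
structure LD where
  Φ : CSat
  τ : ℕ → Bool
  des : ℕ → ℕ
  ι : El → ℤ

/-- what is assumed about the data -/
structure LD.Ok (D : LD) : Prop where
  ok : D.Φ.Ok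
  des : ∀ j, j < D.Φ.K → D.des j < 3 ∧ D.τ (3 * j + D.des j) = D.Φ.sg (3 * j + D.des j)
  nx : ∀ o, o < 3 * D.Φ.K → D.τ (D.Φ.nx o) = D.τ o
  inj : Function.Injective D.ι

/-- base of a cluster -/
def LD.B (D : LD) (a : El) : ℤ := 10000 * D.ι a

/-- the side of the occurrence in the chain of its clause (`1` for true occurrences) -/
def LD.sgn (D : LD) (o : ℕ) : ℤ :=
  if D.τ o = D.Φ.sg o then 1 else if o % 3 = (D.des (o / 3) + 1) % 3 then -1 else 1

/-- the anchor of the cluster of the false literal of `o` -/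
def LD.anc (D : LD) (c o : ℕ) : ℤ :=
  if D.τ o = D.Φ.sg o then D.B (.x c o) else D.B (.e3 c (o / 3))

/-- the variable whose false literal is in the clause `e2 c q` -/
def LD.own (D : LD) (q : ℕ) : ℕ := if D.τ q then q else D.Φ.nx q

/-- coarse coordinates of the elements -/
def LD.P (D : LD) (i : Fin 2) : El → ℤ
  | .x _ _ => if i = 0 then 0 else 1
  | .e3 _ _ => if i = 0 then 3 else 4
  | .e2 _ _ => if i = 0 then 3 else 4
  | .lit _ o b => if b = D.τ o then 1 else 3
  | .gx _ _ k => if k < 2 then 0 else 1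
  | .g3 _ _ _ => 4
  | .g2 _ _ k => if k < 2 then 4 else 3
  | .rx _ _ k _ => if k < 2 then -2 else 3
  | .r3 _ _ _ _ => 6
  | .r2 _ _ k _ => if k < 2 then 6 else 1

/-- fine coordinates of the elements -/
def LD.s (D : LD) (i : Fin 2) : El → ℤ
  | .x c o => D.B (.x c o)
  | .e3 c j => D.B (.e3 c j)
  | .e2 c q => if i = 0 then D.anc c (D.own q) + 440 * D.sgn (D.own q) else D.B (.e2 c q)
  | .lit c o b => (if b = D.τ o then D.B (.x c o) + 220 else D.anc c o + 220 * D.sgn o) + i.1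
  | .gx c o k => D.B (.x c o) + (if k = 1 then 220 else -220) + i.1
  | .g3 c j k => D.B (.e3 c j) + (if k = 0 then -220 else 220) + i.1
  | .g2 c q k => (if k = 0 then D.B (.e2 c q) - 220 else if k = 1 then D.B (.e2 c q) + 220
      else D.anc c (D.own q) + 660 * D.sgn (D.own q)) + i.1
  | .rx c o k f => D.B (.rx c o k f) + i.1
  | .r3 c j k f => D.B (.r3 c j k f) + i.1
  | .r2 c q k f => D.B (.r2 c q k f) + i.1

/-- `a` is to the right of `a'` -/
def LD.Rt (D : LD) (a a' : El) : Prop :=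
  D.P 0 a' < D.P 0 a ∨ (D.P 0 a' = D.P 0 a ∧ D.s 0 a' < D.s 0 a)

instance (D : LD) (a a' : El) : Decidable (D.Rt a a') := by unfold LD.Rt; infer_instance

/-- coarse coordinates of the blocks -/
def LD.Q (D : LD) (i : Fin 2) : List El → ℤ
  | [a, a'] => if D.Rt a a' then D.P i (if i = 0 then a else a') else
      D.P i (if i = 0 then a' else a)
  | [.x _ _, .gx _ _ k, _] => if k < 2 then (if i = 0 then 0 else -2) else if i = 0 then 3 else 1
  | [.e3 _ _, .g3 _ _ _, _] => if i = 0 then 6 else 4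
  | [.e2 _ _, .g2 _ _ k, _] => if k < 2 then (if i = 0 then 6 else 4) else if i = 0 then 3 else 1
  | _ => if i = 0 then 3 else 1

/-- fine coordinates of the blocks -/
def LD.t (D : LD) (i : Fin 2) : List El → ℤ
  | [a, a'] => if D.Rt a a' then D.s i (if i = 0 then a else a') else
      D.s i (if i = 0 then a' else a)
  | [.x c o, .gx _ _ k, r] =>
      if k < 2 then (if i = 0 then D.B (.x c o) + (if k = 1 then 130 else -130) else D.s 1 r)
      else if i = 0 then D.s 0 r else D.B (.x c o) - 130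
  | [.e3 c j, .g3 _ _ k, r] =>
      if i = 0 then D.s 0 r else D.B (.e3 c j) + (if k = 0 then -130 else 130)
  | [.e2 c q, .g2 _ _ k, r] =>
      if k < 2 then (if i = 0 then D.s 0 r else D.B (.e2 c q) + (if k = 0 then -130 else 130))
      else if i = 0 then D.anc c (D.own q) + 570 * D.sgn (D.own q) else D.s 1 r
  | [.x c o, .lit _ _ b, e] =>
      if b = D.τ o then (if i = 0 then D.s 0 e else D.B (.x c o) + 130)
      else if i = 0 then D.anc c o + (match e with | .e3 _ _ => 130 | _ => 310) * D.sgn o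
      else D.B (.x c o)
  | _ => 0

/-- the block `b` does not come near other elements -/
def LD.Far (D : LD) (N : ℕ) (b : List El) : Prop :=
  ∀ a, InEls D.Φ N a → a ∉ b → ∀ i, D.P i a = D.Q i b →
    50 * (mlen D.P a + mlen D.Q b) < |D.s i a - D.t i b|

/-- the block `b` comes near its own elements -/
def LD.Near (D : LD) (N : ℕ) (b : List El) : Prop :=
  ∀ a, InEls D.Φ N a → a ∈ b → ∃ i, D.P i a = D.Q i b ∧
    (D.s i a = D.t i b ∨ |D.s i a - D.t i b| < 50 * (mlen D.P a + mlen D.Q b))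

/-- the block `b` has its two coordinates in the right order -/
def LD.Ord (D : LD) (b : List El) : Prop :=
  D.Q 1 b < D.Q 0 b ∨ (D.Q 1 b = D.Q 0 b ∧ D.t 1 b < D.t 0 b)

/-- LAY-Q -/
def T_LAYQ : Prop := ∀ (D : LD) (N q : ℕ) (a a' : El), D.Ok → q < 3 → InCls D.Φ N q a →
  InCls D.Φ N q a' → a' ≠ a → D.Far N [a, a'] ∧ D.Near N [a, a'] ∧ D.Ord [a, a']

/-- LAY-GX -/
def T_LAYGX : Prop := ∀ (D : LD) (N c o i f : ℕ), D.Ok → c < N → o < 3 * D.Φ.K → i < 3 → f < 9 →
  D.Far N [El.x c o, El.gx c o i, El.rx c o i f] ∧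
  D.Near N [El.x c o, El.gx c o i, El.rx c o i f] ∧
  D.Ord [El.x c o, El.gx c o i, El.rx c o i f]

/-- LAY-G3 -/
def T_LAYG3 : Prop := ∀ (D : LD) (N c j i f : ℕ), D.Ok → c < N → j < D.Φ.K → i < 2 → f < 9 →
  D.Far N [El.e3 c j, El.g3 c j i, El.r3 c j i f] ∧
  D.Near N [El.e3 c j, El.g3 c j i, El.r3 c j i f] ∧
  D.Ord [El.e3 c j, El.g3 c j i, El.r3 c j i f]

/-- LAY-G2 -/
def T_LAYG2 : Prop := ∀ (D : LD) (N c o i f : ℕ), D.Ok → c < N → o < 3 * D.Φ.K → i < 3 → f < 9 →
  D.Far N [El.e2 c o, El.g2 c o i, El.r2 c o i f] ∧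
  D.Near N [El.e2 c o, El.g2 c o i, El.r2 c o i f] ∧
  D.Ord [El.e2 c o, El.g2 c o i, El.r2 c o i f]

/-- LAY-C3 -/
def T_LAYC3 : Prop := ∀ (D : LD) (N c j t : ℕ), D.Ok → c < N → j < D.Φ.K → t < 3 →
  D.Far N [El.x c (3 * j + t), El.lit c (3 * j + t) (D.Φ.sg (3 * j + t)), El.e3 c j] ∧
  D.Near N [El.x c (3 * j + t), El.lit c (3 * j + t) (D.Φ.sg (3 * j + t)), El.e3 c j] ∧
  D.Ord [El.x c (3 * j + t), El.lit c (3 * j + t) (D.Φ.sg (3 * j + t)), El.e3 c j]

/-- LAY-C2 -/
def T_LAYC2 : Prop := ∀ (D : LD) (N c o : ℕ), D.Ok → c < N → o < 3 * D.Φ.K →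
  (D.Far N [El.x c o, El.lit c o false, El.e2 c o] ∧
    D.Near N [El.x c o, El.lit c o false, El.e2 c o] ∧
    D.Ord [El.x c o, El.lit c o false, El.e2 c o]) ∧
  (D.Far N [El.x c (D.Φ.nx o), El.lit c (D.Φ.nx o) true, El.e2 c o] ∧
    D.Near N [El.x c (D.Φ.nx o), El.lit c (D.Φ.nx o) true, El.e2 c o] ∧
    D.Ord [El.x c (D.Φ.nx o), El.lit c (D.Φ.nx o) true, El.e2 c o])

end Pool.Agent.ObsNum
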