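import Pool.Agent.ObsNum.Sys

set_option autoImplicit false

/-!
# The reduction from satisfiability, and its targets
-/

namespace Pool.Agent.ObsNum

open Pool.Agent.SLN (Sym encBits Lit Satisfiable encLit encCNF)

/-- names of variables of the 3SAT instance -/
abbrev Name : Type := (ℕ × ℕ) × List Bool

/-- literals of the 3SAT instance -/
abbrev L3 : Type := Bool × Name

/-- a variable of the formula -/
def old (n : List Bool) : Name := ((0, 0), n)

/-- the variable which says that the first `t` literals of clause `j` are false -/
def fresh (j t : ℕ) : Name := ((j + 1, t), [])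

/-- the triples of clause `j`, which is `c` -/
def trc (j : ℕ) (c : List Lit) : List (L3 × L3 × L3) :=
  ((true, fresh j 0), (true, fresh j 0), (true, fresh j 0)) ::
    (((List.range c.length).zip c).map (fun p =>
      ((false, fresh j p.1), (p.2.1, old p.2.2), (true, fresh j (p.1 + 1)))) ++
    [((false, fresh j c.length), (false, fresh j c.length), (false, fresh j c.length))])

/-- all triples -/
def trips (φ : List (List Lit)) : List (L3 × L3 × L3) :=
  ((List.range φ.length).zip φ).flatMap fun p => trc p.1 p.2

/-- the occurrences of literals; every triple occurs twice -/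
def lits (φ : List (List Lit)) : List L3 :=
  (trips φ ++ trips φ).flatMap fun t => [t.1, t.2.1, t.2.2]

/-- the name of the variable of an occurrence -/
def nam (φ : List (List Lit)) (o : ℕ) : Name := ((lits φ).getD o (true, old [])).2

/-- the occurrences of the same variable -/
def same (φ : List (List Lit)) (o : ℕ) : List ℕ :=
  (List.range (lits φ).length).filter fun o' => decide (nam φ o' = nam φ o)

/-- the cyclic successor of `o` in the list `l` -/
def nxt (l : List ℕ) (o : ℕ) : ℕ :=
  (((l.zip (l.tail ++ l.take 1)).filter fun p => decide (p.1 = o)).map Prod.snd).headD o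

/-- the cyclic 3SAT instance -/
def redC (φ : List (List Lit)) : CSat where
  K := (trips φ ++ trips φ).length
  sg o := ((lits φ).getD o (true, old [])).1
  nx o := nxt (same φ o) o

/-- R-OK -/
def T_ROK : Prop := ∀ φ : List (List Lit), (redC φ).Ok

/-- R-YES -/
def T_RYES : Prop := ∀ φ : List (List Lit), Satisfiable φ → ∃ τ : ℕ → Bool, (redC φ).Cl τ ∧
  ∀ o, o < 3 * (redC φ).K → τ ((redC φ).nx o) = τ o

/-- R-NO -/
def T_RNO : Prop := ∀ (φ : List (List Lit)) (τ : ℕ → Bool), (redC φ).Cl τ →
  (∀ o, o < 3 * (redC φ).K → τ o = true → τ ((redC φ).nx o) = true) → Satisfiable φ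

/-- R-PRINT: the reduction is computable in polynomial time -/
def T_PRINT : Prop := ∀ N : ℕ, Nonempty (Turing.TM2ComputableInPolyTime encCNF encInst
  (fun φ : List (List Lit) => (⟨_, theGraph (redC φ) N, 2⟩ : GraphInst)))

/-- R-ENC: the encoding of the instances is injective -/
def T_ENC : Prop := Function.Injective encInst

end Pool.Agent.ObsNum
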