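import Pool.Agent.SLN.Statement
import Pool.Agent.ObsNum.ENC

set_option autoImplicit false

/-!
# The decision problem in the main theorem
-/

namespace Pool.Agent.ObsNum

open Pool.Agent.PAH (Plane det3 DecisionProblem PolyReduces)

/-- The decision problem OBSTACLE NUMBER for the class `𝒪` of obstacles: given a graph and a
number `k`, is there an obstacle representation with at most `k` obstacles? -/
noncomputable def obstacleNumber (𝒪 : Set (Set Plane)) : DecisionProblem where
  Inst := GraphInst
  Alphabet := SLN.Sym
  finite := SLN.Sym.finite
  enc := encInst
  enc_inj := tENC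
  Yes := fun q => HasObstacleRep 𝒪 q.2.1 q.2.2

end Pool.Agent.ObsNum
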