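import Pool.Agent.ObsNum.Defs

set_option autoImplicit false

/-!
# The graphs of the reduction
-/

namespace Pool.Agent.ObsNum

open Pool.Agent.SLN (Lit)

/-! ## Co-bipartite graphs of set systems -/

/-- the list of vertices for a list of elements and a list of blocks: the pair of false and [a] for
an element a (first clique), the pair of true and b for a block b (second clique) -/
def verts {α : Type} (els : List α) (blocks : List (List α)) : List (Bool × List α) :=
  els.map (fun a => (false, [a])) ++ blocks.map (fun b => (true, b))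

/-- vertices in different cliques are adjacent iff the lists are disjoint -/
def Apart {α : Type} (u v : Bool × List α) : Prop := u.1 ≠ v.1 → ∀ a ∈ u.2, a ∉ v.2

/-- the co-bipartite graph of a set system -/
def coGraph {α : Type} (els : List α) (blocks : List (List α)) :
    SimpleGraph (Fin (verts els blocks).length) where
  Adj i j := i ≠ j ∧ Apart ((verts els blocks).get i) ((verts els blocks).get j)
  symm := ⟨fun _ _ h => ⟨h.1.symm, fun hne a ha hb => h.2 hne.symm a hb ha⟩⟩
  loopless := ⟨fun _ h => h.1 rfl⟩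

/-! ## The elements and the blocks -/

/-- The elements; `c` is the number of the copy, `o` an occurrence of a literal (`o = 3 j + t` is
position `t` of clause `j`), `j` a clause, `i` the number of a guard, `f` the number of a
reference. -/
inductive El
  /-- the variable of the occurrence `o` -/
  | x (c o : ℕ)
  /-- the `j`-th clause -/
  | e3 (c j : ℕ)
  /-- the implication from (the variable of) `o` to the next occurrence -/
  | e2 (c o : ℕ)
  /-- the two literals of the variable of `o` -/
  | lit (c o : ℕ) (s : Bool)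
  /-- guards of `x c o` (three), `e3 c j` (two), `e2 c o` (three) -/
  | gx (c o i : ℕ)
  | g3 (c j i : ℕ)
  | g2 (c o i : ℕ)
  /-- references of the guards (nine for each guard) -/
  | rx (c o i f : ℕ)
  | r3 (c j i f : ℕ)
  | r2 (c o i f : ℕ)
  deriving DecidableEq

/-- the number of the copy -/
def El.copy : El → ℕ
  | .x c _ => c
  | .e3 c _ => c
  | .e2 c _ => c
  | .lit c _ _ => c
  | .gx c _ _ => c
  | .g3 c _ _ => c
  | .g2 c _ _ => c
  | .rx c _ _ _ => c
  | .r3 c _ _ _ => c
  | .r2 c _ _ _ => c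

/-- A cyclic 3SAT instance: `K` clauses; `3 K` occurrences of literals, each with its own
variable; the sign `sg o` of the literal; the variables of `o` and `nx o` have to be equal. -/
structure CSat where
  K : ℕ
  sg : ℕ → Bool
  nx : ℕ → ℕ

/-- `nx` permutes the occurrences and has no fixed point -/
structure CSat.Ok (Φ : CSat) : Prop where
  lt : ∀ o, o < 3 * Φ.K → Φ.nx o < 3 * Φ.K
  inj : ∀ o o', o < 3 * Φ.K → o' < 3 * Φ.K → Φ.nx o = Φ.nx o' → o = o'
  ne : ∀ o, o < 3 * Φ.K → Φ.nx o ≠ o

/-- every clause contains a true literal -/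
def CSat.Cl (Φ : CSat) (τ : ℕ → Bool) : Prop :=
  ∀ j, j < Φ.K → ∃ t, t < 3 ∧ τ (3 * j + t) = Φ.sg (3 * j + t)

/-- the three classes of elements: literals, guards, references -/
def cls (Φ : CSat) (N : ℕ) : ℕ → List El
  | 0 => (List.range N).flatMap fun c => (List.range (3 * Φ.K)).flatMap fun o =>
      [El.lit c o true, El.lit c o false]
  | 1 => (List.range N).flatMap fun c =>
      ((List.range (3 * Φ.K)).flatMap fun o => (List.range 3).flatMap fun i =>
        [El.gx c o i, El.g2 c o i]) ++
      (List.range Φ.K).flatMap fun j => (List.range 2).map fun i => El.g3 c j i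
  | _ => (List.range N).flatMap fun c => (List.range 9).flatMap fun f =>
      ((List.range (3 * Φ.K)).flatMap fun o => (List.range 3).flatMap fun i =>
        [El.rx c o i f, El.r2 c o i f]) ++
      (List.range Φ.K).flatMap fun j => (List.range 2).map fun i => El.r3 c j i f

/-- the elements -/
def els (Φ : CSat) (N : ℕ) : List El :=
  ((List.range N).flatMap fun c =>
    ((List.range (3 * Φ.K)).flatMap fun o => [El.x c o, El.e2 c o]) ++
    (List.range Φ.K).map fun j => El.e3 c j) ++
  cls Φ N 0 ++ cls Φ N 1 ++ cls Φ N 2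

/-- the blocks `{s, s'}` of a class -/
def qblocks (l : List El) : List (List El) :=
  l.flatMap fun s => (l.filter fun s' => decide (s' ≠ s)).map fun s' => [s, s']

/-- the guard blocks -/
def gblocks (Φ : CSat) (N : ℕ) : List (List El) :=
  (List.range N).flatMap fun c => (List.range 9).flatMap fun f =>
    ((List.range (3 * Φ.K)).flatMap fun o => (List.range 3).flatMap fun i =>
      [[El.x c o, El.gx c o i, El.rx c o i f], [El.e2 c o, El.g2 c o i, El.r2 c o i f]]) ++
    (List.range Φ.K).flatMap fun j => (List.range 2).map fun i =>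
      [El.e3 c j, El.g3 c j i, El.r3 c j i f]

/-- the clause blocks -/
def cblocks (Φ : CSat) (N : ℕ) : List (List El) :=
  (List.range N).flatMap fun c =>
    ((List.range Φ.K).flatMap fun j => (List.range 3).map fun t =>
      [El.x c (3 * j + t), El.lit c (3 * j + t) (Φ.sg (3 * j + t)), El.e3 c j]) ++
    (List.range (3 * Φ.K)).flatMap fun o =>
      [[El.x c o, El.lit c o false, El.e2 c o],
        [El.x c (Φ.nx o), El.lit c (Φ.nx o) true, El.e2 c o]]

/-- all blocks -/
def blocks (Φ : CSat) (N : ℕ) : List (List El) :=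
  qblocks (cls Φ N 0) ++ qblocks (cls Φ N 1) ++ qblocks (cls Φ N 2) ++ gblocks Φ N ++ cblocks Φ N

/-- the graph of the reduction -/
def theGraph (Φ : CSat) (N : ℕ) : SimpleGraph (Fin (verts (els Φ N) (blocks Φ N)).length) :=
  coGraph (els Φ N) (blocks Φ N)

/-! ## The membership lemmas -/

/-- the elements of the classes -/
inductive InCls (Φ : CSat) (N : ℕ) : ℕ → El → Prop
  | lit {c o : ℕ} {s : Bool} (hc : c < N) (ho : o < 3 * Φ.K) : InCls Φ N 0 (El.lit c o s)
  | gx {c o i : ℕ} (hc : c < N) (ho : o < 3 * Φ.K) (hi : i < 3) : InCls Φ N 1 (El.gx c o i)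
  | g2 {c o i : ℕ} (hc : c < N) (ho : o < 3 * Φ.K) (hi : i < 3) : InCls Φ N 1 (El.g2 c o i)
  | g3 {c j i : ℕ} (hc : c < N) (hj : j < Φ.K) (hi : i < 2) : InCls Φ N 1 (El.g3 c j i)
  | rx {c o i f : ℕ} (hc : c < N) (ho : o < 3 * Φ.K) (hi : i < 3) (hf : f < 9) :
      InCls Φ N 2 (El.rx c o i f)
  | r2 {c o i f : ℕ} (hc : c < N) (ho : o < 3 * Φ.K) (hi : i < 3) (hf : f < 9) :
      InCls Φ N 2 (El.r2 c o i f)
  | r3 {c j i f : ℕ} (hc : c < N) (hj : j < Φ.K) (hi : i < 2) (hf : f < 9) :
      InCls Φ N 2 (El.r3 c j i f)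

/-- the elements -/
inductive InEls (Φ : CSat) (N : ℕ) : El → Prop
  | x {c o : ℕ} (hc : c < N) (ho : o < 3 * Φ.K) : InEls Φ N (El.x c o)
  | e2 {c o : ℕ} (hc : c < N) (ho : o < 3 * Φ.K) : InEls Φ N (El.e2 c o)
  | e3 {c j : ℕ} (hc : c < N) (hj : j < Φ.K) : InEls Φ N (El.e3 c j)
  | cls {q : ℕ} {a : El} (hq : q < 3) (h : InCls Φ N q a) : InEls Φ N a

/-- the blocks -/
inductive InBlocks (Φ : CSat) (N : ℕ) : List El → Prop
  | q {q : ℕ} {s s' : El} (hq : q < 3) (h : InCls Φ N q s) (h' : InCls Φ N q s') (hne : s' ≠ s) :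
      InBlocks Φ N [s, s']
  | gx {c o i f : ℕ} (hc : c < N) (ho : o < 3 * Φ.K) (hi : i < 3) (hf : f < 9) :
      InBlocks Φ N [El.x c o, El.gx c o i, El.rx c o i f]
  | g2 {c o i f : ℕ} (hc : c < N) (ho : o < 3 * Φ.K) (hi : i < 3) (hf : f < 9) :
      InBlocks Φ N [El.e2 c o, El.g2 c o i, El.r2 c o i f]
  | g3 {c j i f : ℕ} (hc : c < N) (hj : j < Φ.K) (hi : i < 2) (hf : f < 9) :
      InBlocks Φ N [El.e3 c j, El.g3 c j i, El.r3 c j i f]
  | c3 {c j t : ℕ} (hc : c < N) (hj : j < Φ.K) (ht : t < 3) :
      InBlocks Φ N [El.x c (3 * j + t), El.lit c (3 * j + t) (Φ.sg (3 * j + t)), El.e3 c j]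
  | cn {c o : ℕ} (hc : c < N) (ho : o < 3 * Φ.K) :
      InBlocks Φ N [El.x c o, El.lit c o false, El.e2 c o]
  | cp {c o : ℕ} (hc : c < N) (ho : o < 3 * Φ.K) :
      InBlocks Φ N [El.x c (Φ.nx o), El.lit c (Φ.nx o) true, El.e2 c o]

theorem mem_cls {Φ : CSat} {N q : ℕ} (hq : q < 3) (a : El) : a ∈ cls Φ N q ↔ InCls Φ N q a := by
  constructor
  · intro h
    interval_cases q
    · simp only [cls, List.mem_flatMap, List.mem_range, List.mem_cons, List.not_mem_nil,
        or_false] at h
      obtain ⟨c, hc, o, ho, h⟩ := h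
      rcases h with rfl | rfl <;> exact .lit hc ho
    · simp only [cls, List.mem_flatMap, List.mem_range, List.mem_append, List.mem_map,
        List.mem_cons, List.not_mem_nil, or_false] at h
      obtain ⟨c, hc, ⟨o, ho, i, hi, h⟩ | ⟨j, hj, i, hi, rfl⟩⟩ := h
      · rcases h with rfl | rfl
        · exact .gx hc ho hi
        · exact .g2 hc ho hi
      · exact .g3 hc hj hi
    · simp only [cls, List.mem_flatMap, List.mem_range, List.mem_append, List.mem_map,
        List.mem_cons, List.not_mem_nil, or_false] at h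
      obtain ⟨c, hc, f, hf, ⟨o, ho, i, hi, h⟩ | ⟨j, hj, i, hi, rfl⟩⟩ := h
      · rcases h with rfl | rfl
        · exact .rx hc ho hi hf
        · exact .r2 hc ho hi hf
      · exact .r3 hc hj hi hf
  · intro h
    cases h with
    | @lit c o s hc ho =>
      simp only [cls, List.mem_flatMap, List.mem_range]
      refine ⟨_, hc, _, ho, ?_⟩
      cases s <;> simp
    | gx hc ho hi =>
      simp only [cls, List.mem_flatMap, List.mem_range, List.mem_append]
      exact ⟨_, hc, .inl ⟨_, ho, _, hi, by simp⟩⟩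
    | g2 hc ho hi =>
      simp only [cls, List.mem_flatMap, List.mem_range, List.mem_append]
      exact ⟨_, hc, .inl ⟨_, ho, _, hi, by simp⟩⟩
    | g3 hc hj hi =>
      simp only [cls, List.mem_flatMap, List.mem_range, List.mem_append, List.mem_map]
      exact ⟨_, hc, .inr ⟨_, hj, _, hi, rfl⟩⟩
    | rx hc ho hi hf =>
      simp only [cls, List.mem_flatMap, List.mem_range, List.mem_append]
      exact ⟨_, hc, _, hf, .inl ⟨_, ho, _, hi, by simp⟩⟩
    | r2 hc ho hi hf =>
      simp only [cls, List.mem_flatMap, List.mem_range, List.mem_append]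
      exact ⟨_, hc, _, hf, .inl ⟨_, ho, _, hi, by simp⟩⟩
    | r3 hc hj hi hf =>
      simp only [cls, List.mem_flatMap, List.mem_range, List.mem_append, List.mem_map]
      exact ⟨_, hc, _, hf, .inr ⟨_, hj, _, hi, rfl⟩⟩

theorem mem_els {Φ : CSat} {N : ℕ} (a : El) : a ∈ els Φ N ↔ InEls Φ N a := by
  constructor
  · intro h
    simp only [els, List.mem_append, List.mem_flatMap, List.mem_range, List.mem_map,
      List.mem_cons, List.not_mem_nil, or_false] at h
    rcases h with ((h | h) | h) | h
    · obtain ⟨c, hc, ⟨o, ho, h⟩ | ⟨j, hj, rfl⟩⟩ := h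
      · rcases h with rfl | rfl
        · exact .x hc ho
        · exact .e2 hc ho
      · exact .e3 hc hj
    · exact .cls (q := 0) (by norm_num) ((mem_cls (by norm_num) a).1 h)
    · exact .cls (q := 1) (by norm_num) ((mem_cls (by norm_num) a).1 h)
    · exact .cls (q := 2) (by norm_num) ((mem_cls (by norm_num) a).1 h)
  · intro h
    simp only [els, List.mem_append, List.mem_flatMap, List.mem_range, List.mem_map]
    cases h with
    | x hc ho => exact .inl (.inl (.inl ⟨_, hc, .inl ⟨_, ho, by simp⟩⟩))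
    | e2 hc ho => exact .inl (.inl (.inl ⟨_, hc, .inl ⟨_, ho, by simp⟩⟩))
    | e3 hc hj => exact .inl (.inl (.inl ⟨_, hc, .inr ⟨_, hj, rfl⟩⟩))
    | @cls q _ hq h =>
      have h' := (mem_cls hq a).2 h
      interval_cases q
      · exact .inl (.inl (.inr h'))
      · exact .inl (.inr h')
      · exact .inr h'

theorem mem_qblocks {l : List El} (b : List El) :
    b ∈ qblocks l ↔ ∃ s ∈ l, ∃ s' ∈ l, s' ≠ s ∧ b = [s, s'] := by
  simp only [qblocks, List.mem_flatMap, List.mem_map, List.mem_filter, decide_eq_true_eq]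
  constructor
  · rintro ⟨s, hs, s', ⟨hs', hne⟩, rfl⟩
    exact ⟨s, hs, s', hs', hne, rfl⟩
  · rintro ⟨s, hs, s', hs', hne, rfl⟩
    exact ⟨s, hs, s', ⟨hs', hne⟩, rfl⟩

theorem mem_blocks {Φ : CSat} {N : ℕ} (b : List El) : b ∈ blocks Φ N ↔ InBlocks Φ N b := by
  constructor
  · intro h
    simp only [blocks, List.mem_append, mem_qblocks] at h
    rcases h with (((h | h) | h) | h) | h
    · obtain ⟨s, hs, s', hs', hne, rfl⟩ := h
      exact .q (q := 0) (by norm_num) ((mem_cls (by norm_num) s).1 hs)
        ((mem_cls (by norm_num) s').1 hs') hne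
    · obtain ⟨s, hs, s', hs', hne, rfl⟩ := h
      exact .q (q := 1) (by norm_num) ((mem_cls (by norm_num) s).1 hs)
        ((mem_cls (by norm_num) s').1 hs') hne
    · obtain ⟨s, hs, s', hs', hne, rfl⟩ := h
      exact .q (q := 2) (by norm_num) ((mem_cls (by norm_num) s).1 hs)
        ((mem_cls (by norm_num) s').1 hs') hne
    · simp only [gblocks, List.mem_flatMap, List.mem_range, List.mem_append, List.mem_map,
        List.mem_cons, List.not_mem_nil, or_false] at h
      obtain ⟨c, hc, f, hf, ⟨o, ho, i, hi, h⟩ | ⟨j, hj, i, hi, rfl⟩⟩ := h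
      · rcases h with rfl | rfl
        · exact .gx hc ho hi hf
        · exact .g2 hc ho hi hf
      · exact .g3 hc hj hi hf
    · simp only [cblocks, List.mem_flatMap, List.mem_range, List.mem_append, List.mem_map,
        List.mem_cons, List.not_mem_nil, or_false] at h
      obtain ⟨c, hc, ⟨j, hj, t, ht, rfl⟩ | ⟨o, ho, h⟩⟩ := h
      · exact .c3 hc hj ht
      · rcases h with rfl | rfl
        · exact .cn hc ho
        · exact .cp hc ho
  · intro h
    simp only [blocks, List.mem_append, mem_qblocks]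
    cases h with
    | @q q s s' hq h h' hne =>
      have h1 := (mem_cls hq s).2 h
      have h2 := (mem_cls hq s').2 h'
      interval_cases q
      · exact .inl (.inl (.inl (.inl ⟨s, h1, s', h2, hne, rfl⟩)))
      · exact .inl (.inl (.inl (.inr ⟨s, h1, s', h2, hne, rfl⟩)))
      · exact .inl (.inl (.inr ⟨s, h1, s', h2, hne, rfl⟩))
    | gx hc ho hi hf =>
      refine .inl (.inr ?_)
      simp only [gblocks, List.mem_flatMap, List.mem_range, List.mem_append]
      exact ⟨_, hc, _, hf, .inl ⟨_, ho, _, hi, by simp⟩⟩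
    | g2 hc ho hi hf =>
      refine .inl (.inr ?_)
      simp only [gblocks, List.mem_flatMap, List.mem_range, List.mem_append]
      exact ⟨_, hc, _, hf, .inl ⟨_, ho, _, hi, by simp⟩⟩
    | g3 hc hj hi hf =>
      refine .inl (.inr ?_)
      simp only [gblocks, List.mem_flatMap, List.mem_range, List.mem_append, List.mem_map]
      exact ⟨_, hc, _, hf, .inr ⟨_, hj, _, hi, rfl⟩⟩
    | c3 hc hj ht =>
      refine .inr ?_
      simp only [cblocks, List.mem_flatMap, List.mem_range, List.mem_append, List.mem_map]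
      exact ⟨_, hc, .inl ⟨_, hj, _, ht, rfl⟩⟩
    | cn hc ho =>
      refine .inr ?_
      simp only [cblocks, List.mem_flatMap, List.mem_range, List.mem_append]
      exact ⟨_, hc, .inr ⟨_, ho, by simp⟩⟩
    | cp hc ho =>
      refine .inr ?_
      simp only [cblocks, List.mem_flatMap, List.mem_range, List.mem_append]
      exact ⟨_, hc, .inr ⟨_, ho, by simp⟩⟩

end Pool.Agent.ObsNum
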