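import Pool.Agent.ObsNum.Red

set_option autoImplicit false

/-!
# Exact targets (see Blueprint.lean.txt for the proofs)
-/

namespace Pool.Agent.ObsNum

open Pool.Agent.PAH (Plane det3)

/-! ## Plane geometry -/

/-- QL -/
def T_QL : Prop := ∀ (a b l r : Plane) (O : Set Plane), IsPreconnected O →
  0 < det3 a b l → det3 a b r < 0 → ¬ Disjoint (segment ℝ a b) O →
  Disjoint (segment ℝ a l) O → Disjoint (segment ℝ b l) O →
  Disjoint (segment ℝ a r) O → Disjoint (segment ℝ b r) O →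
  ∀ x ∈ O, det3 a b r < det3 a b x ∧ det3 a b x < det3 a b l

/-- SEG -/
def T_SEG : Prop := ∀ (v w : Plane) (O : Set Plane), IsPreconnected O →
  Disjoint (segment ℝ v w) O → v ∉ convexHull ℝ O → w ∉ convexHull ℝ O →
  Disjoint (segment ℝ v w) (convexHull ℝ O)

/-- CL: the forbidden configuration for one convex obstacle -/
def T_CL : Prop := ∀ (O : Set Plane), Convex ℝ O → ∀ (z : Plane) (u b g : Fin 3 → Plane),
  (∀ k, ¬ Disjoint (segment ℝ z (b k)) O) → (∀ k, ¬ Disjoint (segment ℝ (u k) (b k)) O) →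
  (∀ k, ¬ Disjoint (segment ℝ (u k) (g k)) O) → (∀ k, Disjoint (segment ℝ z (g k)) O) →
  (∀ k l, k ≠ l → Disjoint (segment ℝ (u k) (b l)) O) → False

/-- NS: five points `s i` and points `c i j`; all lines through `s i` and `c i j` have the other
points (which are not related to `i`, `j`) on one side -/
def T_NS : Prop := ∀ (s : Fin 5 → Plane) (c : Fin 5 → Fin 5 → Plane), (∀ i j, c i j = c j i) →
  (∀ i j k, i ≠ j → i ≠ k → j ≠ k → det3 (s i) (s j) (s k) ≠ 0) →
  (∀ i j, i ≠ j → det3 (s i) (s j) (c i j) ≠ 0) →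
  (∀ i j, i ≠ j → ∃ σ : ℝ, (∀ k, k ≠ i → k ≠ j → 0 < σ * det3 (s i) (c i j) (s k)) ∧
    ∀ k l, k ≠ l → k ≠ i → k ≠ j → l ≠ i → l ≠ j → 0 < σ * det3 (s i) (c i j) (c k l)) → False

/-- IIB -/
def T_IIB : Prop := ∀ (C : Set Plane), Convex ℝ C → ∀ (i j k cj ck : Plane),
  i ∉ C → cj ∉ C → ck ∉ C →
  ¬ Disjoint (segment ℝ i cj) C → ¬ Disjoint (segment ℝ i ck) C →
  Disjoint (segment ℝ i j) C → Disjoint (segment ℝ i k) C →
  (∃ σ : ℝ, 0 < σ * det3 cj j i ∧ 0 < σ * det3 cj j k ∧ 0 < σ * det3 cj j ck) →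
  (∃ σ : ℝ, 0 < σ * det3 ck k i ∧ 0 < σ * det3 ck k j ∧ 0 < σ * det3 ck k cj) →
  det3 i cj ck ≠ 0 → det3 i j ck ≠ 0 → det3 i k cj ≠ 0 →
  0 < det3 i cj j * det3 i ck k → False

/-- RAM: Ramsey's theorem for pairs -/
def T_RAM : Prop := ∀ (κ : Type) [Finite κ] (n : ℕ), ∃ M : ℕ, ∀ col : Fin M → Fin M → κ,
  ∃ g : Fin n → Fin M, StrictMono g ∧ ∃ k, ∀ i j, i < j → col (g i) (g j) = k

/-! ## Configurations -/

/-- different sides: not incident; same side (or equal): no condition -/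
def CAdj {α β : Type} (inc : α → β → Prop) : α ⊕ β → α ⊕ β → Prop
  | .inl a, .inr b => ¬ inc a b
  | .inr b, .inl a => ¬ inc a b
  | _, _ => True

/-- a representation with two connected obstacles -/
structure Cfg (α β : Type) where
  p : α ⊕ β → Plane
  gp : ∀ u v w, u ≠ v → u ≠ w → v ≠ w → det3 (p u) (p v) (p w) ≠ 0
  O : Fin 2 → Set Plane
  conn : ∀ i, IsPreconnected (O i)
  inc : α → β → Prop
  miss : ∀ i u v, CAdj inc u v → Disjoint (segment ℝ (p u) (p v)) (O i)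
  hit : ∀ a b, inc a b → ∃ i, ¬ Disjoint (segment ℝ (p (.inl a)) (p (.inr b))) (O i)

/-- the obstacle `i` meets the segment of `a` and `b` -/
def Cfg.T {α β : Type} (C : Cfg α β) (i : Fin 2) (a : α) (b : β) : Prop :=
  ¬ Disjoint (segment ℝ (C.p (.inl a)) (C.p (.inr b))) (C.O i)

/-- the obstacle `i` misses the segment of `u` and `v` -/
def Cfg.See {α β : Type} (C : Cfg α β) (i : Fin 2) (u v : α ⊕ β) : Prop :=
  Disjoint (segment ℝ (C.p u) (C.p v)) (C.O i)

/-- straddled pairs: there are vertices `v`, `w` on both sides of the line which see `a` and `b` -/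
def Cfg.Str {α β : Type} (C : Cfg α β) (i : Fin 2) (a : α) (b : β) : Prop :=
  C.T i a b ∧ ∃ v w : α ⊕ β, C.See i v (.inl a) ∧ C.See i v (.inr b) ∧
    C.See i w (.inl a) ∧ C.See i w (.inr b) ∧
    0 < det3 (C.p (.inl a)) (C.p (.inr b)) (C.p v) ∧
    det3 (C.p (.inl a)) (C.p (.inr b)) (C.p w) < 0

/-- elements `s j` and blocks `c j k` incident exactly with `s j`, `s k` -/
structure Cfg.QC {α β : Type} (C : Cfg α β) {M : ℕ} (s : Fin M → α) (c : Fin M → Fin M → β) :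
    Prop where
  inj : Function.Injective s
  symm : ∀ j k, c j k = c k j
  inc : ∀ a j k, j ≠ k → (C.inc a (c j k) ↔ a = s j ∨ a = s k)

/-- the forbidden configuration does not occur -/
def CLfree {α β : Type} (R : α → β → Prop) : Prop := ∀ (z : α) (u : Fin 3 → α) (b g : Fin 3 → β),
  (∀ k, R z (b k)) → (∀ k, R (u k) (b k)) → (∀ k, R (u k) (g k)) → (∀ k, ¬ R z (g k)) →
  (∀ k l, k ≠ l → ¬ R (u k) (b l)) → False

/-- OUT -/
def T_OUT : Prop := ∀ (α β : Type) (C : Cfg α β) (i : Fin 2) (a : α) (b : β), C.Str i a b →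
  ∀ v, C.See i v (.inl a) → C.See i v (.inr b) → C.p v ∉ convexHull ℝ (C.O i)

/-- CLS: case (Ia).  Seven elements, obstacle `i` meets all segments to the blocks `c j k`; then no
pair inside is straddled -/
def T_IA : Prop := ∀ (α β : Type) (C : Cfg α β) (s : Fin 7 → α) (c : Fin 7 → Fin 7 → β),
  C.QC s c → ∀ i, (∀ j k, j ≠ k → C.T i (s j) (c j k)) → ∀ j k, j ≠ k → ¬ C.Str i (s j) (c j k)

/-- IB: it is impossible that for each pair `j ≠ k` one of the obstacles meets the segment of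
`s j` and `c j k` and this pair is not straddled for this obstacle -/
def T_IB : Prop := ∀ (α β : Type) (C : Cfg α β) (s : Fin 7 → α) (c : Fin 7 → Fin 7 → β),
  C.QC s c → (∀ j k, j ≠ k → ∃ i, C.T i (s j) (c j k) ∧ ¬ C.Str i (s j) (c j k)) → False

/-- II: the obstacle `i` meets the segments to the larger element, the other obstacle `i'` those to
the smaller element; no pair is straddled for `i`, some pair is straddled for `i'`.  The order is
given by an injective function `r`. -/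
def T_II : Prop := ∀ (α β : Type) (C : Cfg α β) (s : Fin 7 → α) (c : Fin 7 → Fin 7 → β),
  C.QC s c → ∀ (i i' : Fin 2) (r : Fin 7 → ℤ), Function.Injective r →
  (∀ j k, r j < r k → ¬ C.T i (s j) (c j k) ∧ C.T i (s k) (c j k) ∧
    C.T i' (s j) (c j k) ∧ ¬ C.T i' (s k) (c j k)) →
  (∀ j k, j ≠ k → ¬ C.Str i (s j) (c j k)) → (∃ j k, j ≠ k ∧ C.Str i' (s j) (c j k)) → False

/-- W: every large Q-clique contains a straddled pair, for both obstacles -/
def T_W : Prop := ∃ M : ℕ, 2 ≤ M ∧ ∀ (α β : Type) (C : Cfg α β) (s : Fin M → α)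
  (c : Fin M → Fin M → β), C.QC s c → ∀ i, ∃ j k, j ≠ k ∧ C.Str i (s j) (c j k)

/-- the hypothesis of ALL: three Q-cliques, each vertex is not incident with one of them -/
def Cfg.Three {α β : Type} (C : Cfg α β) (M : ℕ) : Prop :=
  ∃ (s : Fin 3 → Fin M → α) (c : Fin 3 → Fin M → Fin M → β), (∀ q, C.QC (s q) (c q)) ∧
    ∀ v : α ⊕ β, ∃ q, (∀ j, CAdj C.inc v (.inl (s q j))) ∧
      ∀ j k, j ≠ k → CAdj C.inc v (.inr (c q j k))

/-- ALL -/
def T_ALL : Prop := ∃ M : ℕ, ∀ (α β : Type) (C : Cfg α β), C.Three M → ∀ i, CLfree (C.T i)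

/-- REP: from obstacle representations of the graph to configurations -/
def T_REP : Prop := ∀ (α : Type) (els : List α) (blocks : List (List α)) (𝒪 : Set (Set Plane)),
  (∀ P ∈ 𝒪, IsPreconnected P) → HasObstacleRep 𝒪 (coGraph els blocks) 2 →
  ∃ C : Cfg {a // a ∈ els} {b // b ∈ blocks}, ∀ a b, C.inc a b ↔ a.1 ∈ b.1

/-- GEO: the three Q-cliques of the graph (copies `0, ..., M-1` of one literal, guard,
reference) -/
def T_GEO : Prop := ∀ (Φ : CSat) (N M : ℕ), 0 < Φ.K → M ≤ N →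
  ∀ C : Cfg {a // a ∈ els Φ N} {b // b ∈ blocks Φ N}, (∀ a b, C.inc a b ↔ a.1 ∈ b.1) → C.Three M

/-! ## Soundness: combinatorics -/

/-- FIVE: no element has five partners -/
def T_FIVE : Prop := ∀ (α β : Type) (inc : α → β → Prop) (T : Fin 2 → α → β → Prop),
  (∀ i a b, T i a b → inc a b) → (∀ i, CLfree (T i)) →
  ∀ (z : α) (u : Fin 5 → α) (b : Fin 5 → β), (∀ k, ∃ i, T i z (b k) ∧ T i (u k) (b k)) →
    (∀ k l, k ≠ l → ¬ inc (u k) (b l)) → (∀ k i, ∃ g, T i (u k) g ∧ ¬ inc z g) → False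

/-- the relations `T i` for the graph -/
structure Touch (Φ : CSat) (N : ℕ) (T : Fin 2 → El → List El → Prop) : Prop where
  inc : ∀ i a b, T i a b → a ∈ b
  cover : ∀ a b, a ∈ els Φ N → b ∈ blocks Φ N → a ∈ b → ∃ i, T i a b
  cl : ∀ i, CLfree (T i)

/-- all elements of the copy `c` in the three classes are full -/
def Good (Φ : CSat) (N : ℕ) (T : Fin 2 → El → List El → Prop) (c : ℕ) : Prop :=
  ∀ q, q < 3 → ∀ s, InCls Φ N q s → s.copy = c → ∀ i, ∃ b, T i s b ∧ ∀ a ∈ b, InCls Φ N q a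

/-- FULL: there is a good copy -/
def T_FULL : Prop := ∀ (Φ : CSat) (N : ℕ) (T : Fin 2 → El → List El → Prop), 25 ≤ N →
  Touch Φ N T → ∃ c, c < N ∧ Good Φ N T c

/-- `z` and `u` are linked by the block `b` -/
def Link (T : Fin 2 → El → List El → Prop) (z u : El) (b : List El) : Prop :=
  ∃ i, T i z b ∧ T i u b

/-- GUARD: each guard is linked to its element by one of its blocks -/
def T_GUARD : Prop := ∀ (Φ : CSat) (N : ℕ) (T : Fin 2 → El → List El → Prop) (c : ℕ), c < N →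
  Touch Φ N T → Good Φ N T c →
  (∀ o i, o < 3 * Φ.K → i < 3 → ∃ f, f < 9 ∧
    Link T (El.x c o) (El.gx c o i) [El.x c o, El.gx c o i, El.rx c o i f]) ∧
  (∀ o i, o < 3 * Φ.K → i < 3 → ∃ f, f < 9 ∧
    Link T (El.e2 c o) (El.g2 c o i) [El.e2 c o, El.g2 c o i, El.r2 c o i f]) ∧
  (∀ j i, j < Φ.K → i < 2 → ∃ f, f < 9 ∧
    Link T (El.e3 c j) (El.g3 c j i) [El.e3 c j, El.g3 c j i, El.r3 c j i f])

/-- COMB: soundness -/
def T_COMB : Prop := ∀ (Φ : CSat) (N : ℕ) (T : Fin 2 → El → List El → Prop), Φ.Ok → 25 ≤ N →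
  Touch Φ N T → ∃ τ : ℕ → Bool, Φ.Cl τ ∧ ∀ o, o < 3 * Φ.K → τ o = true → τ (Φ.nx o) = true

/-! ## Completeness -/

/-- non-degenerate triangles -/
def IsTriangle (P : Set Plane) : Prop :=
  ∃ a b c : Plane, det3 a b c ≠ 0 ∧ P = convexHull ℝ {a, b, c}

/-- coarse length -/
def mlen {V : Type} (P : Fin 2 → V → ℤ) (v : V) : ℤ := |P 0 v - P 1 v|

/-- An integer layout of a set system: coarse coordinates `P`, fine coordinates `s`. -/
structure Layout {α : Type} (els : List α) (blocks : List (List α)) (P s : Fin 2 → α → ℤ)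
    (Q t : Fin 2 → List α → ℤ) : Prop where
  el : ∀ a ∈ els, P 0 a < P 1 a ∨ (P 0 a = P 1 a ∧ s 0 a < s 1 a)
  bl : ∀ b ∈ blocks, Q 1 b < Q 0 b ∨ (Q 1 b = Q 0 b ∧ t 1 b < t 0 b)
  far : ∀ a ∈ els, ∀ b ∈ blocks, a ∉ b → ∀ i, P i a = Q i b →
    50 * (mlen P a + mlen Q b) < |s i a - t i b|
  near : ∀ a ∈ els, ∀ b ∈ blocks, a ∈ b → ∃ i, P i a = Q i b ∧
    (s i a = t i b ∨ |s i a - t i b| < 50 * (mlen P a + mlen Q b))

/-- The height at which the line through `u` and `v` meets the `y`-axis. -/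
noncomputable def height (u v : Plane) : ℝ := (u.2 * v.1 - v.2 * u.1) / (v.1 - u.1)

/-- positions on both sides of the `y`-axis, `L` is the left side; adjacent vertices on different
sides see each other past the two segments `{0} × [±1-ε, ±1+ε]` -/
structure Past {V : Type} (G : SimpleGraph V) (L : V → Prop) (ε : ℝ) (p : V → Plane) : Prop where
  left : ∀ v, L v → (p v).1 < 0
  right : ∀ v, ¬ L v → 0 < (p v).1
  free : ∀ u v, L u → ¬ L v → G.Adj u v → ε < |height (p u) (p v) - 1| ∧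
    ε < |height (p u) (p v) + 1|
  blocked : ∀ u v, L u → ¬ L v → ¬ G.Adj u v → |height (p u) (p v) - 1| < ε ∨
    |height (p u) (p v) + 1| < ε

/-- LTW: the layout of the graph -/
def T_LAY : Prop := ∀ (Φ : CSat) (N : ℕ) (τ : ℕ → Bool), Φ.Ok → Φ.Cl τ →
  (∀ o, o < 3 * Φ.K → τ (Φ.nx o) = τ o) →
  ∃ (P s : Fin 2 → El → ℤ) (Q t : Fin 2 → List El → ℤ), Layout (els Φ N) (blocks Φ N) P s Q t

/-- EPS: from integer layouts to positions -/
def T_EPS : Prop := ∀ (α : Type) (els : List α) (blocks : List (List α)) (P s : Fin 2 → α → ℤ)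
  (Q t : Fin 2 → List α → ℤ), Layout els blocks P s Q t →
  ∃ (ε : ℝ) (p : Fin (verts els blocks).length → Plane), 0 < ε ∧ ε < 1 ∧
    Past (coGraph els blocks) (fun i => ((verts els blocks).get i).1 = false) ε p

/-- PERT: general position -/
def T_PERT : Prop := ∀ (V : Type) [Finite V] (G : SimpleGraph V) (L : V → Prop) (ε : ℝ)
  (p : V → Plane), Past G L ε p → ∃ p' : V → Plane, Past G L ε p' ∧ Function.Injective p' ∧
    ∀ u v w : V, u ≠ v → u ≠ w → v ≠ w → det3 (p' u) (p' v) (p' w) ≠ 0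

/-- TRI: thin triangles as obstacles -/
def T_TRI : Prop := ∀ (V : Type) [Finite V] (G : SimpleGraph V) (L : V → Prop) (ε : ℝ)
  (p : V → Plane), 0 < ε → ε < 1 → (∀ u v, (L u ↔ L v) → u ≠ v → G.Adj u v) → Past G L ε p →
  Function.Injective p →
  (∀ u v w : V, u ≠ v → u ≠ w → v ≠ w → det3 (p u) (p v) (p w) ≠ 0) →
  HasObstacleRep {P | IsTriangle P} G 2

/-- YES: completeness -/
def T_YES : Prop := ∀ (Φ : CSat) (N : ℕ) (τ : ℕ → Bool), Φ.Ok → Φ.Cl τ →
  (∀ o, o < 3 * Φ.K → τ (Φ.nx o) = τ o) → HasObstacleRep {P | IsTriangle P} (theGraph Φ N) 2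

end Pool.Agent.ObsNum
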